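import Mathlib
import Pool.Agent.Lib.MP_2d59ee_ag.Top

set_option autoImplicit false

/-! Definitions for the analysis of `h(P,Q)` along a chain of levels. -/

namespace Pool.Agent.Lib.MP_2d59ee_ag

open Polynomial

/-- constants -/
noncomputable def cst : ℂ →+* LS[X] := (C : LS →+* LS[X]).comp (HahnSeries.C : ℂ →+* LS)

/-- `h ↦ h(P,Q)`; the outer variable of `h` is evaluated at `Q`, the inner one at `P` -/
noncomputable def ev (P Q : LS[X]) : (ℂ[X])[X] →+* LS[X] :=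
  eval₂RingHom (eval₂RingHom cst P) Q

/-- the corner of `H` (slopes slightly larger than `k`) is `ω (α, N)` -/
def Ray (N : ℕ) (α : ℤ) (k : ℚ) (H : LS[X]) (ω : ℚ) : Prop :=
  ∃ (A : ℤ) (i : ℕ), Corner H 1 A i k ∧ (A : ℚ) = ω * α ∧ (i : ℚ) = ω * N

/-- `H` commutes with `P` to leading order, with exponent `ω` (relative to `P = r^a`) -/
def Comm (P : LS[X]) (a d : ℕ) (H : LS[X]) (ω : ℚ) : Prop :=
  ∃ n : ℤ, LowB H (-n) ∧ lev (-n) H ≠ 0 ∧ (n : ℚ) = ω * d ∧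
    ∀ μ : ℂ, (a : ℚ) * (lev (-n) H).rootMultiplicity μ
      = ω * (lev (-(a * (d : ℤ))) P).rootMultiplicity μ

/-- `H` does not commute with `P` to leading order; `κ` is the exponent of `H_Q` -/
def FTy (P : LS[X]) (a d e : ℕ) (H : LS[X]) (κ : ℚ) : Prop :=
  ∃ n : ℤ, LowB H (-n) ∧ lev (-n) H ≠ 0 ∧ (n : ℚ) = (κ - a) * d + e ∧
    (∀ μ : ℂ, (lev (-(a * (d : ℤ))) P).IsRoot μ →
      (a : ℚ) * (lev (-n) H).rootMultiplicity μ
        = (κ - a) * (lev (-(a * (d : ℤ))) P).rootMultiplicity μ + a) ∧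
    ((a : ℚ) * (lev (-n) H).natDegree = (κ - a) * (lev (-(a * (d : ℤ))) P).natDegree + a ∨
      (a : ℚ) * d * (lev (-n) H).natDegree
        = ((κ - a) * d + e) * (lev (-(a * (d : ℤ))) P).natDegree)

/-- all derivatives in the `Q` variable have ray corners -/
def RayAll (P Q : LS[X]) (N : ℕ) (α : ℤ) (k : ℚ) (h : (ℂ[X])[X]) : Prop :=
  ∀ r : ℕ, derivative^[r] h = 0 ∨ ∃ ω, Ray N α k (ev P Q (derivative^[r] h)) ω

/-- the ambient divisor condition -/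
def Inv (P Q : LS[X]) (N : ℕ) (α : ℤ) (k : ℚ) (G : ℕ) : Prop :=
  ∀ h : (ℂ[X])[X], RayAll P Q N α k h → ∀ ω, Ray N α k (ev P Q h) ω → ∃ z : ℤ, ω * G = z

end Pool.Agent.Lib.MP_2d59ee_ag
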