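import Mathlib
import Pool.Agent.Lib.MP_2d59ee_ag.R.Defs

set_option autoImplicit false

/-! Row R1 (helper33): corner lemmas. -/

namespace Pool.Agent.Lib.MP_2d59ee_ag

open Polynomial

/-- `(β, M)` is the corner of `H` for slopes slightly larger than `k`. -/
structure Cor (H : LS[X]) (β : ℤ) (M : ℕ) (k : ℚ) : Prop where
  top : (H.coeff M).coeff (-β) ≠ 0
  low : ∀ j < M, ∀ n : ℤ, (H.coeff j).coeff n ≠ 0 → k * ((M : ℚ) - j) - β < n
  high : ∀ j, M ≤ j → ∀ n : ℤ, (H.coeff j).coeff n ≠ 0 → k * ((M : ℚ) - j) - β ≤ n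

/-- `(β, M)` is the corner of `H` for slopes slightly smaller than `K`. -/
structure CorL (H : LS[X]) (β : ℤ) (M : ℕ) (K : ℚ) : Prop where
  top : (H.coeff M).coeff (-β) ≠ 0
  low : ∀ j ≤ M, ∀ n : ℤ, (H.coeff j).coeff n ≠ 0 → K * ((M : ℚ) - j) - β ≤ n
  high : ∀ j, M < j → ∀ n : ℤ, (H.coeff j).coeff n ≠ 0 → K * ((M : ℚ) - j) - β < n

theorem Corner.cor {P : LS[X]} {c : ℕ} {α : ℤ} {N : ℕ} {k : ℚ} (h : Corner P c α N k) :
    Cor P (c * α) (c * N) k := by
  refine ⟨h.top, ?_, ?_⟩
  · intro j hj n hn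
    have := h.low j hj n hn
    push_cast; exact this
  · intro j hj n hn
    have := h.high j hj n hn
    push_cast; exact this

theorem Cor.corner {P : LS[X]} {α : ℤ} {N : ℕ} {k : ℚ} (h : Cor P α N k) :
    Corner P 1 α N k := by
  refine ⟨by simpa using h.top, ?_, ?_⟩
  · intro j hj n hn
    have := h.low j (by simpa using hj) n hn
    push_cast; simpa using this
  · intro j hj n hn
    have := h.high j (by simpa using hj) n hn
    push_cast; simpa using this

theorem Cor.ge {H : LS[X]} {β : ℤ} {M : ℕ} {k : ℚ} (h : Cor H β M k) (j : ℕ) (n : ℤ)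
    (hn : (H.coeff j).coeff n ≠ 0) : k * ((M : ℚ) - j) - β ≤ n := by
  rcases lt_or_ge j M with hj | hj
  · exact (h.low j hj n hn).le
  · exact h.high j hj n hn

theorem CorL.ge {H : LS[X]} {β : ℤ} {M : ℕ} {k : ℚ} (h : CorL H β M k) (j : ℕ) (n : ℤ)
    (hn : (H.coeff j).coeff n ≠ 0) : k * ((M : ℚ) - j) - β ≤ n := by
  rcases le_or_gt j M with hj | hj
  · exact h.low j hj n hn
  · exact (h.high j hj n hn).le

theorem Cor.ne_zero {H : LS[X]} {β : ℤ} {M : ℕ} {k : ℚ} (h : Cor H β M k) : H ≠ 0 := by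
  intro h0
  apply h.top
  rw [h0]; simp

theorem Cor.unique {H : LS[X]} {β β' : ℤ} {M M' : ℕ} {k : ℚ} (h : Cor H β M k)
    (h' : Cor H β' M' k) : β = β' ∧ M = M' := by
  have hM : M = M' := by
    rcases lt_trichotomy M M' with hlt | heq | hlt
    · have h1 := h'.low M hlt _ h.top
      have h2 := h.ge M' _ h'.top
      push_cast at h1 h2
      linarith
    · exact heq
    · have h1 := h.low M' hlt _ h'.top
      have h2 := h'.ge M _ h.top
      push_cast at h1 h2
      linarith
  subst hM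
  have h1 := h.ge M _ h'.top
  have h2 := h'.ge M _ h.top
  push_cast at h1 h2
  have h3 : (β : ℚ) = β' := by linarith
  exact ⟨by exact_mod_cast h3, rfl⟩

/-- existence of the corner -/
theorem exists_cor {H : LS[X]} (hH : H ≠ 0) (k : ℚ) : ∃ (β : ℤ) (M : ℕ), Cor H β M k := by
  classical
  -- minimal value of `order + k j`
  let f : ℕ → ℚ := fun j => ((H.coeff j).order : ℚ) + k * j
  have hne : H.support.Nonempty := by
    rw [nonempty_support_iff]; exact hH
  obtain ⟨j0, hj0, hmin⟩ := H.support.exists_min_image f hne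
  -- smallest index with this value
  let S := H.support.filter (fun j => f j = f j0)
  have hS : S.Nonempty := ⟨j0, Finset.mem_filter.2 ⟨hj0, rfl⟩⟩
  let M := S.min' hS
  have hM : M ∈ S := S.min'_mem hS
  have hM1 : M ∈ H.support := (Finset.mem_filter.1 hM).1
  have hM2 : f M = f j0 := (Finset.mem_filter.1 hM).2
  have hMne : H.coeff M ≠ 0 := mem_support_iff.1 hM1
  have hord : ∀ (j : ℕ) (n : ℤ), (H.coeff j).coeff n ≠ 0 → f j ≤ n + k * j := by
    intro j n hn
    have h2 : (H.coeff j).order ≤ n := HahnSeries.order_le_of_coeff_ne_zero hn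
    have h3 : ((H.coeff j).order : ℚ) ≤ n := by exact_mod_cast h2
    simp only [f]; linarith
  have hsup : ∀ (j : ℕ) (n : ℤ), (H.coeff j).coeff n ≠ 0 → j ∈ H.support := by
    intro j n hn
    rw [mem_support_iff]
    exact HahnSeries.ne_zero_of_coeff_ne_zero hn
  refine ⟨-(H.coeff M).order, M, ?_, ?_, ?_⟩
  · rw [neg_neg, Ne, HahnSeries.coeff_order_eq_zero]; exact hMne
  · intro j hj n hn
    have h1 := hord j n hn
    have h2 := hmin j (hsup j n hn)
    have h3 : f j ≠ f j0 := by
      intro h3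
      have : j ∈ S := by
        simp only [S, Finset.mem_filter]; exact ⟨hsup j n hn, h3⟩
      have := S.min'_le j this
      exact absurd hj (not_lt.2 this)
    have h4 : f j0 < f j := lt_of_le_of_ne h2 (Ne.symm h3)
    rw [← hM2] at h4
    push_cast
    simp only [f] at h4 h1
    linarith
  · intro j hj n hn
    have h1 := hord j n hn
    have h2 := hmin j (hsup j n hn)
    rw [← hM2] at h2
    push_cast
    simp only [f] at h2 h1
    linarith

/-- the corner in terms of the level of slope `k` -/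
theorem Cor.lowB {H : LS[X]} {β : ℤ} {M : ℕ} {k : ℚ} (h : Cor H β M k) :
    LowB (T0 k.den k.den_pos k.num H) (-(k.den * β - k.num * M)) := by
  intro n hn
  ext j
  rw [lev_coeff, coeff_zero]
  by_contra hne
  obtain ⟨m, hm, hm'⟩ := T0_coeff_ne _ _ _ _ _ _ hne
  have h1 := h.ge j m hm'
  have hq : (0 : ℚ) < k.den := by exact_mod_cast k.den_pos
  have h2 : (k.den : ℚ) * (k * ((M : ℚ) - j) - β) ≤ k.den * m :=
    mul_le_mul_of_nonneg_left h1 hq.le
  have h3 : ((k.den : ℚ) * m) = n - j * k.num := by exact_mod_cast hm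
  rw [h3] at h2
  have h4 := num_cast k
  have h5 : (n : ℚ) < -(k.den * β - k.num * M) := by exact_mod_cast hn
  have h7 : (k.den : ℚ) * (k * ((M : ℚ) - j) - β)
      = k.num * (M - j) - k.den * β := by rw [h4]; ring
  rw [h7] at h2
  linarith

theorem Cor.lev_top {H : LS[X]} {β : ℤ} {M : ℕ} {k : ℚ} (h : Cor H β M k) :
    (lev (-(k.den * β - k.num * M)) (T0 k.den k.den_pos k.num H)).coeff M ≠ 0 := by
  rw [lev_coeff, T0_coeff_coeff (m := -β)]
  · exact h.top
  · ring

theorem Cor.lev_lt {H : LS[X]} {β : ℤ} {M : ℕ} {k : ℚ} (h : Cor H β M k) (j : ℕ) (hj : j < M) :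
    (lev (-(k.den * β - k.num * M)) (T0 k.den k.den_pos k.num H)).coeff j = 0 := by
  rw [lev_coeff]
  by_contra hne
  obtain ⟨m, hm, hm'⟩ := T0_coeff_ne _ _ _ _ _ _ hne
  have h1 := h.low j hj m hm'
  have hq : (0 : ℚ) < k.den := by exact_mod_cast k.den_pos
  have h2 : (k.den : ℚ) * (k * ((M : ℚ) - j) - β) < k.den * m :=
    mul_lt_mul_of_pos_left h1 hq
  have h3 : ((k.den : ℚ) * m) = -(k.den * β - k.num * M) - j * k.num := by exact_mod_cast hm
  rw [h3] at h2
  have h4 := num_cast k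
  have h7 : (k.den : ℚ) * (k * ((M : ℚ) - j) - β)
      = k.num * (M - j) - k.den * β := by rw [h4]; ring
  rw [h7] at h2
  linarith

/-- conversely, the level data give the corner -/
theorem cor_of_lev {H : LS[X]} {β : ℤ} {M : ℕ} {k : ℚ}
    (h1 : LowB (T0 k.den k.den_pos k.num H) (-(k.den * β - k.num * M)))
    (h2 : (lev (-(k.den * β - k.num * M)) (T0 k.den k.den_pos k.num H)).coeff M ≠ 0)
    (h3 : ∀ j < M, (lev (-(k.den * β - k.num * M)) (T0 k.den k.den_pos k.num H)).coeff j = 0) :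
    Cor H β M k := by
  have hq : (0 : ℚ) < k.den := by exact_mod_cast k.den_pos
  have h4 := num_cast k
  have key : ∀ (j : ℕ) (n : ℤ), (H.coeff j).coeff n ≠ 0 →
      (lev (k.den * n + j * k.num) (T0 k.den k.den_pos k.num H)).coeff j ≠ 0 := by
    intro j n hn
    rw [lev_coeff, T0_coeff_coeff (m := n)]
    · exact hn
    · ring
  have hge : ∀ (j : ℕ) (n : ℤ), (H.coeff j).coeff n ≠ 0 →
      -((k.den : ℤ) * β - k.num * M) ≤ k.den * n + j * k.num := by
    intro j n hn
    by_contra hcon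
    push Not at hcon
    apply key j n hn
    rw [h1 _ hcon]; simp
  refine ⟨?_, ?_, ?_⟩
  · rw [lev_coeff, T0_coeff_coeff (m := -β)] at h2
    · exact h2
    · ring
  · intro j hj n hn
    have h5 := hge j n hn
    have h6 : -((k.den : ℤ) * β - k.num * M) ≠ k.den * n + j * k.num := by
      intro h6
      apply key j n hn
      rw [← h6]
      exact h3 j hj
    have h7 : -((k.den : ℤ) * β - k.num * M) < k.den * n + j * k.num := lt_of_le_of_ne h5 h6
    have h8 : -((k.den : ℚ) * β - k.num * M) < k.den * n + j * k.num := by exact_mod_cast h7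
    rw [h4] at h8
    have h9 : (k.den : ℚ) * (k * ((M : ℚ) - j) - β) < k.den * n := by linarith
    exact lt_of_mul_lt_mul_left h9 hq.le
  · intro j hj n hn
    have h5 := hge j n hn
    have h8 : -((k.den : ℚ) * β - k.num * M) ≤ k.den * n + j * k.num := by exact_mod_cast h5
    rw [h4] at h8
    have h9 : (k.den : ℚ) * (k * ((M : ℚ) - j) - β) ≤ k.den * n := by linarith
    exact le_of_mul_le_mul_left h9 hq

/-- level data for a corner from the left -/
theorem CorL.lowB {H : LS[X]} {β : ℤ} {M : ℕ} {k : ℚ} (h : CorL H β M k) :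
    LowB (T0 k.den k.den_pos k.num H) (-(k.den * β - k.num * M)) := by
  intro n hn
  ext j
  rw [lev_coeff, coeff_zero]
  by_contra hne
  obtain ⟨m, hm, hm'⟩ := T0_coeff_ne _ _ _ _ _ _ hne
  have h1 := h.ge j m hm'
  have hq : (0 : ℚ) < k.den := by exact_mod_cast k.den_pos
  have h2 : (k.den : ℚ) * (k * ((M : ℚ) - j) - β) ≤ k.den * m :=
    mul_le_mul_of_nonneg_left h1 hq.le
  have h3 : ((k.den : ℚ) * m) = n - j * k.num := by exact_mod_cast hm
  rw [h3] at h2
  have h4 := num_cast k
  have h5 : (n : ℚ) < -(k.den * β - k.num * M) := by exact_mod_cast hn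
  have h7 : (k.den : ℚ) * (k * ((M : ℚ) - j) - β)
      = k.num * (M - j) - k.den * β := by rw [h4]; ring
  rw [h7] at h2
  linarith

/-- the corner from the left from level data -/
theorem corL_of_lev {H : LS[X]} {β : ℤ} {M : ℕ} {k : ℚ}
    (h1 : LowB (T0 k.den k.den_pos k.num H) (-(k.den * β - k.num * M)))
    (h0 : lev (-(k.den * β - k.num * M)) (T0 k.den k.den_pos k.num H) ≠ 0)
    (h2 : (lev (-(k.den * β - k.num * M)) (T0 k.den k.den_pos k.num H)).natDegree = M) :
    CorL H β M k := by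
  have hq : (0 : ℚ) < k.den := by exact_mod_cast k.den_pos
  have h4 := num_cast k
  have key : ∀ (j : ℕ) (n : ℤ), (H.coeff j).coeff n ≠ 0 →
      (lev (k.den * n + j * k.num) (T0 k.den k.den_pos k.num H)).coeff j ≠ 0 := by
    intro j n hn
    rw [lev_coeff, T0_coeff_coeff (m := n)]
    · exact hn
    · ring
  have hge : ∀ (j : ℕ) (n : ℤ), (H.coeff j).coeff n ≠ 0 →
      -((k.den : ℤ) * β - k.num * M) ≤ k.den * n + j * k.num := by
    intro j n hn
    by_contra hcon
    push Not at hcon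
    apply key j n hn
    rw [h1 _ hcon]; simp
  refine ⟨?_, ?_, ?_⟩
  · have h3 : (lev (-(k.den * β - k.num * M)) (T0 k.den k.den_pos k.num H)).coeff M ≠ 0 := by
      have h5 : (lev (-(k.den * β - k.num * M)) (T0 k.den k.den_pos k.num H)).coeff
          (lev (-(k.den * β - k.num * M)) (T0 k.den k.den_pos k.num H)).natDegree ≠ 0 :=
        leadingCoeff_ne_zero.2 h0
      rwa [h2] at h5
    rw [lev_coeff, T0_coeff_coeff (m := -β)] at h3
    · exact h3
    · ring
  · intro j hj n hn
    have h5 := hge j n hn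
    have h8 : -((k.den : ℚ) * β - k.num * M) ≤ k.den * n + j * k.num := by exact_mod_cast h5
    rw [h4] at h8
    have h9 : (k.den : ℚ) * (k * ((M : ℚ) - j) - β) ≤ k.den * n := by linarith
    exact le_of_mul_le_mul_left h9 hq
  · intro j hj n hn
    have h5 := hge j n hn
    have h6 : -((k.den : ℤ) * β - k.num * M) ≠ k.den * n + j * k.num := by
      intro h6
      apply key j n hn
      rw [← h6]
      apply coeff_eq_zero_of_natDegree_lt
      rw [h2]; exact hj
    have h7 : -((k.den : ℤ) * β - k.num * M) < k.den * n + j * k.num := lt_of_le_of_ne h5 h6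
    have h8 : -((k.den : ℚ) * β - k.num * M) < k.den * n + j * k.num := by exact_mod_cast h7
    rw [h4] at h8
    have h9 : (k.den : ℚ) * (k * ((M : ℚ) - j) - β) < k.den * n := by linarith
    exact lt_of_mul_lt_mul_left h9 hq.le

theorem T0_C_single (q : ℕ) (hq : 0 < q) (s : ℤ) (E : ℤ) (c : ℂ) :
    T0 q hq s (C (HahnSeries.single (-E) c)) = C (HahnSeries.single (q * (-E)) c) := by
  rw [T0, map_C, C_comp]
  congr 1
  rw [ram, HahnSeries.embDomainRingHom_apply]
  exact HahnSeries.embDomain_single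

/-- multiplying by a monomial in `t` -/
theorem mul_C_single_coeff (G : LS[X]) (E : ℤ) (c : ℂ) (j : ℕ) (n : ℤ) :
    ((G * C (HahnSeries.single E c)).coeff j).coeff n = (G.coeff j).coeff (n - E) * c := by
  rw [coeff_mul_C]
  have := HahnSeries.coeff_mul_single_add (r := c) (x := G.coeff j) (a := n - E) (b := E)
  rw [sub_add_cancel] at this
  exact this

theorem Cor.mul_single {G : LS[X]} {β : ℤ} {M : ℕ} {k : ℚ} (h : Cor G β M k) (E : ℤ) {c : ℂ}
    (hc : c ≠ 0) : Cor (G * C (HahnSeries.single (-E) c)) (β + E) M k := by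
  refine ⟨?_, ?_, ?_⟩
  · rw [mul_C_single_coeff]
    refine mul_ne_zero ?_ hc
    have : -(β + E) - -E = -β := by ring
    rw [this]; exact h.top
  · intro j hj n hn
    rw [mul_C_single_coeff] at hn
    have := h.low j hj _ (left_ne_zero_of_mul hn)
    push_cast at this ⊢
    linarith
  · intro j hj n hn
    rw [mul_C_single_coeff] at hn
    have := h.high j hj _ (left_ne_zero_of_mul hn)
    push_cast at this ⊢
    linarith

/-- the corner of the bracket -/
theorem brB_cor {P H : LS[X]} {β₀ β : ℤ} {M₀ M : ℕ} {k : ℚ} (hP : Cor P β₀ M₀ k)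
    (hH : Cor H β M k) (hne : β * M₀ ≠ β₀ * M) : Cor (brB P H) (β₀ + β) (M₀ + M - 1) k := by
  have hpos : 1 ≤ M₀ + M := by
    by_contra hcon
    push Not at hcon
    have h1 : M₀ = 0 := by omega
    have h2 : M = 0 := by omega
    rw [h1, h2] at hne
    simp at hne
  set q := k.den with hq
  have hqpos : 0 < q := k.den_pos
  set s := k.num with hs
  set δ₀ : ℤ := q * β₀ - s * M₀ with hδ₀
  set δ : ℤ := q * β - s * M with hδ
  have hlow := lev_brB hP.lowB hH.lowB
  -- orders
  have hbr := brB_T0 q hqpos s P H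
  set T := T0 q hqpos s (brB P H) with hT
  have hlevT : ∀ n : ℤ, ∀ j : ℕ, (lev n (brB (T0 q hqpos s P) (T0 q hqpos s H))).coeff j
      = (q : ℂ) * (lev (n - s) T).coeff j := by
    intro n j
    rw [hbr, lev_coeff, coeff_mul_C, mul_tm_coeff, lev_coeff]
    have hqc : ((q : LS[X])) = C (HahnSeries.C (q : ℂ)) := by
      rw [map_natCast HahnSeries.C, map_natCast C]
    rw [hqc, coeff_C_mul]
    have h1 : (HahnSeries.C (q : ℂ) * T.coeff j).coeff (n - s)
        = (q : ℂ) * (T.coeff j).coeff (n - s) := by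
      rw [mul_comm (HahnSeries.C (q : ℂ))]
      have : (T.coeff j * HahnSeries.C (q : ℂ)).coeff (n - s)
        = (T.coeff j).coeff (n - s) * (q : ℂ) := HahnSeries.coeff_mul_single_zero
      rw [this, mul_comm]
    exact h1
  have hqc0 : (q : ℂ) ≠ 0 := by exact_mod_cast hqpos.ne'
  have hexp : -((q : ℤ) * (β₀ + β) - s * ((M₀ + M - 1 : ℕ) : ℤ)) = (-δ₀ + -δ) - s := by
    have h1 : ((M₀ + M - 1 : ℕ) : ℤ) = M₀ + M - 1 := by push_cast [hpos]; ring
    rw [h1, hδ₀, hδ]; ring
  have hcoef : ∀ j : ℕ, (q : ℂ) * (lev ((-δ₀ + -δ) - s) T).coeff j =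
      (C ((-δ₀ : ℤ) : ℂ) * lev (-δ₀) (T0 q hqpos s P) * derivative (lev (-δ) (T0 q hqpos s H))
      - C ((-δ : ℤ) : ℂ) * derivative (lev (-δ₀) (T0 q hqpos s P))
        * lev (-δ) (T0 q hqpos s H)).coeff j := by
    intro j
    rw [← hlevT, hlow]
  -- the two leading forms as multiples of powers of X
  obtain ⟨p, hp⟩ : X ^ M₀ ∣ lev (-δ₀) (T0 q hqpos s P) := by
    rw [X_pow_dvd_iff]
    intro d hd
    exact hP.lev_lt d hd
  obtain ⟨g, hg⟩ : X ^ M ∣ lev (-δ) (T0 q hqpos s H) := by
    rw [X_pow_dvd_iff]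
    intro d hd
    exact hH.lev_lt d hd
  have hp0 : p.coeff 0 ≠ 0 := by
    have := hP.lev_top
    rw [hp, coeff_X_pow_mul'] at this
    simpa using this
  have hg0 : g.coeff 0 ≠ 0 := by
    have := hH.lev_top
    rw [hg, coeff_X_pow_mul'] at this
    simpa using this
  -- the bracket of the leading forms
  have hform : X * (C ((-δ₀ : ℤ) : ℂ) * lev (-δ₀) (T0 q hqpos s P)
        * derivative (lev (-δ) (T0 q hqpos s H))
      - C ((-δ : ℤ) : ℂ) * derivative (lev (-δ₀) (T0 q hqpos s P))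
        * lev (-δ) (T0 q hqpos s H))
      = X ^ (M₀ + M) * (C ((-δ₀ : ℤ) : ℂ) * p * (C (M : ℂ) * g + X * derivative g)
        - C ((-δ : ℤ) : ℂ) * (C (M₀ : ℂ) * p + X * derivative p) * g) := by
    have hX : ∀ (n : ℕ) (f : ℂ[X]), X * derivative (X ^ n * f)
        = X ^ n * (C (n : ℂ) * f + X * derivative f) := by
      intro n f
      rw [derivative_mul, derivative_X_pow]
      cases n with
      | zero => simp
      | succ n =>
        rw [Nat.add_sub_cancel, pow_succ]; ring
    rw [hp, hg]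
    calc X * (C ((-δ₀ : ℤ) : ℂ) * (X ^ M₀ * p) * derivative (X ^ M * g)
        - C ((-δ : ℤ) : ℂ) * derivative (X ^ M₀ * p) * (X ^ M * g))
        = C ((-δ₀ : ℤ) : ℂ) * (X ^ M₀ * p) * (X * derivative (X ^ M * g))
          - C ((-δ : ℤ) : ℂ) * (X * derivative (X ^ M₀ * p)) * (X ^ M * g) := by ring
      _ = _ := by rw [hX, hX, pow_add]; ring
  set B : ℂ[X] := C ((-δ₀ : ℤ) : ℂ) * lev (-δ₀) (T0 q hqpos s P)
        * derivative (lev (-δ) (T0 q hqpos s H))
      - C ((-δ : ℤ) : ℂ) * derivative (lev (-δ₀) (T0 q hqpos s P))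
        * lev (-δ) (T0 q hqpos s H) with hB
  have hBlt : ∀ j < M₀ + M - 1, B.coeff j = 0 := by
    intro j hj
    have h1 : (X * B).coeff (j + 1) = B.coeff j := coeff_X_mul _ _
    rw [← h1, hform, coeff_X_pow_mul', if_neg (by omega)]
  have hBtop : B.coeff (M₀ + M - 1) ≠ 0 := by
    have h1 : (X * B).coeff (M₀ + M - 1 + 1) = B.coeff (M₀ + M - 1) := coeff_X_mul _ _
    rw [← h1, hform, coeff_X_pow_mul', if_pos (by omega)]
    have h2 : M₀ + M - 1 + 1 - (M₀ + M) = 0 := by omega
    rw [h2]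
    simp only [coeff_sub, mul_coeff_zero, coeff_add, coeff_C_zero, coeff_X_zero, zero_mul,
      add_zero]
    have h3 : (((-δ₀ : ℤ) : ℂ) * p.coeff 0 * ((M : ℂ) * g.coeff 0)
        - ((-δ : ℤ) : ℂ) * ((M₀ : ℂ) * p.coeff 0) * g.coeff 0)
        = (((δ * M₀ - δ₀ * M : ℤ)) : ℂ) * (p.coeff 0 * g.coeff 0) := by
      push_cast; ring
    rw [h3]
    refine mul_ne_zero ?_ (mul_ne_zero hp0 hg0)
    have h4 : δ * M₀ - δ₀ * M = q * (β * M₀ - β₀ * M) := by rw [hδ, hδ₀]; ring
    rw [h4]
    have h5 : (q : ℤ) * (β * M₀ - β₀ * M) ≠ 0 := by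
      refine mul_ne_zero (by exact_mod_cast hqpos.ne') (sub_ne_zero.2 hne)
    exact_mod_cast h5
  have hexp' : -((k.den : ℤ) * (β₀ + β) - k.num * ((M₀ + M - 1 : ℕ) : ℤ))
      = (-δ₀ + -δ) - s := hexp
  apply cor_of_lev
  · -- LowB
    rw [hexp']
    intro n hn
    ext j
    have h1 : (lev (n + s) (brB (T0 q hqpos s P) (T0 q hqpos s H))).coeff j = 0 := by
      -- below the minimal order
      have hlt : n + s < -δ₀ + -δ := by linarith
      have hz : (Psi (brB (T0 q hqpos s P) (T0 q hqpos s H))).coeff (n + s) = 0 := by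
        rw [Psi_brB]
        exact (Low.br (hP.lowB.low) (hH.lowB.low) ratD ratD_isDer) _ hlt
      rw [Psi_coeff] at hz
      have hz' : lev (n + s) (brB (T0 q hqpos s P) (T0 q hqpos s H)) = 0 := by
        by_contra hcon
        exact toR_ne_zero hcon hz
      rw [hz']; simp
    rw [hlevT, add_sub_cancel_right] at h1
    have h2 : (lev n T).coeff j = 0 := (mul_eq_zero.1 h1).resolve_left hqc0
    rw [coeff_zero]
    exact h2
  · rw [hexp']
    intro h0
    have h0' : (lev ((-δ₀ + -δ) - s) T).coeff (M₀ + M - 1) = 0 := h0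
    apply hBtop
    rw [← hcoef, h0', mul_zero]
  · intro j hj
    rw [hexp']
    have h1 := hcoef j
    rw [hBlt j hj] at h1
    exact (mul_eq_zero.1 h1).resolve_left hqc0

/-- (C) corner dichotomy -/
theorem corner_dich {P H G : LS[X]} {c : ℂ} (hc : c ≠ 0) {E : ℤ}
    (hPH : brB P H = G * C (HahnSeries.single (-E) c)) {β₀ β : ℤ} {M₀ M : ℕ} {k : ℚ}
    (hP : Cor P β₀ M₀ k) (hH : Cor H β M k) :
    β * M₀ = β₀ * M ∨ ∃ (β₁ : ℤ) (M₁ : ℕ), Cor G β₁ M₁ k ∧ β₁ + E = β₀ + β ∧ M₁ + 1 = M₀ + M := by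
  by_cases hne : β * M₀ = β₀ * M
  · exact Or.inl hne
  right
  have h1 := brB_cor hP hH hne
  rw [hPH] at h1
  have hG : G ≠ 0 := by
    intro h0
    apply h1.ne_zero
    rw [h0, zero_mul]
  obtain ⟨β₁, M₁, hG1⟩ := exists_cor hG k
  have h2 := hG1.mul_single E hc
  obtain ⟨h3, h4⟩ := h2.unique h1
  have hpos : 1 ≤ M₀ + M := by
    by_contra hcon
    push Not at hcon
    have h1 : M₀ = 0 := by omega
    have h2 : M = 0 := by omega
    rw [h1, h2] at hne
    simp at hne
  exact ⟨β₁, M₁, hG1, h3, by omega⟩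

/-- (U) a ray shape from the left at `K` gives the same corner at `k`. -/
theorem ray_up {P H G : LS[X]} {a N : ℕ} {α E : ℤ} {k K : ℚ} {c : ℂ} (ha : 0 < a) (hN : 0 < N)
    (hc : c ≠ 0) (hkK : k < K) (hΔ : 0 < (α : ℚ) - K * N) (hx : α < E * N)
    (hP : Corner P a α N k) (hPH : brB P H = G * C (HahnSeries.single (-E) c))
    {β' : ℤ} {M' : ℕ} (hH : CorL H β' M' K) (hray : β' * N = α * M')
    (hG : ∀ (β₁ : ℤ) (M₁ : ℕ), Cor G β₁ M₁ k → β₁ * N = α * M₁) : Cor H β' M' k := by
  have hH0 : H ≠ 0 := by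
    intro h0
    apply hH.top
    rw [h0]; simp
  obtain ⟨β, M, hC⟩ := exists_cor hH0 k
  have hNQ : (0 : ℚ) < N := by exact_mod_cast hN
  have e1 := hC.ge M' _ hH.top
  have e2 := hH.ge M _ hC.top
  push_cast at e1 e2
  have hrayQ : (β' : ℚ) * N = α * M' := by exact_mod_cast hray
  have hkΔ : 0 < (α : ℚ) - k * N := by
    have : k * N < K * N := mul_lt_mul_of_pos_right hkK hNQ
    linarith
  rcases corner_dich hc hPH hP.cor hC with h | ⟨β₁, M₁, hG1, h1, h2⟩
  · -- ray
    have haZ : (a : ℤ) ≠ 0 := by exact_mod_cast ha.ne'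
    have h3 : β * N = α * M := by
      have h4 : (a : ℤ) * (β * N) = a * (α * M) := by
        push_cast at h
        linear_combination h
      exact mul_left_cancel₀ haZ h4
    have h3Q : (β : ℚ) * N = α * M := by exact_mod_cast h3
    -- (M - M') = 0
    have f1 : (k * N - α) * ((M : ℚ) - M') ≤ 0 := by
      have : (k * ((M : ℚ) - M') - β + β') * N ≤ 0 := by
        have : k * ((M : ℚ) - M') - β + β' ≤ 0 := by linarith
        exact mul_nonpos_of_nonpos_of_nonneg this hNQ.le
      have e : (k * ((M : ℚ) - M') - β + β') * N = (k * N - α) * ((M : ℚ) - M') := by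
        linear_combination -h3Q + hrayQ
      rw [← e]; exact this
    have f2 : (K * N - α) * ((M' : ℚ) - M) ≤ 0 := by
      have : (K * ((M' : ℚ) - M) - β' + β) * N ≤ 0 := by
        have : K * ((M' : ℚ) - M) - β' + β ≤ 0 := by linarith
        exact mul_nonpos_of_nonpos_of_nonneg this hNQ.le
      have e : (K * ((M' : ℚ) - M) - β' + β) * N = (K * N - α) * ((M' : ℚ) - M) := by
        linear_combination h3Q - hrayQ
      rw [← e]; exact this
    have g1 : (0 : ℚ) ≤ (M : ℚ) - M' := by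
      by_contra hcon
      push Not at hcon
      have : 0 < (k * N - α) * ((M : ℚ) - M') := mul_pos_of_neg_of_neg (by linarith) hcon
      linarith
    have g2 : (0 : ℚ) ≤ (M' : ℚ) - M := by
      by_contra hcon
      push Not at hcon
      have : 0 < (K * N - α) * ((M' : ℚ) - M) := mul_pos_of_neg_of_neg (by linarith) hcon
      linarith
    have g3 : (M : ℚ) = M' := by linarith
    have g4 : M = M' := by exact_mod_cast g3
    have g5 : (β : ℚ) = β' := by
      have : (β : ℚ) * N = β' * N := by rw [h3Q, hrayQ, g3]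
      exact mul_right_cancel₀ hNQ.ne' this
    have g6 : β = β' := by exact_mod_cast g5
    rw [← g6, ← g4]; exact hC
  · -- F is impossible
    exfalso
    have h3 := hG β₁ M₁ hG1
    have h3Q : (β₁ : ℚ) * N = α * M₁ := by exact_mod_cast h3
    have h1Q : (β₁ : ℚ) + E = a * α + β := by exact_mod_cast h1
    have h2Q : (M₁ : ℚ) + 1 = a * N + M := by exact_mod_cast h2
    -- scaled by N: put D = N * delta
    set D : ℚ := (M' : ℚ) - M₁ + a * N with hD
    have i1 : D * (α - k * N) ≤ (E - k) * N := by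
      have : (k * ((M : ℚ) - M') - β + β') * N ≤ 0 := by
        have : k * ((M : ℚ) - M') - β + β' ≤ 0 := by linarith
        exact mul_nonpos_of_nonpos_of_nonneg this hNQ.le
      have e : (k * ((M : ℚ) - M') - β + β') * N = D * (α - k * N) - (E - k) * N := by
        have hM : (M : ℚ) = M₁ + 1 - a * N := by linarith
        have hβ : (β : ℚ) = β₁ + E - a * α := by linarith
        rw [hM, hβ, hD]
        linear_combination hrayQ - h3Q
      linarith
    have i2 : (E - K) * N ≤ D * (α - K * N) := by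
      have : (K * ((M' : ℚ) - M) - β' + β) * N ≤ 0 := by
        have : K * ((M' : ℚ) - M) - β' + β ≤ 0 := by linarith
        exact mul_nonpos_of_nonpos_of_nonneg this hNQ.le
      have e : (K * ((M' : ℚ) - M) - β' + β) * N = (E - K) * N - D * (α - K * N) := by
        have hM : (M : ℚ) = M₁ + 1 - a * N := by linarith
        have hβ : (β : ℚ) = β₁ + E - a * α := by linarith
        rw [hM, hβ, hD]
        linear_combination -hrayQ + h3Q
      linarith
    have i3 : (E - K) * N * (α - k * N) ≤ (E - k) * N * (α - K * N) := by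
      have j1 := mul_le_mul_of_nonneg_right i2 hkΔ.le
      have j2 := mul_le_mul_of_nonneg_right i1 hΔ.le
      have j3 : D * (α - K * N) * (α - k * N) = D * (α - k * N) * (α - K * N) := by ring
      linarith
    have i4 : ((E : ℚ) * N - α) * ((K - k) * N) ≤ 0 := by
      have : ((E : ℚ) * N - α) * ((K - k) * N)
        = (E - K) * N * (α - k * N) - (E - k) * N * (α - K * N) := by ring
      rw [this]; linarith
    have hxQ : (0 : ℚ) < (E : ℚ) * N - α := by
      have : (α : ℚ) < E * N := by exact_mod_cast hx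
      linarith
    have : 0 < ((E : ℚ) * N - α) * ((K - k) * N) :=
      mul_pos hxQ (mul_pos (by linarith) hNQ)
    linarith

theorem corner_unique {H : LS[X]} {A A' : ℤ} {i i' : ℕ} {k : ℚ}
    (h : Corner H 1 A i k) (h' : Corner H 1 A' i' k) : A = A' ∧ i = i' := by
  have h1 := h.cor
  have h2 := h'.cor
  simp only [Nat.cast_one, one_mul] at h1 h2
  exact h1.unique h2

theorem exists_corner {H : LS[X]} (hH : H ≠ 0) (k : ℚ) : ∃ (A : ℤ) (i : ℕ), Corner H 1 A i k := by
  obtain ⟨β, M, h⟩ := exists_cor hH k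
  exact ⟨β, M, h.corner⟩

/-- corner dichotomy -/
theorem corner_dichotomy {P H H' : LS[X]} {a N E : ℕ} {α A : ℤ} {i : ℕ} {k : ℚ} {c : ℂ}
    (ha : 0 < a) (hN : 0 < N) (hc : c ≠ 0) (hP : Corner P a α N k) (hH : Corner H 1 A i k)
    (hbr : brB P H = H' * C (HahnSeries.single (-(E : ℤ)) c)) :
    (H' = 0 → A * N = i * α) ∧
    ∀ (A' : ℤ) (i' : ℕ), Corner H' 1 A' i' k →
      (A * N = i * α) ∨ (A' + E = a * α + A ∧ i' + 1 = a * N + i) := by
  have haZ : (a : ℤ) ≠ 0 := by exact_mod_cast ha.ne'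
  have hH1 : Cor H A i k := by
    have := hH.cor
    simpa only [Nat.cast_one, one_mul] using this
  have key := corner_dich hc hbr hP.cor hH1
  have hray : A * ((a * N : ℕ) : ℤ) = (a : ℤ) * α * i → A * N = i * α := by
    intro h
    have h1 : (a : ℤ) * (A * N) = a * (i * α) := by
      push_cast at h
      linear_combination h
    exact mul_left_cancel₀ haZ h1
  refine ⟨?_, ?_⟩
  · intro h0
    rcases key with h | ⟨β₁, M₁, hG, -, -⟩
    · exact hray h
    · exact absurd h0 hG.ne_zero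
  · intro A' i' hC
    rcases key with h | ⟨β₁, M₁, hG, h1, h2⟩
    · exact Or.inl (hray h)
    · right
      have hC1 : Cor H' A' i' k := by
        have := hC.cor
        simpa only [Nat.cast_one, one_mul] using this
      obtain ⟨e1, e2⟩ := hG.unique hC1
      subst e1
      subst e2
      exact ⟨h1, h2⟩

/-- the exponent of `t` at a nonzero coefficient of a level form -/
theorem exists_exponent {H : LS[X]} {n : ℤ} (K : ℚ) {j : ℕ}
    (h : (lev (-n) (T0 K.den K.den_pos K.num H)).coeff j ≠ 0) :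
    ∃ A : ℤ, K.den * A - K.num * (j : ℤ) = n := by
  rw [lev_coeff] at h
  obtain ⟨m, hm, -⟩ := T0_coeff_ne _ _ _ _ _ _ h
  exact ⟨-m, by linear_combination -hm⟩

/-- from a level up to the corner above it -/
theorem up_ray {H : LS[X]} {N E d i : ℕ} {α A n : ℤ} {k K ω κ' : ℚ} (hN : 0 < N)
    (hkK : k < K) (hd : (d : ℤ) = K.den * α - K.num * N) (hdpos : 0 < d)
    (hx : α < E * N) (hH : Corner H 1 A i k)
    (hlow : LowB (T0 K.den K.den_pos K.num H) (-n))
    (hne : lev (-n) (T0 K.den K.den_pos K.num H) ≠ 0) (hn : (n : ℚ) = ω * d)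
    (hdeg : ((lev (-n) (T0 K.den K.den_pos K.num H)).natDegree : ℚ) = ω * N)
    (hcase : A * N = i * α ∨ ((A : ℚ) = κ' * α + E ∧ (i : ℚ) = κ' * N + 1)) :
    (A : ℚ) = ω * α ∧ (i : ℚ) = ω * N := by
  have hNQ : (0 : ℚ) < N := by exact_mod_cast hN
  have hqQ : (0 : ℚ) < K.den := by exact_mod_cast K.den_pos
  have hC : Cor H A i k := by
    have := hH.cor
    simpa only [Nat.cast_one, one_mul] using this
  set M' := (lev (-n) (T0 K.den K.den_pos K.num H)).natDegree with hM'
  have htop : (lev (-n) (T0 K.den K.den_pos K.num H)).coeff M' ≠ 0 := leadingCoeff_ne_zero.2 hne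
  obtain ⟨β', hβ'⟩ := exists_exponent K htop
  have hL : CorL H β' M' K := by
    apply corL_of_lev
    · rw [hβ']; exact hlow
    · rw [hβ']; exact hne
    · rw [hβ']
  have hdQ : (d : ℚ) = K.den * (α - K * N) := by
    have h1 : (d : ℚ) = K.den * α - K.num * N := by exact_mod_cast hd
    rw [h1, num_cast K]; ring
  have hΔ : 0 < (α : ℚ) - K * N := by
    have h1 : (0 : ℚ) < d := by exact_mod_cast hdpos
    rw [hdQ] at h1
    exact (mul_pos_iff_of_pos_left hqQ).mp h1
  have hkΔ : 0 < (α : ℚ) - k * N := by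
    have : k * N < K * N := mul_lt_mul_of_pos_right hkK hNQ
    linarith
  have hβQ : (β' : ℚ) = ω * α := by
    have h1 : (K.den : ℚ) * β' - K.num * M' = n := by exact_mod_cast hβ'
    rw [hn, hdQ, hdeg, num_cast K] at h1
    have h2 : (K.den : ℚ) * β' = K.den * (ω * α) := by linear_combination h1
    exact mul_left_cancel₀ hqQ.ne' h2
  have e1 := hC.ge M' _ hL.top
  have e2 := hL.ge i _ hC.top
  push_cast at e1 e2
  rw [hβQ, hdeg] at e1 e2
  rcases hcase with h | ⟨h1, h2⟩
  · have hQ : (A : ℚ) * N = i * α := by exact_mod_cast h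
    have f1 : (k * N - α) * ((i : ℚ) - ω * N) ≤ 0 := by
      have h3 : (k * ((i : ℚ) - ω * N) - A + ω * α) * N ≤ 0 :=
        mul_nonpos_of_nonpos_of_nonneg (by linarith) hNQ.le
      have e : (k * ((i : ℚ) - ω * N) - A + ω * α) * N = (k * N - α) * ((i : ℚ) - ω * N) := by
        linear_combination -hQ
      rw [← e]; exact h3
    have f2 : (K * N - α) * (ω * N - (i : ℚ)) ≤ 0 := by
      have h3 : (K * (ω * N - (i : ℚ)) - ω * α + A) * N ≤ 0 :=
        mul_nonpos_of_nonpos_of_nonneg (by linarith) hNQ.le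
      have e : (K * (ω * N - (i : ℚ)) - ω * α + A) * N = (K * N - α) * (ω * N - (i : ℚ)) := by
        linear_combination hQ
      rw [← e]; exact h3
    have g1 : (0 : ℚ) ≤ (i : ℚ) - ω * N := by
      by_contra hcon
      push Not at hcon
      have : 0 < (k * N - α) * ((i : ℚ) - ω * N) := mul_pos_of_neg_of_neg (by linarith) hcon
      linarith
    have g2 : (0 : ℚ) ≤ ω * N - (i : ℚ) := by
      by_contra hcon
      push Not at hcon
      have : 0 < (K * N - α) * (ω * N - (i : ℚ)) := mul_pos_of_neg_of_neg (by linarith) hcon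
      linarith
    have g3 : (i : ℚ) = ω * N := by linarith
    refine ⟨?_, g3⟩
    have : (A : ℚ) * N = ω * α * N := by rw [hQ, g3]; ring
    exact mul_right_cancel₀ hNQ.ne' this
  · exfalso
    rw [h1, h2] at e1 e2
    have hxQ : (0 : ℚ) < (E : ℚ) * N - α := by
      have : (α : ℚ) < E * N := by exact_mod_cast hx
      linarith
    -- w = ω - κ'
    have i1 : (ω - κ') * (α - k * N) ≤ E - k := by linarith
    have i2 : E - K ≤ (ω - κ') * (α - K * N) := by linarith
    have j1 := mul_le_mul_of_nonneg_right i2 hkΔ.le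
    have j2 := mul_le_mul_of_nonneg_right i1 hΔ.le
    have j3 : (ω - κ') * (α - K * N) * (α - k * N) = (ω - κ') * (α - k * N) * (α - K * N) := by
      ring
    have j4 : ((E : ℚ) * N - α) * (K - k)
        = (E - K) * (α - k * N) - (E - k) * (α - K * N) := by ring
    have j5 : 0 < ((E : ℚ) * N - α) * (K - k) := mul_pos hxQ (by linarith)
    linarith

/-- the corner (slope `K`) below a level, at the origin -/
theorem zero_corner_gen {H : LS[X]} {n : ℤ} (K : ℚ)
    (hlow : LowB (T0 K.den K.den_pos K.num H) (-n))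
    (hne : lev (-n) (T0 K.den K.den_pos K.num H) ≠ 0) :
    ∃ A : ℤ, K.den * A - K.num * ((lev (-n) (T0 K.den K.den_pos K.num H)).rootMultiplicity 0 : ℤ)
        = n ∧
      Corner H 1 A ((lev (-n) (T0 K.den K.den_pos K.num H)).rootMultiplicity 0) K := by
  set M := (lev (-n) (T0 K.den K.den_pos K.num H)).rootMultiplicity 0 with hM
  have htop : (lev (-n) (T0 K.den K.den_pos K.num H)).coeff M ≠ 0 := coeff_eq_zero_ne _ hne
  obtain ⟨A, hA⟩ := exists_exponent K htop
  refine ⟨A, hA, Cor.corner ?_⟩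
  apply cor_of_lev
  · rw [hA]; exact hlow
  · rw [hA]; exact htop
  · intro j hj
    rw [hA]
    exact coeff_lt_zero _ hne j hj

/-- the corner (slope `0`) at a shifted root -/
theorem shift_corner_gen {H : LS[X]} {n : ℤ} (μ : ℂ) (hlow : LowB H (-n)) (hne : lev (-n) H ≠ 0) :
    Corner (shift μ H) 1 n ((lev (-n) H).rootMultiplicity μ) 0 := by
  have hge : ∀ (j : ℕ) (m : ℤ), ((shift μ H).coeff j).coeff m ≠ 0 → -n ≤ m := by
    intro j m hm
    by_contra hlt
    push Not at hlt
    apply hm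
    rw [← lev_coeff, lev_shift, hlow m hlt]; simp
  apply Cor.corner
  refine ⟨?_, ?_, ?_⟩
  · rw [← lev_coeff, lev_shift]
    exact comp_coeff_eq _ hne μ
  · intro j hj m hm
    have h1 := hge j m hm
    have h2 : -n ≠ m := by
      intro heq
      apply hm
      rw [← lev_coeff, lev_shift, ← heq]
      exact comp_coeff_lt _ hne μ j hj
    have h3 : -n < m := lt_of_le_of_ne h1 h2
    have h4 : (-(n : ℚ)) < m := by exact_mod_cast h3
    linarith
  · intro j _ m hm
    have h1 := hge j m hm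
    have h4 : (-(n : ℚ)) ≤ m := by exact_mod_cast h1
    linarith

end Pool.Agent.Lib.MP_2d59ee_ag
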