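import Mathlib
import Pool.Agent.Lib.MP_2d59ee_ag.R.Defs

set_option autoImplicit false

/-! Row R2, second half: polynomials in one variable. -/

namespace Pool.Agent.Lib.MP_2d59ee_ag

open Polynomial

theorem deg_sum_mult {f : ℂ[X]} {S : Finset ℂ} (hS : f.roots.toFinset ⊆ S) :
    f.natDegree = ∑ μ ∈ S, f.rootMultiplicity μ := by
  have h1 : Multiset.card f.roots = f.natDegree :=
    (splits_iff_card_roots.1 (IsAlgClosed.splits f))
  rw [← h1]
  rw [← Multiset.sum_count_eq_card (s := S) (m := f.roots)]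
  · refine Finset.sum_congr rfl fun μ _ => ?_
    rw [count_roots]
  · intro μ hμ
    exact hS (Multiset.mem_toFinset.2 hμ)

theorem sum_mult_le (f : ℂ[X]) (S : Finset ℂ) :
    ∑ μ ∈ S, f.rootMultiplicity μ ≤ f.natDegree := by
  classical
  rw [deg_sum_mult (f := f) (S := f.roots.toFinset ∪ S) Finset.subset_union_left]
  exact Finset.sum_le_sum_of_subset Finset.subset_union_right

/-- at a level with at least two roots, a non commuting element has the large degree -/
theorem FTy.big {P H : LS[X]} {a d e : ℕ} {κ : ℚ} (ha : 0 < a) (hd : 0 < d)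
    (h : FTy P a d e H κ)
    (hroots : ∃ μ ν : ℂ, μ ≠ ν ∧ (lev (-(a * (d : ℤ))) P).IsRoot μ ∧
      (lev (-(a * (d : ℤ))) P).IsRoot ν) :
    ∃ n : ℤ, LowB H (-n) ∧ lev (-n) H ≠ 0 ∧ (n : ℚ) = (κ - a) * d + e ∧
      (a : ℚ) * d * (lev (-n) H).natDegree
        = ((κ - a) * d + e) * (lev (-(a * (d : ℤ))) P).natDegree := by
  classical
  obtain ⟨n, h1, h2, h3, h4, h5⟩ := h
  refine ⟨n, h1, h2, h3, ?_⟩
  rcases h5 with h5 | h5
  · exfalso
    obtain ⟨μ, ν, hμν, hμ, hν⟩ := hroots
    set p := lev (-(a * (d : ℤ))) P with hp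
    set g := lev (-n) H with hg
    have haQ : (0 : ℚ) < a := by exact_mod_cast ha
    by_cases hp0 : p = 0
    · -- then every number is a root
      -- use the three roots argument with the zero polynomial
      have e1 : ∀ τ, (a : ℚ) * g.rootMultiplicity τ = a := by
        intro τ
        have := h4 τ (by rw [hp0]; exact IsRoot.def.2 (by simp))
        rw [hp0] at this
        simpa using this
      have e2 : (a : ℚ) * g.natDegree = a := by
        rw [hp0] at h5
        simpa using h5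
      have e3 : g.natDegree = 1 := by
        have : (g.natDegree : ℚ) = 1 := by
          have h9 : (a : ℚ) * g.natDegree = a * 1 := by rw [e2, mul_one]
          exact mul_left_cancel₀ haQ.ne' h9
        exact_mod_cast this
      have e4 : ∀ τ, g.rootMultiplicity τ = 1 := by
        intro τ
        have : (g.rootMultiplicity τ : ℚ) = 1 := by
          have h9 : (a : ℚ) * g.rootMultiplicity τ = a * 1 := by rw [e1, mul_one]
          exact mul_left_cancel₀ haQ.ne' h9
        exact_mod_cast this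
      have e5 := sum_mult_le g {μ, ν}
      rw [Finset.sum_pair hμν, e4, e4, e3] at e5
      omega
    let S := p.roots.toFinset
    have hμS : μ ∈ S := Multiset.mem_toFinset.2 ((mem_roots hp0).2 hμ)
    have hνS : ν ∈ S := Multiset.mem_toFinset.2 ((mem_roots hp0).2 hν)
    have e1 := deg_sum_mult (f := p) (S := S) (Finset.Subset.refl _)
    have e2 := sum_mult_le g S
    have e3 : (a : ℚ) * ∑ μ ∈ S, (g.rootMultiplicity μ : ℚ)
        = (κ - a) * p.natDegree + a * S.card := by
      rw [e1, Finset.mul_sum]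
      push_cast
      rw [Finset.mul_sum, mul_comm (a : ℚ) (S.card : ℚ), ← nsmul_eq_mul, ← Finset.sum_const,
        ← Finset.sum_add_distrib]
      refine Finset.sum_congr rfl fun τ hτ => ?_
      have hτ' : p.IsRoot τ := (mem_roots hp0).1 (Multiset.mem_toFinset.1 hτ)
      exact h4 τ hτ'
    have e4 : 2 ≤ S.card := by
      have : ({μ, ν} : Finset ℂ) ⊆ S := by
        intro τ hτ
        rw [Finset.mem_insert, Finset.mem_singleton] at hτ
        rcases hτ with rfl | rfl
        · exact hμS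
        · exact hνS
      have h9 := Finset.card_le_card this
      rwa [Finset.card_pair hμν] at h9
    have e5 : (∑ μ ∈ S, (g.rootMultiplicity μ : ℚ)) ≤ g.natDegree := by exact_mod_cast e2
    have e6 := mul_le_mul_of_nonneg_left e5 haQ.le
    rw [e3, h5] at e6
    have e7 : (2 : ℚ) ≤ S.card := by exact_mod_cast e4
    have e8 := mul_le_mul_of_nonneg_left e7 haQ.le
    linarith
  · exact h5

/-- strict form of `Sol.not_dvd`: `e N_μ` is not divisible by `d` for all roots -/
theorem Sol.not_all_dvd {p u : ℂ[X]} {a d e N : ℕ} {c : ℂ} (hu : Sol p u (a * d) e c) (ha : 0 < a)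
    (hd : 0 < d) (he : 0 < e) (hN : 0 < N) (hp : p ≠ 0) (hc : c ≠ 0)
    (hdeg : p.natDegree = a * N)
    (f : ℂ → ℕ) (hf : ∀ μ, p.rootMultiplicity μ = a * f μ)
    (hroots : ∃ μ ν, μ ≠ ν ∧ p.IsRoot μ ∧ p.IsRoot ν) : ¬ ∀ μ, d ∣ e * f μ := by
  intro hdv
  obtain ⟨μ, ν, hμν, hμ, hν⟩ := hroots
  have hu0 := hu.ne_zero hp hc
  have hdegp : 1 ≤ p.natDegree := by rw [hdeg]; exact Nat.mul_pos ha hN
  have h2 : 2 ≤ u.natDegree := two_le_natDegree hu0 hμν (hu.root hp hc he.ne' μ hμ).1
    (hu.root hp hc he.ne' ν hν).1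
  have h3 := hu.degree hp hc h2 hdegp
  choose g hg using hdv
  -- N = sum f
  have hNf : N = ∑ τ ∈ p.roots.toFinset, f τ := by
    have e1 := deg_sum_mult (f := p) (S := p.roots.toFinset) (Finset.Subset.refl _)
    rw [hdeg] at e1
    have e2 : a * N = a * ∑ τ ∈ p.roots.toFinset, f τ := by
      rw [e1, Finset.mul_sum]
      exact Finset.sum_congr rfl fun τ _ => hf τ
    exact Nat.eq_of_mul_eq_mul_left ha e2
  obtain ⟨M, hM⟩ : ∃ M, e * N = d * M := by
    refine ⟨∑ τ ∈ p.roots.toFinset, g τ, ?_⟩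
    rw [hNf, Finset.mul_sum, Finset.mul_sum]
    exact Finset.sum_congr rfl fun τ _ => hg τ
  have hpe : p ^ e ≠ 0 := pow_ne_zero _ hp
  have hpedeg : (p ^ e).natDegree = (a * d) * M := by
    rw [natDegree_pow, hdeg]
    calc e * (a * N) = a * (e * N) := by ring
      _ = a * (d * M) := by rw [hM]
      _ = _ := by ring
  have hmulpow : ∀ (τ : ℂ) (k : ℕ), (p ^ k).rootMultiplicity τ = k * p.rootMultiplicity τ := by
    intro τ k
    rw [← count_roots, ← count_roots, roots_pow, Multiset.count_nsmul]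
  obtain ⟨w, hwm, hwd, hpw⟩ := exists_power hpe (Nat.mul_pos ha hd) hpedeg (by
    intro τ
    refine ⟨g τ, ?_⟩
    rw [hmulpow, hf]
    calc e * (a * f τ) = a * (e * f τ) := by ring
      _ = a * (d * g τ) := by rw [hg]
      _ = _ := by ring)
  set lc := (p ^ e).leadingCoeff with hlc
  -- the homogeneous equation
  have hwsol : -((a * d : ℕ) : ℂ[X]) * derivative w * p + (e : ℂ[X]) * derivative p * w = 0 := by
    obtain ⟨A', hA'⟩ : ∃ A', a * d = A' + 1 := ⟨a * d - 1, by
      have := Nat.mul_pos ha hd; omega⟩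
    obtain ⟨e', he'⟩ : ∃ e', e = e' + 1 := ⟨e - 1, by omega⟩
    have e1 : derivative (p ^ e) = (e : ℂ[X]) * p ^ e' * derivative p := by
      rw [he', derivative_pow, Nat.add_sub_cancel]
      simp
    have e2 : derivative (p ^ e) = C lc * (((a * d : ℕ) : ℂ[X]) * w ^ A' * derivative w) := by
      conv_lhs => rw [hpw]
      rw [derivative_C_mul, hA', derivative_pow, Nat.add_sub_cancel]
      simp
    have e3 : p ^ e * (-((a * d : ℕ) : ℂ[X]) * derivative w * p + (e : ℂ[X]) * derivative p * w)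
        = 0 := by
      have f1 : p ^ e * ((e : ℂ[X]) * derivative p * w) = derivative (p ^ e) * p * w := by
        rw [e1]
        conv_lhs => rw [he', pow_succ]
        rw [he']
        ring
      have f2 : p ^ e * (((a * d : ℕ) : ℂ[X]) * derivative w * p) = derivative (p ^ e) * p * w := by
        rw [e2]
        conv_lhs => rw [hpw, hA', pow_succ]
        rw [hA']
        ring
      linear_combination f1 - f2
    exact (mul_eq_zero.1 e3).resolve_left hpe
  set u₂ := u - C u.leadingCoeff * w with hu₂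
  have hsol₂ : Sol p u₂ (a * d) e c := by
    unfold Sol at hu ⊢
    rw [hu₂, derivative_sub, derivative_C_mul]
    linear_combination hu - C u.leadingCoeff * hwsol
  have hu₂0 := hsol₂.ne_zero hp hc
  have h7 : 2 ≤ u₂.natDegree := two_le_natDegree hu₂0 hμν (hsol₂.root hp hc he.ne' μ hμ).1
    (hsol₂.root hp hc he.ne' ν hν).1
  have h8 := hsol₂.degree hp hc h7 hdegp
  have huM : u.natDegree = M := by
    rw [hdeg] at h3
    have h10 : (a * d) * u.natDegree = (a * d) * M := by
      rw [← h3]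
      calc e * (a * N) = a * (e * N) := by ring
        _ = a * (d * M) := by rw [hM]
        _ = _ := by ring
    exact Nat.eq_of_mul_eq_mul_left (Nat.mul_pos ha hd) h10
  have h9 : u₂.natDegree = M := by
    rw [← huM]
    have h10 : (a * d) * u₂.natDegree = (a * d) * u.natDegree := by rw [← h8, ← h3]
    exact Nat.eq_of_mul_eq_mul_left (Nat.mul_pos ha hd) h10
  have hlu : u.leadingCoeff ≠ 0 := leadingCoeff_ne_zero.mpr hu0
  have h11 : u₂.degree < u.degree := by
    apply degree_sub_lt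
    · rw [degree_C_mul hlu, degree_eq_natDegree hu0, degree_eq_natDegree hwm.ne_zero, hwd, huM]
    · exact hu0
    · rw [leadingCoeff_mul, leadingCoeff_C, hwm.leadingCoeff, mul_one]
  rw [degree_eq_natDegree hu₂0, degree_eq_natDegree hu0, h9, huM] at h11
  exact lt_irrefl _ h11

/-- orbit sums: a common divisor of all multiplicities of `p ∈ X^* ℂ[X^q]` -/
theorem orbit_dvd {p : ℂ[X]} (hp : p ≠ 0) {q a N N₀ G : ℕ} (hq : 0 < q) (ha : 0 < a)
    (hdeg : p.natDegree = a * N) (hN₀ : p.rootMultiplicity 0 = a * N₀)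
    (f : ℂ → ℕ) (hf : ∀ μ, p.rootMultiplicity μ = a * f μ) (hG : ∀ μ, G ∣ f μ)
    (hr : ∀ j, p.coeff j ≠ 0 → (q : ℤ) ∣ (j : ℤ) - (a * N : ℕ)) :
    q * G ∣ N - N₀ := by
  have hNf : N = ∑ τ ∈ p.roots.toFinset, f τ := by
    have e1 := deg_sum_mult (f := p) (S := p.roots.toFinset) (Finset.Subset.refl _)
    rw [hdeg] at e1
    have e2 : a * N = a * ∑ τ ∈ p.roots.toFinset, f τ := by
      rw [e1, Finset.mul_sum]
      exact Finset.sum_congr rfl fun τ _ => hf τ
    exact Nat.eq_of_mul_eq_mul_left ha e2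
  have hf0 : f 0 = N₀ := by
    have := hf 0
    rw [hN₀] at this
    exact (Nat.eq_of_mul_eq_mul_left ha this).symm
  rcases Nat.eq_zero_or_pos G with hG0 | hG0
  · -- all multiplicities vanish
    have e1 : ∀ τ, f τ = 0 := by
      intro τ
      have := hG τ
      rw [hG0] at this
      exact Nat.eq_zero_of_zero_dvd this
    have e2 : N = 0 := by
      rw [hNf]
      exact Finset.sum_eq_zero fun τ _ => e1 τ
    rw [e2]; simp
  choose g hg using hG
  obtain ⟨M, hM⟩ : ∃ M, N = G * M := by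
    refine ⟨∑ τ ∈ p.roots.toFinset, g τ, ?_⟩
    rw [hNf, Finset.mul_sum]
    exact Finset.sum_congr rfl fun τ _ => hg τ
  obtain ⟨R, hRm, hRd, hpR⟩ := exists_power hp (Nat.mul_pos ha hG0)
    (show p.natDegree = (a * G) * M by rw [hdeg, hM]; ring) (by
      intro τ
      exact ⟨g τ, by rw [hf, hg]; ring⟩)
  set lc := p.leadingCoeff with hlc
  have hlc0 : lc ≠ 0 := leadingCoeff_ne_zero.2 hp
  have hω := Complex.isPrimitiveRoot_exp q hq.ne'
  set ω := Complex.exp (2 * Real.pi * Complex.I / q) with hωdef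
  have hω0 : ω ≠ 0 := hω.ne_zero hq.ne'
  have hωr : ∀ j, p.coeff j ≠ 0 → ω ^ j = ω ^ (a * N) := by
    intro j hj
    have h1 := hr j hj
    have h2 : (ω : ℂ) ^ ((j : ℤ) - (a * N : ℕ)) = 1 := by
      rw [hω.zpow_eq_one_iff_dvd]; exact h1
    rw [zpow_sub₀ hω0, zpow_natCast, zpow_natCast, div_eq_one_iff_eq (pow_ne_zero _ hω0)] at h2
    exact h2
  have h1 : p.comp (C ω * X) = C (ω ^ (a * N)) * p := by
    ext j
    rw [comp_C_mul_X_coeff, coeff_C_mul]
    by_cases hj : p.coeff j = 0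
    · rw [hj]; simp
    · rw [hωr j hj]; ring
  -- R.comp divides R
  set R' := R.comp (C ω * X) with hR'
  have h2 : R' ^ (a * G) ∣ R ^ (a * G) := by
    have e1 : C lc * R' ^ (a * G) = C (ω ^ (a * N)) * (C lc * R ^ (a * G)) := by
      rw [← hpR, ← h1]
      conv_rhs => rw [hpR]
      rw [mul_comp, C_comp, pow_comp]
    have e2 : R' ^ (a * G) = C (ω ^ (a * N)) * R ^ (a * G) := by
      have e3 : C lc * R' ^ (a * G) = C lc * (C (ω ^ (a * N)) * R ^ (a * G)) := by
        rw [e1]; ring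
      exact mul_left_cancel₀ (by rw [Ne, C_eq_zero]; exact hlc0) e3
    have hu : IsUnit (C (ω ^ (a * N)) : ℂ[X]) := by
      rw [isUnit_C]
      exact (pow_ne_zero _ hω0).isUnit
    rw [e2]
    exact (hu.mul_left_dvd).2 (dvd_refl _)
  have h3 : R' ∣ R := (IsIntegrallyClosed.pow_dvd_pow_iff (Nat.mul_pos ha hG0).ne').1 h2
  obtain ⟨s, hs⟩ := h3
  have hR0 : R ≠ 0 := hRm.ne_zero
  have hs0 : s ≠ 0 := by
    intro h0
    apply hR0
    rw [hs, h0, mul_zero]
  have hR'0 : R' ≠ 0 := by
    intro h0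
    apply hR0
    rw [hs, h0, zero_mul]
  have hR'd : R'.natDegree = R.natDegree := by
    rw [hR', natDegree_comp, natDegree_C_mul_X _ hω0, mul_one]
  have hsd : s.natDegree = 0 := by
    have := congrArg natDegree hs
    rw [natDegree_mul hR'0 hs0, hR'd] at this
    omega
  obtain ⟨c, hc⟩ : ∃ c, s = C c := ⟨s.coeff 0, eq_C_of_natDegree_eq_zero hsd⟩
  have hco : ∀ j, R.coeff j = R.coeff j * ω ^ j * c := by
    intro j
    conv_lhs => rw [hs, hc, coeff_mul_C, hR', comp_C_mul_X_coeff]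
  -- the multiplicity of zero in R
  have hmR : R.rootMultiplicity 0 = g 0 := by
    have e1 : p.rootMultiplicity 0 = (a * G) * R.rootMultiplicity 0 := by
      conv_lhs => rw [hpR]
      rw [← count_roots, roots_C_mul _ hlc0, roots_pow, Multiset.count_nsmul, count_roots]
    rw [hf, hg] at e1
    have e2 : (a * G) * R.rootMultiplicity 0 = (a * G) * g 0 := by rw [← e1]; ring
    exact Nat.eq_of_mul_eq_mul_left (Nat.mul_pos ha hG0) e2
  have hc0 : R.coeff (g 0) ≠ 0 := by
    rw [← hmR]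
    exact coeff_eq_zero_ne R hR0
  have k1 : ω ^ M * c = 1 := by
    have e1 := hco M
    have e2 : R.coeff M = 1 := by rw [← hRd]; exact hRm
    rw [e2, one_mul] at e1
    exact e1.symm
  have k2 : ω ^ (g 0) * c = 1 := by
    have e1 := hco (g 0)
    have e3 : R.coeff (g 0) * (ω ^ (g 0) * c) = R.coeff (g 0) * 1 := by
      rw [mul_one]; rw [← mul_assoc]; exact e1.symm
    exact mul_left_cancel₀ hc0 e3
  have hcne : c ≠ 0 := by
    intro h0; rw [h0, mul_zero] at k1; exact zero_ne_one k1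
  have hgM : g 0 ≤ M := by
    have e1 := sum_mult_le p {0}
    rw [Finset.sum_singleton, hf, hg, hdeg, hM] at e1
    have e2 : (a * G) * g 0 ≤ (a * G) * M := by
      calc (a * G) * g 0 = a * (G * g 0) := by ring
        _ ≤ a * (G * M) := e1
        _ = _ := by ring
    exact Nat.le_of_mul_le_mul_left e2 (Nat.mul_pos ha hG0)
  have k3 : ω ^ (M - g 0) = 1 := by
    have e1 : ω ^ M = ω ^ (g 0) := mul_right_cancel₀ hcne (by rw [k1, k2])
    have e2 : ω ^ (g 0) * ω ^ (M - g 0) = ω ^ (g 0) * 1 := by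
      rw [← pow_add, Nat.add_sub_cancel' hgM, e1, mul_one]
    exact mul_left_cancel₀ (pow_ne_zero _ hω0) e2
  have k4 : q ∣ M - g 0 := (hω.pow_eq_one_iff_dvd _).1 k3
  have k5 : N - N₀ = G * (M - g 0) := by
    rw [← hf0, hg, hM, Nat.mul_sub]
  rw [k5, mul_comm q G]
  exact Nat.mul_dvd_mul_left G k4

/-- refined orbit bound -/
theorem orbit_bound' (p : ℂ[X]) (hp : p ≠ 0) (q : ℕ) (hq : 0 < q) (r : ℕ)
    (hr : ∀ j, p.coeff j ≠ 0 → (q : ℤ) ∣ (j : ℤ) - r) (μ : ℂ) (hμ : μ ≠ 0) :
    q * p.rootMultiplicity μ + p.rootMultiplicity 0 ≤ p.natDegree := by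
  set m := p.rootMultiplicity 0 with hm
  obtain ⟨p1, hp1, hp1e⟩ := exists_fact p hp 0
  rw [← hm, C_0, sub_zero] at hp1
  have hp10 : p1 ≠ 0 := by
    intro h0; rw [h0] at hp1e; simp at hp1e
  have hXm : (X ^ m : ℂ[X]) ≠ 0 := pow_ne_zero _ X_ne_zero
  have hmul : p.rootMultiplicity μ = p1.rootMultiplicity μ := by
    conv_lhs => rw [hp1]
    rw [rootMultiplicity_mul (mul_ne_zero hXm hp10)]
    have : (X ^ m : ℂ[X]).rootMultiplicity μ = 0 := by
      apply rootMultiplicity_eq_zero
      intro h0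
      rw [IsRoot.def, eval_pow, eval_X] at h0
      exact hμ (eq_zero_of_pow_eq_zero h0)
    rw [this, zero_add]
  have hdeg : p.natDegree = m + p1.natDegree := by
    conv_lhs => rw [hp1]
    rw [natDegree_mul hXm hp10, natDegree_X_pow]
  obtain ⟨q', rfl⟩ : ∃ q', q = q' + 1 := ⟨q - 1, by omega⟩
  have h1 := orbit_bound p1 hp10 (q' + 1) hq (r + q' * m) (by
    intro j hj
    have e1 : p.coeff (j + m) ≠ 0 := by
      rw [hp1, coeff_X_pow_mul]; exact hj
    have e2 := hr _ e1
    obtain ⟨z, hz⟩ := e2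
    refine ⟨z - m, ?_⟩
    push_cast at hz ⊢
    linear_combination hz) μ hμ
  rw [hmul, hdeg]
  omega

end Pool.Agent.Lib.MP_2d59ee_ag
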