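import Mathlib
import Pool.Agent.Lib.MP_2d59ee_ag.R.R2b

set_option autoImplicit false

/-! Row R2: level lemmas. -/

namespace Pool.Agent.Lib.MP_2d59ee_ag

open Polynomial

/-- a nonzero element has an order -/
theorem exists_order {H : LS[X]} (hH : H ≠ 0) : ∃ n : ℤ, LowB H (-n) ∧ lev (-n) H ≠ 0 := by
  have hne : H.support.Nonempty := by
    rw [nonempty_support_iff]; exact hH
  obtain ⟨j0, hj0, hmin⟩ := H.support.exists_min_image (fun j => (H.coeff j).order) hne
  refine ⟨-(H.coeff j0).order, ?_, ?_⟩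
  · intro m hm
    rw [neg_neg] at hm
    ext j
    rw [lev_coeff, coeff_zero]
    by_contra hcon
    have h1 : j ∈ H.support := by
      rw [mem_support_iff]; exact HahnSeries.ne_zero_of_coeff_ne_zero hcon
    have h2 := hmin j h1
    have h3 : (H.coeff j).order ≤ m := HahnSeries.order_le_of_coeff_ne_zero hcon
    exact absurd hm (not_lt.2 (h2.trans h3))
  · intro h0
    have h1 := congrArg (fun f => f.coeff j0) h0
    simp only [coeff_zero] at h1
    rw [lev_coeff, neg_neg] at h1
    exact (mem_support_iff.1 hj0) (HahnSeries.coeff_order_eq_zero.1 h1)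

theorem order_unique {H : LS[X]} {n n' : ℤ} (h : LowB H (-n)) (h0 : lev (-n) H ≠ 0)
    (h' : LowB H (-n')) (h0' : lev (-n') H ≠ 0) : n = n' := by
  rcases lt_trichotomy n n' with hlt | heq | hlt
  · exact absurd (h (-n') (by linarith)) h0'
  · exact heq
  · exact absurd (h' (-n) (by linarith)) h0

/-- degree of a commuting element -/
theorem Comm.degree {P H : LS[X]} {a d : ℕ} {ω : ℚ} {n : ℤ} (h : Comm P a d H ω)
    (hn : LowB H (-n)) (hne : lev (-n) H ≠ 0) :
    (n : ℚ) = ω * d ∧
    (a : ℚ) * (lev (-n) H).natDegree = ω * (lev (-(a * (d : ℤ))) P).natDegree ∧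
    ∀ μ : ℂ, (a : ℚ) * (lev (-n) H).rootMultiplicity μ
      = ω * (lev (-(a * (d : ℤ))) P).rootMultiplicity μ := by
  classical
  obtain ⟨m, h1, h2, h3, h4⟩ := h
  have hmn : m = n := order_unique h1 h2 hn hne
  subst hmn
  refine ⟨h3, ?_, h4⟩
  set g := lev (-m) H with hg
  set p := lev (-(a * (d : ℤ))) P with hp
  have e1 := deg_sum_mult (f := g) (S := g.roots.toFinset ∪ p.roots.toFinset)
    Finset.subset_union_left
  have e2 := deg_sum_mult (f := p) (S := g.roots.toFinset ∪ p.roots.toFinset)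
    Finset.subset_union_right
  rw [e1, e2]
  push_cast
  rw [Finset.mul_sum, Finset.mul_sum]
  exact Finset.sum_congr rfl fun μ _ => h4 μ

/-- comparing powers of `X - μ` -/
theorem pow_compare {U V : ℂ[X]} {μ : ℂ} {i j : ℕ} (h : (X - C μ) ^ i * U = (X - C μ) ^ j * V)
    (hV : V.eval μ ≠ 0) : i ≤ j := by
  by_contra hcon
  push Not at hcon
  obtain ⟨r, hr⟩ : ∃ r, i = j + (r + 1) := ⟨i - j - 1, by omega⟩
  apply hV
  have h1 : (X - C μ) ^ j * ((X - C μ) ^ (r + 1) * U) = (X - C μ) ^ j * V := by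
    rw [← h, hr, pow_add]; ring
  have h2 := mul_left_cancel₀ (pow_ne_zero _ (X_sub_C_ne_zero μ)) h1
  rw [← h2]
  simp

theorem xder (p1 : ℂ[X]) (μ : ℂ) (n : ℕ) :
    (X - C μ) * derivative ((X - C μ) ^ n * p1) =
      (X - C μ) ^ n * (C (n : ℂ) * p1 + (X - C μ) * derivative p1) := by
  rw [mul_derivative_fact]
  simp

/-- the local form of the bracket of two polynomials -/
theorem local_form (p g : ℂ[X]) (A n : ℂ) (μ : ℂ) (r s : ℕ) (p1 g1 : ℂ[X])
    (hp : p = (X - C μ) ^ r * p1) (hg : g = (X - C μ) ^ s * g1) :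
    (X - C μ) * (C A * p * derivative g - C n * derivative p * g) =
      (X - C μ) ^ (r + s) * (C A * p1 * (C (s : ℂ) * g1 + (X - C μ) * derivative g1)
        - C n * (C (r : ℂ) * p1 + (X - C μ) * derivative p1) * g1) := by
  have e1 := xder p1 μ r
  have e2 := xder g1 μ s
  rw [← hp] at e1
  rw [← hg] at e2
  calc (X - C μ) * (C A * p * derivative g - C n * derivative p * g)
      = C A * p * ((X - C μ) * derivative g) - C n * ((X - C μ) * derivative p) * g := by ring
    _ = _ := by
      rw [e1, e2]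
      conv_lhs => rw [hp, hg]
      rw [pow_add]; ring

/-- commuting leading forms -/
theorem comm_mult {p g : ℂ[X]} (hp : p ≠ 0) (hg : g ≠ 0) {A n : ℤ}
    (h : C (-A : ℂ) * p * derivative g - C (-n : ℂ) * derivative p * g = 0) (μ : ℂ) :
    n * p.rootMultiplicity μ = A * g.rootMultiplicity μ := by
  obtain ⟨p1, hp1, hp1e⟩ := exists_fact p hp μ
  obtain ⟨g1, hg1, hg1e⟩ := exists_fact g hg μ
  have e1 := local_form p g (-A : ℂ) (-n : ℂ) μ _ _ p1 g1 hp1 hg1
  rw [h, mul_zero] at e1
  have e2 := (mul_eq_zero.1 e1.symm).resolve_left (pow_ne_zero _ (X_sub_C_ne_zero μ))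
  have e3 := congrArg (eval μ) e2
  simp only [eval_sub, eval_mul, eval_add, eval_C, eval_X, sub_self, zero_mul, add_zero,
    eval_zero] at e3
  have e4 : (((n * p.rootMultiplicity μ - A * g.rootMultiplicity μ : ℤ)) : ℂ)
      * (p1.eval μ * g1.eval μ) = 0 := by
    push_cast
    linear_combination e3
  rcases mul_eq_zero.1 e4 with h5 | h5
  · have h6 : (n * p.rootMultiplicity μ - A * g.rootMultiplicity μ : ℤ) = 0 := by exact_mod_cast h5
    linarith
  · exact absurd h5 (mul_ne_zero hp1e hg1e)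

/-- from vanishing of the leading form of the bracket to `Comm` -/
theorem comm_of_zero {P H : LS[X]} {a d : ℕ} (hd : 0 < d)
    (hp : lev (-(a * (d : ℤ))) P ≠ 0) {n : ℤ} (hn : LowB H (-n)) (hg : lev (-n) H ≠ 0)
    (h : C ((-(a * (d : ℤ)) : ℤ) : ℂ) * lev (-(a * (d : ℤ))) P * derivative (lev (-n) H)
      - C ((-n : ℤ) : ℂ) * derivative (lev (-(a * (d : ℤ))) P) * lev (-n) H = 0) :
    ∃ ω, Comm P a d H ω := by
  have hdQ : (0 : ℚ) < d := by exact_mod_cast hd
  refine ⟨(n : ℚ) / d, n, hn, hg, by rw [div_mul_cancel₀ _ hdQ.ne'], ?_⟩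
  intro μ
  have h' : C (-((a * (d : ℤ) : ℤ)) : ℂ) * lev (-(a * (d : ℤ))) P * derivative (lev (-n) H)
      - C (-n : ℂ) * derivative (lev (-(a * (d : ℤ))) P) * lev (-n) H = 0 := by
    push_cast at h ⊢
    exact h
  have h1 := comm_mult hp hg h' μ
  have h2 : (n : ℚ) * (lev (-(a * (d : ℤ))) P).rootMultiplicity μ
      = a * d * (lev (-n) H).rootMultiplicity μ := by exact_mod_cast h1
  rw [div_mul_eq_mul_div, eq_div_iff hdQ.ne', h2]
  ring

/-- level dichotomy -/
theorem lvl_zero {P H : LS[X]} {a d : ℕ} (ha : 0 < a) (hd : 0 < d)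
    (hP : LowB P (-(a * (d : ℤ)))) (hp : lev (-(a * (d : ℤ))) P ≠ 0)
    (hpd : 0 < (lev (-(a * (d : ℤ))) P).natDegree) (hH : H ≠ 0) (hbr : brB P H = 0) :
    ∃ ω, Comm P a d H ω := by
  obtain ⟨n, hn, hg⟩ := exists_order hH
  have h1 := lev_brB hP hn
  rw [hbr] at h1
  have h2 : lev (-(a * (d : ℤ)) + -n) (0 : LS[X]) = 0 := by
    ext j; rw [lev_coeff]; simp
  rw [h2] at h1
  exact comm_of_zero hd hp hn hg h1.symm

theorem lev_mul_single (G : LS[X]) (E : ℤ) (c : ℂ) (n : ℤ) :
    lev n (G * C (HahnSeries.single E c)) = lev (n - E) G * C c := by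
  ext j
  rw [lev_coeff, coeff_mul_C, coeff_mul_C, lev_coeff]
  have := HahnSeries.coeff_mul_single_add (r := c) (x := G.coeff j) (a := n - E) (b := E)
  rw [sub_add_cancel] at this
  exact this

theorem xder_coeff (f : ℂ[X]) (j : ℕ) : (X * derivative f).coeff j = (j : ℂ) * f.coeff j := by
  cases j with
  | zero => simp
  | succ j => rw [coeff_X_mul, coeff_derivative]; push_cast; ring

theorem xder_natDegree (f : ℂ[X]) : (X * derivative f).natDegree ≤ f.natDegree := by
  rw [natDegree_le_iff_coeff_eq_zero]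
  intro j hj
  rw [xder_coeff, coeff_eq_zero_of_natDegree_lt hj, mul_zero]

theorem lvl_dichotomy {P H H' : LS[X]} {a d e : ℕ} {c : ℂ} {κ : ℚ} (ha : 0 < a) (hd : 0 < d)
    (he : 0 < e) (hc : c ≠ 0)
    (hP : LowB P (-(a * (d : ℤ)))) (hp : lev (-(a * (d : ℤ))) P ≠ 0)
    (hpd : 0 < (lev (-(a * (d : ℤ))) P).natDegree) (hH : H ≠ 0)
    (hbr : brB P H = H' * C (HahnSeries.single (-(e : ℤ)) c)) (hH' : Comm P a d H' κ) :
    (∃ ω, Comm P a d H ω) ∨ FTy P a d e H κ := by
  obtain ⟨n, hn, hg0⟩ := exists_order hH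
  have hlev := lev_brB hP hn
  set p := lev (-(a * (d : ℤ))) P with hpdef
  set g := lev (-n) H with hgdef
  set B := C ((-(a * (d : ℤ)) : ℤ) : ℂ) * p * derivative g - C ((-n : ℤ) : ℂ) * derivative p * g
    with hB
  by_cases hB0 : B = 0
  · left
    exact comm_of_zero hd hp hn hg0 hB0
  right
  obtain ⟨n', hn', hg0', hn'κ, hmult'⟩ := hH'
  have hdeg' : (a : ℚ) * (lev (-n') H').natDegree = κ * p.natDegree :=
    (Comm.degree ⟨n', hn', hg0', hn'κ, hmult'⟩ hn' hg0').2.1
  set g' := lev (-n') H' with hg'def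
  -- orders
  have hlow1 : LowB (brB P H) (-(a * d + n)) := by
    intro m hm
    have hz : (Psi (brB P H)).coeff m = 0 := by
      rw [Psi_brB]
      refine (Low.br (hP.low) (hn.low) ratD ratD_isDer) _ ?_
      linarith
    rw [Psi_coeff] at hz
    by_contra hcon
    exact toR_ne_zero hcon hz
  have hl1 : lev (-(a * d + n)) (brB P H) = B := by
    have : (-(a * d + n) : ℤ) = -(a * (d : ℤ)) + -n := by ring
    rw [this, hlev]
  have hlow2 : LowB (brB P H) (-(n' + e)) := by
    intro m hm
    rw [hbr, lev_mul_single, hn' _ (by linarith), zero_mul]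
  have hl2 : lev (-(n' + e)) (brB P H) = g' * C c := by
    rw [hbr, lev_mul_single, hg'def]; congr 2; ring
  have hg'c : g' * C c ≠ 0 := mul_ne_zero hg0' (by rw [Ne, C_eq_zero]; exact hc)
  have hord : (a * d + n : ℤ) = n' + e :=
    order_unique hlow1 (by rw [hl1]; exact hB0) hlow2 (by rw [hl2]; exact hg'c)
  have hBg : B = g' * C c := by rw [← hl1, ← hl2, hord]
  have hdQ : (0 : ℚ) < d := by exact_mod_cast hd
  have haQ : (0 : ℚ) < a := by exact_mod_cast ha
  have heQ : (0 : ℚ) < e := by exact_mod_cast he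
  have hnκ : (n : ℚ) = (κ - a) * d + e := by
    have h1 : ((a : ℚ) * d + n) = n' + e := by exact_mod_cast hord
    rw [hn'κ] at h1
    linarith
  refine ⟨n, hn, hg0, hnκ, ?_, ?_⟩
  · intro μ hμ
    obtain ⟨p1, hp1, hp1e⟩ := exists_fact p hp μ
    obtain ⟨g1, hg1, hg1e⟩ := exists_fact g hg0 μ
    obtain ⟨h1, hh1, hh1e⟩ := exists_fact g' hg0' μ
    have hr0 : 0 < p.rootMultiplicity μ := (rootMultiplicity_pos hp).2 hμ
    set r := p.rootMultiplicity μ with hr
    set s := g.rootMultiplicity μ with hs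
    set t := g'.rootMultiplicity μ with ht
    have hat : (a : ℚ) * t = κ * r := hmult' μ
    have e1 := local_form p g ((-(a * (d : ℤ)) : ℤ) : ℂ) ((-n : ℤ) : ℂ) μ r s p1 g1 hp1 hg1
    rw [← hB, hBg] at e1
    have e2 : (X - C μ) * (g' * C c) = (X - C μ) ^ (t + 1) * (h1 * C c) := by
      conv_lhs => rw [hh1]
      rw [pow_succ]; ring
    rw [e2] at e1
    set W := C ((-(a * (d : ℤ)) : ℤ) : ℂ) * p1 * (C (s : ℂ) * g1 + (X - C μ) * derivative g1)
        - C ((-n : ℤ) : ℂ) * (C (r : ℂ) * p1 + (X - C μ) * derivative p1) * g1 with hW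
    have hV : (h1 * C c).eval μ ≠ 0 := by
      rw [eval_mul, eval_C]; exact mul_ne_zero hh1e hc
    have i1 : r + s ≤ t + 1 := pow_compare e1.symm hV
    have hWe : W.eval μ = ((n * r - a * d * s : ℤ) : ℂ) * (p1.eval μ * g1.eval μ) := by
      rw [hW]
      simp only [eval_sub, eval_mul, eval_add, eval_C, eval_X, sub_self, zero_mul, add_zero]
      push_cast
      ring
    by_cases hz : (n * r - a * d * s : ℤ) = 0
    · exfalso
      have hW0 : W.eval μ = 0 := by rw [hWe, hz]; simp
      have i2 : r + s < t + 1 := by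
        refine lt_of_le_of_ne i1 ?_
        intro heq
        rw [heq] at e1
        have e3 := mul_left_cancel₀ (pow_ne_zero _ (X_sub_C_ne_zero μ)) e1
        apply hV
        rw [e3]; exact hW0
      have i3 : (r : ℚ) + s ≤ t := by
        have : r + s ≤ t := by omega
        exact_mod_cast this
      have hzQ : (n : ℚ) * r = a * d * s := by
        have : (n * r : ℤ) = a * d * s := by linarith
        exact_mod_cast this
      rw [hnκ] at hzQ
      have hrQ : (0 : ℚ) < r := by exact_mod_cast hr0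
      have i4 : (a : ℚ) * (r + s) ≤ κ * r := by
        rw [← hat]; exact mul_le_mul_of_nonneg_left i3 haQ.le
      have i5 : (d : ℚ) * (a * (r + s)) ≤ d * (κ * r) := mul_le_mul_of_nonneg_left i4 hdQ.le
      have i6 : (0 : ℚ) < e * r := mul_pos heQ hrQ
      linarith
    · have hW0 : W.eval μ ≠ 0 := by
        rw [hWe]
        exact mul_ne_zero (by exact_mod_cast hz) (mul_ne_zero hp1e hg1e)
      have i2 : t + 1 ≤ r + s := pow_compare e1 hW0
      have i3 : r + s = t + 1 := le_antisymm i1 i2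
      have i4 : (r : ℚ) + s = t + 1 := by exact_mod_cast i3
      have i5 : (a : ℚ) * (r + s) = a * (t + 1) := by rw [i4]
      linarith
  · -- degree
    set D := p.natDegree with hD
    set M := g.natDegree with hM
    by_cases hz : (n * D - a * d * M : ℤ) = 0
    · right
      have h1 : (n : ℚ) * D = a * d * M := by
        have : (n * D : ℤ) = a * d * M := by linarith
        exact_mod_cast this
      rw [← h1, hnκ]
    · left
      have hXB : X * B = C ((-(a * (d : ℤ)) : ℤ) : ℂ) * (p * (X * derivative g))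
          - C ((-n : ℤ) : ℂ) * ((X * derivative p) * g) := by rw [hB]; ring
      have htop : (X * B).coeff (D + M) ≠ 0 := by
        rw [hXB, coeff_sub, coeff_C_mul, coeff_C_mul,
          coeff_mul_add_eq_of_natDegree_le (le_refl D) (xder_natDegree g),
          coeff_mul_add_eq_of_natDegree_le (xder_natDegree p) (le_refl M), xder_coeff,
          xder_coeff]
        have h1 : ((-(a * (d : ℤ)) : ℤ) : ℂ) * (p.coeff p.natDegree * ((g.natDegree : ℂ) * g.coeff g.natDegree))
            - ((-n : ℤ) : ℂ) * ((p.natDegree : ℂ) * p.coeff p.natDegree * g.coeff g.natDegree)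
            = ((n * D - a * d * M : ℤ) : ℂ) * (p.leadingCoeff * g.leadingCoeff) := by
          rw [leadingCoeff, leadingCoeff, hD, hM]
          push_cast; ring
        rw [h1]
        exact mul_ne_zero (by exact_mod_cast hz)
          (mul_ne_zero (leadingCoeff_ne_zero.2 hp) (leadingCoeff_ne_zero.2 hg0))
      have hle : (X * B).natDegree ≤ D + M := by
        rw [hXB]
        refine (natDegree_sub_le _ _).trans ?_
        apply max_le
        · refine (natDegree_C_mul_le _ _).trans ?_
          refine natDegree_mul_le.trans ?_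
          have := xder_natDegree g
          omega
        · refine (natDegree_C_mul_le _ _).trans ?_
          refine natDegree_mul_le.trans ?_
          have := xder_natDegree p
          omega
      have hdegB : (X * B).natDegree = D + M :=
        le_antisymm hle (le_natDegree_of_ne_zero htop)
      have hdegB' : B.natDegree + 1 = D + M := by
        rw [natDegree_X_mul hB0] at hdegB
        exact hdegB
      have hdegg' : B.natDegree = g'.natDegree := by
        rw [hBg, natDegree_mul_C hc]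
      rw [hdegg'] at hdegB'
      have h2 : (g'.natDegree : ℚ) + 1 = D + M := by exact_mod_cast hdegB'
      have h3 : (a : ℚ) * (g'.natDegree + 1) = a * (D + M) := by rw [h2]
      linarith

end Pool.Agent.Lib.MP_2d59ee_ag
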