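import Mathlib
import Pool.Agent.Lib.MP_2d59ee_ag.R.Defs

set_option autoImplicit false

namespace Pool.Agent.Lib.MP_2d59ee_ag

open Polynomial

theorem ev_C_C (P Q : LS[X]) (z : ℂ) : ev P Q (C (C z)) = cst z := by
  simp [ev]

theorem ev_C_X (P Q : LS[X]) : ev P Q (C X) = P := by
  simp [ev]

theorem ev_X (P Q : LS[X]) : ev P Q X = Q := by
  simp [ev]

/-- two ring homs on `ℂ[X][X]` agreeing on constants and both variables are equal -/
theorem hom_ext2 {R : Type*} [Semiring R] (f g : (ℂ[X])[X] →+* R)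
    (h0 : ∀ z : ℂ, f (C (C z)) = g (C (C z))) (h1 : f (C X) = g (C X)) (h2 : f X = g X) :
    f = g := by
  apply Polynomial.ringHom_ext
  · intro p
    have : f.comp (C : ℂ[X] →+* (ℂ[X])[X]) = g.comp (C : ℂ[X] →+* (ℂ[X])[X]) := by
      apply Polynomial.ringHom_ext
      · intro z; exact h0 z
      · exact h1
    exact congrArg (fun φ => φ p) this
  · exact h2

noncomputable def T0H (q : ℕ) (hq : 0 < q) (s : ℤ) : LS[X] →+* LS[X] :=
  (compRingHom (C (tm s) * X)).comp (mapRingHom (ram q hq))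

theorem T0H_apply (q : ℕ) (hq : 0 < q) (s : ℤ) (P : LS[X]) : T0H q hq s P = T0 q hq s P := rfl

theorem ram_C (q : ℕ) (hq : 0 < q) (z : ℂ) : ram q hq (HahnSeries.C z) = HahnSeries.C z := by
  ext n
  by_cases hn : (q : ℤ) ∣ n
  · obtain ⟨m, rfl⟩ := hn
    rw [ram_coeff, HahnSeries.C_apply]
    by_cases hm : m = 0
    · subst hm; simp
    · have h2 : (q : ℤ) * m ≠ 0 := mul_ne_zero (by exact_mod_cast hq.ne') hm
      rw [HahnSeries.coeff_single_of_ne hm, HahnSeries.coeff_single_of_ne h2]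
  · rw [ram_coeff_of_not_dvd _ _ _ _ hn, HahnSeries.C_apply]
    have h2 : n ≠ 0 := by rintro rfl; exact hn (dvd_zero _)
    rw [HahnSeries.coeff_single_of_ne h2]

theorem T0_cst (q : ℕ) (hq : 0 < q) (s : ℤ) (z : ℂ) : T0 q hq s (cst z) = cst z := by
  rw [T0, cst, RingHom.comp_apply, map_C, ram_C, C_comp]

theorem ev_T0 (q : ℕ) (hq : 0 < q) (s : ℤ) (P Q : LS[X]) (h : (ℂ[X])[X]) :
    T0 q hq s (ev P Q h) = ev (T0 q hq s P) (T0 q hq s Q) h := by
  have : (T0H q hq s).comp (ev P Q) = ev (T0 q hq s P) (T0 q hq s Q) := by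
    apply hom_ext2
    · intro z
      rw [RingHom.comp_apply, ev_C_C, ev_C_C, T0H_apply, T0_cst]
    · rw [RingHom.comp_apply, ev_C_X, ev_C_X, T0H_apply]
    · rw [RingHom.comp_apply, ev_X, ev_X, T0H_apply]
  exact congrArg (fun φ => φ h) this

theorem ev_shift (μ : ℂ) (P Q : LS[X]) (h : (ℂ[X])[X]) :
    shift μ (ev P Q h) = ev (shift μ P) (shift μ Q) h := by
  have : (compRingHom (X + C (HahnSeries.C μ) : LS[X])).comp (ev P Q)
      = ev (shift μ P) (shift μ Q) := by
    apply hom_ext2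
    · intro z
      rw [RingHom.comp_apply, ev_C_C, ev_C_C, cst, RingHom.comp_apply]
      simp
    · rw [RingHom.comp_apply, ev_C_X, ev_C_X]; rfl
    · rw [RingHom.comp_apply, ev_X, ev_X]; rfl
  exact congrArg (fun φ => φ h) this

theorem thetaB_cst (z : ℂ) : thetaB (cst z) = 0 := by
  rw [cst, RingHom.comp_apply, thetaB_C, theta_C, C_0]

theorem derivative_cst (z : ℂ) : derivative (cst z) = 0 := by
  rw [cst, RingHom.comp_apply, derivative_C]

theorem brB_cst (P : LS[X]) (z : ℂ) : brB P (cst z) = 0 := by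
  rw [brB, br, thetaB_cst, derivative_cst]; ring

theorem brB_isDer (P : LS[X]) : IsDer (brB P) := br_isDer thetaB_isDer deriv_isDer P

theorem brB_self (P : LS[X]) : brB P P = 0 := br_self _ _ P

theorem brB_evC (P Q : LS[X]) (f : ℂ[X]) : brB P (ev P Q (C f)) = 0 := by
  have hD := brB_isDer P
  induction f using Polynomial.induction_on' with
  | add p q hp hq => rw [C_add, map_add, hD.add, hp, hq, add_zero]
  | monomial n z =>
    rw [← C_mul_X_pow_eq_monomial, C_mul, C_pow, map_mul, map_pow, ev_C_C, ev_C_X, hD.mul,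
      brB_cst, mul_zero, add_zero]
    cases n with
    | zero => rw [pow_zero, hD.one, mul_zero]
    | succ n => rw [hD.pow, brB_self, mul_zero, mul_zero]

theorem brB_ev (P Q : LS[X]) (h : (ℂ[X])[X]) :
    brB P (ev P Q h) = ev P Q (derivative h) * brB P Q := by
  have hD := brB_isDer P
  induction h using Polynomial.induction_on' with
  | add p q hp hq => rw [map_add, hD.add, hp, hq, derivative_add, map_add, add_mul]
  | monomial n f =>
    rw [← C_mul_X_pow_eq_monomial, map_mul, map_pow, ev_X, hD.mul, brB_evC, mul_zero, add_zero,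
      derivative_C_mul, derivative_X_pow, map_mul, map_mul, map_pow, ev_X]
    cases n with
    | zero => rw [pow_zero, hD.one]; simp
    | succ n =>
      rw [hD.pow]
      simp only [Nat.succ_sub_one]
      have : ev P Q (C ((n + 1 : ℕ) : ℂ[X])) = ((n + 1 : ℕ) : LS[X]) := by
        simp
      rw [this]; ring

end Pool.Agent.Lib.MP_2d59ee_ag
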