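import Mathlib
import Pool.Agent.Lib.MP_2d59ee_ag.R.R3a
import Pool.Agent.Lib.MP_2d59ee_ag.R.R2

set_option autoImplicit false

namespace Pool.Agent.Lib.MP_2d59ee_ag

open Polynomial

theorem ev_C_eq (P Q : LS[X]) (f : ℂ[X]) :
    ev P Q (C f) = (f.map (HahnSeries.C : ℂ →+* LS)).comp P := by
  induction f using Polynomial.induction_on' with
  | add p q hp hq => rw [C_add, map_add, hp, hq, Polynomial.map_add, add_comp]
  | monomial n z =>
    rw [← C_mul_X_pow_eq_monomial, C_mul, C_pow, map_mul, map_pow, ev_C_C, ev_C_X,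
      Polynomial.map_mul, Polynomial.map_pow, map_C, map_X, mul_comp, C_comp, pow_comp, X_comp]
    rfl

theorem ev_ne_zero {P Q : LS[X]} {a N : ℕ} {α : ℤ} {k : ℚ} {E : ℕ} {c : ℂ} (ha : 0 < a)
    (hN : 0 < N) (hc : c ≠ 0) (hbr : brB P Q = C (HahnSeries.single (-(E : ℤ)) c))
    (hP : Corner P a α N k) {h : (ℂ[X])[X]} (hh : h ≠ 0) : ev P Q h ≠ 0 := by
  have hPdeg : 0 < P.natDegree := by
    have h1 : P.coeff (a * N) ≠ 0 := HahnSeries.ne_zero_of_coeff_ne_zero hP.top
    exact lt_of_lt_of_le (Nat.mul_pos ha hN) (le_natDegree_of_ne_zero h1)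
  have hbr0 : brB P Q ≠ 0 := by
    rw [hbr, Ne, C_eq_zero, HahnSeries.single_eq_zero_iff]; exact hc
  have key : ∀ n : ℕ, ∀ h : (ℂ[X])[X], h ≠ 0 → h.natDegree = n → ev P Q h ≠ 0 := by
    intro n
    induction n using Nat.strong_induction_on with
    | _ n ih =>
    intro h hh hn h0
    have h1 := brB_ev P Q h
    rw [h0, (brB_isDer P).zero] at h1
    have h2 : ev P Q (derivative h) = 0 := by
      rcases mul_eq_zero.mp h1.symm with h' | h'
      · exact h'
      · exact absurd h' hbr0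
    rcases Nat.eq_zero_or_pos n with hn0 | hn0
    · rw [hn0] at hn
      obtain ⟨f, rfl⟩ := natDegree_eq_zero.mp hn
      rw [ev_C_eq, comp_eq_zero_iff] at h0
      rcases h0 with h' | ⟨-, h'⟩
      · rw [Polynomial.map_eq_zero] at h'
        exact hh (by rw [h', C_0])
      · rw [h', natDegree_C] at hPdeg; exact lt_irrefl _ hPdeg
    · have h3 : derivative h ≠ 0 := by
        intro h'
        have := natDegree_eq_zero_of_derivative_eq_zero h'
        omega
      have h4 : (derivative h).natDegree < n := by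
        rw [← hn]
        exact natDegree_derivative_lt (by omega)
      exact ih _ h4 _ h3 rfl h2
  exact key _ h hh rfl

theorem lowB_iff {P : LS[X]} {i : ℤ} : LowB P i ↔ ∀ j, Low (P.coeff j) i := by
  constructor
  · intro h j n hn
    rw [← lev_coeff, h n hn, coeff_zero]
  · intro h n hn
    ext j
    rw [lev_coeff, h j n hn, coeff_zero]

theorem Low.sum' {ι : Type*} (s : Finset ι) (f : ι → LS) (i : ℤ) (h : ∀ x ∈ s, Low (f x) i) :
    Low (∑ x ∈ s, f x) i := by
  classical
  induction s using Finset.induction_on with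
  | empty => intro n _; simp
  | insert a s ha ih =>
    rw [Finset.sum_insert ha]
    intro n hn
    rw [HahnSeries.coeff_add, h a (Finset.mem_insert_self _ _) n hn,
      ih (fun x hx => h x (Finset.mem_insert_of_mem hx)) n hn, add_zero]

theorem LowB.mul' {P Q : LS[X]} {i j : ℤ} (hP : LowB P i) (hQ : LowB Q j) :
    LowB (P * Q) (i + j) := by
  rw [lowB_iff] at *
  intro k
  rw [coeff_mul]
  exact Low.sum' _ _ _ (fun x _ => (hP x.1).mul (hQ x.2))

theorem LowB.sum' {ι : Type*} (s : Finset ι) (f : ι → LS[X]) (i : ℤ)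
    (h : ∀ x ∈ s, LowB (f x) i) : LowB (∑ x ∈ s, f x) i := by
  rw [lowB_iff]
  intro j
  rw [finset_sum_coeff]
  exact Low.sum' _ _ _ (fun x hx => lowB_iff.mp (h x hx) j)

theorem LowB.mono {P : LS[X]} {i j : ℤ} (h : LowB P i) (hij : j ≤ i) : LowB P j :=
  fun n hn => h n (lt_of_lt_of_le hn hij)

theorem lowB_cst (z : ℂ) : LowB (cst z) 0 := by
  rw [lowB_iff]
  intro j n hn
  rw [cst, RingHom.comp_apply, coeff_C]
  split_ifs
  · rw [HahnSeries.C_apply, HahnSeries.coeff_single_of_ne hn.ne]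
  · simp

theorem lowB_one : LowB (1 : LS[X]) 0 := by
  have := lowB_cst 1
  rwa [map_one] at this

theorem LowB.pow' {P : LS[X]} {i : ℤ} (h : LowB P i) (m : ℕ) : LowB (P ^ m) (m * i) := by
  induction m with
  | zero => rw [pow_zero]; exact lowB_one.mono (by simp)
  | succ m ih =>
    rw [pow_succ]
    exact (ih.mul' h).mono (by push_cast; linarith)

theorem cst_mul_coeff (z : ℂ) (R : LS[X]) (j : ℕ) (n : ℤ) :
    ((cst z * R).coeff j).coeff n = z * (R.coeff j).coeff n := by
  rw [cst, RingHom.comp_apply, coeff_C_mul, HahnSeries.C_apply, HahnSeries.coeff_single_zero_mul]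

theorem coeff_coeff_sum {ι : Type*} (s : Finset ι) (f : ι → LS[X]) (j : ℕ) (n : ℤ) :
    ((∑ x ∈ s, f x).coeff j).coeff n = ∑ x ∈ s, ((f x).coeff j).coeff n := by
  classical
  induction s using Finset.induction_on with
  | empty => simp
  | insert a s ha ih =>
    rw [Finset.sum_insert ha, Finset.sum_insert ha, coeff_add, HahnSeries.coeff_add, ih]

/-- the polynomial with coefficients `v` -/
noncomputable def hv (M : ℕ) (v : Fin M × Fin M → ℂ) : (ℂ[X])[X] :=
  ∑ x : Fin M × Fin M, C (C (v x) * X ^ (x.1 : ℕ)) * X ^ (x.2 : ℕ)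

theorem hv_coeff (M : ℕ) (v : Fin M × Fin M → ℂ) (x : Fin M × Fin M) :
    ((hv M v).coeff x.2).coeff x.1 = v x := by
  classical
  rw [hv, finset_sum_coeff, finset_sum_coeff, Finset.sum_eq_single x]
  · rw [coeff_C_mul_X_pow, if_pos rfl, coeff_C_mul_X_pow, if_pos rfl]
  · intro y _ hy
    rw [coeff_C_mul_X_pow]
    split_ifs with h1
    · rw [coeff_C_mul_X_pow]
      split_ifs with h2
      · exfalso; apply hy
        ext
        · exact h2.symm
        · exact h1.symm
      · rfl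
    · rw [coeff_zero]
  · intro h; exact absurd (Finset.mem_univ x) h

theorem ev_hv (P Q : LS[X]) (M : ℕ) (v : Fin M × Fin M → ℂ) :
    ev P Q (hv M v) = ∑ x : Fin M × Fin M, cst (v x) * (P ^ (x.1 : ℕ) * Q ^ (x.2 : ℕ)) := by
  rw [hv, map_sum]
  refine Finset.sum_congr rfl (fun x _ => ?_)
  rw [map_mul, map_pow, ev_X, C_mul, map_mul, ev_C_C, C_pow, map_pow, ev_C_X, mul_assoc]

/-- at every level some `h(P,Q)` does not commute with `P` to leading order -/
theorem exists_noncomm {P Q : LS[X]} {a b d N : ℕ} (ha : 0 < a) (hb : 0 < b) (hd : 0 < d)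
    (hN : 0 < N) (hP : LowB P (-(a * (d : ℤ)))) (hQ : LowB Q (-(b * (d : ℤ))))
    (hdeg : (lev (-(a * (d : ℤ))) P).natDegree = a * N)
    (hinj : ∀ h : (ℂ[X])[X], h ≠ 0 → ev P Q h ≠ 0) :
    ∃ h : (ℂ[X])[X], h ≠ 0 ∧ ¬ ∃ ω, Comm P a d (ev P Q h) ω := by
  classical
  by_contra hcon
  push Not at hcon
  set M : ℕ := (a + b) * d + 2 with hM
  set B : ℕ := (a + b) * d * M with hB
  let A : Matrix (Fin (B + 1)) (Fin M × Fin M) ℂ := fun n x =>
    ((P ^ (x.1 : ℕ) * Q ^ (x.2 : ℕ)).coeff ((n : ℕ) * N / d)).coeff (-((n : ℕ) : ℤ))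
  have hlt : Module.finrank ℂ (Fin (B + 1) → ℂ) < Module.finrank ℂ (Fin M × Fin M → ℂ) := by
    rw [Module.finrank_fintype_fun_eq_card, Module.finrank_fintype_fun_eq_card, Fintype.card_fin,
      Fintype.card_prod, Fintype.card_fin]
    have : M * M = B + 2 * M := by rw [hB]; conv_lhs => rw [hM]
                                   rw [hM]; ring
    have hM2 : 2 ≤ M := by omega
    omega
  have hker := LinearMap.ker_ne_bot_of_finrank_lt (f := Matrix.mulVecLin A) hlt
  obtain ⟨v, hvker, hv0⟩ := Submodule.exists_mem_ne_zero_of_ne_bot hker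
  rw [LinearMap.mem_ker, Matrix.mulVecLin_apply] at hvker
  have hh0 : hv M v ≠ 0 := by
    intro h
    apply hv0
    funext x
    rw [← hv_coeff M v x, h]; simp
  obtain ⟨ω, hω⟩ := hcon _ hh0
  have hω' := hω
  obtain ⟨n, hlow, hne, hn, -⟩ := hω
  obtain ⟨-, hdg, -⟩ := Comm.degree hω' hlow hne
  set L := lev (-n) (ev P Q (hv M v)) with hL
  rw [hdeg] at hdg
  have haQ : (0 : ℚ) < a := by exact_mod_cast ha
  have hdQ : (0 : ℚ) < d := by exact_mod_cast hd
  have hNQ : (0 : ℚ) < N := by exact_mod_cast hN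
  have hdg2 : (L.natDegree : ℚ) = ω * N := by
    push_cast at hdg
    have : (a : ℚ) * L.natDegree = a * (ω * N) := by rw [hdg]; ring
    exact mul_left_cancel₀ haQ.ne' this
  have hω0 : 0 ≤ ω := by
    have h1 : (0 : ℚ) ≤ ω * N := by rw [← hdg2]; positivity
    exact nonneg_of_mul_nonneg_left h1 hNQ
  have hn0 : 0 ≤ n := by
    have h1 : (0 : ℚ) ≤ n := by rw [hn]; positivity
    exact_mod_cast h1
  obtain ⟨m, rfl⟩ := Int.eq_ofNat_of_zero_le hn0
  -- bound on the order
  have hlowB : LowB (ev P Q (hv M v)) (-(B : ℤ)) := by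
    rw [ev_hv]
    apply LowB.sum'
    intro x _
    have h1 := (hP.pow' (x.1 : ℕ)).mul' (hQ.pow' (x.2 : ℕ))
    have h2 := (lowB_cst (v x)).mul' h1
    apply h2.mono
    have hx1 : ((x.1 : ℕ) : ℤ) ≤ M := by exact_mod_cast x.1.2.le
    have hx2 : ((x.2 : ℕ) : ℤ) ≤ M := by exact_mod_cast x.2.2.le
    have h3 : ((x.1 : ℕ) : ℤ) * (a * d) ≤ M * (a * d) :=
      mul_le_mul_of_nonneg_right hx1 (by positivity)
    have h4 : ((x.2 : ℕ) : ℤ) * (b * d) ≤ M * (b * d) :=
      mul_le_mul_of_nonneg_right hx2 (by positivity)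
    rw [hB]; push_cast; linarith
  have hmB : m ≤ B := by
    by_contra hlt'
    push Not at hlt'
    apply hne
    exact hlowB _ (by push_cast; omega)
  have hdgm : L.natDegree = m * N / d := by
    have h1 : ((L.natDegree * d : ℕ) : ℚ) = ((m * N : ℕ) : ℚ) := by
      push_cast
      have h2 : ((m : ℤ) : ℚ) = (m : ℚ) := by norm_cast
      have h3 : (m : ℚ) = ω * d := by rw [← h2, hn]
      rw [hdg2, h3]; ring
    have h2 : L.natDegree * d = m * N := by exact_mod_cast h1
    rw [← h2, Nat.mul_div_cancel _ hd]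
  have hz := congrFun hvker ⟨m, by omega⟩
  apply hne
  rw [← leadingCoeff_eq_zero, leadingCoeff, hdgm, hL, lev_coeff, ev_hv, coeff_coeff_sum]
  rw [Matrix.mulVec, dotProduct] at hz
  simp only [Pi.zero_apply] at hz
  rw [← hz]
  refine Finset.sum_congr rfl (fun x _ => ?_)
  rw [cst_mul_coeff, mul_comm]

end Pool.Agent.Lib.MP_2d59ee_ag
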