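import Mathlib
import Pool.Agent.Lib.MP_2d59ee_ag.R.R1
import Pool.Agent.Lib.MP_2d59ee_ag.R.R2
import Pool.Agent.Lib.MP_2d59ee_ag.R.R3

set_option autoImplicit false

/-! The ambient divisor: from a level to the corner above it and to the corners below it. -/

namespace Pool.Agent.Lib.MP_2d59ee_ag

open Polynomial

/-- the data of a level -/
structure LvD (P Q : LS[X]) (a b N E : ℕ) (α : ℤ) (k K : ℚ) (c : ℂ) (d e : ℕ) : Prop where
  ha : 0 < a
  hb : 0 < b
  hN : 0 < N
  hc : c ≠ 0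
  hbr : brB P Q = C (HahnSeries.single (-(E : ℤ)) c)
  hP : Corner P a α N k
  hQ : Corner Q b α N k
  hkK : k < K
  hKP : AtLevel P a α N K
  hKQ : AtLevel Q b α N K
  hd : (d : ℤ) = K.den * α - K.num * N
  he : (e : ℤ) = K.den * E - K.num
  hdpos : 0 < d
  hepos : 0 < e
  hx : α < E * N

section

variable {P Q : LS[X]} {a b N E : ℕ} {α : ℤ} {k K : ℚ} {c : ℂ} {d e : ℕ}

theorem LvD.lowP (D : LvD P Q a b N E α k K c d e) :
    LowB (T0 K.den K.den_pos K.num P) (-(a * (d : ℤ))) :=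
  lowB_T0 D.hP D.hkK D.hKP d D.hd

theorem LvD.lowQ (D : LvD P Q a b N E α k K c d e) :
    LowB (T0 K.den K.den_pos K.num Q) (-(b * (d : ℤ))) :=
  lowB_T0 D.hQ D.hkK D.hKQ d D.hd

theorem LvD.degP (D : LvD P Q a b N E α k K c d e) :
    (lev (-(a * (d : ℤ))) (T0 K.den K.den_pos K.num P)).natDegree = a * N :=
  lev_T0_natDegree D.hP D.hkK d D.hd

theorem LvD.p0 (D : LvD P Q a b N E α k K c d e) :
    lev (-(a * (d : ℤ))) (T0 K.den K.den_pos K.num P) ≠ 0 := by
  have h := lev_T0_top D.hP d D.hd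
  rintro h'
  rw [h'] at h; simp at h

theorem LvD.brT (D : LvD P Q a b N E α k K c d e) :
    brB (T0 K.den K.den_pos K.num P) (T0 K.den K.den_pos K.num Q)
      = C (HahnSeries.single (-(e : ℤ)) ((K.den : ℂ) * c)) := by
  have h := brB_T0_single K.den K.den_pos K.num P Q E c D.hbr
  rw [← D.he] at h
  exact h

theorem LvD.qc (D : LvD P Q a b N E α k K c d e) : (K.den : ℂ) * c ≠ 0 :=
  mul_ne_zero (by exact_mod_cast K.den_pos.ne') D.hc

theorem LvD.evT (D : LvD P Q a b N E α k K c d e) (h : (ℂ[X])[X]) :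
    brB (T0 K.den K.den_pos K.num P)
        (ev (T0 K.den K.den_pos K.num P) (T0 K.den K.den_pos K.num Q) h)
      = ev (T0 K.den K.den_pos K.num P) (T0 K.den K.den_pos K.num Q) (derivative h)
        * C (HahnSeries.single (-(e : ℤ)) ((K.den : ℂ) * c)) := by
  rw [brB_ev, D.brT]

theorem LvD.evNe (D : LvD P Q a b N E α k K c d e) {h : (ℂ[X])[X]} (hh : h ≠ 0) :
    ev P Q h ≠ 0 :=
  ev_ne_zero D.ha D.hN D.hc D.hbr D.hP hh

theorem T0_ne_zero (q : ℕ) (hq : 0 < q) (s : ℤ) {H : LS[X]} (hH : H ≠ 0) : T0 q hq s H ≠ 0 := by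
  obtain ⟨j, hj⟩ : ∃ j, H.coeff j ≠ 0 := by
    by_contra hcon
    push Not at hcon
    exact hH (Polynomial.ext (by simpa using hcon))
  intro h0
  apply hj
  ext n
  have h1 : ((T0 q hq s H).coeff j).coeff (q * n + j * s) = (H.coeff j).coeff n := by
    rw [T0_coeff, mul_tm_coeff, add_sub_cancel_right, ram_coeff]
  rw [← h1, h0]; simp

theorem LvD.evTNe (D : LvD P Q a b N E α k K c d e) {h : (ℂ[X])[X]} (hh : h ≠ 0) :
    ev (T0 K.den K.den_pos K.num P) (T0 K.den K.den_pos K.num Q) h ≠ 0 := by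
  rw [← ev_T0]
  exact T0_ne_zero _ _ _ (D.evNe hh)

theorem LvD.pdeg (D : LvD P Q a b N E α k K c d e) :
    0 < (lev (-(a * (d : ℤ))) (T0 K.den K.den_pos K.num P)).natDegree := by
  rw [D.degP]; exact Nat.mul_pos D.ha D.hN

/-- `h(P,Q)` looks like the exponent `ω` at the root `μ` -/
def Node (P1 Q1 : LS[X]) (d N₁ : ℕ) (μ : ℂ) (h : (ℂ[X])[X]) (ω : ℚ) : Prop :=
  ∃ n : ℤ, LowB (ev P1 Q1 h) (-n) ∧ lev (-n) (ev P1 Q1 h) ≠ 0 ∧ (n : ℚ) = ω * d ∧
    ((lev (-n) (ev P1 Q1 h)).rootMultiplicity μ : ℚ) = ω * N₁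

theorem iter_succ (h : (ℂ[X])[X]) (r : ℕ) :
    derivative^[r] (derivative h) = derivative^[r + 1] h := rfl

theorem natDegree_pos_of_derivative {h : (ℂ[X])[X]} (h' : derivative h ≠ 0) :
    (derivative h).natDegree < h.natDegree := by
  apply natDegree_derivative_lt
  intro h0
  obtain ⟨f, rfl⟩ := natDegree_eq_zero.mp h0
  exact h' derivative_C

theorem node_comm (D : LvD P Q a b N E α k K c d e) {μ : ℂ} {N₁ : ℕ}
    (hμ : (lev (-(a * (d : ℤ))) (T0 K.den K.den_pos K.num P)).rootMultiplicity μ = a * N₁)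
    (hN₁ : 0 < N₁) (hne : e * N₁ ≠ d) :
    ∀ n : ℕ, ∀ h : (ℂ[X])[X], h.natDegree = n → h ≠ 0 →
      (∀ r : ℕ, derivative^[r] h = 0 ∨ ∃ ω,
        Node (T0 K.den K.den_pos K.num P) (T0 K.den K.den_pos K.num Q) d N₁ μ
          (derivative^[r] h) ω) →
      ∀ ω, Node (T0 K.den K.den_pos K.num P) (T0 K.den K.den_pos K.num Q) d N₁ μ h ω →
        Comm (T0 K.den K.den_pos K.num P) a d
          (ev (T0 K.den K.den_pos K.num P) (T0 K.den K.den_pos K.num Q) h) ω := by
  have hroot : (lev (-(a * (d : ℤ))) (T0 K.den K.den_pos K.num P)).IsRoot μ := by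
    rw [← rootMultiplicity_pos D.p0, hμ]; exact Nat.mul_pos D.ha hN₁
  have haQ : (0 : ℚ) < a := by exact_mod_cast D.ha
  have hdQ : (0 : ℚ) < d := by exact_mod_cast D.hdpos
  have fin : ∀ h : (ℂ[X])[X], ∀ ω ω' : ℚ,
      Node (T0 K.den K.den_pos K.num P) (T0 K.den K.den_pos K.num Q) d N₁ μ h ω →
      Comm (T0 K.den K.den_pos K.num P) a d
          (ev (T0 K.den K.den_pos K.num P) (T0 K.den K.den_pos K.num Q) h) ω' →
      Comm (T0 K.den K.den_pos K.num P) a d
          (ev (T0 K.den K.den_pos K.num P) (T0 K.den K.den_pos K.num Q) h) ω := by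
    intro h ω ω' hn hc
    obtain ⟨n, h1, h2, h3, -⟩ := hn
    obtain ⟨g1, -, -⟩ := hc.degree h1 h2
    have : ω = ω' := by
      have h4 : ω * d = ω' * d := by rw [← h3, ← g1]
      exact mul_right_cancel₀ hdQ.ne' h4
    rw [this]; exact hc
  intro n
  induction n using Nat.strong_induction_on with
  | _ n ih =>
  intro h hn hh hall ω hω
  by_cases h' : derivative h = 0
  · have hbr := D.evT h
    rw [h', map_zero, zero_mul] at hbr
    obtain ⟨ω', hω'⟩ := lvl_zero D.ha D.hdpos D.lowP D.p0 D.pdeg (D.evTNe hh) hbr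
    exact fin h ω ω' hω hω'
  · have hlt := natDegree_pos_of_derivative h'
    have hall' : ∀ r : ℕ, derivative^[r] (derivative h) = 0 ∨ ∃ ω,
        Node (T0 K.den K.den_pos K.num P) (T0 K.den K.den_pos K.num Q) d N₁ μ
          (derivative^[r] (derivative h)) ω := by
      intro r
      rw [iter_succ]; exact hall (r + 1)
    obtain ⟨κ, hκ⟩ : ∃ κ, Node (T0 K.den K.den_pos K.num P) (T0 K.den K.den_pos K.num Q) d N₁ μ
          (derivative h) κ := by
      rcases hall' 0 with h0 | h0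
      · exact absurd h0 h'
      · exact h0
    have hcκ := ih _ (by rw [← hn]; exact hlt) (derivative h) rfl h' hall' κ hκ
    rcases lvl_dichotomy D.ha D.hdpos D.hepos D.qc D.lowP D.p0 D.pdeg (D.evTNe hh) (D.evT h) hcκ
      with ⟨ω', hω'⟩ | hF
    · exact fin h ω ω' hω hω'
    · exfalso
      obtain ⟨n1, h1, h2, h3, h4⟩ := hω
      obtain ⟨n2, g1, g2, g3, g4, -⟩ := hF
      have hnn := order_unique h1 h2 g1 g2
      subst hnn
      have g5 := g4 μ hroot
      rw [hμ, h4] at g5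
      push_cast at g5
      have g6 : ω * N₁ = (κ - a) * N₁ + 1 := by
        have : (a : ℚ) * (ω * N₁) = a * ((κ - a) * N₁ + 1) := by rw [g5]; ring
        exact mul_left_cancel₀ haQ.ne' this
      rw [h3] at g3
      apply hne
      have h7 : (e : ℚ) * N₁ = d := by
        have e1 : (e : ℚ) = (ω - (κ - a)) * d := by linarith
        have e2 : (ω - (κ - a)) * N₁ = 1 := by linarith
        rw [e1]
        linear_combination (d : ℚ) * e2
      exact_mod_cast h7

/-- from the level to the corner above -/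
theorem comm_ray (D : LvD P Q a b N E α k K c d e) :
    ∀ n : ℕ, ∀ h : (ℂ[X])[X], h.natDegree = n → h ≠ 0 →
      (∀ r : ℕ, 0 < r → derivative^[r] h = 0 ∨ ∃ ω,
        Comm (T0 K.den K.den_pos K.num P) a d
          (ev (T0 K.den K.den_pos K.num P) (T0 K.den K.den_pos K.num Q) (derivative^[r] h)) ω) →
      ∀ ω : ℚ, (∃ n : ℤ, LowB (ev (T0 K.den K.den_pos K.num P) (T0 K.den K.den_pos K.num Q) h) (-n)
        ∧ lev (-n) (ev (T0 K.den K.den_pos K.num P) (T0 K.den K.den_pos K.num Q) h) ≠ 0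
        ∧ (n : ℚ) = ω * d ∧
        ((lev (-n) (ev (T0 K.den K.den_pos K.num P) (T0 K.den K.den_pos K.num Q) h)).natDegree : ℚ)
          = ω * N) →
      Ray N α k (ev P Q h) ω := by
  have haQ : (0 : ℚ) < a := by exact_mod_cast D.ha
  intro n
  induction n using Nat.strong_induction_on with
  | _ n ih =>
  intro h hn hh hall ω hω
  obtain ⟨m, h1, h2, h3, h4⟩ := hω
  obtain ⟨A, i, hAi⟩ := exists_corner (D.evNe hh) k
  have hbr : brB P (ev P Q h) = ev P Q (derivative h) * C (HahnSeries.single (-(E : ℤ)) c) := by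
    rw [brB_ev, D.hbr]
  obtain ⟨hz, hnz⟩ := corner_dichotomy D.ha D.hN D.hc D.hP hAi hbr
  rw [← ev_T0] at h1 h2 h4
  have key : ∀ κ' : ℚ, (A * N = i * α ∨ ((A : ℚ) = κ' * α + E ∧ (i : ℚ) = κ' * N + 1)) →
      Ray N α k (ev P Q h) ω := by
    intro κ' hcase
    exact ⟨A, i, hAi, up_ray D.hN D.hkK D.hd D.hdpos D.hx hAi h1 h2 h3 h4 hcase⟩
  by_cases h' : derivative h = 0
  · apply key 0
    left
    apply hz
    rw [h', map_zero]
  · have hlt := natDegree_pos_of_derivative h'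
    obtain ⟨κ, hκ⟩ : ∃ κ, Comm (T0 K.den K.den_pos K.num P) a d
        (ev (T0 K.den K.den_pos K.num P) (T0 K.den K.den_pos K.num Q) (derivative h)) κ := by
      rcases hall 1 one_pos with h0 | h0
      · exact absurd h0 h'
      · exact h0
    have hκ' := hκ
    obtain ⟨m', g1, g2, g3, -⟩ := hκ
    have g5 := (hκ'.degree g1 g2).2.1
    have g6 : ((lev (-m') (ev (T0 K.den K.den_pos K.num P) (T0 K.den K.den_pos K.num Q)
        (derivative h))).natDegree : ℚ) = κ * N := by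
      rw [D.degP] at g5
      push_cast at g5
      have : (a : ℚ) * (lev (-m') (ev (T0 K.den K.den_pos K.num P) (T0 K.den K.den_pos K.num Q)
        (derivative h))).natDegree = a * (κ * N) := by rw [g5]; ring
      exact mul_left_cancel₀ haQ.ne' this
    obtain ⟨A', i', hA', hA1, hA2⟩ := ih _ (by rw [← hn]; exact hlt) (derivative h) rfl h'
      (by intro r hr; rw [iter_succ]; exact hall (r + 1) (Nat.succ_pos r)) κ ⟨m', g1, g2, g3, g6⟩
    apply key (κ - a)
    rcases hnz A' i' hA' with h5 | ⟨h5, h6⟩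
    · left; exact h5
    · right
      have h5Q : (A' : ℚ) + E = a * α + A := by exact_mod_cast h5
      have h6Q : (i' : ℚ) + 1 = a * N + i := by exact_mod_cast h6
      rw [hA1] at h5Q
      rw [hA2] at h6Q
      constructor
      · linarith
      · linarith

/-- a splitting level forces `d ∣ e G` -/
theorem inv_level (D : LvD P Q a b N E α k K c d e) {G : ℕ} (hI : Inv P Q N α k G)
    (hroots : ∃ μ ν : ℂ, μ ≠ ν ∧
      (lev (-(a * (d : ℤ))) (T0 K.den K.den_pos K.num P)).IsRoot μ ∧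
      (lev (-(a * (d : ℤ))) (T0 K.den K.den_pos K.num P)).IsRoot ν) : d ∣ e * G := by
  classical
  have haQ : (0 : ℚ) < a := by exact_mod_cast D.ha
  have hdQ : (0 : ℚ) < d := by exact_mod_cast D.hdpos
  have hNQ : (0 : ℚ) < N := by exact_mod_cast D.hN
  have hex : ∃ n : ℕ, ∃ h : (ℂ[X])[X], h.natDegree = n ∧ h ≠ 0 ∧
      ¬ ∃ ω, Comm (T0 K.den K.den_pos K.num P) a d
        (ev (T0 K.den K.den_pos K.num P) (T0 K.den K.den_pos K.num Q) h) ω := by
    obtain ⟨h, h1, h2⟩ := exists_noncomm D.ha D.hb D.hdpos D.hN D.lowP D.lowQ D.degP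
      (fun h hh => D.evTNe hh)
    exact ⟨_, h, rfl, h1, h2⟩
  obtain ⟨h, hn, hh, hnc⟩ := Nat.find_spec hex
  have hmin : ∀ g : (ℂ[X])[X], g ≠ 0 → g.natDegree < h.natDegree →
      ∃ ω, Comm (T0 K.den K.den_pos K.num P) a d
        (ev (T0 K.den K.den_pos K.num P) (T0 K.den K.den_pos K.num Q) g) ω := by
    intro g hg hlt
    by_contra hcon
    exact Nat.find_min hex (m := g.natDegree) (by rw [← hn]; exact hlt) ⟨g, rfl, hg, hcon⟩
  have h' : derivative h ≠ 0 := by
    intro h0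
    apply hnc
    have hbr := D.evT h
    rw [h0, map_zero, zero_mul] at hbr
    exact lvl_zero D.ha D.hdpos D.lowP D.p0 D.pdeg (D.evTNe hh) hbr
  have hlt := natDegree_pos_of_derivative h'
  have hder : ∀ r : ℕ, 0 < r → derivative^[r] h = 0 ∨ ∃ ω,
        Comm (T0 K.den K.den_pos K.num P) a d
          (ev (T0 K.den K.den_pos K.num P) (T0 K.den K.den_pos K.num Q) (derivative^[r] h)) ω := by
    intro r hr
    by_cases h0 : derivative^[r] h = 0
    · exact Or.inl h0
    · right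
      apply hmin _ h0
      obtain ⟨r', rfl⟩ : ∃ r', r = r' + 1 := ⟨r - 1, by omega⟩
      rw [← iter_succ]
      calc (derivative^[r'] (derivative h)).natDegree ≤ (derivative h).natDegree - r' :=
            natDegree_iterate_derivative _ _
        _ ≤ (derivative h).natDegree := Nat.sub_le _ _
        _ < h.natDegree := hlt
  obtain ⟨κ, hκ⟩ := hmin _ h' hlt
  have hF : FTy (T0 K.den K.den_pos K.num P) a d e
      (ev (T0 K.den K.den_pos K.num P) (T0 K.den K.den_pos K.num Q) h) κ := by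
    rcases lvl_dichotomy D.ha D.hdpos D.hepos D.qc D.lowP D.p0 D.pdeg (D.evTNe hh) (D.evT h) hκ
      with h1 | h1
    · exact absurd h1 hnc
    · exact h1
  obtain ⟨n, g1, g2, g3, g4⟩ := hF.big D.ha D.hdpos hroots
  rw [D.degP] at g4
  have hω : ((lev (-n) (ev (T0 K.den K.den_pos K.num P) (T0 K.den K.den_pos K.num Q)
      h)).natDegree : ℚ) = ((κ - a) + e / d) * N := by
    push_cast at g4
    have h1 : (a : ℚ) * d * (lev (-n) (ev (T0 K.den K.den_pos K.num P)
        (T0 K.den K.den_pos K.num Q) h)).natDegree = a * d * (((κ - a) + e / d) * N) := by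
      rw [g4]; field_simp
    exact mul_left_cancel₀ (mul_ne_zero haQ.ne' hdQ.ne') h1
  have hray : Ray N α k (ev P Q h) ((κ - a) + e / d) :=
    comm_ray D _ h rfl hh hder _ ⟨n, g1, g2, by rw [g3]; field_simp, hω⟩
  have hrayr : ∀ r, 0 < r → ∀ κ₁, derivative^[r] h ≠ 0 →
      Comm (T0 K.den K.den_pos K.num P) a d
          (ev (T0 K.den K.den_pos K.num P) (T0 K.den K.den_pos K.num Q) (derivative^[r] h)) κ₁ →
      Ray N α k (ev P Q (derivative^[r] h)) κ₁ := by
    intro r hr κ₁ hne hc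
    have hc' := hc
    obtain ⟨m', e1, e2, e3, -⟩ := hc
    have e5 := (hc'.degree e1 e2).2.1
    rw [D.degP] at e5
    push_cast at e5
    have e6 : ((lev (-m') (ev (T0 K.den K.den_pos K.num P) (T0 K.den K.den_pos K.num Q)
        (derivative^[r] h))).natDegree : ℚ) = κ₁ * N := by
      have : (a : ℚ) * (lev (-m') (ev (T0 K.den K.den_pos K.num P) (T0 K.den K.den_pos K.num Q)
        (derivative^[r] h))).natDegree = a * (κ₁ * N) := by rw [e5]; ring
      exact mul_left_cancel₀ haQ.ne' this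
    refine comm_ray D _ _ rfl hne ?_ κ₁ ⟨m', e1, e2, e3, e6⟩
    intro r' hr'
    rw [← Function.iterate_add_apply]
    exact hder (r' + r) (by omega)
  have hall : RayAll P Q N α k h := by
    intro r
    by_cases h0 : derivative^[r] h = 0
    · exact Or.inl h0
    · right
      rcases Nat.eq_zero_or_pos r with hr | hr
      · subst hr; exact ⟨_, hray⟩
      · rcases hder r hr with h1 | ⟨κ₁, h1⟩
        · exact absurd h1 h0
        · exact ⟨κ₁, hrayr r hr κ₁ h0 h1⟩
  have hall' : RayAll P Q N α k (derivative h) := by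
    intro r
    rw [iter_succ]; exact hall (r + 1)
  obtain ⟨z1, hz1⟩ := hI h hall _ hray
  obtain ⟨z2, hz2⟩ := hI _ hall' κ (hrayr 1 one_pos κ h' hκ)
  have hfin : ((e * G : ℕ) : ℤ) = d * (z1 - z2 + a * G) := by
    have h1 : (e : ℚ) * G = d * (z1 - z2 + a * G) := by
      rw [← hz1, ← hz2]
      field_simp
      ring
    exact_mod_cast h1
  have h2 : (d : ℤ) ∣ ((e * G : ℕ) : ℤ) := ⟨_, hfin⟩
  exact_mod_cast h2

/-- exponents at a root: they satisfy all conditions of the level -/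
theorem inv_node (D : LvD P Q a b N E α k K c d e) {G : ℕ} (hI : Inv P Q N α k G)
    {μ : ℂ} {N₁ : ℕ}
    (hμ : (lev (-(a * (d : ℤ))) (T0 K.den K.den_pos K.num P)).rootMultiplicity μ = a * N₁)
    (hN₁ : 0 < N₁) (hne : e * N₁ ≠ d) {h : (ℂ[X])[X]} (hh : h ≠ 0)
    (hall : ∀ r : ℕ, derivative^[r] h = 0 ∨ ∃ ω,
        Node (T0 K.den K.den_pos K.num P) (T0 K.den K.den_pos K.num Q) d N₁ μ
          (derivative^[r] h) ω)
    {ω : ℚ} (hω : Node (T0 K.den K.den_pos K.num P) (T0 K.den K.den_pos K.num Q) d N₁ μ h ω) :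
    (∃ z : ℤ, ω * G = z) ∧ (∃ z : ℤ, ω * d = z) ∧ (∃ z : ℤ, ω * N = z) ∧
    ∀ (ν : ℂ) (f : ℕ),
      (lev (-(a * (d : ℤ))) (T0 K.den K.den_pos K.num P)).rootMultiplicity ν = a * f →
        ∃ z : ℤ, ω * f = z := by
  have haQ : (0 : ℚ) < a := by exact_mod_cast D.ha
  have hcomm : ∀ r, derivative^[r] h = 0 ∨ ∃ ω, Comm (T0 K.den K.den_pos K.num P) a d
      (ev (T0 K.den K.den_pos K.num P) (T0 K.den K.den_pos K.num Q) (derivative^[r] h)) ω := by
    intro r
    rcases hall r with h0 | ⟨ω₁, h1⟩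
    · exact Or.inl h0
    · by_cases h0 : derivative^[r] h = 0
      · exact Or.inl h0
      · right
        refine ⟨ω₁, node_comm D hμ hN₁ hne _ _ rfl h0 ?_ ω₁ h1⟩
        intro r'
        rw [← Function.iterate_add_apply]
        exact hall (r' + r)
  have hray : ∀ r, ∀ κ₁, derivative^[r] h ≠ 0 →
      Comm (T0 K.den K.den_pos K.num P) a d
          (ev (T0 K.den K.den_pos K.num P) (T0 K.den K.den_pos K.num Q) (derivative^[r] h)) κ₁ →
      Ray N α k (ev P Q (derivative^[r] h)) κ₁ := by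
    intro r κ₁ hne hc
    have hc' := hc
    obtain ⟨m', e1, e2, e3, -⟩ := hc
    have e5 := (hc'.degree e1 e2).2.1
    rw [D.degP] at e5
    push_cast at e5
    have e6 : ((lev (-m') (ev (T0 K.den K.den_pos K.num P) (T0 K.den K.den_pos K.num Q)
        (derivative^[r] h))).natDegree : ℚ) = κ₁ * N := by
      have : (a : ℚ) * (lev (-m') (ev (T0 K.den K.den_pos K.num P) (T0 K.den K.den_pos K.num Q)
        (derivative^[r] h))).natDegree = a * (κ₁ * N) := by rw [e5]; ring
      exact mul_left_cancel₀ haQ.ne' this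
    refine comm_ray D _ _ rfl hne ?_ κ₁ ⟨m', e1, e2, e3, e6⟩
    intro r' _
    rw [← Function.iterate_add_apply]
    exact hcomm (r' + r)
  have hc := node_comm D hμ hN₁ hne _ h rfl hh hall ω hω
  have hr0 := hray 0 ω hh hc
  have hRA : RayAll P Q N α k h := by
    intro r
    by_cases h0 : derivative^[r] h = 0
    · exact Or.inl h0
    · rcases hcomm r with h1 | ⟨κ₁, h1⟩
      · exact absurd h1 h0
      · exact Or.inr ⟨κ₁, hray r κ₁ h0 h1⟩
  obtain ⟨n, g1, g2, g3, g4⟩ := hω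
  obtain ⟨-, -, hmul⟩ := hc.degree g1 g2
  refine ⟨hI h hRA ω hr0, ⟨n, g3.symm⟩, ?_, ?_⟩
  · obtain ⟨A, i, -, -, h3⟩ := hr0
    exact ⟨i, by rw [← h3]; push_cast; rfl⟩
  · intro ν f hf
    have h1 := hmul ν
    rw [hf] at h1
    push_cast at h1
    refine ⟨(lev (-n) (ev (T0 K.den K.den_pos K.num P) (T0 K.den K.den_pos K.num Q)
      h)).rootMultiplicity ν, ?_⟩
    have : (a : ℚ) * (ω * f) = a * ((lev (-n) (ev (T0 K.den K.den_pos K.num P)
      (T0 K.den K.den_pos K.num Q) h)).rootMultiplicity ν : ℚ) := by rw [h1]; ring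
    have h2 := mul_left_cancel₀ haQ.ne' this
    rw [h2]; push_cast; rfl

end

end Pool.Agent.Lib.MP_2d59ee_ag
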