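import Mathlib
import Pool.Agent.Lib.MP_2d59ee_ag.R.R4a

set_option autoImplicit false

/-! The ambient divisor of the children of a level. -/

namespace Pool.Agent.Lib.MP_2d59ee_ag

open Polynomial

/-- state with ambient divisor `G` -/
def StG (a b N E : ℕ) (α : ℤ) (k : ℚ) (G : ℕ) : Prop :=
  ∃ (P Q : LS[X]) (c : ℂ), c ≠ 0 ∧ brB P Q = C (HahnSeries.single (-(E : ℤ)) c) ∧
    Corner P a α N k ∧ Corner Q b α N k ∧ Inv P Q N α k G

/-- rational numbers with integral multiples -/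
theorem int_gcd {ω : ℚ} {m n : ℕ} (h1 : ∃ z : ℤ, ω * m = z) (h2 : ∃ z : ℤ, ω * n = z) :
    ∃ z : ℤ, ω * (Nat.gcd m n : ℕ) = z := by
  obtain ⟨z1, h1⟩ := h1
  obtain ⟨z2, h2⟩ := h2
  have hb := Nat.gcd_eq_gcd_ab m n
  refine ⟨z1 * Nat.gcdA m n + z2 * Nat.gcdB m n, ?_⟩
  have hbQ : ((Nat.gcd m n : ℕ) : ℚ) = m * Nat.gcdA m n + n * Nat.gcdB m n := by
    exact_mod_cast hb
  rw [hbQ]
  push_cast
  rw [← h1, ← h2]; ring

theorem int_finset_gcd {ω : ℚ} (s : Finset ℂ) (f : ℂ → ℕ) (h : ∀ x ∈ s, ∃ z : ℤ, ω * f x = z) :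
    ∃ z : ℤ, ω * (s.gcd f : ℕ) = z := by
  classical
  induction s using Finset.induction_on with
  | empty => exact ⟨0, by simp⟩
  | insert a s ha ih =>
    rw [Finset.gcd_insert]
    exact int_gcd (h a (Finset.mem_insert_self _ _))
      (ih (fun x hx => h x (Finset.mem_insert_of_mem hx)))

/-- the ambient divisor after a level -/
noncomputable def amb (G d N : ℕ) (s : Finset ℂ) (f : ℂ → ℕ) : ℕ :=
  Nat.gcd (Nat.gcd G d) (Nat.gcd N (s.gcd f))

theorem amb_pos {G d N : ℕ} {s : Finset ℂ} {f : ℂ → ℕ} (hG : 0 < G) : 0 < amb G d N s f :=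
  Nat.gcd_pos_of_pos_left _ (Nat.gcd_pos_of_pos_left _ hG)

theorem amb_dvd_G {G d N : ℕ} {s : Finset ℂ} {f : ℂ → ℕ} : amb G d N s f ∣ G :=
  (Nat.gcd_dvd_left _ _).trans (Nat.gcd_dvd_left _ _)

theorem amb_dvd_d {G d N : ℕ} {s : Finset ℂ} {f : ℂ → ℕ} : amb G d N s f ∣ d :=
  (Nat.gcd_dvd_left _ _).trans (Nat.gcd_dvd_right _ _)

theorem amb_dvd_N {G d N : ℕ} {s : Finset ℂ} {f : ℂ → ℕ} : amb G d N s f ∣ N :=
  (Nat.gcd_dvd_right _ _).trans (Nat.gcd_dvd_left _ _)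

theorem amb_dvd_f {G d N : ℕ} {s : Finset ℂ} {f : ℂ → ℕ} {x : ℂ} (hx : x ∈ s) :
    amb G d N s f ∣ f x :=
  ((Nat.gcd_dvd_right _ _).trans (Nat.gcd_dvd_right _ _)).trans (Finset.gcd_dvd hx)

theorem amb_int {G d N : ℕ} {s : Finset ℂ} {f : ℂ → ℕ} {ω : ℚ} (h1 : ∃ z : ℤ, ω * G = z)
    (h2 : ∃ z : ℤ, ω * d = z) (h3 : ∃ z : ℤ, ω * N = z) (h4 : ∀ x ∈ s, ∃ z : ℤ, ω * f x = z) :
    ∃ z : ℤ, ω * (amb G d N s f : ℕ) = z :=
  int_gcd (int_gcd h1 h2) (int_gcd h3 (int_finset_gcd s f h4))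

section

variable {P Q : LS[X]} {a b N E : ℕ} {α : ℤ} {k K : ℚ} {c : ℂ} {d e : ℕ}

/-- the child at a root `μ` -/
theorem inv_shift (D : LvD P Q a b N E α k K c d e) {G : ℕ} (hI : Inv P Q N α k G)
    {μ : ℂ} {N₁ : ℕ}
    (hμ : (lev (-(a * (d : ℤ))) (T0 K.den K.den_pos K.num P)).rootMultiplicity μ = a * N₁)
    (hN₁ : 0 < N₁) (hne : e * N₁ ≠ d) (s : Finset ℂ) (f : ℂ → ℕ)
    (hf : ∀ ν ∈ s, (lev (-(a * (d : ℤ))) (T0 K.den K.den_pos K.num P)).rootMultiplicity ν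
      = a * f ν) :
    Inv (shift μ (T0 K.den K.den_pos K.num P)) (shift μ (T0 K.den K.den_pos K.num Q)) N₁ d 0
      (amb G d N s f) := by
  have hN₁Q : (0 : ℚ) < N₁ := by exact_mod_cast hN₁
  -- ray corners of the child are nodes
  have key : ∀ (g : (ℂ[X])[X]) (ω : ℚ), g ≠ 0 →
      Ray N₁ d 0 (ev (shift μ (T0 K.den K.den_pos K.num P))
        (shift μ (T0 K.den K.den_pos K.num Q)) g) ω →
      Node (T0 K.den K.den_pos K.num P) (T0 K.den K.den_pos K.num Q) d N₁ μ g ω := by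
    intro g ω hg hr
    obtain ⟨A, i, hc, h1, h2⟩ := hr
    obtain ⟨n, g1, g2⟩ := exists_order (D.evTNe hg)
    have hc' := shift_corner_gen μ g1 g2
    rw [ev_shift] at hc'
    obtain ⟨e1, e2⟩ := corner_unique hc hc'
    exact ⟨n, g1, g2, by rw [← e1, h1]; push_cast; rfl, by rw [← e2, h2]⟩
  intro h hall ω hω
  by_cases hh : h = 0
  · exfalso
    obtain ⟨A, i, hc, -, -⟩ := hω
    have := hc.top
    rw [hh, map_zero] at this
    simp at this
  have hall' : ∀ r : ℕ, derivative^[r] h = 0 ∨ ∃ ω,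
        Node (T0 K.den K.den_pos K.num P) (T0 K.den K.den_pos K.num Q) d N₁ μ
          (derivative^[r] h) ω := by
    intro r
    by_cases h0 : derivative^[r] h = 0
    · exact Or.inl h0
    · rcases hall r with h1 | ⟨ω₁, h1⟩
      · exact absurd h1 h0
      · exact Or.inr ⟨ω₁, key _ _ h0 h1⟩
  obtain ⟨i1, i2, i3, i4⟩ := inv_node D hI hμ hN₁ hne hh hall' (key h ω hh hω)
  exact amb_int i1 i2 i3 (fun ν hν => i4 ν (f ν) (hf ν hν))

/-- the child at the origin -/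
theorem inv_zero (D : LvD P Q a b N E α k K c d e) {G : ℕ} (hI : Inv P Q N α k G)
    {N₀ : ℕ} {α₀ : ℤ}
    (hμ : (lev (-(a * (d : ℤ))) (T0 K.den K.den_pos K.num P)).rootMultiplicity 0 = a * N₀)
    (hN₀ : 0 < N₀) (hne : e * N₀ ≠ d) (hrel : K.den * α₀ - K.num * N₀ = d)
    (s : Finset ℂ) (f : ℂ → ℕ)
    (hf : ∀ ν ∈ s, (lev (-(a * (d : ℤ))) (T0 K.den K.den_pos K.num P)).rootMultiplicity ν
      = a * f ν) :
    Inv P Q N₀ α₀ K (Nat.gcd (amb G d N s f) α₀.natAbs) := by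
  have key : ∀ (g : (ℂ[X])[X]) (ω : ℚ), g ≠ 0 → Ray N₀ α₀ K (ev P Q g) ω →
      Node (T0 K.den K.den_pos K.num P) (T0 K.den K.den_pos K.num Q) d N₀ 0 g ω := by
    intro g ω hg hr
    obtain ⟨A, i, hc, h1, h2⟩ := hr
    obtain ⟨n, g1, g2⟩ := exists_order (D.evTNe hg)
    have g1' := g1
    have g2' := g2
    rw [← ev_T0] at g1' g2'
    obtain ⟨A', hA', hc'⟩ := zero_corner_gen K g1' g2'
    obtain ⟨e1, e2⟩ := corner_unique hc hc'
    rw [ev_T0] at hA' e2
    refine ⟨n, g1, g2, ?_, by rw [← e2, h2]⟩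
    rw [← e1, ← e2] at hA'
    have h3 : (n : ℚ) = K.den * A - K.num * i := by rw [← hA']; push_cast; ring
    have h4 : (d : ℚ) = K.den * α₀ - K.num * N₀ := by
      have := congrArg (fun z : ℤ => (z : ℚ)) hrel
      push_cast at this
      linarith
    rw [h3, h1, h2, h4]; ring
  intro h hall ω hω
  by_cases hh : h = 0
  · exfalso
    obtain ⟨A, i, hc, -, -⟩ := hω
    have := hc.top
    rw [hh, map_zero] at this
    simp at this
  have hall' : ∀ r : ℕ, derivative^[r] h = 0 ∨ ∃ ω,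
        Node (T0 K.den K.den_pos K.num P) (T0 K.den K.den_pos K.num Q) d N₀ 0
          (derivative^[r] h) ω := by
    intro r
    by_cases h0 : derivative^[r] h = 0
    · exact Or.inl h0
    · rcases hall r with h1 | ⟨ω₁, h1⟩
      · exact absurd h1 h0
      · exact Or.inr ⟨ω₁, key _ _ h0 h1⟩
  obtain ⟨i1, i2, i3, i4⟩ := inv_node D hI hμ hN₀ hne hh hall' (key h ω hh hω)
  refine int_gcd (amb_int i1 i2 i3 (fun ν hν => i4 ν (f ν) (hf ν hν))) ?_
  obtain ⟨A, i, -, h1, -⟩ := hω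
  rcases Int.natAbs_eq α₀ with h5 | h5
  · refine ⟨A, ?_⟩
    rw [h1]
    have : (α₀ : ℚ) = (α₀.natAbs : ℚ) := by
      have h6 := congrArg (fun z : ℤ => (z : ℚ)) h5
      simpa only [Int.cast_natCast] using h6
    rw [this]
  · refine ⟨-A, ?_⟩
    push_cast
    rw [h1]
    have : (α₀ : ℚ) = -(α₀.natAbs : ℚ) := by
      have h6 := congrArg (fun z : ℤ => (z : ℚ)) h5
      simpa only [Int.cast_neg, Int.cast_natCast] using h6
    rw [this]; ring

/-- every state has the trivial ambient divisor `gcd (α, N)` -/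
theorem inv_start (P Q : LS[X]) (N : ℕ) (k : ℚ) (αN : ℕ) (αZ : ℤ)
    (hαZ : αZ = αN) : Inv P Q N αZ k (Nat.gcd αN N) := by
  intro h _ ω hω
  obtain ⟨A, i, -, h1, h2⟩ := hω
  apply int_gcd
  · refine ⟨A, ?_⟩
    rw [h1, hαZ]; push_cast; rfl
  · exact ⟨i, by rw [← h2]; push_cast; rfl⟩

end

/-- the level with ambient divisors -/
theorem level_coreG (a b : ℕ) (ha : 0 < a) (hb : 0 < b) (hab : Nat.Coprime a b)
    (N E : ℕ) (α : ℤ) (k K : ℚ) (hN : 0 < N) (P Q : LS[X]) (c : ℂ) (hc : c ≠ 0)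
    (hbr : brB P Q = C (HahnSeries.single (-(E : ℤ)) c))
    (hP : Corner P a α N k) (hQ : Corner Q b α N k) (G : ℕ) (hG : 0 < G)
    (hInv : Inv P Q N α k G)
    (hkK : k < K) (hKP : AtLevel P a α N K) (hKQ : AtLevel Q b α N K)
    (hxQ : (α : ℚ) < E * N)
    (hJK : (E : ℚ) - K < ((a : ℚ) + b) * (α - K * N))
    (hAtt : Attained P a α N K ∨ Attained Q b α N K) (d e₁ : ℕ)
    (hd : (d : ℤ) = K.den * α - K.num * N) (he₁ : (e₁ : ℤ) = K.den * E - K.num)
    (hpkg : Pkg a b N E α k K K.den d e₁) :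
    (e₁ : ℤ) < ((a : ℤ) + b) * d ∧
    ((∃ G', G' ∣ G ∧ G' ∣ d ∧ G' ∣ N ∧ 0 < G' ∧ (∀ g, g ∣ G → g ∣ d → g ∣ N → g ∣ G') ∧
        K.den = 1 ∧ StG a b N e₁ d 0 G') ∨
     (∃ N₀ j σ G' : ℕ, (j : ℤ) * d = E * N - α ∧ N = N₀ + K.den * σ ∧ 0 < σ ∧ e₁ * N₀ ≠ d ∧
        0 < G' ∧ G' ∣ G ∧ G' ∣ d ∧ G' ∣ N ∧ G' ∣ N₀ ∧ G' ∣ σ ∧ d ∣ e₁ * G ∧ ¬ d ∣ e₁ * G' ∧
        (0 < N₀ → ∃ (α₀ : ℤ) (G'' : ℕ), (α₀ : ℚ) - K * N₀ = α - K * N ∧ 0 < G'' ∧ G'' ∣ G' ∧
          (G'' : ℤ) ∣ α₀ ∧ StG a b N₀ E α₀ K G'') ∧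
        (e₁ * N₀ < d → ∃ N₁ : ℕ, N₁ ≤ σ ∧ d < e₁ * N₁ ∧ G' ∣ N₁ ∧ StG a b N₁ e₁ d 0 G'))) := by
  have hpkg' := hpkg
  obtain ⟨-, hqpos, hdpos, he₁pos, he₁Q, hdQ, hqx, -⟩ := hpkg
  have hxZ' : α < E * N := by exact_mod_cast hxQ
  have D : LvD P Q a b N E α k K c d e₁ :=
    ⟨ha, hb, hN, hc, hbr, hP, hQ, hkK, hKP, hKQ, hd, he₁, hdpos, he₁pos, hxZ'⟩
  have hqQ : (0 : ℚ) < K.den := by exact_mod_cast hqpos
  have hnum : (K.num : ℚ) = K * K.den := num_cast K
  have hcop : IsCoprime (K.den : ℤ) K.num := by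
    rw [Int.isCoprime_iff_nat_coprime]
    have := K.reduced
    rw [Nat.coprime_comm] at this
    simpa using this
  have hJZ : (e₁ : ℤ) < ((a : ℤ) + b) * d := by
    have : (e₁ : ℚ) < ((a : ℚ) + b) * d := by
      rw [he₁Q, hdQ]
      have := mul_lt_mul_of_pos_left hJK hqQ
      linarith
    exact_mod_cast this
  refine ⟨hJZ, ?_⟩
  have hxZ : (d : ℤ) < e₁ * N := by
    have : (d : ℚ) < e₁ * N := by
      rw [he₁Q, hdQ]
      have h1 : (α : ℚ) - K * N < ((E : ℚ) - K) * N := by linarith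
      have := mul_lt_mul_of_pos_left h1 hqQ
      linarith
    exact_mod_cast this
  have hbr1 := D.brT
  have hqc := D.qc
  have hlP := D.lowP
  have hlQ := D.lowQ
  have hpdeg := D.degP
  have hp0 := D.p0
  have hgdeg : (lev (-(b * (d : ℤ))) (T0 K.den K.den_pos K.num Q)).natDegree = b * N :=
    lev_T0_natDegree hQ hkK d hd
  have hgtop : (lev (-(b * (d : ℤ))) (T0 K.den K.den_pos K.num Q)).coeff (b * N) ≠ 0 :=
    lev_T0_top hQ d hd
  have hg0 : lev (-(b * (d : ℤ))) (T0 K.den K.den_pos K.num Q) ≠ 0 := by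
    rintro h; rw [h] at hgtop; simp at hgtop
  set P1 := T0 K.den K.den_pos K.num P with hP1
  set Q1 := T0 K.den K.den_pos K.num Q with hQ1
  set p := lev (-(a * (d : ℤ))) P1 with hp
  set g := lev (-(b * (d : ℤ))) Q1 with hg
  have hode : C (a : ℂ) * p * derivative g = C (b : ℂ) * derivative p * g := by
    have hlev := lev_brB hlP hlQ
    rw [hbr1, lev_C_single, if_neg (by intro h; linarith), ← hp, ← hg] at hlev
    have hd0 : (C (d : ℂ) : ℂ[X]) ≠ 0 := C_ne_zero.mpr (by exact_mod_cast hdpos.ne')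
    apply mul_left_cancel₀ hd0
    have e1 : (C ((-(a * (d : ℤ)) : ℤ) : ℂ) : ℂ[X]) = -(C (a : ℂ) * C (d : ℂ)) := by
      rw [← C_mul, ← C_neg]; push_cast; rfl
    have e2 : (C ((-(b * (d : ℤ)) : ℤ) : ℂ) : ℂ[X]) = -(C (b : ℂ) * C (d : ℂ)) := by
      rw [← C_mul, ← C_neg]; push_cast; rfl
    rw [e1, e2] at hlev
    linear_combination hlev
  have hAcast : (-((a * d : ℕ) : ℤ)) = -(a * (d : ℤ)) := by push_cast; ring
  have hadpos : 0 < a * d := Nat.mul_pos ha hdpos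
  obtain ⟨u, hu⟩ := exists_sol P1 Q1 (a * d) e₁ hadpos (K.den * c) hqc
    (by rw [hAcast]; exact hlP) (by rw [hAcast, ← hp]; exact hp0) hbr1
  rw [hAcast, ← hp] at hu
  -- multiplicities
  have hmul : ∀ μ : ℂ, ∃ N₁ : ℕ, p.rootMultiplicity μ = a * N₁ ∧ g.rootMultiplicity μ = b * N₁ := by
    intro μ
    have hmult := mult_prop p g hp0 hg0 a b hode μ
    obtain ⟨N₁, hN₁⟩ : a ∣ p.rootMultiplicity μ :=
      hab.dvd_of_dvd_mul_left (Dvd.intro _ hmult)
    refine ⟨N₁, hN₁, ?_⟩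
    rw [hN₁] at hmult
    apply Nat.eq_of_mul_eq_mul_left ha
    rw [hmult]; ring
  choose f hfp hfg using hmul
  have hmulle : ∀ μ : ℂ, p.rootMultiplicity μ ≤ a * N := by
    intro μ
    rw [← hpdeg, ← count_roots]
    exact (Multiset.count_le_card _ _).trans (card_roots' p)
  have hr : ∀ j, p.coeff j ≠ 0 → (K.den : ℤ) ∣ (j : ℤ) - (a * N : ℕ) := by
    intro j hj
    have hj' := hj
    rw [hp, lev_coeff] at hj'
    obtain ⟨m, hm, -⟩ := T0_coeff_ne _ _ _ _ _ _ hj'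
    have h1 : (K.den : ℤ) ∣ K.num * ((j : ℤ) - (a * N : ℕ)) := by
      refine ⟨-m - a * α, ?_⟩
      rw [hd] at hm
      push_cast
      linear_combination hm
    exact hcop.dvd_of_dvd_mul_left h1
  have hN₀le : f 0 ≤ N := by
    have h1 := hmulle 0
    rw [hfp] at h1
    exact Nat.le_of_mul_le_mul_left h1 ha
  have hN₀lt : f 0 < N := by
    rcases lt_or_eq_of_le hN₀le with h | h
    · exact h
    · exfalso
      rcases hAtt with hA | hA
      · obtain ⟨j, hj, hne⟩ := attained_coeff hA d hd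
        exact hne (coeff_lt_zero p hp0 j (by rw [hfp, h]; exact hj))
      · obtain ⟨j, hj, hne⟩ := attained_coeff hA d hd
        exact hne (coeff_lt_zero g hg0 j (by rw [hfg, h]; exact hj))
  have hcrit : ∀ μ, 0 < f μ → e₁ * f μ ≠ d := by
    intro μ hμ hcrit
    have hroot : p.IsRoot μ := by
      rw [← rootMultiplicity_pos hp0, hfp]; exact Nat.mul_pos ha hμ
    have h1 := (hu.root hp0 hqc he₁pos.ne' μ hroot).2
    apply h1
    rw [hfp, ← hcrit]; ring
  have habZ : IsCoprime (a : ℤ) b := Nat.isCoprime_iff_coprime.mpr hab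
  by_cases htwo : ∃ μ ν, μ ≠ ν ∧ p.IsRoot μ ∧ p.IsRoot ν
  swap
  · -- a single root
    left
    push Not at htwo
    have hdegpos : 0 < p.natDegree := by rw [hpdeg]; exact Nat.mul_pos ha hN
    obtain ⟨μ, hμ⟩ := IsAlgClosed.exists_root p (by
      rw [degree_eq_natDegree hp0]; exact_mod_cast hdegpos.ne')
    have hcard : p.roots.card = p.natDegree :=
      splits_iff_card_roots.mp (IsAlgClosed.splits p)
    have h1 : ∀ ν ∈ p.roots, ν = μ := by
      intro ν hν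
      by_contra h
      exact htwo ν μ h (isRoot_of_mem_roots hν) hμ
    have h2 : p.roots = Multiset.replicate p.roots.card μ := Multiset.eq_replicate_card.mpr h1
    have h3 : p.rootMultiplicity μ = a * N := by
      rw [← count_roots, h2, Multiset.count_replicate_self, hcard, hpdeg]
    have hfμ : f μ = N := by
      rw [hfp] at h3
      exact Nat.eq_of_mul_eq_mul_left ha h3
    have hμ0 : μ ≠ 0 := by
      rintro rfl
      omega
    have hq1 : K.den = 1 := by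
      have h4 := orbit_bound p hp0 K.den hqpos (a * N) hr μ hμ0
      rw [h3, hpdeg] at h4
      have h5 : K.den * (a * N) ≤ 1 * (a * N) := by rwa [one_mul]
      have := Nat.le_of_mul_le_mul_right h5 (Nat.mul_pos ha hN)
      omega
    refine ⟨amb G d N {μ} f, amb_dvd_G, amb_dvd_d, amb_dvd_N, amb_pos hG, ?_, hq1,
      shift μ P1, shift μ Q1, K.den * c, hqc, ?_, ?_, ?_, ?_⟩
    · intro g' hg1 hg2 hg3
      apply Nat.dvd_gcd (Nat.dvd_gcd hg1 hg2) (Nat.dvd_gcd hg3 _)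
      rw [Finset.gcd_singleton, hfμ]
      simpa using hg3
    · rw [brB_shift, hbr1, shift, C_comp]
    · exact shift_corner μ hlP hp0 h3
    · refine shift_corner μ hlQ hg0 ?_
      rw [hfg, hfμ]
    · refine inv_shift D hInv h3 hN ?_ _ f (fun ν _ => hfp ν)
      rw [← hfμ]
      exact hcrit μ (by rw [hfμ]; exact hN)
  -- two roots
  right
  obtain ⟨v, hv, hvexp⟩ := hu.proj K.den hqpos (a * N) hr
  have hv0 := hv.ne_zero hp0 hqc
  obtain ⟨j, hj⟩ : ∃ j : ℕ, (j : ℤ) * d = E * N - α := by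
    obtain ⟨μ, ν, hμν, hμ, hν⟩ := htwo
    have hvμ := (hv.root hp0 hqc he₁pos.ne' μ hμ).1
    have hvν := (hv.root hp0 hqc he₁pos.ne' ν hν).1
    have hdeg2 := two_le_natDegree hv0 hμν hvμ hvν
    have hdegp : 1 ≤ p.natDegree := by
      rw [hpdeg]; exact Nat.mul_pos ha hN
    have hdeg := hv.degree hp0 hqc hdeg2 hdegp
    rw [hpdeg] at hdeg
    have hMd : e₁ * N = d * v.natDegree := by
      apply Nat.eq_of_mul_eq_mul_left ha
      calc a * (e₁ * N) = e₁ * (a * N) := by ring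
        _ = a * d * v.natDegree := hdeg
        _ = a * (d * v.natDegree) := by ring
    have hlead := hvexp v.natDegree (by
      rw [coeff_natDegree]; exact leadingCoeff_ne_zero.mpr hv0)
    obtain ⟨j, hj⟩ := hlead
    have hj0 : 0 ≤ j := by
      have h1 : (0 : ℤ) ≤ K.den * j := by rw [← hj]; omega
      exact nonneg_of_mul_nonneg_right h1 (by exact_mod_cast hqpos)
    obtain ⟨j', rfl⟩ := Int.eq_ofNat_of_zero_le hj0
    refine ⟨j', ?_⟩
    have hMdZ : (e₁ : ℤ) * N = d * v.natDegree := by exact_mod_cast hMd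
    apply mul_left_cancel₀ (show (K.den : ℤ) ≠ 0 by exact_mod_cast hqpos.ne')
    rw [hqx, hMdZ]
    linear_combination (-(d : ℤ)) * hj
  have hpc0 : p.coeff (a * f 0) ≠ 0 := by rw [← hfp]; exact coeff_eq_zero_ne p hp0
  have hgc0 : g.coeff (b * f 0) ≠ 0 := by rw [← hfg]; exact coeff_eq_zero_ne g hg0
  set G' := amb G d N p.roots.toFinset f with hG'
  have hG'pos : 0 < G' := amb_pos hG
  have hG'f : ∀ μ, G' ∣ f μ := by
    intro μ
    by_cases hμ : μ ∈ p.roots.toFinset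
    · exact amb_dvd_f hμ
    · have : f μ = 0 := by
        rw [Multiset.mem_toFinset, mem_roots hp0] at hμ
        have h1 : p.rootMultiplicity μ = 0 := rootMultiplicity_eq_zero hμ
        rw [hfp] at h1
        rcases Nat.mul_eq_zero.mp h1 with h | h
        · omega
        · exact h
      rw [this]; exact dvd_zero _
  obtain ⟨σ', hσ'⟩ := orbit_dvd hp0 hqpos ha hpdeg (hfp 0) f hfp hG'f hr
  have hNσ : N = f 0 + K.den * (G' * σ') := by
    have h1 : K.den * (G' * σ') = N - f 0 := by rw [hσ']; ring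
    omega
  have hσpos : 0 < G' * σ' := by
    rcases Nat.eq_zero_or_pos (G' * σ') with h | h
    · rw [h] at hNσ; omega
    · exact h
  refine ⟨f 0, j, G' * σ', G', hj, hNσ, hσpos, ?_, hG'pos, amb_dvd_G, amb_dvd_d, amb_dvd_N,
    hG'f 0, Nat.dvd_mul_right _ _, inv_level D hInv htwo, ?_, ?_, ?_⟩
  · -- never critical
    rcases Nat.eq_zero_or_pos (f 0) with h | h
    · rw [h]; omega
    · exact hcrit 0 h
  · -- not all divisible
    intro hdvd
    refine Sol.not_all_dvd hu ha hdpos he₁pos hN hp0 hqc hpdeg f hfp htwo ?_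
    intro μ
    exact hdvd.trans (Nat.mul_dvd_mul_left _ (hG'f μ))
  · -- corner at the origin
    intro hN₀pos
    have hpN₁ := hpc0
    have hgN₁ := hgc0
    rw [hp, lev_coeff] at hpN₁
    rw [hg, lev_coeff] at hgN₁
    obtain ⟨m₁, hm₁, hm₁'⟩ := T0_coeff_ne _ _ _ _ _ _ hpN₁
    obtain ⟨m₂, hm₂, hm₂'⟩ := T0_coeff_ne _ _ _ _ _ _ hgN₁
    obtain ⟨α₁, hα₁⟩ : (K.den : ℤ) ∣ d + K.num * (f 0) := by
      obtain ⟨u, v, huv⟩ := habZ
      refine ⟨-(u * m₁ + v * m₂), ?_⟩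
      push_cast at hm₁ hm₂
      linear_combination (-(d + K.num * (f 0) : ℤ)) * huv + u * hm₁ + v * hm₂
    have hq0 : (K.den : ℤ) ≠ 0 := by exact_mod_cast hqpos.ne'
    have hm₁α : m₁ = -(a * α₁) := by
      apply mul_left_cancel₀ hq0
      push_cast at hm₁
      linear_combination hm₁ - (a : ℤ) * hα₁
    have hm₂α : m₂ = -(b * α₁) := by
      apply mul_left_cancel₀ hq0
      push_cast at hm₂
      linear_combination hm₂ - (b : ℤ) * hα₁
    have hrel : (α₁ : ℚ) - K * (f 0) = α - K * N := by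
      have h1 : ((d : ℚ) + K.num * (f 0)) = K.den * α₁ := by exact_mod_cast hα₁
      have : (K.den : ℚ) * (α₁ - K * (f 0)) = K.den * (α - K * N) := by
        rw [← hdQ]
        rw [hnum] at h1
        linear_combination -h1
      exact mul_left_cancel₀ hqQ.ne' this
    refine ⟨α₁, Nat.gcd G' α₁.natAbs, hrel, Nat.gcd_pos_of_pos_left _ hG'pos,
      Nat.gcd_dvd_left _ _, ?_, P, Q, c, hc, hbr, ?_, ?_, ?_⟩
    · have := Nat.gcd_dvd_right G' α₁.natAbs
      exact Int.natCast_dvd.mpr this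
    · exact zero_corner hkK hP hKP hd hrel (by rw [← hm₁α]; exact hm₁')
        (fun j hj => coeff_lt_zero p hp0 j (by rw [hfp]; exact hj))
    · exact zero_corner hkK hQ hKQ hd hrel (by rw [← hm₂α]; exact hm₂')
        (fun j hj => coeff_lt_zero g hg0 j (by rw [hfg]; exact hj))
    · refine inv_zero D hInv (hfp 0) hN₀pos (hcrit 0 hN₀pos) ?_ _ f (fun ν _ => hfp ν)
      linear_combination -hα₁
  · -- a big nonzero root
    intro hminor
    obtain ⟨μ, hμroot, hμbig⟩ := exists_big_root P1 Q1 (a * d) e₁ hadpos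
      (K.den * c) hqc (by rw [hAcast]; exact hlP) (by rw [hAcast, ← hp]; exact hp0)
      (by
        rw [hAcast, ← hp, hpdeg]
        have h1 : d < e₁ * N := by exact_mod_cast hxZ
        calc a * d < a * (e₁ * N) := Nat.mul_lt_mul_of_pos_left h1 ha
          _ = e₁ * (a * N) := by ring) hbr1
    rw [hAcast, ← hp] at hμroot hμbig
    have hdN₁ : d < e₁ * f μ := by
      rw [hfp] at hμbig
      have : a * d < a * (e₁ * f μ) := by
        calc a * d < e₁ * (a * f μ) := hμbig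
          _ = a * (e₁ * f μ) := by ring
      exact Nat.lt_of_mul_lt_mul_left this
    have hfpos : 0 < f μ := by
      rcases Nat.eq_zero_or_pos (f μ) with h | h
      · rw [h] at hdN₁; omega
      · exact h
    have hμ0 : μ ≠ 0 := by
      rintro rfl
      omega
    have hqN₁ : f μ ≤ G' * σ' := by
      have h1 := orbit_bound' p hp0 K.den hqpos (a * N) hr μ hμ0
      rw [hfp, hfp, hpdeg] at h1
      have h2 : a * (K.den * f μ + f 0) ≤ a * N := by
        calc a * (K.den * f μ + f 0) = K.den * (a * f μ) + a * f 0 := by ring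
          _ ≤ a * N := h1
      have h3 := Nat.le_of_mul_le_mul_left h2 ha
      have h4 : K.den * f μ ≤ K.den * (G' * σ') := by omega
      exact Nat.le_of_mul_le_mul_left h4 hqpos
    refine ⟨f μ, hqN₁, hdN₁, hG'f μ, shift μ P1, shift μ Q1, K.den * c, hqc, ?_, ?_, ?_, ?_⟩
    · rw [brB_shift, hbr1, shift, C_comp]
    · exact shift_corner μ hlP hp0 (hfp μ)
    · exact shift_corner μ hlQ hg0 (hfg μ)
    · exact inv_shift D hInv (hfp μ) hfpos (hcrit μ hfpos) _ f (fun ν _ => hfp ν)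

end Pool.Agent.Lib.MP_2d59ee_ag
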