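import Mathlib
import Pool.Agent.Lib.MP_2d59ee_ag.R.R1
import Pool.Agent.Lib.MP_2d59ee_ag.R.R4b

set_option autoImplicit false

/-! The next level of a state, with the ambient divisor. -/

namespace Pool.Agent.Lib.MP_2d59ee_ag

open Polynomial

/-- standing conditions for a state of the descent, with the ambient divisor -/
structure GoodG (a b N E : ℕ) (α : ℤ) (k : ℚ) (G : ℕ) : Prop where
  hN : 0 < N
  hG : 0 < G
  hk : 0 ≤ k
  st : StG a b N E α k G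
  hΔ : 0 < (α : ℚ) - k * N
  hJ : (E : ℚ) - k < ((a : ℚ) + b) * (α - k * N)
  hx : α < E * N

theorem GoodG.toGood {a b N E : ℕ} {α : ℤ} {k : ℚ} {G : ℕ} (g : GoodG a b N E α k G) :
    Good a b N E α k := by
  obtain ⟨P, Q, c, hc, hbr, hP, hQ, -⟩ := g.st
  exact ⟨g.hN, g.hk, ⟨P, Q, c, hc, hbr, hP, hQ⟩, g.hΔ, g.hJ, g.hx⟩

/-- the next level, with the ambient divisor. `G'` divides `G`, `d`, `N₀`, `σ`, all
multiplicities; `d ∣ e G` and not `d ∣ e G'`. -/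
theorem general_levelG (a b : ℕ) (ha : 2 ≤ a) (hlt : a < b) (hab : Nat.Coprime a b)
    {N E G : ℕ} {α : ℤ} {k : ℚ} (g : GoodG a b N E α k G) (x : ℕ) (hxx : (x : ℤ) = E * N - α) :
    ∃ (K : ℚ) (q d e : ℕ), k < K ∧ 0 < q ∧ 0 < e ∧ 0 < d ∧ (e : ℚ) = q * (E - K) ∧
      (d : ℚ) = q * (α - K * N) ∧ Nat.Coprime q e ∧ e * N = q * x + d ∧
      (((d : ℤ) * (((a : ℤ) + b) * N - 1) = q * x ∧ q ≤ b) ∨
       (∃ G', G' ∣ G ∧ G' ∣ d ∧ G' ∣ N ∧ 0 < G' ∧ q = 1 ∧ GoodG a b N e d 0 G') ∨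
       (∃ j N₀ σ G' : ℕ, 0 < G' ∧ G' ∣ G ∧ G' ∣ d ∧ G' ∣ N ∧ G' ∣ N₀ ∧ G' ∣ σ ∧ d ∣ e * G ∧
          ¬ d ∣ e * G' ∧ j * d = x ∧ N = N₀ + q * σ ∧ 0 < σ ∧ e * N₀ ≠ d ∧
          ((e * N₀ < d ∧ ∃ N₁ x₁ : ℕ, G' ∣ N₁ ∧ GoodG a b N₁ e d 0 G' ∧ N₁ ≤ σ ∧
              e * N₁ = d + x₁ ∧ 2 ≤ x₁ ∧ (x₁ : ℤ) = e * N₁ - (d : ℤ)) ∨
           (d < e * N₀ ∧ ∃ (α₀ : ℤ) (x' : ℕ), G' ∣ x' ∧ GoodG a b N₀ E α₀ K G' ∧
              (x' : ℤ) = E * N₀ - α₀ ∧ (α₀ : ℚ) - K * N₀ = α - K * N ∧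
              e * N₀ = q * x' + d ∧ 2 ≤ x')))) := by
  have ha0 : 0 < a := by omega
  have hb0 : 0 < b := by omega
  obtain ⟨P, Q, c, hc, hbr, hP, hQ, hInv⟩ := g.st
  have hN := g.hN
  have hΔ := g.hΔ
  have hJ := g.hJ
  have hx := g.hx
  have hNQ : (1 : ℚ) ≤ N := by exact_mod_cast hN
  have haQ : (1 : ℚ) ≤ a := by exact_mod_cast ha0
  have hbQ : (1 : ℚ) ≤ b := by exact_mod_cast hb0
  have hden : (0 : ℚ) < ((a : ℚ) + b) * N - 1 := by nlinarith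
  set κ : ℚ := (((a : ℚ) + b) * α - E) / (((a : ℚ) + b) * N - 1) with hκ
  have hkκ : k < κ := by
    rw [hκ, lt_div_iff₀ hden]; linarith
  obtain ⟨K, hkK, hKκ, hKP, hKQ, hKcase⟩ := exists_level hP hQ hkκ
  have hKle : (E : ℚ) - K ≤ ((a : ℚ) + b) * (α - K * N) := by
    rw [hκ, le_div_iff₀ hden] at hKκ; linarith
  have hxQ : (α : ℚ) < E * N := by exact_mod_cast hx
  have hEK : 0 < (E : ℚ) - K := by
    by_contra hcon
    push Not at hcon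
    have h1 : (α : ℚ) - K * N < ((E : ℚ) - K) * N := by linarith
    have h2 : ((E : ℚ) - K) * N ≤ (E : ℚ) - K := by nlinarith
    have h3 : (α : ℚ) - K * N < 0 := by linarith
    nlinarith
  have hΔK : 0 < (α : ℚ) - K * N := by
    by_contra hcon
    push Not at hcon
    nlinarith
  obtain ⟨d, e, hd, he₁, hpkg⟩ := level_nums a b N E α k K hkK hEK hΔK
  have hqQ : (0 : ℚ) < K.den := by exact_mod_cast hpkg.hq
  have hqZ : (0 : ℤ) < K.den := by exact_mod_cast hpkg.hq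
  have heQ : (0 : ℚ) < e := by exact_mod_cast hpkg.he
  have hdQ : (0 : ℚ) < d := by exact_mod_cast hpkg.hd
  have heZ : (1 : ℤ) ≤ e := by exact_mod_cast hpkg.he
  have hdZ : (1 : ℤ) ≤ d := by exact_mod_cast hpkg.hd
  have heK := hpkg.heK
  have hdK := hpkg.hdK
  have hqx := hpkg.hx
  rw [← hxx] at hqx
  have hxpos : (0 : ℤ) < x := by rw [hxx]; linarith
  have heN : e * N = K.den * x + d := by
    have h1 : ((e * N : ℕ) : ℤ) = ((K.den * x + d : ℕ) : ℤ) := by push_cast; linarith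
    exact_mod_cast h1
  refine ⟨K, K.den, d, e, hkK, hpkg.hq, hpkg.he, hpkg.hd, heK, hdK,
    Nat.isCoprime_iff_coprime.mp hpkg.cop, heN, ?_⟩
  by_cases hKeq : K = κ
  · left
    have h3 := final_raw ha0 hb0 hc hbr hN hP hQ hkK hKP hKQ hd (by
      have h1 : K * (((a : ℚ) + b) * N - 1) = ((a : ℚ) + b) * α - E := by
        rw [hKeq, hκ, div_mul_cancel₀ _ hden.ne']
      have h2 : (((a : ℤ) + b) * d : ℚ) = K.den * E - K.num := by
        rw [hpkg.hdK, num_cast K]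
        push_cast
        linear_combination (-(K.den : ℚ)) * h1
      exact_mod_cast h2)
    rw [← hxx] at h3
    refine ⟨h3.1, ?_⟩
    rcases h3.2 with ⟨h1, -⟩ | ⟨h1, -⟩
    · exact (Nat.le_of_dvd ha0 h1).trans hlt.le
    · exact Nat.le_of_dvd hb0 h1
  right
  have hKlt : K < κ := lt_of_le_of_ne hKκ hKeq
  have hJK : (E : ℚ) - K < ((a : ℚ) + b) * (α - K * N) := by
    rw [hκ, lt_div_iff₀ hden] at hKlt; linarith
  have hAtt : Attained P a α N K ∨ Attained Q b α N K := by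
    rcases hKcase with h | h
    · exact absurd h hKeq
    · exact h
  obtain ⟨hJZ, hcase⟩ := level_coreG a b ha0 hb0 hab N E α k K hN P Q c hc hbr hP hQ G g.hG hInv
    hkK hKP hKQ hxQ hJK hAtt d e hd he₁ hpkg
  have hJQ : (e : ℚ) < ((a : ℚ) + b) * d := by exact_mod_cast hJZ
  rcases hcase with ⟨G', h1, h2, h3, h4, -, h5, hst⟩ |
    ⟨N₀, j, σ, G', hj, hNσ, hσ, hne, h1, h2, h3, h4, h5, h6, h7, h8, hzero, hbig⟩
  · left
    refine ⟨G', h1, h2, h3, h4, h5, hN, h4, le_rfl, hst, by simpa using hdQ,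
      by simpa using hJQ, ?_⟩
    rw [h5] at heN
    have : (e : ℤ) * N = x + d := by exact_mod_cast (by omega : e * N = x + d)
    linarith
  right
  rw [← hxx] at hj
  have hjx : j * d = x := by exact_mod_cast hj
  rcases lt_or_gt_of_ne hne with hmin | hmaj
  · obtain ⟨N₁, hqN₁, hdN₁, hGN₁, hst₁⟩ := hbig hmin
    have hN₁pos : 0 < N₁ := by
      rcases Nat.eq_zero_or_pos N₁ with h | h
      · rw [h] at hdN₁; omega
      · exact h
    have hg₁ : GoodG a b N₁ e d 0 G' := ⟨hN₁pos, h1, le_rfl, hst₁, by simpa using hdQ,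
      by simpa using hJQ, by exact_mod_cast hdN₁⟩
    obtain ⟨x₁, hx₁⟩ : ∃ x₁ : ℕ, e * N₁ = d + x₁ := ⟨e * N₁ - d, by omega⟩
    have hx₁Z : (x₁ : ℤ) = e * N₁ - (d : ℤ) := by
      have : ((e * N₁ : ℕ) : ℤ) = ((d + x₁ : ℕ) : ℤ) := by rw [hx₁]
      push_cast at this ⊢
      linarith
    exact ⟨j, N₀, σ, G', h1, h2, h3, h4, h5, h6, h7, h8, hjx, hNσ, hσ, hne,
      Or.inl ⟨hmin, N₁, x₁, hGN₁, hg₁, hqN₁, hx₁, hg₁.toGood.two_le ha hlt hab x₁ hx₁Z, hx₁Z⟩⟩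
  · have hN₀pos : 0 < N₀ := by
      rcases Nat.eq_zero_or_pos N₀ with h | h
      · rw [h] at hmaj; omega
      · exact h
    obtain ⟨α₀, G'', hrel, k1, k2, k3, hst₀⟩ := hzero hN₀pos
    have hmajQ : (d : ℚ) < e * N₀ := by exact_mod_cast hmaj
    have hα₀ : α₀ < E * N₀ := by
      have h1 : (K.den : ℚ) * (α₀ - K * N₀) < K.den * ((E - K) * N₀) := by
        rw [hrel, ← hdK]
        have : (K.den : ℚ) * ((E - K) * N₀) = e * N₀ := by rw [heK]; ring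
        rw [this]; exact hmajQ
      have h2 := lt_of_mul_lt_mul_left h1 hqQ.le
      have h3 : (α₀ : ℚ) < E * N₀ := by linarith
      exact_mod_cast h3
    have hΔ₀ : 0 < (α₀ : ℚ) - K * N₀ := by
      rw [hrel]; exact hΔK
    have hJ₀ : (E : ℚ) - K < ((a : ℚ) + b) * (α₀ - K * N₀) := by
      rw [hrel]; exact hJK
    have hg₀ : GoodG a b N₀ E α₀ K G'' :=
      ⟨hN₀pos, k1, by have := g.hk; linarith, hst₀, hΔ₀, hJ₀, hα₀⟩
    obtain ⟨x', hx'⟩ : ∃ x' : ℕ, (x' : ℤ) = E * N₀ - α₀ :=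
      ⟨(E * N₀ - α₀ : ℤ).toNat, Int.toNat_of_nonneg (by linarith)⟩
    have heN₀Q : ((e * N₀ : ℕ) : ℚ) = ((K.den * x' + d : ℕ) : ℚ) := by
      have h1 : (x' : ℚ) = E * N₀ - α₀ := by exact_mod_cast hx'
      push_cast
      rw [heK, hdK, h1, ← hrel]; ring
    have heN₀ : e * N₀ = K.den * x' + d := by exact_mod_cast heN₀Q
    have hGx' : G'' ∣ x' := by
      have h1 : (G'' : ℤ) ∣ (N₀ : ℤ) := Int.natCast_dvd_natCast.mpr (k2.trans h5)
      have h2 : (G'' : ℤ) ∣ (x' : ℤ) := by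
        rw [hx']
        exact dvd_sub (h1.mul_left _) k3
      exact Int.natCast_dvd_natCast.mp h2
    exact ⟨j, N₀, σ, G'', k1, k2.trans h2, k2.trans h3, k2.trans h4, k2.trans h5, k2.trans h6, h7,
      fun hcon => h8 (hcon.trans (Nat.mul_dvd_mul_left _ k2)), hjx, hNσ, hσ, hne,
      Or.inr ⟨hmaj, α₀, x', hGx', hg₀, hx', hrel, heN₀,
        hg₀.toGood.two_le ha hlt hab x' hx'⟩⟩

end Pool.Agent.Lib.MP_2d59ee_ag
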