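import Mathlib
import Pool.Agent.Lib.MP_2d59ee_ag.R.R4c

set_option autoImplicit false

/-! The start of the descent, with the ambient divisor. -/

namespace Pool.Agent.Lib.MP_2d59ee_ag

open Polynomial

/-- the start -/
theorem start_goodG (a b m' n' : ℕ) (hm : 0 < m') (hmn : m' < n') (hab : Nat.Coprime a b)
    (ha : 2 ≤ a) (hlt : a < b) (F G : MvPolynomial (Fin 2) ℂ)
    (hF : ∀ d ∈ F.support, d 1 ≤ a * n' ∧ d 0 + d 1 ≤ a * m' + a * n')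
    (hG : ∀ d ∈ G.support, d 1 ≤ b * n' ∧ d 0 + d 1 ≤ b * m' + b * n')
    (hFv : ∃ d : Fin 2 →₀ ℕ, d 0 = a * m' ∧ d 1 = a * n' ∧ F.coeff d ≠ 0)
    (hGv : ∃ d : Fin 2 →₀ ℕ, d 0 = b * m' ∧ d 1 = b * n' ∧ G.coeff d ≠ 0)
    (hdiv : ∀ i : ℕ, i ≤ a * n' →
      ((MvPolynomial.X 0 + MvPolynomial.X 1 : MvPolynomial (Fin 2) ℂ) ^ (a * n' - i)) ∣
          MvPolynomial.homogeneousComponent (a * m' + a * n' - i) F)
    (c : ℂ) (hc : c ≠ 0)
    (hbr : MvPolynomial.pderiv 0 F * MvPolynomial.pderiv 1 G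
      - MvPolynomial.pderiv 1 F * MvPolynomial.pderiv 0 G = MvPolynomial.C c) :
    ∃ (N₁ x₁ E G₁ : ℕ) (α : ℤ) (k : ℚ), N₁ ≤ n' ∧ GoodG a b N₁ E α k G₁ ∧ (E : ℚ) - k ≤ 1 ∧
      (x₁ : ℤ) = E * N₁ - α ∧ N₁ = m' + x₁ ∧
      ((N₁ = n' ∧ G₁ = Nat.gcd m' n') ∨
       (m' ∣ n' ∧ G₁ ∣ m' ∧ ¬ m' ∣ G₁)) := by
  have ha0 : 0 < a := by omega
  have hb0 : 0 < b := by omega
  have hn : 0 < n' := hm.trans hmn
  have hmQ : (1 : ℚ) ≤ m' := by exact_mod_cast hm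
  have hnQ : (2 : ℚ) ≤ n' := by exact_mod_cast (by omega : 2 ≤ n')
  have hmnQ : (m' : ℚ) + 1 ≤ n' := by exact_mod_cast hmn
  have haQ : (2 : ℚ) ≤ a := by exact_mod_cast ha
  have hbQ : (3 : ℚ) ≤ b := by exact_mod_cast (by omega : 3 ≤ b)
  have hbr' := brB_Phi_const F G c hbr
  have hcneg : -c ≠ 0 := neg_ne_zero.mpr hc
  have hd0 := hdiv 0 (Nat.zero_le _)
  rw [Nat.sub_zero, Nat.sub_zero] at hd0
  obtain ⟨hCF, hCG⟩ := init_corners a b m' n' hm hmn ha hlt F G hF hG hFv hGv hd0 c hbr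
  have hP1 := atLevel_one a m' n' F hF hdiv
  have hab5 : (5 : ℚ) ≤ (a : ℚ) + b := by linarith
  have hαQ : (((m' : ℤ) + n' : ℤ) : ℚ) = m' + n' := by push_cast; ring
  have hgcd0 : Nat.gcd (m' + n') n' = Nat.gcd m' n' := by
    rw [Nat.gcd_comm, Nat.gcd_add_self_right, Nat.gcd_comm]
  have hG0 : 0 < Nat.gcd m' n' := Nat.gcd_pos_of_pos_left _ hm
  have hInv : ∀ k : ℚ, Inv (Phi F) (Phi G) n' ((m' : ℤ) + n') k (Nat.gcd m' n') := by
    intro k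
    rw [← hgcd0]
    exact inv_start (Phi F) (Phi G) n' k (m' + n') _ (by push_cast; ring)
  have hQ1 := atLevel_partner a b ha0 hb0 hab n' 2 ((m' : ℤ) + n') (Phi F) (Phi G) (-c) hcneg
    hbr' hn hCF hCG 1 one_pos hP1 (by push_cast; norm_num)
    (by rw [hαQ]; linarith)
    (by push_cast; omega)
    (by rw [hαQ]; push_cast; nlinarith)
    (by rw [hαQ]; push_cast; nlinarith)
  by_cases hatt : Attained (Phi F) a ((m' : ℤ) + n') n' 1 ∨ Attained (Phi G) b ((m' : ℤ) + n') n' 1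
  · -- the level one is attained
    obtain ⟨d, e₁, hd, he₁, hpkg⟩ := level_nums a b n' 2 ((m' : ℤ) + n') 0 1 one_pos
      (by push_cast; norm_num) (by rw [hαQ]; linarith)
    obtain ⟨-, hcase⟩ := level_coreG a b ha0 hb0 hab n' 2 ((m' : ℤ) + n') 0 1 hn (Phi F) (Phi G)
      (-c) hcneg hbr' hCF hCG (Nat.gcd m' n') hG0 (hInv 0) one_pos hP1 hQ1
      (by rw [hαQ]; push_cast; linarith)
      (by rw [hαQ]; push_cast; nlinarith) hatt d e₁ hd he₁ hpkg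
    have hq1 : (1 : ℚ).den = 1 := rfl
    have he1 : e₁ = 1 := by
      have h1 := hpkg.heK
      rw [hq1] at h1
      have h2 : (e₁ : ℚ) = 1 := by rw [h1]; push_cast; norm_num
      exact_mod_cast h2
    have hdm : (d : ℤ) = m' := by
      have h1 := hpkg.hdK
      rw [hq1, hαQ] at h1
      have h2 : (d : ℚ) = m' := by rw [h1]; push_cast; ring
      exact_mod_cast h2
    have hdm' : d = m' := by exact_mod_cast hdm
    subst hdm'
    subst he1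
    have hlast : ∀ N₁ G₁ : ℕ, N₁ ≤ n' → 0 < G₁ → d < N₁ → StG a b N₁ 1 d 0 G₁ →
        ∃ x₁ : ℕ, GoodG a b N₁ 1 d 0 G₁ ∧ (x₁ : ℤ) = (1 : ℕ) * N₁ - (d : ℤ) ∧ N₁ = d + x₁ := by
      intro N₁ G₁ _ hG₁ hdN₁ hst₁
      have hN₁pos : 0 < N₁ := by omega
      obtain ⟨x₁, hx₁⟩ : ∃ x₁ : ℕ, N₁ = d + x₁ := ⟨N₁ - d, by omega⟩
      refine ⟨x₁, ⟨hN₁pos, hG₁, le_rfl, hst₁, by push_cast; linarith, by push_cast; nlinarith,
          by push_cast; omega⟩, ?_, hx₁⟩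
      rw [hx₁]; push_cast; ring
    rcases hcase with ⟨G', h1, h2, h3, h4, h5, -, hst⟩ |
      ⟨N₀, j, σ, G', hj, hNσ, hσ, hne, h1, h2, h3, h4, h5, h6, h7, h8, hzero, hbig⟩
    · obtain ⟨x₁, k1, k2, k3⟩ := hlast n' G' le_rfl h4 hmn hst
      have hG' : G' = Nat.gcd d n' := by
        apply Nat.dvd_antisymm h1
        exact h5 _ dvd_rfl (Nat.gcd_dvd_left _ _) (Nat.gcd_dvd_right _ _)
      exact ⟨n', x₁, 1, G', d, 0, le_rfl, k1, by push_cast; norm_num, k2, k3,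
        Or.inl ⟨rfl, hG'⟩⟩
    · have hdvd : d ∣ n' := by
        rw [one_mul] at h7
        exact h7.trans (Nat.gcd_dvd_right _ _)
      rw [one_mul] at h8
      rcases lt_or_gt_of_ne hne with hmin | hmaj
      · obtain ⟨N₁, hqN₁, hdN₁, hGN₁, hst₁⟩ := hbig hmin
        rw [one_mul] at hdN₁
        have hle : N₁ ≤ n' := by
          rw [hq1, one_mul] at hNσ
          omega
        obtain ⟨x₁, k1, k2, k3⟩ := hlast N₁ G' hle h1 hdN₁ hst₁
        exact ⟨N₁, x₁, 1, G', d, 0, hle, k1, by push_cast; norm_num, k2, k3,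
          Or.inr ⟨hdvd, h3, h8⟩⟩
      · rw [one_mul] at hmaj
        have hN₀pos : 0 < N₀ := by omega
        obtain ⟨α₀, G'', hrel, g1, g2, g3, hst₀⟩ := hzero hN₀pos
        rw [hαQ] at hrel
        have hα₀ : (α₀ : ℚ) = N₀ + d := by linarith
        have hα₀Z : α₀ = N₀ + d := by exact_mod_cast hα₀
        obtain ⟨x₁, hx₁⟩ : ∃ x₁ : ℕ, N₀ = d + x₁ := ⟨N₀ - d, by omega⟩
        have hle : N₀ ≤ n' := by
          rw [hNσ]; exact Nat.le_add_right _ _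
        refine ⟨N₀, x₁, 2, G'', α₀, 1, hle,
          ⟨hN₀pos, g1, zero_le_one, hst₀, by rw [hα₀]; linarith,
            by rw [hα₀]; push_cast; nlinarith, by rw [hα₀Z]; push_cast; omega⟩,
          by push_cast; norm_num, ?_, hx₁, Or.inr ⟨hdvd, g2.trans h3, fun h => h8 (h.trans g2)⟩⟩
        rw [hα₀Z, hx₁]; push_cast; ring
  · push Not at hatt
    have hst : StG a b n' 2 ((m' : ℤ) + n') 1 (Nat.gcd m' n') :=
      ⟨Phi F, Phi G, -c, hcneg, hbr', corner_of_not_attained hCF hP1 hatt.1,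
        corner_of_not_attained hCG hQ1 hatt.2, hInv 1⟩
    obtain ⟨x₁, hx₁⟩ : ∃ x₁ : ℕ, n' = m' + x₁ := ⟨n' - m', by omega⟩
    refine ⟨n', x₁, 2, Nat.gcd m' n', (m' : ℤ) + n', 1, le_rfl,
      ⟨hn, hG0, zero_le_one, hst, by rw [hαQ]; linarith, by rw [hαQ]; push_cast; nlinarith,
        by push_cast; omega⟩, by push_cast; norm_num, ?_, hx₁, Or.inl ⟨rfl, rfl⟩⟩
    rw [hx₁]; push_cast; ring

end Pool.Agent.Lib.MP_2d59ee_ag
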