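import Mathlib
import Pool.Agent.Lib.MP_2d59ee_ag.R.R1
import Pool.Agent.Lib.MP_2d59ee_ag.R.R2
import Pool.Agent.Lib.MP_2d59ee_ag.R.R3
import Pool.Agent.Lib.MP_2d59ee_ag.R.R4c
import Pool.Agent.Lib.MP_2d59ee_ag.R.R4d
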