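import Mathlib
import Pool.Agent.Lib.MP_2d59ee_ag.R.R4

set_option autoImplicit false

/-! Rows R5, R6: arithmetic. A state is LOW if `E - k ≤ 1`. -/

namespace Pool.Agent.Lib.MP_2d59ee_ag

/-- the step data at the first level of a state with `E - k ≤ 1`, with the running gcd `G` -/
structure StepG (S : ℕ → ℕ → ℤ → ℚ → ℕ → Prop) (N E G x : ℕ) (K : ℚ)
    (q d e j N₀ σ : ℕ) : Prop where
  hq2 : 2 ≤ q
  he : 0 < e
  heq : e < q
  hd : 0 < d
  cop : Nat.Coprime q e
  hj : j * d = x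
  hj0 : 0 < j
  heN : e * N = q * x + d
  hNσ : N = N₀ + q * σ
  hσ : 0 < σ
  hG : d ∣ e * G
  hnd : ¬ d ∣ e
  hcase : (e * N₀ < d ∧ ∃ N₁ x₁ G₁ : ℕ, S N₁ e d 0 G₁ ∧ N₁ < N ∧ q * N₁ ≤ N ∧
        e * N₁ = d + x₁ ∧ 0 < x₁ ∧ G₁ ∣ G ∧ G₁ ∣ d ∧ G₁ ∣ N₀ ∧ G₁ ∣ σ) ∨
      (d < e * N₀ ∧ N₀ < N ∧ ∃ (α₀ : ℤ) (x' G₁ : ℕ), S N₀ E α₀ K G₁ ∧ (E : ℚ) - K ≤ 1 ∧
        (x' : ℤ) = E * N₀ - α₀ ∧ e * N₀ = q * x' + d ∧ x = x' + e * σ ∧ 0 < x' ∧ G₁ ∣ G)

/-- H1: the bound `2 N ≤ (G + 1) x`. -/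
theorem H1_arith {S : ℕ → ℕ → ℤ → ℚ → ℕ → Prop}
    (h : ∀ (N E : ℕ) (α : ℤ) (k : ℚ) (G : ℕ), 0 < G → S N E α k G → (E : ℚ) - k ≤ 1 →
      ∀ x : ℕ, (x : ℤ) = E * N - α → ∃ (K : ℚ) (q d e j N₀ σ : ℕ),
        StepG S N E G x K q d e j N₀ σ) :
    ∀ (N E : ℕ) (α : ℤ) (k : ℚ) (G : ℕ), 0 < G → S N E α k G → (E : ℚ) - k ≤ 1 →
      ∀ x : ℕ, (x : ℤ) = E * N - α → 2 * N ≤ (G + 1) * x := by
  intro N
  induction N using Nat.strong_induction_on with
  | _ N ih =>
  intro E α k G hG0 hS hE1 x hx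
  obtain ⟨K, q, d, e, j, N₀, σ, s⟩ := h N E α k G hG0 hS hE1 x hx
  obtain ⟨hq2, he, heq, hd, cop, hj, hj0, heN, hNσ, hσ, hdG, hnd, hcase⟩ := s
  rcases hcase with ⟨hmin, N₁, x₁, G₁, hS₁, hN₁, hqN₁, hx₁, hx₁0, g1, g2, g3, g4⟩ |
    ⟨hmaj, hlt, α₀, x', G₁, hS₀, hEK, hx', heN₀, hxx, hx'0, g1⟩
  · -- minor case
    obtain ⟨y, hy⟩ : ∃ y, e * σ = x + y := by
      refine ⟨e * σ - x, ?_⟩
      have : x ≤ e * σ := by
        by_contra hcon
        push Not at hcon
        have h1 : q * (e * σ) ≤ q * x := Nat.mul_le_mul_left q hcon.le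
        have h2 : e * N = e * N₀ + q * (e * σ) := by rw [hNσ]; ring
        omega
      omega
    have hdy : d = e * N₀ + q * y := by
      have h2 : e * N = e * N₀ + q * (e * σ) := by rw [hNσ]; ring
      rw [hy, Nat.mul_add] at h2
      omega
    have hy0 : 0 < y := by
      rcases Nat.eq_zero_or_pos y with h0 | h0
      · rw [h0] at hdy; omega
      · exact h0
    have hG₁0 : 0 < G₁ := Nat.pos_of_dvd_of_pos g1 hG0
    rcases Nat.lt_or_ge 1 e with he2 | he1
    · -- e ≥ 2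
      set g := Nat.gcd d e with hg
      have hg0 : 0 < g := Nat.gcd_pos_of_pos_left _ hd
      have hgd : g ∣ d := Nat.gcd_dvd_left _ _
      have hge : g ∣ e := Nat.gcd_dvd_right _ _
      have hgy : g ∣ y := by
        have h1 : g ∣ q * y := by
          have h2 : g ∣ e * N₀ + q * y := by rw [← hdy]; exact hgd
          exact (Nat.dvd_add_right (hge.mul_right N₀)).1 h2
        have h3 : Nat.Coprime g q := (Nat.Coprime.coprime_dvd_right hge cop).symm
        exact h3.dvd_of_dvd_mul_left h1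
      have hgy' : g ≤ y := Nat.le_of_dvd hy0 hgy
      obtain ⟨d', hd'⟩ := hgd
      obtain ⟨e', he'⟩ := hge
      have hcop : Nat.Coprime d' e' := by
        have h1 : g * Nat.gcd d' e' = g * 1 := by
          rw [← Nat.gcd_mul_left, ← hd', ← he', mul_one]
        exact Nat.eq_of_mul_eq_mul_left hg0 h1
      have hd'G : d' ∣ G := by
        have h1 : g * d' ∣ g * (e' * G) := by
          rw [← hd', ← mul_assoc, ← he']; exact hdG
        have h2 : d' ∣ e' * G := Nat.dvd_of_mul_dvd_mul_left hg0 h1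
        exact hcop.dvd_of_dvd_mul_left h2
      have hd'G' : d' ≤ G := Nat.le_of_dvd hG0 hd'G
      have hq : q ≤ d' := by
        have h1 : g * q ≤ g * d' := by
          rw [← hd', hdy, Nat.mul_comm g q]
          have := Nat.mul_le_mul_left q hgy'
          omega
        exact Nat.le_of_mul_le_mul_left h1 hg0
      -- 2 (q j + 1) ≤ (G + 1) j e
      have h1 : (q + 1) * j ≤ (G + 1) * j := Nat.mul_le_mul_right j (by omega)
      have h2 : (G + 1) * j * 2 ≤ (G + 1) * j * e := Nat.mul_le_mul_left _ he2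
      have h3 : 2 * (q * j + 1) ≤ (G + 1) * j * e := by
        have : (q + 1) * j = q * j + j := by ring
        omega
      have h4 : 2 * (e * N) ≤ e * ((G + 1) * x) := by
        have h5 : d * (2 * (q * j + 1)) ≤ d * ((G + 1) * j * e) := Nat.mul_le_mul_left d h3
        have h6 : d * (2 * (q * j + 1)) = 2 * (q * (j * d) + d) := by ring
        have h7 : d * ((G + 1) * j * e) = e * ((G + 1) * (j * d)) := by ring
        rw [h6, h7, hj] at h5
        rw [heN]; exact h5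
      have h5 : e * (2 * N) ≤ e * ((G + 1) * x) := by
        calc e * (2 * N) = 2 * (e * N) := by ring
          _ ≤ _ := h4
      exact Nat.le_of_mul_le_mul_left h5 he
    · -- e = 1
      have he1' : e = 1 := by omega
      subst he1'
      rw [one_mul] at heN hy hdG hx₁
      rw [one_mul] at hdy
      have hdG' : d ≤ G := Nat.le_of_dvd hG0 hdG
      -- G₁ ≥ 2
      have hx₁Z : (x₁ : ℤ) = ((1 : ℕ) : ℤ) * N₁ - (d : ℤ) := by
        push_cast
        have : (N₁ : ℤ) = d + x₁ := by exact_mod_cast hx₁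
        linarith
      obtain ⟨K₂, q₂, d₂, e₂, j₂, N₂, σ₂, s₂⟩ :=
        h N₁ 1 d 0 G₁ hG₁0 hS₁ (by norm_num) x₁ hx₁Z
      have hG₁2 : 2 ≤ G₁ := by
        by_contra hcon
        push Not at hcon
        have h1 : G₁ = 1 := by omega
        apply s₂.hnd
        have := s₂.hG
        rwa [h1, mul_one] at this
      have hxd : G₁ ∣ x := by rw [← hj]; exact g2.mul_left j
      have hgy : G₁ ∣ y := by
        have h1 : G₁ ∣ x + y := by rw [← hy]; exact g4
        exact (Nat.dvd_add_right hxd).1 h1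
      have hgy' : G₁ ≤ y := Nat.le_of_dvd hy0 hgy
      have hdq : q * G₁ ≤ d := by
        have := Nat.mul_le_mul_left q hgy'
        omega
      rcases Nat.lt_or_ge 1 j with hj2 | hj1
      · -- j ≥ 2
        have h1 : q * 2 ≤ q * G₁ := Nat.mul_le_mul_left q hG₁2
        have h2 : (2 * q + 1) * j ≤ (G + 1) * j := Nat.mul_le_mul_right j (by omega)
        have h3 : 2 * (q * j + 1) ≤ (G + 1) * j := by
          have : (2 * q + 1) * j = 2 * (q * j) + j := by ring
          omega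
        have h5 : d * (2 * (q * j + 1)) ≤ d * ((G + 1) * j) := Nat.mul_le_mul_left d h3
        have h6 : d * (2 * (q * j + 1)) = 2 * (q * (j * d) + d) := by ring
        have h7 : d * ((G + 1) * j) = (G + 1) * (j * d) := by ring
        rw [h6, h7, hj, ← heN] at h5
        exact h5
      · -- j = 1
        have hj1' : j = 1 := by omega
        rw [hj1', one_mul] at hj
        have hi := ih N₁ hN₁ 1 d 0 G₁ hG₁0 hS₁ (by norm_num) x₁ hx₁Z
        -- (G₁ + 1) d ≤ (G₁ - 1) N₁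
        obtain ⟨G', hG'⟩ : ∃ G', G₁ = G' + 1 := ⟨G₁ - 1, by omega⟩
        have h1 : (G' + 2) * d ≤ G' * N₁ := by
          rw [hG', hx₁] at hi
          rw [hx₁]
          have e1 : (G' + 1 + 1) * x₁ = (G' + 2) * x₁ := by ring
          have e2 : (G' + 2) * x₁ = G' * x₁ + 2 * x₁ := by ring
          have e3 : (G' + 2) * d = G' * d + 2 * d := by ring
          have e4 : G' * (d + x₁) = G' * d + G' * x₁ := by ring
          omega
        have hNd : N = (q + 1) * d := by rw [heN, ← hj]; ring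
        have h2 : q * ((G' + 2) * d) ≤ G' * ((q + 1) * d) := by
          calc q * ((G' + 2) * d) ≤ q * (G' * N₁) := Nat.mul_le_mul_left q h1
            _ = G' * (q * N₁) := by ring
            _ ≤ G' * N := Nat.mul_le_mul_left G' hqN₁
            _ = _ := by rw [hNd]
        have h3 : q * (G' + 2) ≤ G' * (q + 1) := by
          have e1 : q * ((G' + 2) * d) = (q * (G' + 2)) * d := by ring
          have e2 : G' * ((q + 1) * d) = (G' * (q + 1)) * d := by ring
          rw [e1, e2] at h2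
          exact Nat.le_of_mul_le_mul_right h2 hd
        have h4 : 2 * q ≤ G' := by
          have e1 : q * (G' + 2) = q * G' + 2 * q := by ring
          have e2 : G' * (q + 1) = q * G' + G' := by ring
          omega
        have hG₁G : G₁ ≤ G := Nat.le_of_dvd hG0 g1
        have h5 : 2 * (q + 1) ≤ G + 1 := by omega
        have h6 : 2 * (q + 1) * d ≤ (G + 1) * d := Nat.mul_le_mul_right d h5
        rw [hNd, ← hj]
        calc 2 * ((q + 1) * d) = 2 * (q + 1) * d := by ring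
          _ ≤ _ := h6
  · -- major case
    have hG₁0 : 0 < G₁ := Nat.pos_of_dvd_of_pos g1 hG0
    have hG₁G : G₁ ≤ G := Nat.le_of_dvd hG0 g1
    have hi := ih N₀ hlt E α₀ K G₁ hG₁0 hS₀ hEK x' hx'
    have h0 : (G₁ + 1) * x' ≤ (G + 1) * x' := Nat.mul_le_mul_right x' (by omega)
    -- 2 q ≤ (G + 1) e
    have h1 : 2 * q ≤ (G + 1) * e := by
      have e1 : 2 * (e * N₀) ≤ (G + 1) * x' * e := by
        have : 2 * N₀ * e ≤ (G + 1) * x' * e := Nat.mul_le_mul_right e (by omega)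
        calc 2 * (e * N₀) = 2 * N₀ * e := by ring
          _ ≤ _ := this
      have e2 : 2 * q * x' ≤ (G + 1) * e * x' := by
        have e3 : 2 * q * x' ≤ 2 * (e * N₀) := by
          rw [heN₀]
          have : 2 * (q * x' + d) = 2 * q * x' + 2 * d := by ring
          omega
        calc 2 * q * x' ≤ 2 * (e * N₀) := e3
          _ ≤ (G + 1) * x' * e := e1
          _ = _ := by ring
      exact Nat.le_of_mul_le_mul_right e2 hx'0
    have h2 : 2 * q * σ ≤ (G + 1) * e * σ := Nat.mul_le_mul_right σ h1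
    rw [hNσ, hxx]
    have e3 : 2 * (N₀ + q * σ) = 2 * N₀ + 2 * q * σ := by ring
    have e4 : (G + 1) * (x' + e * σ) = (G + 1) * x' + (G + 1) * e * σ := by ring
    omega

/-- the reduced fraction `e / d = h / p` -/
theorem frac {d e : ℕ} (hd : 0 < d) (he : 0 < e) : ∃ κ p h : ℕ, 0 < κ ∧ 0 < p ∧ 0 < h ∧
    d = κ * p ∧ e = κ * h ∧ Nat.Coprime p h ∧ ∀ G, d ∣ e * G ↔ p ∣ G := by
  have hg0 : 0 < Nat.gcd d e := Nat.gcd_pos_of_pos_left _ hd
  obtain ⟨p, hp⟩ := Nat.gcd_dvd_left d e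
  obtain ⟨h, hh⟩ := Nat.gcd_dvd_right d e
  have hp0 : 0 < p := by
    rcases Nat.eq_zero_or_pos p with h0 | h0
    · rw [h0, mul_zero] at hp; omega
    · exact h0
  have hh0 : 0 < h := by
    rcases Nat.eq_zero_or_pos h with h0 | h0
    · rw [h0, mul_zero] at hh; omega
    · exact h0
  have hcop : Nat.Coprime p h := by
    have h1 : Nat.gcd d e * Nat.gcd p h = Nat.gcd d e * 1 := by
      rw [← Nat.gcd_mul_left, ← hp, ← hh, mul_one]
    exact Nat.eq_of_mul_eq_mul_left hg0 h1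
  refine ⟨Nat.gcd d e, p, h, hg0, hp0, hh0, hp, hh, hcop, ?_⟩
  intro G
  constructor
  · intro hG
    have h1 : Nat.gcd d e * p ∣ Nat.gcd d e * (h * G) := by
      rw [← hp, ← mul_assoc, ← hh]; exact hG
    have h2 : p ∣ h * G := Nat.dvd_of_mul_dvd_mul_left hg0 h1
    exact hcop.dvd_of_dvd_mul_left h2
  · intro hG
    have h1 : Nat.gcd d e * p ∣ Nat.gcd d e * (h * G) :=
      Nat.mul_dvd_mul_left _ (hG.mul_left h)
    rw [← hp, ← mul_assoc, ← hh] at h1
    exact h1

/-- in the minor case `q` is at most the denominator of `e / d` -/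
theorem minor_q {N q d e N₀ σ x κ p h : ℕ} (cop : Nat.Coprime q e) (heN : e * N = q * x + d)
    (hNσ : N = N₀ + q * σ) (hmin : e * N₀ < d) (hκ : 0 < κ) (hd : d = κ * p) (he : e = κ * h) :
    q ≤ p := by
  obtain ⟨y, hy⟩ : ∃ y, e * σ = x + y := by
    refine ⟨e * σ - x, ?_⟩
    have : x ≤ e * σ := by
      by_contra hcon
      push Not at hcon
      have h1 : q * (e * σ) ≤ q * x := Nat.mul_le_mul_left q hcon.le
      have h2 : e * N = e * N₀ + q * (e * σ) := by rw [hNσ]; ring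
      omega
    omega
  have hdy : d = e * N₀ + q * y := by
    have h2 : e * N = e * N₀ + q * (e * σ) := by rw [hNσ]; ring
    rw [hy, Nat.mul_add] at h2
    omega
  have hy0 : 0 < y := by
    rcases Nat.eq_zero_or_pos y with h0 | h0
    · rw [h0] at hdy; omega
    · exact h0
  have hκd : κ ∣ d := ⟨p, hd⟩
  have hκe : κ ∣ e := ⟨h, he⟩
  have hκy : κ ∣ y := by
    have h1 : κ ∣ q * y := by
      have h2 : κ ∣ e * N₀ + q * y := by rw [← hdy]; exact hκd
      exact (Nat.dvd_add_right (hκe.mul_right N₀)).1 h2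
    have h3 : Nat.Coprime κ q := (Nat.Coprime.coprime_dvd_right hκe cop).symm
    exact h3.dvd_of_dvd_mul_left h1
  have hκy' : κ ≤ y := Nat.le_of_dvd hy0 hκy
  have h1 : κ * q ≤ κ * p := by
    rw [← hd, hdy, Nat.mul_comm κ q]
    have := Nat.mul_le_mul_left q hκy'
    omega
  exact Nat.le_of_mul_le_mul_left h1 hκ

/-- first level of a low state: `e < q`, `2 ≤ q`, it splits -/
theorem low_level (a b : ℕ) (ha : 2 ≤ a) (hlt : a < b) (hab : Nat.Coprime a b)
    {N E G : ℕ} {α : ℤ} {k : ℚ} (g : GoodG a b N E α k G) (hE1 : (E : ℚ) - k ≤ 1) (x : ℕ)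
    (hxx : (x : ℤ) = E * N - α) :
    ∃ (K : ℚ) (q d e j N₀ σ G' : ℕ), k < K ∧ 2 ≤ q ∧ 0 < e ∧ e < q ∧ 0 < d ∧
      (e : ℚ) = q * (E - K) ∧ Nat.Coprime q e ∧ e * N = q * x + d ∧
      0 < G' ∧ G' ∣ G ∧ G' ∣ d ∧ G' ∣ N ∧ G' ∣ N₀ ∧ G' ∣ σ ∧ d ∣ e * G ∧
          ¬ d ∣ e * G' ∧ 0 < j ∧ j * d = x ∧ N = N₀ + q * σ ∧ 0 < σ ∧ e * N₀ ≠ d ∧
          ((e * N₀ < d ∧ ∃ N₁ x₁ : ℕ, G' ∣ N₁ ∧ GoodG a b N₁ e d 0 G' ∧ N₁ ≤ σ ∧
              e * N₁ = d + x₁ ∧ 2 ≤ x₁ ∧ (x₁ : ℤ) = e * N₁ - (d : ℤ)) ∨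
           (d < e * N₀ ∧ ∃ (α₀ : ℤ) (x' : ℕ), G' ∣ x' ∧ GoodG a b N₀ E α₀ K G' ∧
              (E : ℚ) - K ≤ 1 ∧ (x' : ℤ) = E * N₀ - α₀ ∧
              e * N₀ = q * x' + d ∧ 2 ≤ x')) := by
  obtain ⟨K, q, d, e, hkK, hq, he, hd, heK, hdK, cop, heN, hcase⟩ :=
    general_levelG a b ha hlt hab g x hxx
  have hqQ : (0 : ℚ) < q := by exact_mod_cast hq
  have heq : e < q := by
    have h1 : (e : ℚ) < q := by
      rw [heK]
      have : (E : ℚ) - K < 1 := by linarith
      calc (q : ℚ) * (E - K) < q * 1 := mul_lt_mul_of_pos_left this hqQ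
        _ = q := mul_one _
    exact_mod_cast h1
  have hq2 : 2 ≤ q := by omega
  have hxpos : 0 < x := by
    have h1 : (0 : ℤ) < x := by rw [hxx]; have := g.hx; linarith
    exact_mod_cast h1
  have hN0 : 0 < N := g.hN
  rcases hcase with ⟨hfin, hqb⟩ | ⟨G', -, -, -, -, hq1, -⟩ |
    ⟨j, N₀, σ, G', h1, h2, h3, h4, h5, h6, h7, h8, h9, h10, h11, h12, h13⟩
  · exfalso
    -- x < N
    have hxN : x < N := by
      by_contra hcon
      push Not at hcon
      have h1 : q * N ≤ q * x := Nat.mul_le_mul_left q hcon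
      have h2 : e * N ≤ q * N := Nat.mul_le_mul_right N heq.le
      omega
    have hdZ : (1 : ℤ) ≤ d := by exact_mod_cast hd
    have hNZ : (1 : ℤ) ≤ N := by exact_mod_cast hN0
    have haZ : (2 : ℤ) ≤ a := by exact_mod_cast ha
    have hbZ : (a : ℤ) + 1 ≤ b := by exact_mod_cast hlt
    have hqbZ : (q : ℤ) ≤ b := by exact_mod_cast hqb
    have hxNZ : (x : ℤ) ≤ N := by exact_mod_cast hxN.le
    have h1 : ((a : ℤ) + b) * N - 1 ≤ q * x := by
      rw [← hfin]
      have h2 : (0 : ℤ) ≤ ((a : ℤ) + b) * N - 1 := by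
        have h9 : (1 : ℤ) * 1 ≤ ((a : ℤ) + b) * N :=
          mul_le_mul (by linarith) hNZ zero_le_one (by linarith)
        linarith
      exact le_mul_of_one_le_left h2 hdZ
    have h2 : (q : ℤ) * x ≤ b * N := by
      have h3 : (q : ℤ) * x ≤ b * x := mul_le_mul_of_nonneg_right hqbZ (Int.natCast_nonneg x)
      have h4 : (b : ℤ) * x ≤ b * N := mul_le_mul_of_nonneg_left hxNZ (by linarith)
      linarith
    have h9 : (2 : ℤ) * 1 ≤ a * N := mul_le_mul haZ hNZ zero_le_one (by linarith)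
    linarith
  · omega
  · have hj0 : 0 < j := by
      rcases Nat.eq_zero_or_pos j with h0 | h0
      · rw [h0, zero_mul] at h9; omega
      · exact h0
    refine ⟨K, q, d, e, j, N₀, σ, G', hkK, hq2, he, heq, hd, heK, cop, heN, h1, h2, h3, h4, h5,
      h6, h7, h8, hj0, h9, h10, h11, h12, ?_⟩
    rcases h13 with h | ⟨hmaj, α₀, x', i1, i2, i3, i4, i5, i6⟩
    · exact Or.inl h
    · right
      refine ⟨hmaj, α₀, x', i1, i2, ?_, i3, i5, i6⟩
      linarith

/-- H3: the ambient divisor of a low state is at least 3 -/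
theorem low_three (a b : ℕ) (ha : 2 ≤ a) (hlt : a < b) (hab : Nat.Coprime a b) :
    ∀ N : ℕ, ∀ (E : ℕ) (α : ℤ) (k : ℚ) (G : ℕ), GoodG a b N E α k G → (E : ℚ) - k ≤ 1 →
      3 ≤ G := by
  intro N
  induction N using Nat.strong_induction_on with
  | _ N ih =>
  intro E α k G g hE1
  obtain ⟨x, hxx⟩ : ∃ x : ℕ, (x : ℤ) = E * N - α :=
    ⟨(E * N - α : ℤ).toNat, Int.toNat_of_nonneg (by have := g.hx; linarith)⟩
  obtain ⟨K, q, d, e, j, N₀, σ, G', hkK, hq2, he, heq, hd, heK, cop, heN, h1, h2, h3, h4, h5, h6,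
    h7, h8, hj0, h9, h10, h11, h12, hcase⟩ := low_level a b ha hlt hab g hE1 x hxx
  have hσq : 2 * σ ≤ q * σ := Nat.mul_le_mul_right σ hq2
  by_contra hcon
  push Not at hcon
  have hG'G : G' ≤ G := Nat.le_of_dvd g.hG h2
  have hne : G' ≠ G := by
    intro h0; apply h8; rw [h0]; exact h7
  have hG'1 : G' = 1 := by omega
  have hG2 : G = 2 := by omega
  subst hG'1
  subst hG2
  rcases hcase with ⟨hmin, N₁, x₁, i1, g₁, i2, i3, i4, i5⟩ | ⟨hmaj, α₀, x', i1, g₀, hEK, i3, i4, i5⟩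
  · rcases Nat.lt_or_ge 1 e with he2 | he1
    · obtain ⟨κ, p, h, hκ, hp, hh, hd', he', hcop, hG⟩ := frac hd he
      have hp2 : p ∣ 2 := (hG 2).1 h7
      have hq := minor_q cop heN h10 hmin hκ hd' he'
      have := Nat.le_of_dvd (by norm_num) hp2
      omega
    · have he1' : e = 1 := by omega
      subst he1'
      have := ih N₁ (by omega) 1 d 0 1 g₁ (by norm_num)
      omega
  · have hlt₀ : N₀ < N := by omega
    have := ih N₀ hlt₀ E α₀ K 1 g₀ hEK
    omega

/-- H1 -/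
theorem low_slope (a b : ℕ) (ha : 2 ≤ a) (hlt : a < b) (hab : Nat.Coprime a b) :
    ∀ N : ℕ, ∀ (E : ℕ) (α : ℤ) (k : ℚ) (G : ℕ), GoodG a b N E α k G → (E : ℚ) - k ≤ 1 →
      ∀ x : ℕ, (x : ℤ) = E * N - α → 2 * N ≤ (G + 1) * x := by
  intro N E α k G g
  refine H1_arith (S := fun N E α k G => GoodG a b N E α k G) ?_ N E α k G g.hG g
  intro N E α k G hG0 g hE1 x hxx
  obtain ⟨K, q, d, e, j, N₀, σ, G', hkK, hq2, he, heq, hd, heK, cop, heN, h1, h2, h3, h4, h5, h6,
    h7, h8, hj0, h9, h10, h11, h12, hcase⟩ := low_level a b ha hlt hab g hE1 x hxx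
  have hσq : 2 * σ ≤ q * σ := Nat.mul_le_mul_right σ hq2
  refine ⟨K, q, d, e, j, N₀, σ, hq2, he, heq, hd, cop, h9, hj0, heN, h10, h11, h7, ?_, ?_⟩
  · intro h0
    exact h8 (h0.mul_right G')
  · rcases hcase with ⟨hmin, N₁, x₁, i1, g₁, i2, i3, i4, i5⟩ |
      ⟨hmaj, α₀, x', i1, g₀, hEK, i3, i4, i5⟩
    · left
      refine ⟨hmin, N₁, x₁, G', g₁, by omega, ?_, i3, by omega, h2, h3, h5, h6⟩
      have : q * N₁ ≤ q * σ := Nat.mul_le_mul_left q i2
      omega
    · right
      refine ⟨hmaj, by omega, α₀, x', G', g₀, hEK, i3, i4, ?_, by omega, h2⟩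
      -- x = x' + e σ
      have e1 : q * x + d = q * (x' + e * σ) + d := by
        rw [← heN, h10, Nat.mul_add, i4]; ring
      have e2 : q * x = q * (x' + e * σ) := by omega
      exact Nat.eq_of_mul_eq_mul_left (by omega) e2

/-- H2: `N < G² (N - x)` -/
theorem low_upper (a b : ℕ) (ha : 2 ≤ a) (hlt : a < b) (hab : Nat.Coprime a b) :
    ∀ N : ℕ, ∀ (E : ℕ) (α : ℤ) (k : ℚ) (G : ℕ), GoodG a b N E α k G → (E : ℚ) - k ≤ 1 →
      ∀ x : ℕ, (x : ℤ) = E * N - α → N + G ^ 2 * x < G ^ 2 * N := by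
  intro N
  induction N using Nat.strong_induction_on with
  | _ N ih =>
  intro E α k G g hE1 x hxx
  obtain ⟨K, q, d, e, j, N₀, σ, G', hkK, hq2, he, heq, hd, heK, cop, heN, h1, h2, h3, h4, h5, h6,
    h7, h8, hj0, h9, h10, h11, h12, hcase⟩ := low_level a b ha hlt hab g hE1 x hxx
  have hσq : 2 * σ ≤ q * σ := Nat.mul_le_mul_right σ hq2
  have hG0 := g.hG
  have hG'G : G' ≤ G := Nat.le_of_dvd hG0 h2
  obtain ⟨κ, p, h, hκ, hp, hh, hd', he', hcop, hG⟩ := frac hd he
  have hpG : p ∣ G := (hG G).1 h7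
  have hpG' : ¬ p ∣ G' := fun h0 => h8 ((hG G').2 h0)
  -- m = N - x
  obtain ⟨m, hm⟩ : ∃ m, N = x + m := by
    refine ⟨N - x, ?_⟩
    have : x ≤ N := by
      by_contra hcon
      push Not at hcon
      have h1 : q * N ≤ q * x := Nat.mul_le_mul_left q hcon.le
      have h2 : e * N ≤ q * N := Nat.mul_le_mul_right N heq.le
      omega
    omega
  obtain ⟨f, hf⟩ : ∃ f, q = e + f := ⟨q - e, by omega⟩
  have hf0 : 0 < f := by omega
  -- f N = q m - d
  have hfN : f * N + d = q * m := by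
    have e1 : q * N = e * N + f * N := by rw [hf]; ring
    have e2 : q * N = q * x + q * m := by rw [hm]; ring
    omega
  suffices hmain : N < G ^ 2 * m by
    have e1 : G ^ 2 * N = G ^ 2 * x + G ^ 2 * m := by rw [hm]; ring
    omega
  rcases hcase with ⟨hmin, -⟩ | ⟨hmaj, α₀, x', i1, g₀, hEK, i3, i4, i5⟩
  · have hq := minor_q cop heN h10 hmin hκ hd' he'
    have hpG2 : p ≤ G := Nat.le_of_dvd hG0 hpG
    have e1 : N ≤ f * N := Nat.le_mul_of_pos_left N hf0
    have e2 : q * m ≤ G * m := Nat.mul_le_mul_right m (by omega)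
    have e3 : G * m ≤ G * (G * m) := Nat.le_mul_of_pos_left _ hG0
    have e4 : G ^ 2 * m = G * (G * m) := by ring
    omega
  · have hlt₀ : N₀ < N := by omega
    have hi := ih N₀ hlt₀ E α₀ K G' g₀ hEK x' i3
    -- m₀
    obtain ⟨m₀, hm₀⟩ : ∃ m₀, N₀ = x' + m₀ := by
      refine ⟨N₀ - x', ?_⟩
      have : x' ≤ N₀ := by
        by_contra hcon
        push Not at hcon
        have h1 : q * N₀ ≤ q * x' := Nat.mul_le_mul_left q hcon.le
        have h2 : e * N₀ ≤ q * N₀ := Nat.mul_le_mul_right N₀ heq.le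
        omega
      omega
    have hi' : N₀ < G' ^ 2 * m₀ := by
      have e1 : G' ^ 2 * N₀ = G' ^ 2 * x' + G' ^ 2 * m₀ := by rw [hm₀]; ring
      omega
    -- x = x' + e σ, m = m₀ + f σ
    have hx' : x = x' + e * σ := by
      have e1 : q * x + d = q * (x' + e * σ) + d := by
        rw [← heN, h10, Nat.mul_add, i4]; ring
      have e2 : q * x = q * (x' + e * σ) := by omega
      exact Nat.eq_of_mul_eq_mul_left (by omega) e2
    have hmm : m = m₀ + f * σ := by
      have e1 : N = x' + m₀ + (e + f) * σ := by rw [h10, hm₀, hf]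
      have e2 : (e + f) * σ = e * σ + f * σ := by ring
      omega
    -- f x' + d = e m₀
    have hfx : f * x' + d = e * m₀ := by
      have e1 : e * N₀ = e * x' + e * m₀ := by rw [hm₀]; ring
      have e2 : q * x' = e * x' + f * x' := by rw [hf]; ring
      omega
    have hG'm₀ : G' ∣ m₀ := by
      have : G' ∣ x' + m₀ := by rw [← hm₀]; exact h5
      exact (Nat.dvd_add_right i1).1 this
    -- it is enough that q ≤ G² f
    suffices hqf : q ≤ G ^ 2 * f by
      have e1 : q * σ ≤ G ^ 2 * f * σ := Nat.mul_le_mul_right σ hqf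
      have e2 : G' ^ 2 * m₀ ≤ G ^ 2 * m₀ :=
        Nat.mul_le_mul_right m₀ (Nat.pow_le_pow_left hG'G 2)
      rw [h10, hmm]
      have e3 : G ^ 2 * (m₀ + f * σ) = G ^ 2 * m₀ + G ^ 2 * f * σ := by ring
      omega
    -- z = h m₀ - p > 0
    obtain ⟨z, hz⟩ : ∃ z, f * x' = κ * z ∧ h * m₀ = p + z := by
      have e1 : f * x' + κ * p = κ * (h * m₀) := by
        rw [← hd', hfx, he']; ring
      have e2 : p ≤ h * m₀ := by
        by_contra hcon
        push Not at hcon
        have := Nat.mul_le_mul_left κ hcon.le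
        have h3 : 0 < f * x' := Nat.mul_pos hf0 (by omega)
        omega
      refine ⟨h * m₀ - p, ?_, by omega⟩
      rw [Nat.mul_sub, ← e1]; omega
    obtain ⟨hz1, hz2⟩ := hz
    have hz0 : 0 < z := by
      rcases Nat.eq_zero_or_pos z with h0 | h0
      · rw [h0, mul_zero] at hz1
        have h3 : 0 < f * x' := Nat.mul_pos hf0 (by omega)
        omega
      · exact h0
    -- γ = gcd(p, G')
    set γ := Nat.gcd p G' with hγ
    have hγ0 : 0 < γ := Nat.gcd_pos_of_pos_left _ hp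
    have hγp : γ ∣ p := Nat.gcd_dvd_left _ _
    have hγG' : γ ∣ G' := Nat.gcd_dvd_right _ _
    have hγz : γ ∣ z := by
      have e1 : γ ∣ p + z := by rw [← hz2]; exact (hγG'.trans hG'm₀).mul_left h
      exact (Nat.dvd_add_right hγp).1 e1
    have hγz' : γ ≤ z := Nat.le_of_dvd hz0 hγz
    obtain ⟨r, hr⟩ := hγp
    have hr2 : 2 ≤ r := by
      by_contra hcon
      push Not at hcon
      have : r = 1 ∨ r = 0 := by omega
      rcases this with h0 | h0
      · apply hpG'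
        rw [hr, h0, mul_one]; exact hγG'
      · rw [h0, mul_zero] at hr; omega
    -- r G' ∣ G
    have hrG : r * G' ∣ G := by
      have e1 : Nat.lcm p G' ∣ G := Nat.lcm_dvd hpG h2
      have e2 : Nat.lcm p G' = r * G' := by
        have e3 : Nat.gcd p G' * Nat.lcm p G' = p * G' := Nat.gcd_mul_lcm p G'
        rw [← hγ] at e3
        have e4 : γ * Nat.lcm p G' = γ * (r * G') := by
          rw [e3]
          calc p * G' = (γ * r) * G' := by rw [← hr]
            _ = γ * (r * G') := by ring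
        exact Nat.eq_of_mul_eq_mul_left hγ0 e4
      rwa [e2] at e1
    have hrG' : r * G' ≤ G := Nat.le_of_dvd hG0 hrG
    -- p ≤ (r² - 1) z, in the form p + z ≤ r² z
    have hpz : p + z ≤ r ^ 2 * z := by
      have e1 : p ≤ r * z := by
        calc p = γ * r := hr
          _ ≤ z * r := Nat.mul_le_mul_right r hγz'
          _ = r * z := Nat.mul_comm _ _
      have e2 : r * z + z ≤ r ^ 2 * z := by
        have e3 : r + 1 ≤ r ^ 2 := by nlinarith
        calc r * z + z = (r + 1) * z := by ring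
          _ ≤ _ := Nat.mul_le_mul_right z e3
      omega
    -- q x' ≤ G² f x'
    have hfinal : q * x' ≤ G ^ 2 * f * x' := by
      have e1 : q * x' + κ * p = κ * (h * N₀) := by
        rw [← hd', ← i4, he']; ring
      have e2 : h * N₀ ≤ h * (G' ^ 2 * m₀) := Nat.mul_le_mul_left h hi'.le
      have e3 : h * (G' ^ 2 * m₀) = G' ^ 2 * (p + z) := by
        calc h * (G' ^ 2 * m₀) = G' ^ 2 * (h * m₀) := by ring
          _ = _ := by rw [hz2]
      have e4 : G' ^ 2 * (p + z) ≤ G' ^ 2 * (r ^ 2 * z) := Nat.mul_le_mul_left _ hpz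
      have e5 : G' ^ 2 * (r ^ 2 * z) ≤ G ^ 2 * z := by
        calc G' ^ 2 * (r ^ 2 * z) = (r * G') ^ 2 * z := by ring
          _ ≤ G ^ 2 * z := Nat.mul_le_mul_right z (Nat.pow_le_pow_left hrG' 2)
      have e6 : h * N₀ ≤ G ^ 2 * z := by omega
      have e7 : κ * (h * N₀) ≤ κ * (G ^ 2 * z) := Nat.mul_le_mul_left κ e6
      have e8 : κ * (G ^ 2 * z) = G ^ 2 * f * x' := by
        calc κ * (G ^ 2 * z) = G ^ 2 * (κ * z) := by ring
          _ = G ^ 2 * (f * x') := by rw [hz1]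
          _ = _ := by ring
      omega
    exact Nat.le_of_mul_le_mul_right hfinal (by omega)

/-- arithmetic of a minor level with `N = κ₀ p`, `x = (κ₀ - 1) p` and denominator `p` -/
theorem minor_line {N q d e x κ₀ p κ h j : ℕ} (hp : 0 < p) (hκ : 0 < κ) (hd : d = κ * p)
    (he : e = κ * h) (heq : e < q) (heN : e * N = q * x + d) (hj : j * d = x)
    (hN : N = κ₀ * p) (hx : N = p + x) :
    κ₀ = κ * j + 1 ∧ ∃ f, q = e + f ∧ 0 < f ∧ h = 1 + j * f := by
  have h1 : κ₀ = κ * j + 1 := by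
    have e1 : κ₀ * p = (κ * j + 1) * p := by
      rw [← hN, hx, ← hj, hd]; ring
    exact Nat.eq_of_mul_eq_mul_right hp e1
  refine ⟨h1, q - e, by omega, by omega, ?_⟩
  obtain ⟨f, hf⟩ : ∃ f, q = e + f := ⟨q - e, by omega⟩
  have hqe : q - e = f := by omega
  rw [hqe]
  have e1 : e * N = (q * j + 1) * d := by rw [heN, ← hj]; ring
  have e2 : (κ * p) * (h * κ₀) = (κ * p) * (q * j + 1) := by
    calc (κ * p) * (h * κ₀) = (κ * h) * (κ₀ * p) := by ring
      _ = e * N := by rw [← he, ← hN]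
      _ = (q * j + 1) * d := e1
      _ = _ := by rw [hd]; ring
  have e3 : h * κ₀ = q * j + 1 := Nat.eq_of_mul_eq_mul_left (Nat.mul_pos hκ hp) e2
  rw [h1, hf, he] at e3
  have e4 : h * (κ * j + 1) = h * κ * j + h := by ring
  have e5 : (κ * h + f) * j + 1 = h * κ * j + j * f + 1 := by ring
  rw [e4, e5] at e3
  omega

/-- T: low states with `N = m + x`, `m` prime or 4, `m ∣ x`, ambient `m` -/
theorem low_prime (a b : ℕ) (ha : 2 ≤ a) (hlt : a < b) (hab : Nat.Coprime a b)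
    {N E p : ℕ} {α : ℤ} {k : ℚ} (hp : p.Prime) (g : GoodG a b N E α k p)
    (hE1 : (E : ℚ) - k ≤ 1) (x κ : ℕ) (hx : (x : ℤ) = E * N - α) (hN : N = κ * p)
    (hx' : N = p + x) : κ ≤ p - 1 := by
  obtain ⟨K, q, d, e, j, N₀, σ, G', hkK, hq2, he, heq, hd, heK, cop, heN, h1, h2, h3, h4, h5, h6,
    h7, h8, hj0, h9, h10, h11, h12, hcase⟩ := low_level a b ha hlt hab g hE1 x hx
  obtain ⟨κ', p', h, hκ, hp', hh, hd', he', hcop, hG⟩ := frac hd he
  have hG'1 : G' = 1 := by
    rcases (Nat.dvd_prime hp).1 h2 with h0 | h0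
    · exact h0
    · exact absurd (by rw [h0]; exact h7) h8
  subst hG'1
  rcases hcase with ⟨hmin, N₁, x₁, i1, g₁, i2, i3, i4, i5⟩ | ⟨hmaj, α₀, x', i1, g₀, hEK, i3, i4, i5⟩
  · rcases Nat.lt_or_ge 1 e with he2 | he1
    · have hpp : p' = p := by
        rcases (Nat.dvd_prime hp).1 ((hG p).1 h7) with h0 | h0
        · exact absurd ((hG 1).2 (by rw [h0])) h8
        · exact h0
      subst hpp
      have hq := minor_q cop heN h10 hmin hκ hd' he'
      obtain ⟨e1, f, hf, hf0, hhf⟩ := minor_line hp' hκ hd' he' heq heN h9 hN hx'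
      -- e = κ' h ≥ κ' (1 + j)
      have e2 : κ' * (1 + j) ≤ e := by
        rw [he', hhf]
        apply Nat.mul_le_mul_left
        have : j ≤ j * f := Nat.le_mul_of_pos_right j hf0
        omega
      have e3 : κ' * (1 + j) = κ' + κ' * j := by ring
      omega
    · exfalso
      have he1' : e = 1 := by omega
      subst he1'
      have := low_three a b ha hlt hab N₁ 1 d 0 1 g₁ (by norm_num)
      omega
  · exfalso
    have := low_three a b ha hlt hab N₀ E α₀ K 1 g₀ hEK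
    omega

theorem low_four (a b : ℕ) (ha : 2 ≤ a) (hlt : a < b) (hab : Nat.Coprime a b)
    {N E : ℕ} {α : ℤ} {k : ℚ} (g : GoodG a b N E α k 4)
    (hE1 : (E : ℚ) - k ≤ 1) (x κ : ℕ) (hx : (x : ℤ) = E * N - α) (hN : N = κ * 4)
    (hx' : N = 4 + x) : N = 12 := by
  obtain ⟨K, q, d, e, j, N₀, σ, G', hkK, hq2, he, heq, hd, heK, cop, heN, h1, h2, h3, h4, h5, h6,
    h7, h8, hj0, h9, h10, h11, h12, hcase⟩ := low_level a b ha hlt hab g hE1 x hx
  obtain ⟨κ', p', h, hκ, hp', hh, hd', he', hcop, hG⟩ := frac hd he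
  have hG'4 : G' ≤ 4 := Nat.le_of_dvd (by norm_num) h2
  have hG'ne4 : G' ≠ 4 := by
    intro h0; apply h8; rw [h0]; exact h7
  have hG'ne3 : G' ≠ 3 := by
    intro h0; rw [h0] at h2; revert h2; decide
  rcases hcase with ⟨hmin, N₁, x₁, i1, g₁, i2, i3, i4, i5⟩ | ⟨hmaj, α₀, x', i1, g₀, hEK, i3, i4, i5⟩
  · rcases Nat.lt_or_ge 1 e with he2 | he1
    · have hq := minor_q cop heN h10 hmin hκ hd' he'
      have hp4 : p' ∣ 4 := (hG 4).1 h7
      have hp4' : p' ≤ 4 := Nat.le_of_dvd (by norm_num) hp4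
      have hp4eq : p' = 4 := by
        have : p' = 3 ∨ p' = 4 := by omega
        rcases this with h0 | h0
        · rw [h0] at hp4
          exact absurd hp4 (by decide)
        · exact h0
      subst hp4eq
      obtain ⟨e1, f, hf, hf0, hhf⟩ := minor_line hp' hκ hd' he' heq heN h9 hN hx'
      have hf1 : f ≤ 2 := by omega
      have e2 : κ' * (1 + j) ≤ e := by
        rw [he', hhf]
        apply Nat.mul_le_mul_left
        have : j ≤ j * f := Nat.le_mul_of_pos_right j hf0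
        omega
      have e3 : κ' * (1 + j) = κ' + κ' * j := by ring
      have hκj : κ' ≤ κ' * j := Nat.le_mul_of_pos_right κ' hj0
      have hκ1 : κ' = 1 := by omega
      subst hκ1
      rw [one_mul] at e1 e2 he' hκj
      have hf1' : f = 1 ∨ f = 2 := by omega
      rcases hf1' with h0 | h0
      · subst h0
        have hj : j = 1 ∨ j = 2 := by omega
        rcases hj with h0 | h0
        · subst h0
          exfalso
          have : h = 2 := by omega
          rw [this] at hcop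
          revert hcop; decide
        · subst h0
          omega
      · subst h0
        exfalso
        omega
    · exfalso
      have he1' : e = 1 := by omega
      subst he1'
      have := low_three a b ha hlt hab N₁ 1 d 0 G' g₁ (by norm_num)
      omega
  · exfalso
    have := low_three a b ha hlt hab N₀ E α₀ K G' g₀ hEK
    omega

end Pool.Agent.Lib.MP_2d59ee_ag
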