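import Mathlib

set_option autoImplicit false


/-! Pointwise bound for the number of divisors. -/

namespace Pool.Agent.Lib.MP_2d59ee_ag

/-- `a + 1 ≤ C ^ 1 * t ^ a` for real `t ≥ t₀ > 1` -/
theorem succ_le_mul_pow (t₀ : ℝ) (ht₀ : 1 < t₀) : ∃ C : ℝ, 1 ≤ C ∧ ∀ t : ℝ, t₀ ≤ t → ∀ a : ℕ,
    ((a : ℝ) + 1) ≤ C * t ^ a := by
  refine ⟨max 1 (1 / (t₀ - 1)), le_max_left _ _, ?_⟩
  intro t ht a
  set C := max 1 (1 / (t₀ - 1)) with hC
  have hC1 : 1 ≤ C := le_max_left _ _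
  have hC2 : 1 ≤ C * (t₀ - 1) := by
    have h1 : 1 / (t₀ - 1) ≤ C := le_max_right _ _
    have h2 : 0 < t₀ - 1 := by linarith
    rwa [div_le_iff₀ h2] at h1
  have ht1 : 1 ≤ t := by linarith
  have hC3 : 1 ≤ C * (t - 1) := by
    have : C * (t₀ - 1) ≤ C * (t - 1) := mul_le_mul_of_nonneg_left (by linarith) (by linarith)
    linarith
  induction a with
  | zero => simpa using hC1
  | succ a ih =>
    have hp : 1 ≤ t ^ a := one_le_pow₀ ht1
    have h1 : C * t ^ (a + 1) = C * t ^ a + (C * (t - 1)) * t ^ a := by ring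
    have h2 : 1 ≤ (C * (t - 1)) * t ^ a := by
      calc (1 : ℝ) = 1 * 1 := by ring
        _ ≤ (C * (t - 1)) * t ^ a := mul_le_mul hC3 hp zero_le_one (by linarith)
    push_cast
    linarith

theorem card_divisors_le_rpow (ε : ℝ) (hε : 0 < ε) : ∃ C : ℝ, 1 ≤ C ∧ ∀ n : ℕ, 0 < n →
    (n.divisors.card : ℝ) ≤ C * (n : ℝ) ^ ε := by
  obtain ⟨C, hC1, hC⟩ := succ_le_mul_pow ((2 : ℝ) ^ ε) (Real.one_lt_rpow (by norm_num) hε)
  -- primes at least `B` satisfy `p ^ ε ≥ 2`
  obtain ⟨B, hB⟩ : ∃ B : ℕ, ∀ p : ℕ, B ≤ p → (2 : ℝ) ≤ (p : ℝ) ^ ε := by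
    obtain ⟨B, hB⟩ := exists_nat_ge ((2 : ℝ) ^ (1 / ε))
    refine ⟨B, fun p hp => ?_⟩
    have h1 : (2 : ℝ) ^ (1 / ε) ≤ p := hB.trans (by exact_mod_cast hp)
    calc (2 : ℝ) = ((2 : ℝ) ^ (1 / ε)) ^ ε := by
          rw [← Real.rpow_mul (by norm_num), one_div, inv_mul_cancel₀ hε.ne', Real.rpow_one]
      _ ≤ (p : ℝ) ^ ε := Real.rpow_le_rpow (Real.rpow_nonneg (by norm_num) _) h1 hε.le
  refine ⟨C ^ B, one_le_pow₀ hC1, ?_⟩
  intro n hn
  have hn0 : n ≠ 0 := hn.ne'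
  rw [Nat.card_divisors hn0]
  push_cast
  have hnprod : (n : ℝ) ^ ε = ∏ p ∈ n.primeFactors, ((p : ℝ) ^ ε) ^ (n.factorization p) := by
    conv_lhs => rw [← Nat.prod_factorization_pow_eq_self hn0]
    rw [Nat.prod_factorization_eq_prod_primeFactors]
    push_cast
    rw [← Real.finsetProd_rpow _ _ (fun i _ => by positivity)]
    refine Finset.prod_congr rfl fun p _ => ?_
    rw [← Real.rpow_natCast, ← Real.rpow_natCast, ← Real.rpow_mul (Nat.cast_nonneg _),
      ← Real.rpow_mul (Nat.cast_nonneg _), mul_comm]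
  have h1 : ∀ p ∈ n.primeFactors, ((n.factorization p : ℝ) + 1) ≤
      (if p < B then C else 1) * ((p : ℝ) ^ ε) ^ (n.factorization p) := by
    intro p hp
    have hpp : p.Prime := Nat.prime_of_mem_primeFactors hp
    split_ifs with h
    · refine hC _ ?_ _
      exact Real.rpow_le_rpow (by norm_num) (by exact_mod_cast hpp.two_le) hε.le
    · push Not at h
      rw [one_mul]
      have h2 : (2 : ℝ) ≤ (p : ℝ) ^ ε := hB p h
      calc ((n.factorization p : ℝ) + 1) ≤ (2 : ℝ) ^ (n.factorization p) := by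
            have := Nat.lt_two_pow_self (n := n.factorization p)
            exact_mod_cast this
        _ ≤ _ := pow_le_pow_left₀ (by norm_num) h2 _
  calc ∏ p ∈ n.primeFactors, ((n.factorization p : ℝ) + 1)
      ≤ ∏ p ∈ n.primeFactors, ((if p < B then C else 1) *
          ((p : ℝ) ^ ε) ^ (n.factorization p)) :=
        Finset.prod_le_prod (fun p _ => by positivity) h1
    _ = (∏ p ∈ n.primeFactors, (if p < B then C else 1)) * (n : ℝ) ^ ε := by
        rw [Finset.prod_mul_distrib, hnprod]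
    _ ≤ C ^ B * (n : ℝ) ^ ε := by
        refine mul_le_mul_of_nonneg_right ?_ (by positivity)
        rw [Finset.prod_ite]
        simp only [Finset.prod_const, one_pow, mul_one]
        refine pow_le_pow_right₀ hC1 ?_
        calc (Finset.filter (fun x => x < B) n.primeFactors).card
            ≤ (Finset.range B).card := Finset.card_le_card (by
              intro x hx
              rw [Finset.mem_filter] at hx
              exact Finset.mem_range.2 hx.2)
          _ = B := Finset.card_range B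

end Pool.Agent.Lib.MP_2d59ee_ag


/-! Counting lemmas for the density theorem. -/

namespace Pool.Agent.Lib.MP_2d59ee_ag.Count

open Finset

/-- the box `[0, X]²` -/
def box (X : ℕ) : Finset (ℕ × ℕ) := range (X + 1) ×ˢ range (X + 1)

theorem mem_box {X : ℕ} {v : ℕ × ℕ} : v ∈ box X ↔ v.1 ≤ X ∧ v.2 ≤ X := by
  unfold box
  rw [mem_product, mem_range, mem_range, Nat.lt_succ_iff, Nat.lt_succ_iff]

/-- number of points on a line -/
theorem card_line (X q e d : ℕ) (hq : 0 < q) (cop : Nat.Coprime q e) :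
    ((box X).filter (fun v => e * v.1 = q * v.2 + d)).card ≤ X / q + 1 := by
  have h := Finset.card_le_card_of_injOn (s := (box X).filter (fun v => e * v.1 = q * v.2 + d))
    (t := range (X / q + 1)) (fun v : ℕ × ℕ => v.1 / q) ?_ ?_
  · simpa using h
  · intro v hv
    simp only [coe_filter, mem_box, Set.mem_ofPred_eq] at hv
    simp only [coe_range, Set.mem_Iio]
    have : v.1 / q ≤ X / q := Nat.div_le_div_right hv.1.1
    omega
  · intro v hv w hw hvw
    simp only [coe_filter, mem_box, Set.mem_ofPred_eq] at hv hw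
    have hmod : v.1 ≡ w.1 [MOD q] := by
      have h1 : e * v.1 ≡ e * w.1 [MOD q] := by
        rw [hv.2, hw.2]
        exact Nat.ModEq.add_right d (((Nat.modEq_zero_iff_dvd).2 ⟨_, rfl⟩).trans
          ((Nat.modEq_zero_iff_dvd).2 ⟨_, rfl⟩).symm)
      exact Nat.ModEq.cancel_left_of_coprime cop h1
    have h2 : v.1 = w.1 := by
      have a1 := Nat.div_add_mod v.1 q
      have a2 := Nat.div_add_mod w.1 q
      have a3 : v.1 / q = w.1 / q := hvw
      have a4 : v.1 % q = w.1 % q := hmod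
      rw [← a1, ← a2, a3, a4]
    have h3 : q * v.2 = q * w.2 := by
      have := hv.2
      have := hw.2
      rw [h2] at *
      omega
    exact Prod.ext h2 (Nat.eq_of_mul_eq_mul_left hq h3)

/-- number of `(q, h)` with `h N = q y + p` -/
theorem card_Q (X N y p G : ℕ) (hN : 0 < N) (hp : 0 < p) (hpG : p ≤ G) :
    ((box X).filter (fun v => v.2 * N = v.1 * y + p)).card * N ≤ G * X + N := by
  rcases Finset.eq_empty_or_nonempty ((box X).filter (fun v => v.2 * N = v.1 * y + p)) with h0 | hne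
  · rw [h0]; simp
  obtain ⟨v₀, hv₀⟩ := hne
  rw [mem_filter] at hv₀
  set g := Nat.gcd N y with hg
  have hg0 : 0 < g := Nat.gcd_pos_of_pos_left _ hN
  have hgN : g ∣ N := Nat.gcd_dvd_left _ _
  have hgy : g ∣ y := Nat.gcd_dvd_right _ _
  have hgp : g ∣ p := by
    have h1 : g ∣ v₀.1 * y + p := by rw [← hv₀.2]; exact hgN.mul_left _
    exact (Nat.dvd_add_right (hgy.mul_left _)).1 h1
  have hgG : g ≤ G := (Nat.le_of_dvd hp hgp).trans hpG
  obtain ⟨M, hM⟩ := hgN
  obtain ⟨z, hz⟩ := hgy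
  have hM0 : 0 < M := by
    rcases Nat.eq_zero_or_pos M with h | h
    · rw [h, mul_zero] at hM; omega
    · exact h
  have hMz : Nat.Coprime M z := by
    have h1 : g * Nat.gcd M z = g * 1 := by
      rw [← Nat.gcd_mul_left, ← hM, ← hz, mul_one]
    exact Nat.eq_of_mul_eq_mul_left hg0 h1
  have hcard : ((box X).filter (fun v => v.2 * N = v.1 * y + p)).card ≤ X / M + 1 := by
    have h := Finset.card_le_card_of_injOn
      (s := (box X).filter (fun v => v.2 * N = v.1 * y + p))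
      (t := range (X / M + 1)) (fun v : ℕ × ℕ => v.1 / M) ?_ ?_
    · simpa using h
    · intro v hv
      simp only [coe_filter, mem_box, Set.mem_ofPred_eq] at hv
      simp only [coe_range, Set.mem_Iio]
      have : v.1 / M ≤ X / M := Nat.div_le_div_right hv.1.1
      omega
    · intro v hv w hw hvw
      simp only [coe_filter, mem_box, Set.mem_ofPred_eq] at hv hw
      have hmod : v.1 ≡ w.1 [MOD M] := by
        have h1 : z * v.1 ≡ z * w.1 [MOD M] := by
          obtain ⟨p', hp'⟩ := hgp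
          have e1 : v.2 * M = z * v.1 + p' := by
            have : g * (v.2 * M) = g * (z * v.1 + p') := by
              calc g * (v.2 * M) = v.2 * (g * M) := by ring
                _ = v.2 * N := by rw [← hM]
                _ = v.1 * y + p := hv.2
                _ = v.1 * (g * z) + g * p' := by rw [← hz, ← hp']
                _ = _ := by ring
            exact Nat.eq_of_mul_eq_mul_left hg0 this
          have e2 : w.2 * M = z * w.1 + p' := by
            have : g * (w.2 * M) = g * (z * w.1 + p') := by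
              calc g * (w.2 * M) = w.2 * (g * M) := by ring
                _ = w.2 * N := by rw [← hM]
                _ = w.1 * y + p := hw.2
                _ = w.1 * (g * z) + g * p' := by rw [← hz, ← hp']
                _ = _ := by ring
            exact Nat.eq_of_mul_eq_mul_left hg0 this
          have e3 : z * v.1 + p' ≡ z * w.1 + p' [MOD M] := by
            rw [← e1, ← e2]
            exact ((Nat.modEq_zero_iff_dvd).2 ⟨_, mul_comm _ _⟩).trans
              ((Nat.modEq_zero_iff_dvd).2 ⟨_, mul_comm _ _⟩).symm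
          exact Nat.ModEq.add_right_cancel' p' e3
        exact Nat.ModEq.cancel_left_of_coprime hMz h1
      have h2 : v.1 = w.1 := by
        have a1 := Nat.div_add_mod v.1 M
        have a2 := Nat.div_add_mod w.1 M
        have a3 : v.1 / M = w.1 / M := hvw
        have a4 : v.1 % M = w.1 % M := hmod
        rw [← a1, ← a2, a3, a4]
      have h3 : v.2 * N = w.2 * N := by
        rw [hv.2, hw.2, h2]
      exact Prod.ext h2 (Nat.eq_of_mul_eq_mul_right hN h3)
  have hNM : N = M * g := by rw [mul_comm]; exact hM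
  have h1 : (X / M + 1) * N = (X / M * M) * g + N := by
    have h2 : X / M * N = X / M * M * g := by rw [mul_assoc, ← hNM]
    rw [add_mul, one_mul, h2]
  have h3 : X / M * M * g ≤ X * g := Nat.mul_le_mul_right g (Nat.div_mul_le_self X M)
  have h4 : X * g ≤ X * G := Nat.mul_le_mul_left X hgG
  calc _ ≤ (X / M + 1) * N := Nat.mul_le_mul_right N hcard
    _ ≤ G * X + N := by rw [h1, mul_comm G X]; omega

open Classical in
/-- the pairs with a child in `A` and `q > R` -/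
theorem card_large (X G R T : ℕ) (hR : 0 < R) (A : Finset (ℕ × ℕ))
    (hA : ∀ v ∈ A, 0 < v.2 ∧ v.2 < v.1 ∧ v.1 ≤ X)
    (hT : ∀ n, 0 < n → n ≤ X → n.divisors.card ≤ T) :
    (((box X).filter (fun u => ∃ N₀ x' σ q e κ p h : ℕ, (N₀, x') ∈ A ∧ u.1 = N₀ + q * σ ∧
      u.2 = x' + e * σ ∧ 0 < σ ∧ R < q ∧ 0 < κ ∧ 0 < p ∧ p ≤ G ∧ 0 < h ∧ e = κ * h ∧ e < q ∧
      Nat.Coprime q e ∧ e * N₀ = q * x' + κ * p)).card : ℝ) ≤
      (T : ℝ) * G * ((X : ℝ) / R) * ∑ v ∈ A, ((G : ℝ) * X + v.1) / v.1 := by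
  have hsub : ((box X).filter (fun u => ∃ N₀ x' σ q e κ p h : ℕ, (N₀, x') ∈ A ∧
      u.1 = N₀ + q * σ ∧
      u.2 = x' + e * σ ∧ 0 < σ ∧ R < q ∧ 0 < κ ∧ 0 < p ∧ p ≤ G ∧ 0 < h ∧ e = κ * h ∧ e < q ∧
      Nat.Coprime q e ∧ e * N₀ = q * x' + κ * p)) ⊆
      A.biUnion fun v => v.2.divisors.biUnion fun κ => (Icc 1 G).biUnion fun p =>
        ((box X).filter (fun w => w.2 * v.1 = w.1 * (v.2 / κ) + p)).biUnion fun w =>
          (Icc 1 (X / R)).image fun σ => (v.1 + w.1 * σ, v.2 + κ * w.2 * σ) := by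
    intro u hu
    rw [mem_filter, mem_box] at hu
    obtain ⟨⟨hu1, hu2⟩, N₀, x', σ, q, e, κ, p, h, hAv, e1, e2, hσ, hRq, hκ, hp, hpG, hh, he, heq,
      cop, hdet⟩ := hu
    obtain ⟨hx0, hxN, hNX⟩ := hA _ hAv
    simp only at hx0 hxN hNX
    have hκe : κ ∣ e := ⟨h, he⟩
    have hκx : κ ∣ x' := by
      have h1 : κ ∣ q * x' := by
        have h2 : κ ∣ q * x' + κ * p := by rw [← hdet]; exact hκe.mul_right _
        exact (Nat.dvd_add_left (Dvd.intro _ rfl)).1 h2
      have h3 : Nat.Coprime κ q := (Nat.Coprime.coprime_dvd_right hκe cop).symm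
      exact h3.dvd_of_dvd_mul_left h1
    obtain ⟨y, hy⟩ := hκx
    have hqσ : q * σ ≤ X := by rw [e1] at hu1; omega
    have hqX : q ≤ X := (Nat.le_mul_of_pos_right q hσ).trans hqσ
    have hhX : h ≤ X := by
      have : h ≤ e := by rw [he]; exact Nat.le_mul_of_pos_left h hκ
      omega
    have hσR : σ ≤ X / R := by
      rw [Nat.le_div_iff_mul_le hR]
      calc σ * R ≤ σ * q := Nat.mul_le_mul_left σ hRq.le
        _ = q * σ := mul_comm _ _
        _ ≤ X := hqσ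
    have hyd : x' / κ = y := by rw [hy]; exact Nat.mul_div_cancel_left y hκ
    simp only [mem_biUnion, mem_image, mem_Icc, mem_filter, mem_box, Nat.mem_divisors]
    refine ⟨(N₀, x'), hAv, κ, ⟨⟨y, hy⟩, hx0.ne'⟩, p, ⟨hp, hpG⟩, (q, h), ⟨⟨hqX, hhX⟩, ?_⟩, σ,
      ⟨hσ, hσR⟩, ?_⟩
    · simp only
      rw [hyd]
      have h1 : κ * (h * N₀) = κ * (q * y + p) := by
        calc κ * (h * N₀) = (κ * h) * N₀ := by ring
          _ = q * x' + κ * p := by rw [← he]; exact hdet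
          _ = κ * (q * y + p) := by rw [hy]; ring
      exact Nat.eq_of_mul_eq_mul_left hκ h1
    · refine Prod.ext ?_ ?_
      · simp only; exact e1.symm
      · simp only; rw [← he]; exact e2.symm
  have hcard := card_le_card hsub
  have h2 : ((A.biUnion fun v => v.2.divisors.biUnion fun κ => (Icc 1 G).biUnion fun p =>
        ((box X).filter (fun w => w.2 * v.1 = w.1 * (v.2 / κ) + p)).biUnion fun w =>
          (Icc 1 (X / R)).image fun σ => (v.1 + w.1 * σ, v.2 + κ * w.2 * σ)).card : ℝ) ≤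
      ∑ v ∈ A, (T : ℝ) * G * ((X : ℝ) / R) * (((G : ℝ) * X + v.1) / v.1) := by
    refine le_trans (Nat.cast_le.2 card_biUnion_le) ?_
    push_cast
    refine sum_le_sum fun v hv => ?_
    obtain ⟨hx0, hxN, hNX⟩ := hA v hv
    have hv1 : 0 < v.1 := by omega
    have hv1R : (0 : ℝ) < v.1 := by exact_mod_cast hv1
    -- bound for fixed κ, p
    have hb : ∀ κ ∈ v.2.divisors, ∀ p ∈ Icc 1 G,
        (((((box X).filter (fun w => w.2 * v.1 = w.1 * (v.2 / κ) + p)).biUnion fun w =>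
          (Icc 1 (X / R)).image fun σ => (v.1 + w.1 * σ, v.2 + κ * w.2 * σ)).card : ℕ) : ℝ) ≤
        ((X : ℝ) / R) * (((G : ℝ) * X + v.1) / v.1) := by
      intro κ _ p hp
      rw [mem_Icc] at hp
      have hQ := card_Q X v.1 (v.2 / κ) p G hv1 hp.1 hp.2
      have hQR : ((((box X).filter (fun w => w.2 * v.1 = w.1 * (v.2 / κ) + p)).card : ℕ) : ℝ) ≤
          ((G : ℝ) * X + v.1) / v.1 := by
        rw [le_div_iff₀ hv1R]
        exact_mod_cast hQ
      have hσ : (((X / R : ℕ)) : ℝ) ≤ (X : ℝ) / R := Nat.cast_div_le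
      have h3 : ((((box X).filter (fun w => w.2 * v.1 = w.1 * (v.2 / κ) + p)).biUnion fun w =>
          (Icc 1 (X / R)).image fun σ => (v.1 + w.1 * σ, v.2 + κ * w.2 * σ)).card : ℕ) ≤
          ((box X).filter (fun w => w.2 * v.1 = w.1 * (v.2 / κ) + p)).card * (X / R) := by
        refine card_biUnion_le_card_mul _ _ _ fun w _ => ?_
        refine card_image_le.trans ?_
        rw [Nat.card_Icc, Nat.add_sub_cancel]
      calc _ ≤ ((((box X).filter (fun w => w.2 * v.1 = w.1 * (v.2 / κ) + p)).card * (X / R) : ℕ)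
            : ℝ) := by exact_mod_cast h3
        _ ≤ (((G : ℝ) * X + v.1) / v.1) * ((X : ℝ) / R) := by
            push_cast
            exact mul_le_mul hQR hσ (by positivity) (by positivity)
        _ = _ := mul_comm _ _
    have hb2 : ∀ κ ∈ v.2.divisors, ((((Icc 1 G).biUnion fun p =>
        ((box X).filter (fun w => w.2 * v.1 = w.1 * (v.2 / κ) + p)).biUnion fun w =>
          (Icc 1 (X / R)).image fun σ => (v.1 + w.1 * σ, v.2 + κ * w.2 * σ)).card : ℕ) : ℝ) ≤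
        (G : ℝ) * (((X : ℝ) / R) * (((G : ℝ) * X + v.1) / v.1)) := by
      intro κ hκ
      refine le_trans (Nat.cast_le.2 card_biUnion_le) ?_
      push_cast
      refine (sum_le_card_nsmul _ _ _ (hb κ hκ)).trans ?_
      rw [Nat.card_Icc, nsmul_eq_mul]
      simp
    have hb3 : (((v.2.divisors.biUnion fun κ => (Icc 1 G).biUnion fun p =>
        ((box X).filter (fun w => w.2 * v.1 = w.1 * (v.2 / κ) + p)).biUnion fun w =>
          (Icc 1 (X / R)).image fun σ => (v.1 + w.1 * σ, v.2 + κ * w.2 * σ)).card : ℕ) : ℝ) ≤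
        (v.2.divisors.card : ℝ) *
          ((G : ℝ) * (((X : ℝ) / R) * (((G : ℝ) * X + v.1) / v.1))) := by
      refine le_trans (Nat.cast_le.2 card_biUnion_le) ?_
      push_cast
      refine (sum_le_card_nsmul _ _ _ hb2).trans ?_
      rw [nsmul_eq_mul]
    refine hb3.trans ?_
    have hT' : (v.2.divisors.card : ℝ) ≤ T := by exact_mod_cast hT v.2 hx0 (by omega)
    calc _ ≤ (T : ℝ) * ((G : ℝ) * (((X : ℝ) / R) * (((G : ℝ) * X + v.1) / v.1))) :=
          mul_le_mul_of_nonneg_right hT' (by positivity)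
      _ = _ := by ring
  calc _ ≤ ((A.biUnion fun v => v.2.divisors.biUnion fun κ => (Icc 1 G).biUnion fun p =>
        ((box X).filter (fun w => w.2 * v.1 = w.1 * (v.2 / κ) + p)).biUnion fun w =>
          (Icc 1 (X / R)).image fun σ => (v.1 + w.1 * σ, v.2 + κ * w.2 * σ)).card : ℝ) := by
          exact_mod_cast hcard
    _ ≤ _ := h2
    _ = _ := by rw [mul_sum]

/-- the sum of `X / N` over a set of pairs -/
theorem sum_inv (X : ℕ) (A : Finset (ℕ × ℕ)) (hA : ∀ v ∈ A, v.2 < v.1 ∧ v.1 ≤ X) (Z : ℝ)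
    (hZ : 0 < Z) : ∑ v ∈ A, (X : ℝ) / v.1 ≤ X * Z + X / Z * A.card := by
  classical
  rw [← sum_filter_add_sum_filter_not A (fun v => (v.1 : ℝ) < Z)]
  refine add_le_add ?_ ?_
  · have hmaps : ∀ v ∈ A.filter (fun v => (v.1 : ℝ) < Z), v.1 ∈ Icc 1 ⌊Z⌋₊ := by
      intro v hv
      rw [mem_filter] at hv
      obtain ⟨h1, h2⟩ := hA v hv.1
      rw [mem_Icc]
      exact ⟨by omega, Nat.le_floor hv.2.le⟩
    rw [← sum_fiberwise_of_maps_to hmaps]
    have hfib : ∀ n ∈ Icc 1 ⌊Z⌋₊, ∑ v ∈ (A.filter (fun v => (v.1 : ℝ) < Z)).filter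
        (fun v => v.1 = n), (X : ℝ) / v.1 ≤ X := by
      intro n hn
      rw [mem_Icc] at hn
      have hn0 : (0 : ℝ) < n := by exact_mod_cast hn.1
      have h1 : ∀ v ∈ (A.filter (fun v => (v.1 : ℝ) < Z)).filter (fun v => v.1 = n),
          (X : ℝ) / v.1 ≤ (X : ℝ) / n := by
        intro v hv
        rw [mem_filter] at hv
        rw [hv.2]
      refine (sum_le_card_nsmul _ _ _ h1).trans ?_
      rw [nsmul_eq_mul]
      have h2 : ((A.filter (fun v => (v.1 : ℝ) < Z)).filter (fun v => v.1 = n)).card ≤ n := by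
        calc _ ≤ (range n).card := by
              refine card_le_card_of_injOn (fun v => v.2) ?_ ?_
              · intro v hv
                rw [mem_coe, mem_filter, mem_filter] at hv
                rw [mem_coe, mem_range]
                have h5 := (hA v hv.1.1).1
                rw [hv.2] at h5
                exact h5
              · intro v hv w hw hvw
                rw [mem_coe, mem_filter] at hv hw
                exact Prod.ext (hv.2.trans hw.2.symm) hvw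
          _ = n := card_range n
      have h3 : (((A.filter (fun v => (v.1 : ℝ) < Z)).filter (fun v => v.1 = n)).card : ℝ) ≤ n := by
        exact_mod_cast h2
      calc _ ≤ (n : ℝ) * ((X : ℝ) / n) := mul_le_mul_of_nonneg_right h3 (by positivity)
        _ = X := by field_simp
    refine (sum_le_card_nsmul _ _ _ hfib).trans ?_
    rw [nsmul_eq_mul, Nat.card_Icc, mul_comm]
    refine mul_le_mul_of_nonneg_left ?_ (Nat.cast_nonneg _)
    simpa using Nat.floor_le hZ.le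
  · have h1 : ∀ v ∈ A.filter (fun v => ¬ (v.1 : ℝ) < Z), (X : ℝ) / v.1 ≤ X / Z := by
      intro v hv
      rw [mem_filter] at hv
      have h2 : Z ≤ v.1 := not_lt.1 hv.2
      exact div_le_div_of_nonneg_left (Nat.cast_nonneg _) hZ h2
    refine (sum_le_card_nsmul _ _ _ h1).trans ?_
    rw [nsmul_eq_mul, mul_comm]
    refine mul_le_mul_of_nonneg_left ?_ (by positivity)
    exact_mod_cast card_filter_le _ _


open Classical in
/-- the pairs on lines with `q ≤ R` -/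
theorem thin_small (G X R T : ℕ) (hRX : R ≤ X)
    (hT : ∀ n, 0 < n → n ≤ X → n.divisors.card ≤ T) :
    ((box X).filter (fun v => v.2 < v.1 ∧ ∃ q e κ p h : ℕ, q ≤ R ∧ 0 < e ∧ e < q ∧
      Nat.Coprime q e ∧ e = κ * h ∧ 0 < p ∧ p ≤ G ∧ e * v.1 = q * v.2 + κ * p)).card
        ≤ 2 * T * G * R * X := by
  have hsub : ((box X).filter (fun v => v.2 < v.1 ∧ ∃ q e κ p h : ℕ, q ≤ R ∧ 0 < e ∧ e < q ∧
      Nat.Coprime q e ∧ e = κ * h ∧ 0 < p ∧ p ≤ G ∧ e * v.1 = q * v.2 + κ * p)) ⊆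
      (Icc 1 R).biUnion fun q => ((range q).filter fun e => 0 < e ∧ Nat.Coprime q e).biUnion
        fun e => e.divisors.biUnion fun κ => (Icc 1 G).biUnion fun p =>
          (box X).filter (fun v => e * v.1 = q * v.2 + κ * p) := by
    intro u hu
    rw [mem_filter] at hu
    obtain ⟨hu0, hu1, q, e, κ, p, h, hqR, he0, heq, cop, he, hp, hpG, hdet⟩ := hu
    simp only [mem_biUnion, mem_Icc, mem_filter, mem_range, Nat.mem_divisors]
    exact ⟨q, ⟨by omega, hqR⟩, e, ⟨heq, he0, cop⟩, κ, ⟨⟨h, he⟩, he0.ne'⟩, p, ⟨hp, hpG⟩, hu0, hdet⟩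
  refine (card_le_card hsub).trans ?_
  refine card_biUnion_le.trans ?_
  have hq : ∀ q ∈ Icc 1 R, (((range q).filter fun e => 0 < e ∧ Nat.Coprime q e).biUnion
        fun e => e.divisors.biUnion fun κ => (Icc 1 G).biUnion fun p =>
          (box X).filter (fun v => e * v.1 = q * v.2 + κ * p)).card ≤ 2 * T * G * X := by
    intro q hq
    rw [mem_Icc] at hq
    have he : ∀ e ∈ (range q).filter fun e => 0 < e ∧ Nat.Coprime q e,
        (e.divisors.biUnion fun κ => (Icc 1 G).biUnion fun p =>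
          (box X).filter (fun v => e * v.1 = q * v.2 + κ * p)).card ≤ T * (G * (X / q + 1)) := by
      intro e he
      rw [mem_filter, mem_range] at he
      have hκ : ∀ κ ∈ e.divisors, ((Icc 1 G).biUnion fun p =>
          (box X).filter (fun v => e * v.1 = q * v.2 + κ * p)).card ≤ G * (X / q + 1) := by
        intro κ _
        refine (card_biUnion_le_card_mul _ _ (X / q + 1) fun p _ => ?_).trans ?_
        · exact card_line X q e (κ * p) (by omega) he.2.2
        · rw [Nat.card_Icc, Nat.add_sub_cancel]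
      refine (card_biUnion_le_card_mul _ _ _ hκ).trans ?_
      exact Nat.mul_le_mul_right _ (hT e he.2.1 (by omega))
    refine (card_biUnion_le_card_mul _ _ _ he).trans ?_
    have h1 : ((range q).filter fun e => 0 < e ∧ Nat.Coprime q e).card ≤ q :=
      (card_filter_le _ _).trans (card_range q).le
    have h2 : q * (X / q + 1) ≤ 2 * X := by
      have := Nat.mul_div_le X q
      rw [mul_add, mul_one]
      omega
    calc _ ≤ q * (T * (G * (X / q + 1))) := Nat.mul_le_mul_right _ h1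
      _ = T * G * (q * (X / q + 1)) := by ring
      _ ≤ T * G * (2 * X) := Nat.mul_le_mul_left _ h2
      _ = 2 * T * G * X := by ring
  refine (sum_le_card_nsmul _ _ _ hq).trans ?_
  rw [Nat.card_Icc, Nat.add_sub_cancel, smul_eq_mul]
  exact (by ring : R * (2 * T * G * X) = 2 * T * G * R * X).le

end Pool.Agent.Lib.MP_2d59ee_ag.Count

namespace Pool.Agent.Lib.MP_2d59ee_ag

open Finset Count

/-- power-saving sets of pairs -/
def Thin (B : ℕ → ℕ → Prop) : Prop :=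
  ∃ δ : ℝ, 0 < δ ∧ ∃ C : ℝ, ∀ X : ℕ, 1 ≤ X →
    ((Set.ncard {p : ℕ × ℕ | p.1 ≤ X ∧ p.2 < p.1 ∧ B p.1 p.2} : ℕ) : ℝ) ≤ C * (X : ℝ) ^ (2 - δ)

theorem thin_step (G : ℕ) (B : ℕ → ℕ → Prop) (hB : Thin B) :
    Thin (fun N x => ∃ N₀ x' σ q e κ p h : ℕ, B N₀ x' ∧ 0 < x' ∧ x' < N₀ ∧ N = N₀ + q * σ ∧
      x = x' + e * σ ∧ 0 < σ ∧ 0 < κ ∧ 0 < p ∧ p ≤ G ∧ 0 < h ∧ e = κ * h ∧ e < q ∧
      Nat.Coprime q e ∧ e * N₀ = q * x' + κ * p) := by
  classical
  obtain ⟨δ₀, hδ₀, C₀, hC₀⟩ := hB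
  -- normalise
  obtain ⟨δ, hδ, hδ1, C, hC0, hC⟩ : ∃ δ : ℝ, 0 < δ ∧ δ ≤ 1 ∧ ∃ C : ℝ, 0 ≤ C ∧ ∀ X : ℕ, 1 ≤ X →
      ((Set.ncard {p : ℕ × ℕ | p.1 ≤ X ∧ p.2 < p.1 ∧ B p.1 p.2} : ℕ) : ℝ) ≤
        C * (X : ℝ) ^ (2 - δ) := by
    refine ⟨min δ₀ 1, lt_min hδ₀ one_pos, min_le_right _ _, max C₀ 0, le_max_right _ _, ?_⟩
    intro X hX
    have hX1 : (1 : ℝ) ≤ X := by exact_mod_cast hX
    refine (hC₀ X hX).trans ?_
    calc C₀ * (X : ℝ) ^ (2 - δ₀) ≤ max C₀ 0 * (X : ℝ) ^ (2 - δ₀) :=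
          mul_le_mul_of_nonneg_right (le_max_left _ _) (by positivity)
      _ ≤ max C₀ 0 * (X : ℝ) ^ (2 - min δ₀ 1) := by
          refine mul_le_mul_of_nonneg_left ?_ (le_max_right _ _)
          exact Real.rpow_le_rpow_of_exponent_le hX1 (by linarith [min_le_left δ₀ 1])
  obtain ⟨Cτ, hCτ1, hCτ⟩ := Pool.Agent.Lib.MP_2d59ee_ag.card_divisors_le_rpow (δ / 8) (by positivity)
  refine ⟨δ / 8, by positivity, 4 * Cτ * G + 4 * Cτ * G * (G + 1) * (1 + C), ?_⟩
  intro X hX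
  have hX1 : (1 : ℝ) ≤ X := by exact_mod_cast hX
  have hX0 : (0 : ℝ) < X := by linarith
  set U : ℝ := (X : ℝ) ^ (δ / 8) with hU
  have hU1 : 1 ≤ U := Real.one_le_rpow hX1 (by positivity)
  have hU0 : 0 < U := by linarith
  have hU8 : U ^ 8 = (X : ℝ) ^ δ := by
    rw [hU, ← Real.rpow_natCast, ← Real.rpow_mul hX0.le]
    congr 1
    push_cast
    ring
  have hU8X : U ^ 8 ≤ X := by
    rw [hU8]
    calc (X : ℝ) ^ δ ≤ (X : ℝ) ^ (1 : ℝ) := Real.rpow_le_rpow_of_exponent_le hX1 hδ1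
      _ = X := Real.rpow_one _
  have hU2X : U ^ 2 ≤ X := (pow_le_pow_right₀ hU1 (by norm_num)).trans hU8X
  have hgoal : (X : ℝ) ^ (2 - δ / 8) = X ^ 2 / U := by
    rw [Real.rpow_sub hX0, ← hU]
    norm_num
  have hBX : (X : ℝ) ^ (2 - δ) = X ^ 2 / U ^ 8 := by
    rw [Real.rpow_sub hX0, hU8]
    norm_num
  -- the divisor bound
  set T : ℕ := ⌊Cτ * U⌋₊ with hTdef
  have hCU : 0 ≤ Cτ * U := by positivity
  have hT : ∀ n, 0 < n → n ≤ X → n.divisors.card ≤ T := by
    intro n hn hnX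
    refine Nat.le_floor ((hCτ n hn).trans ?_)
    refine mul_le_mul_of_nonneg_left ?_ (by linarith)
    exact Real.rpow_le_rpow (Nat.cast_nonneg _) (by exact_mod_cast hnX) (by positivity)
  have hTU : (T : ℝ) ≤ Cτ * U := Nat.floor_le hCU
  -- the cut
  set R : ℕ := ⌊(X : ℝ) / U ^ 2⌋₊ with hRdef
  have hY1 : 1 ≤ (X : ℝ) / U ^ 2 := by
    rw [le_div_iff₀ (by positivity)]; linarith
  have hR0 : 0 < R := Nat.floor_pos.2 hY1
  have hRle : (R : ℝ) ≤ (X : ℝ) / U ^ 2 := Nat.floor_le (by positivity)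
  have hRge : (X : ℝ) / U ^ 2 ≤ 2 * R := by
    have h1 : (X : ℝ) / U ^ 2 < R + 1 := Nat.lt_floor_add_one _
    have h2 : (1 : ℝ) ≤ R := by exact_mod_cast hR0
    linarith
  have hR0' : (0 : ℝ) < R := by exact_mod_cast hR0
  have hXR : (X : ℝ) / R ≤ 2 * U ^ 2 := by
    rw [div_le_iff₀ hR0']
    rw [div_le_iff₀ (by positivity)] at hRge
    linarith
  have hRX : R ≤ X := by
    have h1 : (R : ℝ) ≤ X := hRle.trans (div_le_self hX0.le (one_le_pow₀ hU1))
    exact_mod_cast h1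
  -- the children
  set A : Finset (ℕ × ℕ) := (box X).filter (fun v => 0 < v.2 ∧ v.2 < v.1 ∧ B v.1 v.2) with hA
  have hAprop : ∀ v ∈ A, 0 < v.2 ∧ v.2 < v.1 ∧ v.1 ≤ X := by
    intro v hv
    rw [hA, mem_filter, mem_box] at hv
    exact ⟨hv.2.1, hv.2.2.1, hv.1.1⟩
  have hfin : ∀ P : ℕ → ℕ → Prop, {p : ℕ × ℕ | p.1 ≤ X ∧ p.2 < p.1 ∧ P p.1 p.2}.Finite := by
    intro P
    refine (box X).finite_toSet.subset ?_
    intro p hp
    rw [mem_coe, mem_box]
    exact ⟨hp.1, hp.2.1.le.trans hp.1⟩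
  have hAcard : (A.card : ℝ) ≤ C * (X ^ 2 / U ^ 8) := by
    rw [← hBX]
    refine le_trans ?_ (hC X hX)
    rw [Nat.cast_le, ← Set.ncard_coe_finset]
    refine Set.ncard_le_ncard ?_ (hfin B)
    intro v hv
    rw [mem_coe, hA, mem_filter, mem_box] at hv
    exact ⟨hv.1.1, hv.2.2.1, hv.2.2.2⟩
  have h1 := thin_small G X R T hRX hT
  have h2 := card_large X G R T hR0 A hAprop hT
  set T1 := (box X).filter (fun v => v.2 < v.1 ∧ ∃ q e κ p h : ℕ, q ≤ R ∧ 0 < e ∧ e < q ∧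
      Nat.Coprime q e ∧ e = κ * h ∧ 0 < p ∧ p ≤ G ∧ e * v.1 = q * v.2 + κ * p) with hT1
  set T2 := (box X).filter (fun u => ∃ N₀ x' σ q e κ p h : ℕ, (N₀, x') ∈ A ∧ u.1 = N₀ + q * σ ∧
      u.2 = x' + e * σ ∧ 0 < σ ∧ R < q ∧ 0 < κ ∧ 0 < p ∧ p ≤ G ∧ 0 < h ∧ e = κ * h ∧ e < q ∧
      Nat.Coprime q e ∧ e * N₀ = q * x' + κ * p) with hT2
  have hcover : {p : ℕ × ℕ | p.1 ≤ X ∧ p.2 < p.1 ∧ (fun N x => ∃ N₀ x' σ q e κ p h : ℕ, B N₀ x' ∧
      0 < x' ∧ x' < N₀ ∧ N = N₀ + q * σ ∧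
      x = x' + e * σ ∧ 0 < σ ∧ 0 < κ ∧ 0 < p ∧ p ≤ G ∧ 0 < h ∧ e = κ * h ∧ e < q ∧
      Nat.Coprime q e ∧ e * N₀ = q * x' + κ * p) p.1 p.2} ⊆ ((T1 ∪ T2 : Finset (ℕ × ℕ)) : Set (ℕ × ℕ)) := by
    rintro u ⟨hu1, hu2, N₀, x', σ, q, e, κ, p, h, hBv, hx0, hxN, e1, e2, hσ, hκ, hp, hpG, hh, he,
      heq, cop, hdet⟩
    rw [mem_coe, mem_union]
    have hub : u ∈ box X := mem_box.2 ⟨hu1, hu2.le.trans hu1⟩
    rcases Nat.lt_or_ge R q with hq | hq
    · right
      rw [hT2, mem_filter]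
      refine ⟨hub, N₀, x', σ, q, e, κ, p, h, ?_, e1, e2, hσ, hq, hκ, hp, hpG, hh, he, heq, cop,
        hdet⟩
      rw [hA, mem_filter, mem_box]
      have : N₀ ≤ X := by rw [e1] at hu1; omega
      exact ⟨⟨this, hxN.le.trans this⟩, hx0, hxN, hBv⟩
    · left
      rw [hT1, mem_filter]
      refine ⟨hub, hu2, q, e, κ, p, h, hq, ?_, heq, cop, he, hp, hpG, ?_⟩
      · rw [he]; exact Nat.mul_pos hκ hh
      · rw [e1, e2]
        calc e * (N₀ + q * σ) = e * N₀ + q * (e * σ) := by ring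
          _ = q * x' + κ * p + q * (e * σ) := by rw [hdet]
          _ = _ := by ring
  have hcard : ((Set.ncard {p : ℕ × ℕ | p.1 ≤ X ∧ p.2 < p.1 ∧ (fun N x => ∃ N₀ x' σ q e κ p h : ℕ,
      B N₀ x' ∧ 0 < x' ∧ x' < N₀ ∧ N = N₀ + q * σ ∧
      x = x' + e * σ ∧ 0 < σ ∧ 0 < κ ∧ 0 < p ∧ p ≤ G ∧ 0 < h ∧ e = κ * h ∧ e < q ∧
      Nat.Coprime q e ∧ e * N₀ = q * x' + κ * p) p.1 p.2} : ℕ) : ℝ) ≤ (T1.card : ℝ) + T2.card := by
    have h3 := Set.ncard_le_ncard hcover (finite_toSet _)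
    rw [Set.ncard_coe_finset] at h3
    have h4 := card_union_le T1 T2
    exact_mod_cast h3.trans h4
  refine hcard.trans ?_
  rw [hgoal, add_mul]
  have hG0 : (0 : ℝ) ≤ G := Nat.cast_nonneg _
  refine add_le_add ?_ ?_
  · -- small q
    have h3 : (T1.card : ℝ) ≤ 2 * T * G * R * X := by exact_mod_cast h1
    calc (T1.card : ℝ) ≤ 2 * T * G * R * X := h3
      _ ≤ 2 * (Cτ * U) * G * ((X : ℝ) / U ^ 2) * X := by gcongr
      _ = 2 * Cτ * G * (X ^ 2 / U) := by field_simp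
      _ ≤ 4 * Cτ * G * (X ^ 2 / U) := by
          have : 0 ≤ Cτ * G * (X ^ 2 / U) := by positivity
          nlinarith
  · -- large q
    have hsum : ∑ v ∈ A, ((G : ℝ) * X + v.1) / v.1 ≤ (G + 1) * ((1 + C) * (X ^ 2 / U ^ 4)) := by
      have h3 : ∑ v ∈ A, ((G : ℝ) * X + v.1) / v.1 ≤ ∑ v ∈ A, (G + 1) * ((X : ℝ) / v.1) := by
        refine sum_le_sum fun v hv => ?_
        obtain ⟨a1, a2, a3⟩ := hAprop v hv
        have hv0 : (0 : ℝ) < v.1 := by exact_mod_cast (by omega : 0 < v.1)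
        rw [← mul_div_assoc]
        refine div_le_div_of_nonneg_right ?_ hv0.le
        have : (v.1 : ℝ) ≤ X := by exact_mod_cast a3
        nlinarith
      refine h3.trans ?_
      rw [← mul_sum]
      refine mul_le_mul_of_nonneg_left ?_ (by positivity)
      have h4 := sum_inv X A (fun v hv => (hAprop v hv).2) ((X : ℝ) / U ^ 4) (by positivity)
      refine h4.trans ?_
      have h5 : (X : ℝ) / (X / U ^ 4) = U ^ 4 := by field_simp
      rw [h5]
      calc (X : ℝ) * (X / U ^ 4) + U ^ 4 * A.card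
          ≤ (X : ℝ) * (X / U ^ 4) + U ^ 4 * (C * (X ^ 2 / U ^ 8)) := by gcongr
        _ = (1 + C) * (X ^ 2 / U ^ 4) := by field_simp
    calc (T2.card : ℝ) ≤ (T : ℝ) * G * ((X : ℝ) / R) * ∑ v ∈ A, ((G : ℝ) * X + v.1) / v.1 := h2
      _ ≤ (Cτ * U) * G * (2 * U ^ 2) * ((G + 1) * ((1 + C) * (X ^ 2 / U ^ 4))) := by
          gcongr
      _ = 2 * Cτ * G * (G + 1) * (1 + C) * (X ^ 2 / U) := by field_simp
      _ ≤ 4 * Cτ * G * (G + 1) * (1 + C) * (X ^ 2 / U) := by
          have : 0 ≤ Cτ * G * (G + 1) * (1 + C) * (X ^ 2 / U) := by positivity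
          nlinarith


theorem thin_minor (G : ℕ) : Thin (fun N x => ∃ q e d : ℕ, 0 < e ∧ e < q ∧ q ≤ G ∧ 0 < d ∧
    d ≤ G * G ∧ e * N = q * x + d) := by
  classical
  refine ⟨1, one_pos, 2 * (G + 1) * (G + 1) * (G * G + 1), ?_⟩
  intro X hX
  have hX1 : (1 : ℝ) ≤ X := by exact_mod_cast hX
  set P := (range (X + 1)) ×ˢ ((range (G + 1)) ×ˢ ((range (G + 1)) ×ˢ (range (G * G + 1)))) with hP
  have hsub : {p : ℕ × ℕ | p.1 ≤ X ∧ p.2 < p.1 ∧ (fun N x => ∃ q e d : ℕ, 0 < e ∧ e < q ∧ q ≤ G ∧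
      0 < d ∧ d ≤ G * G ∧ e * N = q * x + d) p.1 p.2} ⊆
      ((P.image fun w => (w.1, (w.2.2.1 * w.1 - w.2.2.2) / w.2.1) : Finset (ℕ × ℕ)) :
        Set (ℕ × ℕ)) := by
    rintro u ⟨hu1, hu2, q, e, d, he, heq, hqG, hd, hdG, hdet⟩
    rw [mem_coe, mem_image]
    refine ⟨(u.1, q, e, d), ?_, ?_⟩
    · simp only [hP, mem_product, mem_range]
      refine ⟨by omega, by omega, by omega, by omega⟩
    · refine Prod.ext rfl ?_
      simp only
      rw [hdet, Nat.add_sub_cancel]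
      exact Nat.mul_div_cancel_left _ (by omega)
  have h1 := Set.ncard_le_ncard hsub (finite_toSet _)
  rw [Set.ncard_coe_finset] at h1
  have h2 : P.card = (X + 1) * ((G + 1) * ((G + 1) * (G * G + 1))) := by
    simp only [hP, card_product, card_range]
  have h3 := h1.trans (card_image_le.trans h2.le)
  have h4 : ((Set.ncard {p : ℕ × ℕ | p.1 ≤ X ∧ p.2 < p.1 ∧ (fun N x => ∃ q e d : ℕ, 0 < e ∧ e < q ∧
      q ≤ G ∧ 0 < d ∧ d ≤ G * G ∧ e * N = q * x + d) p.1 p.2} : ℕ) : ℝ) ≤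
      ((X : ℝ) + 1) * (((G : ℝ) + 1) * ((G + 1) * (G * G + 1))) := by exact_mod_cast h3
  refine h4.trans ?_
  have h5 : (X : ℝ) ^ ((2 : ℝ) - 1) = X := by norm_num
  rw [h5]
  have h6 : (X : ℝ) + 1 ≤ 2 * X := by linarith
  calc ((X : ℝ) + 1) * (((G : ℝ) + 1) * ((G + 1) * (G * G + 1)))
      ≤ (2 * X) * (((G : ℝ) + 1) * ((G + 1) * (G * G + 1))) :=
        mul_le_mul_of_nonneg_right h6 (by positivity)
    _ = _ := by ring

end Pool.Agent.Lib.MP_2d59ee_ag
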