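import Mathlib
import Pool.Agent.Lib.MP_2d59ee_ag.R.R5
import Pool.Agent.Lib.MP_2d59ee_ag.R.R7

set_option autoImplicit false

/-! Low states with a given running gcd form a thin set. -/

namespace Pool.Agent.Lib.MP_2d59ee_ag

/-- the pairs `(N, x)` of low states with running gcd `G` -/
def LowP (G N x : ℕ) : Prop :=
  ∃ (a b E : ℕ) (α : ℤ) (k : ℚ), 2 ≤ a ∧ a < b ∧ Nat.Coprime a b ∧ GoodG a b N E α k G ∧
    (E : ℚ) - k ≤ 1 ∧ (x : ℤ) = E * N - α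

theorem thin_finite (B : ℕ → ℕ → Prop) (X : ℕ) :
    ({p : ℕ × ℕ | p.1 ≤ X ∧ p.2 < p.1 ∧ B p.1 p.2} : Set (ℕ × ℕ)).Finite := by
  apply ((Set.finite_Iic X).prod (Set.finite_Iic X)).subset
  rintro ⟨u, v⟩ ⟨h1, h2, -⟩
  simp only at h1 h2
  exact ⟨h1, by simp only [Set.mem_Iic]; omega⟩

theorem Thin.mono {B B' : ℕ → ℕ → Prop} (h : Thin B') (hB : ∀ N x, x < N → B N x → B' N x) :
    Thin B := by
  obtain ⟨δ, hδ, C, hC⟩ := h
  refine ⟨δ, hδ, C, fun X hX => le_trans ?_ (hC X hX)⟩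
  have hsub : ({p : ℕ × ℕ | p.1 ≤ X ∧ p.2 < p.1 ∧ B p.1 p.2} : Set (ℕ × ℕ)) ⊆
      {p : ℕ × ℕ | p.1 ≤ X ∧ p.2 < p.1 ∧ B' p.1 p.2} := by
    rintro p ⟨h1, h2, h3⟩
    exact ⟨h1, h2, hB _ _ h2 h3⟩
  exact_mod_cast Set.ncard_le_ncard hsub (thin_finite B' X)

theorem Thin.or {B B' : ℕ → ℕ → Prop} (h : Thin B) (h' : Thin B') :
    Thin (fun N x => B N x ∨ B' N x) := by
  obtain ⟨δ, hδ, C, hC⟩ := h
  obtain ⟨δ', hδ', C', hC'⟩ := h'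
  refine ⟨min δ δ', lt_min hδ hδ', max C 0 + max C' 0, fun X hX => ?_⟩
  have hX1 : (1 : ℝ) ≤ X := by exact_mod_cast hX
  have e1 : ({p : ℕ × ℕ | p.1 ≤ X ∧ p.2 < p.1 ∧ (B p.1 p.2 ∨ B' p.1 p.2)} : Set (ℕ × ℕ)) =
      {p : ℕ × ℕ | p.1 ≤ X ∧ p.2 < p.1 ∧ B p.1 p.2} ∪
      {p : ℕ × ℕ | p.1 ≤ X ∧ p.2 < p.1 ∧ B' p.1 p.2} := by
    ext p
    simp only [Set.mem_setOf_eq, Set.mem_union]
    tauto
  rw [e1]
  have e2 := Set.ncard_union_le {p : ℕ × ℕ | p.1 ≤ X ∧ p.2 < p.1 ∧ B p.1 p.2}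
      {p : ℕ × ℕ | p.1 ≤ X ∧ p.2 < p.1 ∧ B' p.1 p.2}
  have e2' : ((({p : ℕ × ℕ | p.1 ≤ X ∧ p.2 < p.1 ∧ B p.1 p.2} ∪
      {p : ℕ × ℕ | p.1 ≤ X ∧ p.2 < p.1 ∧ B' p.1 p.2} : Set (ℕ × ℕ)).ncard : ℕ) : ℝ) ≤
      (({p : ℕ × ℕ | p.1 ≤ X ∧ p.2 < p.1 ∧ B p.1 p.2} : Set (ℕ × ℕ)).ncard : ℝ) +
      (({p : ℕ × ℕ | p.1 ≤ X ∧ p.2 < p.1 ∧ B' p.1 p.2} : Set (ℕ × ℕ)).ncard : ℝ) := by
    exact_mod_cast e2
  have p1 : (X : ℝ) ^ (2 - δ) ≤ (X : ℝ) ^ (2 - min δ δ') :=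
    Real.rpow_le_rpow_of_exponent_le hX1 (by linarith [min_le_left δ δ'])
  have p2 : (X : ℝ) ^ (2 - δ') ≤ (X : ℝ) ^ (2 - min δ δ') :=
    Real.rpow_le_rpow_of_exponent_le hX1 (by linarith [min_le_right δ δ'])
  have q1 : (0 : ℝ) ≤ (X : ℝ) ^ (2 - δ) := Real.rpow_nonneg (by linarith) _
  have q2 : (0 : ℝ) ≤ (X : ℝ) ^ (2 - δ') := Real.rpow_nonneg (by linarith) _
  have r1 : C * (X : ℝ) ^ (2 - δ) ≤ max C 0 * (X : ℝ) ^ (2 - min δ δ') :=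
    le_trans (mul_le_mul_of_nonneg_right (le_max_left C 0) q1)
      (mul_le_mul_of_nonneg_left p1 (le_max_right C 0))
  have r2 : C' * (X : ℝ) ^ (2 - δ') ≤ max C' 0 * (X : ℝ) ^ (2 - min δ δ') :=
    le_trans (mul_le_mul_of_nonneg_right (le_max_left C' 0) q2)
      (mul_le_mul_of_nonneg_left p2 (le_max_right C' 0))
  have s1 := hC X hX
  have s2 := hC' X hX
  rw [add_mul]
  linarith

theorem thin_empty : Thin (fun _ _ => False) := by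
  refine ⟨1, one_pos, 0, fun X _ => ?_⟩
  have : ({p : ℕ × ℕ | p.1 ≤ X ∧ p.2 < p.1 ∧ False} : Set (ℕ × ℕ)) = ∅ := by
    ext p; simp
  rw [this]
  simp

theorem thin_exists_lt (B : ℕ → ℕ → ℕ → Prop) (n : ℕ) (h : ∀ i < n, Thin (B i)) :
    Thin (fun N x => ∃ i < n, B i N x) := by
  induction n with
  | zero =>
    refine thin_empty.mono ?_
    rintro N x - ⟨i, hi, -⟩
    omega
  | succ n ih =>
    refine ((ih fun i hi => h i (by omega)).or (h n (by omega))).mono ?_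
    rintro N x - ⟨i, hi, hB⟩
    rcases Nat.lt_or_ge i n with h1 | h1
    · exact Or.inl ⟨i, h1, hB⟩
    · have : i = n := by omega
      subst this
      exact Or.inr hB

theorem lowP_step (G N x : ℕ) (h : LowP G N x) :
    (∃ q e d, 0 < e ∧ e < q ∧ q ≤ G ∧ 0 < d ∧ d ≤ G * G ∧ e * N = q * x + d) ∨
    (∃ N₀ x' σ q e κ p h, (∃ G' < G, LowP G' N₀ x') ∧ 0 < x' ∧ x' < N₀ ∧ N = N₀ + q * σ ∧
      x = x' + e * σ ∧ 0 < σ ∧ 0 < κ ∧ 0 < p ∧ p ≤ G ∧ 0 < h ∧ e = κ * h ∧ e < q ∧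
      Nat.Coprime q e ∧ e * N₀ = q * x' + κ * p) := by
  obtain ⟨a, b, E, α, k, ha, hlt, hab, g, hE1, hxx⟩ := h
  obtain ⟨K, q, d, e, j, N₀, σ, G', hkK, hq2, he, heq, hd, heK, cop, heN, h1, h2, h3, h4, h5, h6,
    h7, h8, hj0, h9, h10, h11, h12, hcase⟩ := low_level a b ha hlt hab g hE1 x hxx
  have hG0 := g.hG
  have hG'G : G' ≤ G := Nat.le_of_dvd hG0 h2
  obtain ⟨κ, p, h, hκ, hp, hh, hd', he', hcop, hG⟩ := frac hd he
  have hpG : p ∣ G := (hG G).1 h7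
  have hpG2 : p ≤ G := Nat.le_of_dvd hG0 hpG
  rcases hcase with ⟨hmin, -⟩ | ⟨hmaj, α₀, x', i1, g₀, hEK, i3, i4, i5⟩
  · left
    have hq := minor_q cop heN h10 hmin hκ hd' he'
    refine ⟨q, e, d, he, heq, by omega, hd, ?_, heN⟩
    have e1 : d ≤ e * G := Nat.le_of_dvd (Nat.mul_pos he hG0) h7
    have e2 : e * G ≤ G * G := Nat.mul_le_mul_right G (by omega)
    omega
  · right
    have hne : G' ≠ G := by
      intro h0; apply h8; rw [h0]; exact h7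
    have hxx' : x = x' + e * σ := by
      have e1 : q * x + d = q * (x' + e * σ) + d := by
        rw [← heN, h10, Nat.mul_add, i4]; ring
      have e2 : q * x = q * (x' + e * σ) := by omega
      exact Nat.eq_of_mul_eq_mul_left (by omega) e2
    refine ⟨N₀, x', σ, q, e, κ, p, h, ⟨G', by omega, a, b, E, α₀, K, ha, hlt, hab, g₀, hEK, i3⟩,
      by omega, ?_, h10, hxx', h11, hκ, hp, hpG2, hh, he', heq, cop, ?_⟩
    · by_contra hcon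
      push Not at hcon
      have e1 : q * N₀ ≤ q * x' := Nat.mul_le_mul_left q hcon
      have e2 : e * N₀ ≤ q * N₀ := Nat.mul_le_mul_right N₀ heq.le
      omega
    · rw [i4, hd']

theorem thin_low (G : ℕ) : Thin (LowP G) := by
  induction G using Nat.strong_induction_on with
  | _ G ih =>
  refine ((thin_minor G).or (thin_step G (fun N x => ∃ G' < G, LowP G' N x)
    (thin_exists_lt LowP G ih))).mono ?_
  intro N x _ h
  exact lowP_step G N x h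

end Pool.Agent.Lib.MP_2d59ee_ag
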