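import Mathlib
import Pool.Agent.Lib.MP_2d59ee_ag.R.R7

set_option autoImplicit false

/-! Two elementary counts: pairs with a large gcd, pairs with `m ∣ n` (helper17). -/

namespace Pool.Agent.Lib.MP_2d59ee_ag

open Finset

/-- pairs with a large common divisor -/
theorem gcd_tail (X Y : ℕ) (hY : 0 < Y) :
    (Set.ncard {p : ℕ × ℕ | 0 < p.1 ∧ p.1 ≤ X ∧ 0 < p.2 ∧ p.2 ≤ X ∧ Y < Nat.gcd p.1 p.2} : ℝ)
      ≤ (X : ℝ) ^ 2 / Y := by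
  classical
  set U : Finset (ℕ × ℕ) := (Ioc Y X).biUnion fun g =>
    (Icc 1 (X / g) ×ˢ Icc 1 (X / g)).image (fun z => (g * z.1, g * z.2)) with hU
  have hsub : {p : ℕ × ℕ | 0 < p.1 ∧ p.1 ≤ X ∧ 0 < p.2 ∧ p.2 ≤ X ∧ Y < Nat.gcd p.1 p.2}
      ⊆ (U : Set (ℕ × ℕ)) := by
    rintro ⟨m, n⟩ ⟨h1, h2, h3, h4, h5⟩
    simp only at h1 h2 h3 h4 h5
    have hg0 : 0 < Nat.gcd m n := Nat.gcd_pos_of_pos_left _ h1
    obtain ⟨u, hu⟩ := Nat.gcd_dvd_left m n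
    obtain ⟨v, hv⟩ := Nat.gcd_dvd_right m n
    rw [Finset.mem_coe, hU, mem_biUnion]
    refine ⟨Nat.gcd m n, mem_Ioc.mpr ⟨h5, (Nat.gcd_le_left _ h1).trans h2⟩, ?_⟩
    rw [mem_image]
    have hu0 : 0 < u := by
      rcases Nat.eq_zero_or_pos u with h | h
      · rw [h, mul_zero] at hu; omega
      · exact h
    have hv0 : 0 < v := by
      rcases Nat.eq_zero_or_pos v with h | h
      · rw [h, mul_zero] at hv; omega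
      · exact h
    refine ⟨(u, v), ?_, ?_⟩
    · rw [mem_product, mem_Icc, mem_Icc]
      refine ⟨⟨hu0, ?_⟩, ⟨hv0, ?_⟩⟩
      · rw [Nat.le_div_iff_mul_le hg0, mul_comm]; rw [← hu]; exact h2
      · rw [Nat.le_div_iff_mul_le hg0, mul_comm]; rw [← hv]; exact h4
    · simp only
      rw [← hu, ← hv]
  have h1 : (Set.ncard {p : ℕ × ℕ | 0 < p.1 ∧ p.1 ≤ X ∧ 0 < p.2 ∧ p.2 ≤ X ∧
      Y < Nat.gcd p.1 p.2} : ℝ) ≤ U.card := by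
    rw [← Set.ncard_coe_finset]
    exact_mod_cast Set.ncard_le_ncard hsub (Finset.finite_toSet _)
  have h2 : (U.card : ℝ) ≤ ∑ g ∈ Ioc Y X, (X : ℝ) ^ 2 * ((g : ℝ) ^ 2)⁻¹ := by
    rw [hU]
    refine le_trans (Nat.cast_le.mpr card_biUnion_le) ?_
    push_cast
    refine sum_le_sum fun g hg => ?_
    have hg0 : (0 : ℝ) < g := by
      have := (mem_Ioc.mp hg).1
      exact_mod_cast (by omega : 0 < g)
    refine le_trans (Nat.cast_le.mpr card_image_le) ?_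
    rw [card_product, Nat.card_Icc, Nat.add_sub_cancel]
    have h3 : ((X / g : ℕ) : ℝ) ≤ (X : ℝ) / g := Nat.cast_div_le
    have h4 : (0 : ℝ) ≤ ((X / g : ℕ) : ℝ) := Nat.cast_nonneg _
    push_cast
    calc ((X / g : ℕ) : ℝ) * ((X / g : ℕ) : ℝ) ≤ ((X : ℝ) / g) * ((X : ℝ) / g) :=
          mul_le_mul h3 h3 h4 (h4.trans h3)
      _ = (X : ℝ) ^ 2 * ((g : ℝ) ^ 2)⁻¹ := by field_simp
  rcases Nat.lt_or_ge X Y with hlt | hle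
  · have h3 : Ioc Y X = ∅ := Ioc_eq_empty (by omega)
    rw [h3, sum_empty] at h2
    have : (0 : ℝ) ≤ (X : ℝ) ^ 2 / Y := by positivity
    linarith
  · rw [← mul_sum] at h2
    have h3 := sum_Ioc_inv_sq_le_sub (α := ℝ) hY.ne' hle
    have h4 : (0 : ℝ) ≤ ((X : ℝ))⁻¹ := by positivity
    have h5 : (X : ℝ) ^ 2 * ∑ i ∈ Ioc Y X, ((i : ℝ) ^ 2)⁻¹ ≤ (X : ℝ) ^ 2 * ((Y : ℝ))⁻¹ :=
      mul_le_mul_of_nonneg_left (by linarith) (by positivity)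
    rw [div_eq_mul_inv]
    linarith

/-- pairs with `m ∣ n` -/
theorem dvd_count : ∃ C : ℝ, 0 ≤ C ∧ ∀ X : ℕ, 1 ≤ X →
    (Set.ncard {p : ℕ × ℕ | 0 < p.1 ∧ 0 < p.2 ∧ p.2 ≤ X ∧ p.1 ∣ p.2} : ℝ)
      ≤ C * (X : ℝ) ^ ((3 : ℝ) / 2) := by
  classical
  obtain ⟨C, hC1, hC⟩ := card_divisors_le_rpow (1 / 2) (by norm_num)
  refine ⟨C, by linarith, fun X hX => ?_⟩
  set U : Finset (ℕ × ℕ) := (Icc 1 X).biUnion fun n =>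
    (Nat.divisors n).image (fun m => (m, n)) with hU
  have hsub : {p : ℕ × ℕ | 0 < p.1 ∧ 0 < p.2 ∧ p.2 ≤ X ∧ p.1 ∣ p.2} ⊆ (U : Set (ℕ × ℕ)) := by
    rintro ⟨m, n⟩ ⟨h1, h2, h3, h4⟩
    simp only at h1 h2 h3 h4
    rw [Finset.mem_coe, hU, mem_biUnion]
    refine ⟨n, mem_Icc.mpr ⟨h2, h3⟩, ?_⟩
    rw [mem_image]
    exact ⟨m, Nat.mem_divisors.mpr ⟨h4, h2.ne'⟩, rfl⟩
  have h1 : (Set.ncard {p : ℕ × ℕ | 0 < p.1 ∧ 0 < p.2 ∧ p.2 ≤ X ∧ p.1 ∣ p.2} : ℝ)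
      ≤ U.card := by
    rw [← Set.ncard_coe_finset]
    exact_mod_cast Set.ncard_le_ncard hsub (Finset.finite_toSet _)
  have hX0 : (0 : ℝ) < X := by exact_mod_cast hX
  have h2 : (U.card : ℝ) ≤ ∑ n ∈ Icc 1 X, C * (X : ℝ) ^ ((1 : ℝ) / 2) := by
    rw [hU]
    refine le_trans (Nat.cast_le.mpr card_biUnion_le) ?_
    push_cast
    refine sum_le_sum fun n hn => ?_
    obtain ⟨hn1, hnX⟩ := mem_Icc.mp hn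
    refine le_trans (Nat.cast_le.mpr card_image_le) ?_
    refine (hC n (by omega)).trans ?_
    apply mul_le_mul_of_nonneg_left _ (by linarith)
    apply Real.rpow_le_rpow (by positivity) _ (by norm_num)
    exact_mod_cast hnX
  rw [sum_const, nsmul_eq_mul, Nat.card_Icc, Nat.add_sub_cancel] at h2
  have h3 : (X : ℝ) ^ ((3 : ℝ) / 2) = X * (X : ℝ) ^ ((1 : ℝ) / 2) := by
    rw [show (3 : ℝ) / 2 = 1 + 1 / 2 by norm_num, Real.rpow_add hX0, Real.rpow_one]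
  rw [h3]
  calc (Set.ncard {p : ℕ × ℕ | 0 < p.1 ∧ 0 < p.2 ∧ p.2 ≤ X ∧ p.1 ∣ p.2} : ℝ)
      ≤ X * (C * (X : ℝ) ^ ((1 : ℝ) / 2)) := h1.trans h2
    _ = _ := by ring



theorem tail (Y X : ℕ) (hY : 0 < Y) :
    ((({p : ℕ × ℕ | 0 < p.1 ∧ p.1 < p.2 ∧ p.2 ≤ X ∧ Y < Nat.gcd p.1 p.2} :
      Set (ℕ × ℕ)).ncard : ℕ) : ℝ) ≤ (X : ℝ) ^ 2 / Y := by
  refine le_trans ?_ (gcd_tail X Y hY)
  have hsub : ({p : ℕ × ℕ | 0 < p.1 ∧ p.1 < p.2 ∧ p.2 ≤ X ∧ Y < Nat.gcd p.1 p.2} :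
      Set (ℕ × ℕ)) ⊆
      {p : ℕ × ℕ | 0 < p.1 ∧ p.1 ≤ X ∧ 0 < p.2 ∧ p.2 ≤ X ∧ Y < Nat.gcd p.1 p.2} := by
    rintro ⟨s, t⟩ ⟨h1, h2, h3, h4⟩
    simp only at h1 h2 h3 h4
    exact ⟨h1, by simp only; omega, by simp only; omega, h3, h4⟩
  have hfin : ({p : ℕ × ℕ | 0 < p.1 ∧ p.1 ≤ X ∧ 0 < p.2 ∧ p.2 ≤ X ∧ Y < Nat.gcd p.1 p.2} :
      Set (ℕ × ℕ)).Finite := by
    apply ((Set.finite_Iic X).prod (Set.finite_Iic X)).subset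
    rintro ⟨u, v⟩ ⟨-, h1, -, h2, -⟩
    exact ⟨h1, h2⟩
  exact_mod_cast Set.ncard_le_ncard hsub hfin

theorem dvd_tail : ∃ C : ℝ, 0 ≤ C ∧ ∀ X : ℕ, 1 ≤ X →
    ((({p : ℕ × ℕ | 0 < p.1 ∧ p.1 < p.2 ∧ p.2 ≤ X ∧ p.1 ∣ p.2} :
      Set (ℕ × ℕ)).ncard : ℕ) : ℝ) ≤ C * (X : ℝ) ^ ((3 : ℝ) / 2) := by
  obtain ⟨C, hC0, hC⟩ := dvd_count
  refine ⟨C, hC0, fun X hX => le_trans ?_ (hC X hX)⟩
  have hsub : ({p : ℕ × ℕ | 0 < p.1 ∧ p.1 < p.2 ∧ p.2 ≤ X ∧ p.1 ∣ p.2} : Set (ℕ × ℕ)) ⊆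
      {p : ℕ × ℕ | 0 < p.1 ∧ 0 < p.2 ∧ p.2 ≤ X ∧ p.1 ∣ p.2} := by
    rintro ⟨s, t⟩ ⟨h1, h2, h3, h4⟩
    simp only at h1 h2 h3 h4
    exact ⟨h1, by simp only; omega, h3, h4⟩
  have hfin : ({p : ℕ × ℕ | 0 < p.1 ∧ 0 < p.2 ∧ p.2 ≤ X ∧ p.1 ∣ p.2} :
      Set (ℕ × ℕ)).Finite := by
    apply ((Set.finite_Iic X).prod (Set.finite_Iic X)).subset
    rintro ⟨u, v⟩ ⟨h0, h1, h2, h3⟩
    simp only at h0 h1 h2 h3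
    exact ⟨(Nat.le_of_dvd h1 h3).trans h2, h2⟩
  exact_mod_cast Set.ncard_le_ncard hsub hfin

end Pool.Agent.Lib.MP_2d59ee_ag
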