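import Mathlib
import Pool.Agent.Lib.MP_2d59ee_ag.R.R8
import Pool.Agent.Lib.MP_2d59ee_ag.R.R9

set_option autoImplicit false

/-! The final counts. -/

namespace Pool.Agent.Lib.MP_2d59ee_ag

theorem count_fin (B : ℕ × ℕ → Prop) (X : ℕ) :
    ({p : ℕ × ℕ | 0 < p.1 ∧ p.1 < p.2 ∧ p.2 ≤ X ∧ B p} : Set (ℕ × ℕ)).Finite := by
  apply ((Set.finite_Iic X).prod (Set.finite_Iic X)).subset
  rintro ⟨u, v⟩ ⟨-, h1, h2, -⟩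
  simp only at h1 h2
  exact ⟨by simp only [Set.mem_Iic]; omega, h2⟩

/-- the number of bad pairs up to `X` is at most the three counts -/
theorem count_split (Bad : ℕ → ℕ → Prop)
    (hBad : ∀ s t, 0 < s → s < t → Bad s t → s ∣ t ∨ LowP (Nat.gcd s t) t (t - s))
    (Y X : ℕ) :
    ({p : ℕ × ℕ | 0 < p.1 ∧ p.1 < p.2 ∧ p.2 ≤ X ∧ Bad p.1 p.2} : Set (ℕ × ℕ)).ncard ≤
      ({p : ℕ × ℕ | 0 < p.1 ∧ p.1 < p.2 ∧ p.2 ≤ X ∧ p.1 ∣ p.2} : Set (ℕ × ℕ)).ncard +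
      ({p : ℕ × ℕ | 0 < p.1 ∧ p.1 < p.2 ∧ p.2 ≤ X ∧ Y < Nat.gcd p.1 p.2} : Set (ℕ × ℕ)).ncard +
      ({p : ℕ × ℕ | p.1 ≤ X ∧ p.2 < p.1 ∧ ∃ g < Y + 1, LowP g p.1 p.2} : Set (ℕ × ℕ)).ncard := by
  set A : Set (ℕ × ℕ) := {p | 0 < p.1 ∧ p.1 < p.2 ∧ p.2 ≤ X ∧ p.1 ∣ p.2} with hA
  set D : Set (ℕ × ℕ) := {p | 0 < p.1 ∧ p.1 < p.2 ∧ p.2 ≤ X ∧ Y < Nat.gcd p.1 p.2} with hD
  set L : Set (ℕ × ℕ) := {p | 0 < p.1 ∧ p.1 < p.2 ∧ p.2 ≤ X ∧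
    ∃ g < Y + 1, LowP g p.2 (p.2 - p.1)} with hL
  have hsub : ({p : ℕ × ℕ | 0 < p.1 ∧ p.1 < p.2 ∧ p.2 ≤ X ∧ Bad p.1 p.2} : Set (ℕ × ℕ)) ⊆
      (A ∪ D) ∪ L := by
    rintro ⟨s, t⟩ ⟨h1, h2, h3, h4⟩
    rcases hBad s t h1 h2 h4 with h | h
    · exact Or.inl (Or.inl ⟨h1, h2, h3, h⟩)
    · rcases Nat.lt_or_ge Y (Nat.gcd s t) with h5 | h5
      · exact Or.inl (Or.inr ⟨h1, h2, h3, h5⟩)
      · exact Or.inr ⟨h1, h2, h3, Nat.gcd s t, by omega, h⟩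
  have hAf : A.Finite := count_fin _ X
  have hDf : D.Finite := count_fin _ X
  have hLf : L.Finite := count_fin (fun p => ∃ g < Y + 1, LowP g p.2 (p.2 - p.1)) X
  have e1 := Set.ncard_le_ncard hsub ((hAf.union hDf).union hLf)
  have e2 := Set.ncard_union_le (A ∪ D) L
  have e3 := Set.ncard_union_le A D
  have e4 : L.ncard ≤
      ({p : ℕ × ℕ | p.1 ≤ X ∧ p.2 < p.1 ∧ ∃ g < Y + 1, LowP g p.1 p.2} : Set (ℕ × ℕ)).ncard := by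
    refine Set.ncard_le_ncard_of_injOn (fun p => (p.2, p.2 - p.1)) ?_ ?_
      (thin_finite (fun N x => ∃ g < Y + 1, LowP g N x) X)
    · rintro ⟨s, t⟩ ⟨h1, h2, h3, h4⟩
      simp only at h1 h2 h3 h4
      exact ⟨h3, by simp only; omega, h4⟩
    · rintro ⟨s, t⟩ ⟨h1, h2, -⟩ ⟨s', t'⟩ ⟨h1', h2', -⟩ he
      simp only [Prod.mk.injEq] at he h1 h2 h1' h2' ⊢
      omega
  omega

/-- density zero -/
theorem density_zero (Bad : ℕ → ℕ → Prop)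
    (hBad : ∀ s t, 0 < s → s < t → Bad s t → s ∣ t ∨ LowP (Nat.gcd s t) t (t - s))
    (ε : ℝ) (hε : 0 < ε) :
    ∃ X₀ : ℕ, ∀ X : ℕ, X₀ ≤ X →
      (({p : ℕ × ℕ | 0 < p.1 ∧ p.1 < p.2 ∧ p.2 ≤ X ∧ Bad p.1 p.2} : Set (ℕ × ℕ)).ncard : ℝ) ≤
        ε * (X : ℝ) ^ 2 := by
  obtain ⟨Y, hY⟩ : ∃ Y : ℕ, 3 / ε < Y := exists_nat_gt _
  have hY0 : (0 : ℝ) < Y := lt_trans (by positivity) hY
  have hY1 : 0 < Y := by exact_mod_cast hY0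
  obtain ⟨δ, hδ, C, hC⟩ := thin_exists_lt LowP (Y + 1) fun i _ => thin_low i
  obtain ⟨C', hC'0, hC'⟩ := dvd_tail
  -- `C X^(-δ) ≤ ε/3` for large `X`
  have key : ∀ (C δ : ℝ), 0 < δ → ∀ᶠ X : ℕ in Filter.atTop, C * (X : ℝ) ^ (-δ) ≤ ε / 3 := by
    intro C δ hδ
    have h2 : Filter.Tendsto (fun X : ℕ => C * (X : ℝ) ^ (-δ)) Filter.atTop (nhds (C * 0)) :=
      ((tendsto_rpow_neg_atTop hδ).comp tendsto_natCast_atTop_atTop).const_mul C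
    rw [mul_zero] at h2
    exact (h2.eventually (gt_mem_nhds (by positivity : (0 : ℝ) < ε / 3))).mono fun _ h => h.le
  obtain ⟨X₁, hX₁⟩ := Filter.eventually_atTop.1 (key C δ hδ)
  obtain ⟨X₂, hX₂⟩ := Filter.eventually_atTop.1 (key C' (1 / 2) (by norm_num))
  refine ⟨max (max X₁ 1) X₂, fun X hX => ?_⟩
  have hXX₁ : X₁ ≤ X := le_trans (le_trans (le_max_left _ _) (le_max_left _ _)) hX
  have hX1 : 1 ≤ X := le_trans (le_trans (le_max_right _ _) (le_max_left _ _)) hX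
  have hXX₂ : X₂ ≤ X := le_trans (le_max_right _ _) hX
  have hXR : (1 : ℝ) ≤ X := by exact_mod_cast hX1
  have hX0 : (0 : ℝ) < X := by linarith
  have s0 := count_split Bad hBad Y X
  have s1 := hC' X hX1
  have s2 := tail Y X hY1
  have s3 := hC X hX1
  set A := ({p : ℕ × ℕ | 0 < p.1 ∧ p.1 < p.2 ∧ p.2 ≤ X ∧ p.1 ∣ p.2} : Set (ℕ × ℕ)).ncard
  set D := ({p : ℕ × ℕ | 0 < p.1 ∧ p.1 < p.2 ∧ p.2 ≤ X ∧ Y < Nat.gcd p.1 p.2} :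
    Set (ℕ × ℕ)).ncard
  set L := ({p : ℕ × ℕ | p.1 ≤ X ∧ p.2 < p.1 ∧ ∃ g < Y + 1, LowP g p.1 p.2} :
    Set (ℕ × ℕ)).ncard
  have t0 : (({p : ℕ × ℕ | 0 < p.1 ∧ p.1 < p.2 ∧ p.2 ≤ X ∧ Bad p.1 p.2} :
      Set (ℕ × ℕ)).ncard : ℝ) ≤ A + D + L := by exact_mod_cast s0
  -- first count
  have t1 : (A : ℝ) ≤ ε / 3 * (X : ℝ) ^ 2 := by
    have a1 : (X : ℝ) ^ ((3 : ℝ) / 2) = (X : ℝ) ^ 2 * (X : ℝ) ^ (-(1 / 2 : ℝ)) := by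
      rw [show (3 : ℝ) / 2 = 2 + (-(1 / 2 : ℝ)) by norm_num, Real.rpow_add hX0]
      norm_num
    have a2 := hX₂ X hXX₂
    calc (A : ℝ) ≤ C' * (X : ℝ) ^ ((3 : ℝ) / 2) := s1
      _ = (C' * (X : ℝ) ^ (-(1 / 2 : ℝ))) * (X : ℝ) ^ 2 := by rw [a1]; ring
      _ ≤ ε / 3 * (X : ℝ) ^ 2 := mul_le_mul_of_nonneg_right a2 (by positivity)
  -- second count
  have t2 : (D : ℝ) ≤ ε / 3 * (X : ℝ) ^ 2 := by
    have a2 : 3 < ε * Y := by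
      rw [div_lt_iff₀ hε] at hY; linarith
    refine le_trans s2 ?_
    rw [div_le_iff₀ hY0]
    calc (X : ℝ) ^ 2 = 1 * (X : ℝ) ^ 2 := (one_mul _).symm
      _ ≤ (ε * Y / 3) * (X : ℝ) ^ 2 := mul_le_mul_of_nonneg_right (by linarith) (by positivity)
      _ = _ := by ring
  -- third count
  have t3 : (L : ℝ) ≤ ε / 3 * (X : ℝ) ^ 2 := by
    have a1 : (X : ℝ) ^ (2 - δ) = (X : ℝ) ^ 2 * (X : ℝ) ^ (-δ) := by
      rw [sub_eq_add_neg, Real.rpow_add hX0]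
      norm_num
    have a2 := hX₁ X hXX₁
    calc (L : ℝ) ≤ C * (X : ℝ) ^ (2 - δ) := s3
      _ = (C * (X : ℝ) ^ (-δ)) * (X : ℝ) ^ 2 := by rw [a1]; ring
      _ ≤ ε / 3 * (X : ℝ) ^ 2 := mul_le_mul_of_nonneg_right a2 (by positivity)
  linarith

/-- power saving for a fixed gcd -/
theorem density_gcd (Bad : ℕ → ℕ → Prop)
    (hBad : ∀ s t, 0 < s → s < t → Bad s t → s ∣ t ∨ LowP (Nat.gcd s t) t (t - s))
    (g : ℕ) :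
    ∃ δ C : ℝ, 0 < δ ∧ ∀ X : ℕ, 1 ≤ X →
      (({p : ℕ × ℕ | 0 < p.1 ∧ p.1 < p.2 ∧ p.2 ≤ X ∧ Nat.gcd p.1 p.2 = g ∧ Bad p.1 p.2} :
        Set (ℕ × ℕ)).ncard : ℝ) ≤ C * (X : ℝ) ^ (2 - δ) := by
  obtain ⟨δ, hδ, C, hC⟩ := thin_low g
  refine ⟨min δ 1, max C 0 + 1, lt_min hδ one_pos, fun X hX => ?_⟩
  have hX1 : (1 : ℝ) ≤ X := by exact_mod_cast hX
  set A : Set (ℕ × ℕ) := {p | p.1 = g ∧ p.2 ≤ X ∧ 0 < p.2} with hA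
  set L : Set (ℕ × ℕ) := {p | 0 < p.1 ∧ p.1 < p.2 ∧ p.2 ≤ X ∧ LowP g p.2 (p.2 - p.1)} with hL
  have hsub : ({p : ℕ × ℕ | 0 < p.1 ∧ p.1 < p.2 ∧ p.2 ≤ X ∧ Nat.gcd p.1 p.2 = g ∧
      Bad p.1 p.2} : Set (ℕ × ℕ)) ⊆ A ∪ L := by
    rintro ⟨s, t⟩ ⟨h1, h2, h3, h4, h5⟩
    simp only at h1 h2 h3 h4 h5
    rcases hBad s t h1 h2 h5 with h | h
    · left
      refine ⟨?_, h3, ?_⟩
      · simp only
        rw [← h4, Nat.gcd_eq_left h]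
      · simp only; omega
    · right
      rw [h4] at h
      exact ⟨h1, h2, h3, h⟩
  have hAe : A = (fun t => (g, t)) '' (Set.Icc 1 X) := by
    ext ⟨s, t⟩
    simp only [hA, Set.mem_setOf_eq, Set.mem_image, Set.mem_Icc, Prod.mk.injEq]
    constructor
    · rintro ⟨h1, h2, h3⟩
      exact ⟨t, ⟨h3, h2⟩, h1.symm, rfl⟩
    · rintro ⟨t', ⟨h1, h2⟩, h3, rfl⟩
      exact ⟨h3.symm, h2, h1⟩
  have hAf : A.Finite := by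
    rw [hAe]; exact (Set.finite_Icc 1 X).image _
  have hAc : A.ncard ≤ X := by
    rw [hAe]
    refine le_trans (Set.ncard_image_le (Set.finite_Icc 1 X)) ?_
    rw [← Nat.card_coe_set_eq, Nat.card_eq_fintype_card]
    simp
  have hLf : L.Finite := count_fin (fun p => LowP g p.2 (p.2 - p.1)) X
  have e1 := Set.ncard_le_ncard hsub (hAf.union hLf)
  have e2 := Set.ncard_union_le A L
  have e4 : L.ncard ≤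
      ({p : ℕ × ℕ | p.1 ≤ X ∧ p.2 < p.1 ∧ LowP g p.1 p.2} : Set (ℕ × ℕ)).ncard := by
    refine Set.ncard_le_ncard_of_injOn (fun p => (p.2, p.2 - p.1)) ?_ ?_
      (thin_finite (LowP g) X)
    · rintro ⟨s, t⟩ ⟨h1, h2, h3, h4⟩
      simp only at h1 h2 h3 h4
      exact ⟨h3, by simp only; omega, h4⟩
    · rintro ⟨s, t⟩ ⟨h1, h2, -⟩ ⟨s', t'⟩ ⟨h1', h2', -⟩ he
      simp only [Prod.mk.injEq] at he h1 h2 h1' h2' ⊢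
      omega
  have s3 := hC X hX
  have e5 : (({p : ℕ × ℕ | 0 < p.1 ∧ p.1 < p.2 ∧ p.2 ≤ X ∧ Nat.gcd p.1 p.2 = g ∧
      Bad p.1 p.2} : Set (ℕ × ℕ)).ncard : ℝ) ≤
      X + (({p : ℕ × ℕ | p.1 ≤ X ∧ p.2 < p.1 ∧ LowP g p.1 p.2} : Set (ℕ × ℕ)).ncard : ℝ) := by
    have : ({p : ℕ × ℕ | 0 < p.1 ∧ p.1 < p.2 ∧ p.2 ≤ X ∧ Nat.gcd p.1 p.2 = g ∧
      Bad p.1 p.2} : Set (ℕ × ℕ)).ncard ≤
      X + ({p : ℕ × ℕ | p.1 ≤ X ∧ p.2 < p.1 ∧ LowP g p.1 p.2} : Set (ℕ × ℕ)).ncard := by omega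
    exact_mod_cast this
  have p1 : (X : ℝ) ^ (2 - δ) ≤ (X : ℝ) ^ (2 - min δ 1) :=
    Real.rpow_le_rpow_of_exponent_le hX1 (by linarith [min_le_left δ 1])
  have p2 : (X : ℝ) ≤ (X : ℝ) ^ (2 - min δ 1) := by
    calc (X : ℝ) = (X : ℝ) ^ (1 : ℝ) := (Real.rpow_one _).symm
      _ ≤ _ := Real.rpow_le_rpow_of_exponent_le hX1 (by linarith [min_le_right δ 1])
  have q1 : (0 : ℝ) ≤ (X : ℝ) ^ (2 - δ) := Real.rpow_nonneg (by linarith) _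
  have r1 : C * (X : ℝ) ^ (2 - δ) ≤ max C 0 * (X : ℝ) ^ (2 - min δ 1) :=
    le_trans (mul_le_mul_of_nonneg_right (le_max_left C 0) q1)
      (mul_le_mul_of_nonneg_left p1 (le_max_right C 0))
  rw [add_mul, one_mul]
  linarith

end Pool.Agent.Lib.MP_2d59ee_ag
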