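import Mathlib

set_option autoImplicit false

/-! From density zero of the pairs `(m/a, n/a)` to density zero of the quadruples
`(a, b, m, n)`. -/

namespace Pool.Agent.Lib.MP_2d59ee_ag

open Finset

/-- the parameters `(a, b, m, n)` with `b ≤ X` and `n ≤ X` -/
def QBox (X : ℕ) : Set (ℕ × ℕ × ℕ × ℕ) :=
  {v | 2 ≤ v.1 ∧ v.1 < v.2.1 ∧ Nat.gcd v.1 v.2.1 = 1 ∧ 0 < v.2.2.1 ∧ v.2.2.1 < v.2.2.2 ∧
    v.1 ∣ v.2.2.1 ∧ v.1 ∣ v.2.2.2 ∧ v.2.1 ≤ X ∧ v.2.2.2 ≤ X}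

theorem QBox_finite (X : ℕ) : (QBox X).Finite := by
  refine ((Set.finite_Iic X).prod ((Set.finite_Iic X).prod ((Set.finite_Iic X).prod
    (Set.finite_Iic X)))).subset ?_
  rintro ⟨a, b, m, n⟩ ⟨-, h2, -, -, h5, -, -, h8, h9⟩
  simp only at h2 h5 h8 h9
  refine ⟨?_, h8, ?_, h9⟩
  · exact h2.le.trans h8
  · exact h5.le.trans h9

theorem sum_inv_sq (X : ℕ) : ∑ a ∈ Icc 2 X, (1 : ℝ) / (a : ℝ) ^ 2 ≤ 1 := by
  have h : ∀ n : ℕ, ∑ a ∈ Icc 2 (n + 1), (1 : ℝ) / (a : ℝ) ^ 2 ≤ 1 - 1 / ((n : ℝ) + 1) := by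
    intro n
    induction n with
    | zero => simp
    | succ n ih =>
      rw [Finset.sum_Icc_succ_top (by omega)]
      have h1 : (1 : ℝ) / (((n + 1 + 1 : ℕ)) : ℝ) ^ 2 ≤ 1 / ((n : ℝ) + 1) - 1 / ((n : ℝ) + 2) := by
        push_cast
        have hn : (0 : ℝ) ≤ n := Nat.cast_nonneg n
        rw [div_sub_div _ _ (by positivity) (by positivity), div_le_div_iff₀ (by positivity)
          (by positivity)]
        nlinarith
      have h2 : (((n + 1 : ℕ) : ℝ) + 1) = (n : ℝ) + 2 := by push_cast; ring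
      rw [h2]
      linarith
  rcases Nat.eq_zero_or_pos X with h0 | h0
  · subst h0; simp
  · obtain ⟨n, rfl⟩ : ∃ n, X = n + 1 := ⟨X - 1, by omega⟩
    refine (h n).trans ?_
    have : (0 : ℝ) ≤ 1 / ((n : ℝ) + 1) := by positivity
    linarith

theorem QBox_lower (X : ℕ) (hX : 4 ≤ X) : (X : ℝ) ^ 3 / 512 ≤ ((QBox X).ncard : ℝ) := by
  set K := X / 4 with hK
  have hK1 : 1 ≤ K := by omega
  have hKX : 4 * K ≤ X := by omega
  have hXK : X ≤ 8 * K := by omega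
  have h1 : ((((Icc 1 K) ×ˢ ((Icc 1 K) ×ˢ (Icc (K + 1) (2 * K)))).image
      (fun w : ℕ × ℕ × ℕ => (2, 2 * w.1 + 1, 2 * w.2.1, 2 * w.2.2)) :
        Finset (ℕ × ℕ × ℕ × ℕ)) : Set (ℕ × ℕ × ℕ × ℕ)) ⊆ QBox X := by
    intro v hv
    rw [mem_coe, mem_image] at hv
    obtain ⟨⟨k, s, t⟩, hw, rfl⟩ := hv
    simp only [mem_product, mem_Icc] at hw
    obtain ⟨⟨a1, a2⟩, ⟨a3, a4⟩, a5, a6⟩ := hw
    refine ⟨le_refl _, ?_, ?_, ?_, ?_, ?_, ?_, ?_, ?_⟩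
    · simp only; omega
    · simp only
      rw [show 2 * k + 1 = 1 + 2 * k by ring]
      simp
    · simp only; omega
    · simp only; omega
    · exact Dvd.intro _ rfl
    · exact Dvd.intro _ rfl
    · simp only; omega
    · simp only; omega
  have h2 := Set.ncard_le_ncard h1 (QBox_finite X)
  rw [Set.ncard_coe_finset, card_image_of_injective] at h2
  · simp only [card_product, Nat.card_Icc] at h2
    have h3 : K * (K * K) ≤ (QBox X).ncard := by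
      refine le_trans (le_of_eq ?_) h2
      congr 1
      congr 1
      omega
    have h4 : ((K * (K * K) : ℕ) : ℝ) ≤ ((QBox X).ncard : ℝ) := by exact_mod_cast h3
    refine le_trans ?_ h4
    push_cast
    have h5 : (X : ℝ) ≤ 8 * K := by exact_mod_cast hXK
    have h6 : (X : ℝ) ^ 3 ≤ (8 * K) ^ 3 := pow_le_pow_left₀ (Nat.cast_nonneg _) h5 3
    linarith [h6, (by ring : (8 * (K : ℝ)) ^ 3 = 512 * (K * (K * K)))]
  · rintro ⟨k, s, t⟩ ⟨k', s', t'⟩ h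
    simp only [Prod.mk.injEq] at h
    obtain ⟨-, b1, b2, b3⟩ := h
    refine Prod.ext ?_ (Prod.ext ?_ ?_) <;> simp only <;> omega

theorem quad_density (E : ℕ → ℕ → Prop)
    (hE : ∀ ε : ℝ, 0 < ε → ∃ X₀ : ℕ, ∀ X : ℕ, X₀ ≤ X →
      (({p : ℕ × ℕ | 0 < p.1 ∧ p.1 < p.2 ∧ p.2 ≤ X ∧ E p.1 p.2}.ncard : ℕ) : ℝ) ≤ ε * (X : ℝ) ^ 2)
    (Bad : ℕ × ℕ × ℕ × ℕ → Prop)
    (hBad : ∀ a b s t : ℕ, Bad (a, b, a * s, a * t) → 2 ≤ a → a < b → Nat.gcd a b = 1 → 0 < s →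
      s < t → E s t) :
    ∀ ε : ℝ, 0 < ε → ∃ X₀ : ℕ, ∀ X : ℕ, X₀ ≤ X →
      (({v | v ∈ QBox X ∧ Bad v}.ncard : ℕ) : ℝ) ≤ ε * ((QBox X).ncard : ℝ) := by
  classical
  intro ε hε
  obtain ⟨X₁, hX₁⟩ := hE (ε / 1024) (by positivity)
  obtain ⟨Z, hZ⟩ := exists_nat_ge (1024 * (X₁ : ℝ) ^ 2 / ε)
  refine ⟨max 4 Z, fun X hX => ?_⟩
  have hX4 : 4 ≤ X := (le_max_left _ _).trans hX
  have hXZ : Z ≤ X := (le_max_right _ _).trans hX
  have hX0 : (0 : ℝ) < X := by exact_mod_cast (by omega : 0 < X)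
  -- the finite sets of exceptional pairs
  set F : ℕ → Finset (ℕ × ℕ) := fun Y =>
    ((range (Y + 1)) ×ˢ (range (Y + 1))).filter (fun p => 0 < p.1 ∧ p.1 < p.2 ∧ E p.1 p.2) with hF
  have hFeq : ∀ Y, ((F Y : Finset (ℕ × ℕ)) : Set (ℕ × ℕ)) =
      {p : ℕ × ℕ | 0 < p.1 ∧ p.1 < p.2 ∧ p.2 ≤ Y ∧ E p.1 p.2} := by
    intro Y
    ext p
    simp only [hF, coe_filter, mem_product, mem_range, Set.mem_ofPred_eq]
    constructor
    · rintro ⟨⟨h1, h2⟩, h3, h4, h5⟩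
      exact ⟨h3, h4, by omega, h5⟩
    · rintro ⟨h1, h2, h3, h4⟩
      exact ⟨⟨by omega, by omega⟩, h1, h2, h4⟩
  have hFcard : ∀ Y, ((F Y).card : ℝ) ≤ ε / 1024 * (Y : ℝ) ^ 2 + (X₁ : ℝ) ^ 2 := by
    intro Y
    rcases Nat.lt_or_ge Y X₁ with h | h
    · have h1 : (F Y).card ≤ X₁ ^ 2 := by
        calc (F Y).card ≤ ((range X₁) ×ˢ (range X₁)).card := by
              refine card_le_card ?_
              intro p hp
              simp only [hF, mem_filter, mem_product, mem_range] at hp ⊢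
              omega
          _ = X₁ ^ 2 := by rw [card_product, card_range, sq]
      have h2 : ((F Y).card : ℝ) ≤ (X₁ : ℝ) ^ 2 := by exact_mod_cast h1
      have h3 : 0 ≤ ε / 1024 * (Y : ℝ) ^ 2 := by positivity
      linarith
    · have h1 := hX₁ Y h
      rw [← hFeq, Set.ncard_coe_finset] at h1
      have h3 : 0 ≤ (X₁ : ℝ) ^ 2 := by positivity
      linarith
  -- upper bound
  have hsub : {v | v ∈ QBox X ∧ Bad v} ⊆ (((Icc 2 X).biUnion fun a =>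
      ((Icc 1 X) ×ˢ (F (X / a))).image fun w => (a, w.1, a * w.2.1, a * w.2.2) :
        Finset (ℕ × ℕ × ℕ × ℕ)) : Set (ℕ × ℕ × ℕ × ℕ)) := by
    rintro ⟨a, b, m, n⟩ ⟨⟨h1, h2, h3, h4, h5, h6, h7, h8, h9⟩, hb⟩
    simp only at h1 h2 h3 h4 h5 h6 h7 h8 h9
    obtain ⟨s, rfl⟩ := h6
    obtain ⟨t, rfl⟩ := h7
    have ha : 0 < a := by omega
    have hs : 0 < s := Nat.pos_of_mul_pos_left h4
    have hst : s < t := Nat.lt_of_mul_lt_mul_left h5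
    have htX : t ≤ X / a := by
      rw [Nat.le_div_iff_mul_le ha, mul_comm]; exact h9
    rw [mem_coe]
    simp only [mem_biUnion, mem_image, mem_product, mem_Icc]
    refine ⟨a, ⟨h1, by omega⟩, (b, (s, t)), ⟨⟨by omega, h8⟩, ?_⟩, rfl⟩
    simp only [hF, mem_filter, mem_product, mem_range]
    exact ⟨⟨by omega, by omega⟩, hs, hst, hBad a b s t hb h1 h2 h3 hs hst⟩
  have h1 := Set.ncard_le_ncard hsub (finite_toSet _)
  rw [Set.ncard_coe_finset] at h1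
  have h2 : ((((Icc 2 X).biUnion fun a =>
      ((Icc 1 X) ×ˢ (F (X / a))).image fun w => (a, w.1, a * w.2.1, a * w.2.2) :
        Finset (ℕ × ℕ × ℕ × ℕ)).card : ℕ) : ℝ) ≤ ε / 1024 * (X : ℝ) ^ 3 + (X₁ : ℝ) ^ 2 * X ^ 2 := by
    refine le_trans (Nat.cast_le.2 card_biUnion_le) ?_
    push_cast
    have h3 : ∀ a ∈ Icc 2 X, ((((Icc 1 X) ×ˢ (F (X / a))).image
        fun w : ℕ × ℕ × ℕ => (a, w.1, a * w.2.1, a * w.2.2)).card : ℝ) ≤
        ε / 1024 * (X : ℝ) ^ 3 * (1 / (a : ℝ) ^ 2) + (X₁ : ℝ) ^ 2 * X := by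
      intro a ha
      rw [mem_Icc] at ha
      have ha0 : (0 : ℝ) < a := by exact_mod_cast (by omega : 0 < a)
      have h4 : (((Icc 1 X) ×ˢ (F (X / a))).image
        fun w : ℕ × ℕ × ℕ => (a, w.1, a * w.2.1, a * w.2.2)).card ≤ X * (F (X / a)).card := by
        refine card_image_le.trans ?_
        rw [card_product, Nat.card_Icc, Nat.add_sub_cancel]
      have h5 : ((X / a : ℕ) : ℝ) ≤ (X : ℝ) / a := Nat.cast_div_le
      have h6 : ((X / a : ℕ) : ℝ) ^ 2 ≤ ((X : ℝ) / a) ^ 2 :=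
        pow_le_pow_left₀ (Nat.cast_nonneg _) h5 2
      calc _ ≤ ((X * (F (X / a)).card : ℕ) : ℝ) := by exact_mod_cast h4
        _ = (X : ℝ) * ((F (X / a)).card : ℝ) := by push_cast; ring
        _ ≤ (X : ℝ) * (ε / 1024 * ((X : ℝ) / a) ^ 2 + (X₁ : ℝ) ^ 2) := by
            refine mul_le_mul_of_nonneg_left ((hFcard _).trans ?_) hX0.le
            have : ε / 1024 * ((X / a : ℕ) : ℝ) ^ 2 ≤ ε / 1024 * ((X : ℝ) / a) ^ 2 :=
              mul_le_mul_of_nonneg_left h6 (by positivity)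
            linarith
        _ = _ := by field_simp
    refine (sum_le_sum h3).trans ?_
    rw [sum_add_distrib, ← mul_sum, sum_const, Nat.card_Icc, nsmul_eq_mul]
    refine add_le_add ?_ ?_
    · have h7 := sum_inv_sq X
      have h8 : 0 ≤ ε / 1024 * (X : ℝ) ^ 3 := by positivity
      calc _ ≤ ε / 1024 * (X : ℝ) ^ 3 * 1 := mul_le_mul_of_nonneg_left h7 h8
        _ = _ := mul_one _
    · have h7 : ((X + 1 - 2 : ℕ) : ℝ) ≤ X := by exact_mod_cast (by omega : X + 1 - 2 ≤ X)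
      calc ((X + 1 - 2 : ℕ) : ℝ) * ((X₁ : ℝ) ^ 2 * X) ≤ (X : ℝ) * ((X₁ : ℝ) ^ 2 * X) :=
            mul_le_mul_of_nonneg_right h7 (by positivity)
        _ = _ := by ring
  have h3 : (({v | v ∈ QBox X ∧ Bad v}.ncard : ℕ) : ℝ) ≤
      ε / 1024 * (X : ℝ) ^ 3 + (X₁ : ℝ) ^ 2 * X ^ 2 := by
    refine le_trans ?_ h2
    exact_mod_cast h1
  have h4 : (X₁ : ℝ) ^ 2 * X ^ 2 ≤ ε / 1024 * (X : ℝ) ^ 3 := by
    have h5 : 1024 * (X₁ : ℝ) ^ 2 / ε ≤ X := hZ.trans (by exact_mod_cast hXZ)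
    rw [div_le_iff₀ hε] at h5
    have h6 : (X₁ : ℝ) ^ 2 ≤ ε / 1024 * X := by linarith
    calc (X₁ : ℝ) ^ 2 * X ^ 2 ≤ (ε / 1024 * X) * X ^ 2 :=
          mul_le_mul_of_nonneg_right h6 (by positivity)
      _ = _ := by ring
  have h5 := QBox_lower X hX4
  calc (({v | v ∈ QBox X ∧ Bad v}.ncard : ℕ) : ℝ) ≤ ε * ((X : ℝ) ^ 3 / 512) := by linarith
    _ ≤ ε * ((QBox X).ncard : ℝ) := mul_le_mul_of_nonneg_left h5 hε.le

end Pool.Agent.Lib.MP_2d59ee_ag
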