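import Mathlib
import Pool.Agent.Lib.MP_2d59ee_ag.Mid

set_option autoImplicit false

/-! For fixed `m/a`, `n/a` the pairs `(a, b)` lie on finitely many lines. -/

namespace Pool.Agent.Lib.MP_2d59ee_ag

theorem corner_lines {a b m' n' : ℕ} (ha : 2 ≤ a) (hlt : a < b)
    (h : 2 * a + b + a * m' ≤ a * n' + 1 ∧
      ∃ N e x d : ℕ, 0 < N ∧ a * N < a * n' ∧ 0 < e ∧ 0 < x ∧ a * x + a * m' < a * n' ∧ 0 < d ∧
          d * ((a + b) * N - 1) = e * x ∧
          ((e ∣ a ∧ e ∣ b * N - 1) ∨ (e ∣ b ∧ e ∣ a * N - 1))) :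
    ∃ N x w : ℕ, 0 < N ∧ N < n' ∧ 0 < w ∧ w ≤ x ∧ m' + x < n' ∧
      (w * N * (a + b) = x * a + w ∨ w * N * (a + b) = x * b + w) := by
  obtain ⟨-, N, e, x, d, hN, hNn, he, hx, hxn, hd, hrel, hdiv⟩ := h
  have ha0 : 0 < a := by omega
  have hNn' : N < n' := Nat.lt_of_mul_lt_mul_left hNn
  have hxn' : m' + x < n' := by
    have h1 : a * (m' + x) < a * n' := by rw [Nat.mul_add]; omega
    exact Nat.lt_of_mul_lt_mul_left h1
  obtain ⟨M, hM⟩ : ∃ M, (a + b) * N = M + 1 := by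
    have h1 : 1 * 1 ≤ (a + b) * N := Nat.mul_le_mul (by omega) hN
    exact ⟨(a + b) * N - 1, by omega⟩
  have hMb : b ≤ M := by
    have h1 : (a + b) * 1 ≤ (a + b) * N := Nat.mul_le_mul_left _ hN
    omega
  rw [hM, Nat.add_sub_cancel] at hrel
  have key : ∀ u r : ℕ, u = e * r → 0 < u → u ≤ M → ∃ w, 0 < w ∧ w ≤ x ∧
      w * N * (a + b) = x * u + w := by
    intro u r hu hu0 huM
    have hr : 0 < r := by
      rcases Nat.eq_zero_or_pos r with h0 | h0
      · rw [h0, mul_zero] at hu; omega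
      · exact h0
    have h1 : r * d * M = x * u := by
      calc r * d * M = r * (d * M) := by ring
        _ = r * (e * x) := by rw [hrel]
        _ = x * (e * r) := by ring
        _ = x * u := by rw [hu]
    refine ⟨r * d, Nat.mul_pos hr hd, ?_, ?_⟩
    · have h2 : r * d * u ≤ x * u := by
        rw [← h1]; exact Nat.mul_le_mul_left _ huM
      exact Nat.le_of_mul_le_mul_right h2 hu0
    · calc r * d * N * (a + b) = r * d * ((a + b) * N) := by ring
        _ = r * d * M + r * d := by rw [hM]; ring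
        _ = x * u + r * d := by rw [h1]
  rcases hdiv with ⟨⟨r, hr⟩, -⟩ | ⟨⟨r, hr⟩, -⟩
  · obtain ⟨w, h1, h2, h3⟩ := key a r hr ha0 (by omega)
    exact ⟨N, x, w, hN, hNn', h1, h2, hxn', Or.inl h3⟩
  · obtain ⟨w, h1, h2, h3⟩ := key b r hr (by omega) hMb
    exact ⟨N, x, w, hN, hNn', h1, h2, hxn', Or.inr h3⟩

end Pool.Agent.Lib.MP_2d59ee_ag
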