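import Mathlib
import Pool.Agent.Lib.MP_2d59ee_ag.R.R9

set_option autoImplicit false

/-! A power saving for the number of pairs of degrees. -/

namespace Pool.Agent.Lib.MP_2d59ee_ag

open Finset

/-- the pairs of degrees of the exceptional quadruples -/
def DegSet (E : ℕ → ℕ → ℕ → ℕ → Prop) (X : ℕ) : Set (ℕ × ℕ) :=
  {p | ∃ a b s t : ℕ, E a b s t ∧ p = (a * (s + t), b * (s + t)) ∧ b * (s + t) ≤ X}

/-- the points on the lines with parameters at most `Y` -/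
def lineSet (Y X : ℕ) : Finset (ℕ × ℕ) :=
  (Icc 1 Y).biUnion fun B => (Icc 1 B).biUnion fun x => (Icc 1 B).biUnion fun w =>
    (Icc 1 (B / w)).biUnion fun N =>
      ((Icc 1 (X / (B * w))).filter (fun c => N ∣ x * c + 1)).image
        (fun c => (w * c * B, ((x * c + 1) / N - w * c) * B))

theorem degSet_finite (E : ℕ → ℕ → ℕ → ℕ → Prop)
    (hE : ∀ a b s t, E a b s t → a < b) (X : ℕ) : (DegSet E X).Finite := by
  apply ((Set.finite_Iic X).prod (Set.finite_Iic X)).subset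
  rintro p ⟨a, b, s, t, h, rfl, hX⟩
  refine ⟨?_, hX⟩
  exact (Nat.mul_le_mul_right (s + t) (hE a b s t h).le).trans hX

theorem count_dvd (A N x : ℕ) (hN : 0 < N) :
    ((Icc 1 A).filter (fun c => N ∣ x * c + 1)).card ≤ A / N + 1 := by
  rw [← Finset.card_range (A / N + 1)]
  apply Finset.card_le_card_of_injOn (fun c => c / N)
  · intro c hc
    simp only [coe_filter, mem_Icc, Set.mem_setOf_eq] at hc
    simp only [coe_range, Set.mem_Iio]
    exact Nat.lt_succ_of_le (Nat.div_le_div_right hc.1.2)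
  · intro c hc d hd hcd
    simp only [coe_filter, mem_Icc, Set.mem_setOf_eq] at hc hd hcd
    obtain ⟨-, h1⟩ := hc
    obtain ⟨-, h2⟩ := hd
    have hcop : IsCoprime (N : ℤ) (x : ℤ) := by
      obtain ⟨k, hk⟩ := h1
      refine ⟨(k : ℤ), -(c : ℤ), ?_⟩
      have : (x : ℤ) * c + 1 = N * k := by exact_mod_cast hk
      linarith
    have h3 : (N : ℤ) ∣ (x : ℤ) * ((c : ℤ) - d) := by
      have e1 : (N : ℤ) ∣ (x : ℤ) * c + 1 := by exact_mod_cast Int.natCast_dvd_natCast.mpr h1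
      have e2 : (N : ℤ) ∣ (x : ℤ) * d + 1 := by exact_mod_cast Int.natCast_dvd_natCast.mpr h2
      have e3 : (x : ℤ) * ((c : ℤ) - d) = ((x : ℤ) * c + 1) - ((x : ℤ) * d + 1) := by ring
      rw [e3]
      exact dvd_sub e1 e2
    have h4 : (N : ℤ) ∣ (c : ℤ) - d := hcop.dvd_of_dvd_mul_left h3
    have h6 : (d : ℤ) ≡ (c : ℤ) [ZMOD (N : ℤ)] := (Int.modEq_iff_dvd).mpr h4
    have h5 : c % N = d % N := by
      have h7 : (c : ℤ) % N = (d : ℤ) % N := h6.symm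
      exact_mod_cast h7
    rw [← Nat.div_add_mod c N, ← Nat.div_add_mod d N, h5, hcd]

theorem line_param {c d B N x w : ℕ} (hc : 0 < c) (hd : 0 < d) (hN : 0 < N) (hw : 0 < w)
    (hx : x < B) (h : w * N * (c + d) = x * c + w) :
    ∃ x₁ w₁ c₁ : ℕ, 0 < x₁ ∧ x₁ < B ∧ 0 < w₁ ∧ w₁ * N ≤ x₁ ∧ 0 < c₁ ∧ c = w₁ * c₁ ∧
      N * (c + d) = x₁ * c₁ + 1 := by
  obtain ⟨g, w₁, x₁, hg, hcop, hw1, hx1⟩ : ∃ g w₁ x₁ : ℕ, 0 < g ∧ Nat.Coprime w₁ x₁ ∧
      w = g * w₁ ∧ x = g * x₁ := by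
    refine ⟨Nat.gcd w x, w / Nat.gcd w x, x / Nat.gcd w x, Nat.gcd_pos_of_pos_left _ hw,
      Nat.coprime_div_gcd_div_gcd (Nat.gcd_pos_of_pos_left _ hw),
      (Nat.mul_div_cancel' (Nat.gcd_dvd_left w x)).symm,
      (Nat.mul_div_cancel' (Nat.gcd_dvd_right w x)).symm⟩
  subst hw1 hx1
  have hw₁ : 0 < w₁ := Nat.pos_of_mul_pos_left hw
  have h1 : w₁ * (N * (c + d)) = x₁ * c + w₁ := by
    apply Nat.eq_of_mul_eq_mul_left hg
    calc g * (w₁ * (N * (c + d))) = g * w₁ * N * (c + d) := by ring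
      _ = g * x₁ * c + g * w₁ := h
      _ = g * (x₁ * c + w₁) := by ring
  have h2 : w₁ ∣ x₁ * c := by
    have : w₁ ∣ x₁ * c + w₁ := ⟨_, h1.symm⟩
    exact (Nat.dvd_add_left (dvd_refl w₁)).mp this
  obtain ⟨c₁, rfl⟩ : w₁ ∣ c := hcop.dvd_of_dvd_mul_left h2
  have hc₁ : 0 < c₁ := Nat.pos_of_mul_pos_left hc
  have h3 : N * (w₁ * c₁ + d) = x₁ * c₁ + 1 := by
    apply Nat.eq_of_mul_eq_mul_left hw₁
    rw [h1]; ring
  have hNd : 0 < N * d := Nat.mul_pos hN hd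
  have h4 : w₁ * N ≤ x₁ := by
    by_contra hlt
    push Not at hlt
    have : (x₁ + 1) * c₁ ≤ w₁ * N * c₁ := Nat.mul_le_mul_right _ hlt
    nlinarith
  have hx₁ : 0 < x₁ := lt_of_lt_of_le (Nat.mul_pos hw₁ hN) h4
  refine ⟨x₁, w₁, c₁, hx₁, ?_, hw₁, h4, hc₁, rfl, h3⟩
  exact lt_of_le_of_lt (Nat.le_mul_of_pos_left _ hg) hx

theorem mem_lineSet {c d B N x w Y X : ℕ} (hc : 0 < c) (hd : 0 < d) (hN : 0 < N) (hw : 0 < w)
    (hx : x < B) (hBY : B ≤ Y) (hcX : c * B ≤ X) (h : w * N * (c + d) = x * c + w) :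
    (c * B, d * B) ∈ lineSet Y X := by
  obtain ⟨x₁, w₁, c₁, h1, h2, h3, h4, h5, rfl, h6⟩ := line_param hc hd hN hw hx h
  have hB : 0 < B := by omega
  have hw₁B : w₁ ≤ B := by
    have : w₁ * 1 ≤ w₁ * N := Nat.mul_le_mul_left _ hN
    omega
  simp only [lineSet, mem_biUnion, mem_Icc, mem_image, mem_filter]
  refine ⟨B, ⟨hB, hBY⟩, x₁, ⟨h1, h2.le⟩, w₁, ⟨h3, hw₁B⟩, N, ⟨hN, ?_⟩, c₁, ⟨⟨h5, ?_⟩, ?_⟩, ?_⟩
  · rw [Nat.le_div_iff_mul_le h3]
    calc N * w₁ = w₁ * N := mul_comm _ _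
      _ ≤ B := h4.trans h2.le
  · rw [Nat.le_div_iff_mul_le (Nat.mul_pos hB h3)]
    calc c₁ * (B * w₁) = w₁ * c₁ * B := by ring
      _ ≤ X := hcX
  · exact ⟨_, h6.symm⟩
  · have h7 : (x₁ * c₁ + 1) / N = w₁ * c₁ + d := by
      rw [← h6]; exact Nat.mul_div_cancel_left _ hN
    rw [h7, Nat.add_sub_cancel_left]

theorem degSet_sub (E : ℕ → ℕ → ℕ → ℕ → Prop)
    (hE : ∀ a b s t, E a b s t → 2 ≤ a ∧ a < b ∧ Nat.gcd a b = 1 ∧ 0 < s ∧ s < t ∧
      ∃ N x w : ℕ, 0 < N ∧ N < t ∧ 0 < w ∧ w ≤ x ∧ s + x < t ∧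
        (w * N * (a + b) = x * a + w ∨ w * N * (a + b) = x * b + w)) (Y X : ℕ) :
    DegSet E X ⊆
      ({p : ℕ × ℕ | 0 < p.1 ∧ p.1 < p.2 ∧ p.2 ≤ X ∧ Y < Nat.gcd p.1 p.2} ∪
        ((lineSet Y X : Finset (ℕ × ℕ)) : Set (ℕ × ℕ))) ∪
        (((lineSet Y X).image Prod.swap : Finset (ℕ × ℕ)) : Set (ℕ × ℕ)) := by
  rintro p ⟨a, b, s, t, h, rfl, hX⟩
  obtain ⟨ha, hab, hg, hs, hst, N, x, w, hN, hNt, hw, hwx, hsx, hor⟩ := hE a b s t h
  have hst0 : 0 < s + t := by omega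
  have hgcd : Nat.gcd (a * (s + t)) (b * (s + t)) = s + t := by
    rw [Nat.gcd_mul_right, hg, one_mul]
  have hlt : a * (s + t) < b * (s + t) := Nat.mul_lt_mul_of_pos_right hab hst0
  have h0 : 0 < a * (s + t) := Nat.mul_pos (by omega) hst0
  rcases Nat.lt_or_ge Y (s + t) with hY | hY
  · left; left
    exact ⟨h0, hlt, hX, by simp only; rw [hgcd]; exact hY⟩
  · rcases hor with h1 | h1
    · left; right
      exact mem_lineSet (by omega) (by omega) hN hw (by omega) hY (hlt.le.trans hX) h1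
    · right
      rw [Finset.mem_coe, Finset.mem_image]
      refine ⟨(b * (s + t), a * (s + t)), ?_, rfl⟩
      exact mem_lineSet (x := x) (by omega) (by omega) hN hw (by omega) hY hX
        (by rw [add_comm b a]; exact h1)

theorem sum_inv_le (n Y : ℕ) (h : n ≤ Y) :
    ∑ i ∈ Icc 1 n, ((i : ℝ))⁻¹ ≤ 1 + Real.log Y := by
  have h1 : ∑ i ∈ Icc 1 n, ((i : ℝ))⁻¹ ≤ ∑ i ∈ Icc 1 Y, ((i : ℝ))⁻¹ := by
    apply Finset.sum_le_sum_of_subset_of_nonneg
    · exact Finset.Icc_subset_Icc_right h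
    · intro i _ _
      positivity
  have h2 := harmonic_le_one_add_log Y
  rw [harmonic_eq_sum_Icc] at h2
  push_cast at h2
  exact h1.trans h2

theorem lineSet_card (Y X : ℕ) (hY : 0 < Y) :
    ((lineSet Y X).card : ℝ) ≤ Y * (X * (1 + Real.log Y) ^ 2 + Y ^ 2 * (1 + Real.log Y)) := by
  set L : ℝ := 1 + Real.log Y with hL
  have hYR : (1 : ℝ) ≤ Y := by exact_mod_cast hY
  have hL1 : 1 ≤ L := by
    have := Real.log_nonneg hYR
    linarith
  have h1 : (lineSet Y X).card ≤ ∑ B ∈ Icc 1 Y, ∑ _x ∈ Icc 1 B, ∑ w ∈ Icc 1 B,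
      ∑ N ∈ Icc 1 (B / w), (X / (B * w) / N + 1) := by
    unfold lineSet
    refine Finset.card_biUnion_le.trans (Finset.sum_le_sum fun B hB => ?_)
    refine Finset.card_biUnion_le.trans (Finset.sum_le_sum fun x hx => ?_)
    refine Finset.card_biUnion_le.trans (Finset.sum_le_sum fun w hw => ?_)
    refine Finset.card_biUnion_le.trans (Finset.sum_le_sum fun N hN => ?_)
    refine Finset.card_image_le.trans ?_
    exact count_dvd _ N x (Finset.mem_Icc.mp hN).1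
  have h2 : ((lineSet Y X).card : ℝ) ≤ ∑ B ∈ Icc 1 Y, ∑ _x ∈ Icc 1 B, ∑ w ∈ Icc 1 B,
      ∑ N ∈ Icc 1 (B / w), (((X / (B * w) / N : ℕ) : ℝ) + 1) := by
    exact_mod_cast h1
  refine h2.trans ?_
  have hB : ∀ B ∈ Icc 1 Y, ∑ _x ∈ Icc 1 B, ∑ w ∈ Icc 1 B,
      ∑ N ∈ Icc 1 (B / w), (((X / (B * w) / N : ℕ) : ℝ) + 1) ≤ X * L ^ 2 + Y ^ 2 * L := by
    intro B hB
    obtain ⟨hB1, hBY⟩ := Finset.mem_Icc.mp hB
    have hB0 : (0 : ℝ) < B := by exact_mod_cast hB1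
    have hBR : (B : ℝ) ≤ Y := by exact_mod_cast hBY
    rw [Finset.sum_const, Nat.card_Icc, Nat.add_sub_cancel, nsmul_eq_mul]
    have hw : ∀ w ∈ Icc 1 B, ∑ N ∈ Icc 1 (B / w), (((X / (B * w) / N : ℕ) : ℝ) + 1) ≤
        (X / B * L + B) * (w : ℝ)⁻¹ := by
      intro w hw
      obtain ⟨hw1, hwB⟩ := Finset.mem_Icc.mp hw
      have hw0 : (0 : ℝ) < w := by exact_mod_cast hw1
      rw [Finset.sum_add_distrib, Finset.sum_const, Nat.card_Icc, Nat.add_sub_cancel, nsmul_eq_mul,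
        mul_one]
      have e1 : ∑ N ∈ Icc 1 (B / w), ((X / (B * w) / N : ℕ) : ℝ) ≤
          ∑ N ∈ Icc 1 (B / w), (X / B * (w : ℝ)⁻¹) * (N : ℝ)⁻¹ := by
        apply Finset.sum_le_sum
        intro N hN
        obtain ⟨hN1, -⟩ := Finset.mem_Icc.mp hN
        have hN0 : (0 : ℝ) < N := by exact_mod_cast hN1
        calc ((X / (B * w) / N : ℕ) : ℝ) ≤ ((X / (B * w) : ℕ) : ℝ) / N := Nat.cast_div_le
          _ ≤ ((X : ℝ) / ((B * w : ℕ) : ℝ)) / N := by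
              apply div_le_div_of_nonneg_right Nat.cast_div_le hN0.le
          _ = (X / B * (w : ℝ)⁻¹) * (N : ℝ)⁻¹ := by
              push_cast
              field_simp
      have e2 : ∑ N ∈ Icc 1 (B / w), (X / B * (w : ℝ)⁻¹) * (N : ℝ)⁻¹ ≤ (X / B * (w : ℝ)⁻¹) * L := by
        rw [← Finset.mul_sum]
        apply mul_le_mul_of_nonneg_left
        · exact sum_inv_le _ _ ((Nat.div_le_self _ _).trans hBY)
        · positivity
      have e3 : ((B / w : ℕ) : ℝ) ≤ B * (w : ℝ)⁻¹ := by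
        rw [← div_eq_mul_inv]; exact Nat.cast_div_le
      calc _ ≤ (X / B * (w : ℝ)⁻¹) * L + B * (w : ℝ)⁻¹ := add_le_add (e1.trans e2) e3
        _ = _ := by ring
    have e4 : ∑ w ∈ Icc 1 B, ∑ N ∈ Icc 1 (B / w), (((X / (B * w) / N : ℕ) : ℝ) + 1) ≤
        (X / B * L + B) * L := by
      refine (Finset.sum_le_sum hw).trans ?_
      rw [← Finset.mul_sum]
      apply mul_le_mul_of_nonneg_left (sum_inv_le _ _ hBY)
      positivity
    calc (B : ℝ) * _ ≤ B * ((X / B * L + B) * L) := mul_le_mul_of_nonneg_left e4 hB0.le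
      _ = X * L ^ 2 + B ^ 2 * L := by field_simp
      _ ≤ X * L ^ 2 + Y ^ 2 * L := by
          have : (B : ℝ) ^ 2 ≤ (Y : ℝ) ^ 2 := by
            apply pow_le_pow_left₀ hB0.le hBR
          have := mul_le_mul_of_nonneg_right this (by linarith : (0 : ℝ) ≤ L)
          linarith
  refine (Finset.sum_le_sum hB).trans ?_
  rw [Finset.sum_const, Nat.card_Icc, Nat.add_sub_cancel, nsmul_eq_mul]

theorem degree_count (E : ℕ → ℕ → ℕ → ℕ → Prop)
    (hE : ∀ a b s t, E a b s t → 2 ≤ a ∧ a < b ∧ Nat.gcd a b = 1 ∧ 0 < s ∧ s < t ∧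
      ∃ N x w : ℕ, 0 < N ∧ N < t ∧ 0 < w ∧ w ≤ x ∧ s + x < t ∧
        (w * N * (a + b) = x * a + w ∨ w * N * (a + b) = x * b + w)) :
    ∃ C : ℝ, ∀ X : ℕ, 1 ≤ X →
      (((DegSet E X).ncard : ℕ) : ℝ) ≤ C * (X : ℝ) ^ (3 / 2 : ℝ) * (1 + Real.log X) ^ 2 := by
  refine ⟨49, fun X hX => ?_⟩
  have hXR : (1 : ℝ) ≤ X := by exact_mod_cast hX
  set Y : ℕ := Nat.sqrt X + 1 with hYdef
  have hY1 : 0 < Y := by omega
  set S : ℝ := Real.sqrt X with hS
  have hS1 : 1 ≤ S := by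
    rw [hS]; exact Real.one_le_sqrt.mpr hXR
  have hSS : S * S = X := Real.mul_self_sqrt (by linarith)
  have hX32 : (X : ℝ) ^ (3 / 2 : ℝ) = X * S := by
    rw [show (3 / 2 : ℝ) = 1 + 1 / 2 by norm_num, Real.rpow_add (by linarith), Real.rpow_one,
      hS, Real.sqrt_eq_rpow]
  have hYS : S ≤ Y := by
    rw [hS, hYdef]
    have := Nat.lt_succ_sqrt X
    rw [Real.sqrt_le_left (by positivity)]
    have h2 : X ≤ (Nat.sqrt X + 1) * (Nat.sqrt X + 1) := this.le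
    have h3 : (X : ℝ) ≤ ((Nat.sqrt X + 1 : ℕ) : ℝ) * ((Nat.sqrt X + 1 : ℕ) : ℝ) := by
      exact_mod_cast h2
    rw [sq]; exact h3
  have hYS2 : (Y : ℝ) ≤ 2 * S := by
    have h1 : ((Nat.sqrt X : ℕ) : ℝ) ≤ S := by
      rw [hS]; exact Real.nat_sqrt_le_real_sqrt
    rw [hYdef]; push_cast; linarith
  have hYR : (1 : ℝ) ≤ Y := hS1.trans hYS
  have hlog : 1 + Real.log Y ≤ 2 * (1 + Real.log X) := by
    have hSX : S ≤ X := by nlinarith
    have h1 : Real.log Y ≤ Real.log (2 * X) :=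
      Real.log_le_log (by linarith) (hYS2.trans (by linarith))
    have h2 : Real.log (2 * X) = Real.log 2 + Real.log X :=
      Real.log_mul (by norm_num) (by linarith)
    have h3 : Real.log 2 ≤ 1 := by
      have := Real.log_two_lt_d9
      linarith
    have h4 := Real.log_nonneg hXR
    linarith
  set L : ℝ := 1 + Real.log X with hL
  have hL1 : 1 ≤ L := by
    have := Real.log_nonneg hXR
    linarith
  set K : ℝ := 1 + Real.log Y with hK
  have hK1 : 1 ≤ K := by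
    have := Real.log_nonneg hYR
    linarith
  set T : Set (ℕ × ℕ) := {p : ℕ × ℕ | 0 < p.1 ∧ p.1 < p.2 ∧ p.2 ≤ X ∧ Y < Nat.gcd p.1 p.2} with hT
  have hTf : T.Finite := by
    apply ((Set.finite_Iic X).prod (Set.finite_Iic X)).subset
    rintro ⟨u, v⟩ ⟨-, h1, h2, -⟩
    simp only at h1 h2
    exact ⟨by simp only [Set.mem_Iic]; omega, h2⟩
  have e1 := Set.ncard_le_ncard (degSet_sub E hE Y X)
    ((hTf.union (Finset.finite_toSet _)).union (Finset.finite_toSet _))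
  have e2 := Set.ncard_union_le
    (T ∪ ((lineSet Y X : Finset (ℕ × ℕ)) : Set (ℕ × ℕ)))
    (((lineSet Y X).image Prod.swap : Finset (ℕ × ℕ)) : Set (ℕ × ℕ))
  have e3 := Set.ncard_union_le T ((lineSet Y X : Finset (ℕ × ℕ)) : Set (ℕ × ℕ))
  rw [Set.ncard_coe_finset] at e2 e3
  have e5 : ((lineSet Y X).image Prod.swap).card ≤ (lineSet Y X).card := card_image_le
  have e6 : (DegSet E X).ncard ≤ T.ncard + 2 * (lineSet Y X).card := by
    refine e1.trans (e2.trans ?_)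
    refine (Nat.add_le_add e3 e5).trans (le_of_eq ?_)
    ring
  have e7 : (((DegSet E X).ncard : ℕ) : ℝ) ≤ (T.ncard : ℝ) + 2 * ((lineSet Y X).card : ℝ) := by
    exact_mod_cast e6
  have e8 : (T.ncard : ℝ) ≤ X * S := by
    refine (tail Y X hY1).trans ?_
    rw [div_le_iff₀ (by linarith)]
    calc (X : ℝ) ^ 2 = X * (S * S) := by rw [hSS]; ring
      _ ≤ X * (S * Y) := by
          apply mul_le_mul_of_nonneg_left _ (by linarith)
          apply mul_le_mul_of_nonneg_left hYS (by linarith)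
      _ = _ := by ring
  have e9 : ((lineSet Y X).card : ℝ) ≤ 24 * (X * S) * L ^ 2 := by
    refine (lineSet_card Y X hY1).trans ?_
    have hKL : K ^ 2 ≤ 4 * L ^ 2 := by nlinarith
    have hYY : (Y : ℝ) ^ 2 ≤ 4 * X := by nlinarith
    have f1 : (X : ℝ) * K ^ 2 ≤ X * (4 * L ^ 2) := mul_le_mul_of_nonneg_left hKL (by linarith)
    have f2 : (Y : ℝ) ^ 2 * K ≤ (4 * X) * (2 * L) := by
      apply mul_le_mul hYY hlog (by linarith) (by linarith)
    have f3 : (X : ℝ) * L ≤ X * L ^ 2 := by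
      apply mul_le_mul_of_nonneg_left _ (by linarith)
      nlinarith
    have f4 : (X : ℝ) * K ^ 2 + Y ^ 2 * K ≤ 12 * (X * L ^ 2) := by linarith
    calc (Y : ℝ) * (X * K ^ 2 + Y ^ 2 * K) ≤ (2 * S) * (12 * (X * L ^ 2)) := by
          apply mul_le_mul hYS2 f4 (by positivity) (by linarith)
      _ = _ := by ring
  rw [hX32]
  have f5 : (X : ℝ) * S ≤ X * S * L ^ 2 := by
    have : (1 : ℝ) ≤ L ^ 2 := by nlinarith
    have h0 : 0 ≤ (X : ℝ) * S := by positivity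
    nlinarith
  calc (((DegSet E X).ncard : ℕ) : ℝ) ≤ (T.ncard : ℝ) + 2 * ((lineSet Y X).card : ℝ) := e7
    _ ≤ X * S * L ^ 2 + 2 * (24 * (X * S) * L ^ 2) := by linarith
    _ = _ := by ring

end Pool.Agent.Lib.MP_2d59ee_ag
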