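import Mathlib
import Pool.Agent.Lib.MP_2d59ee_ag.R.R5

set_option autoImplicit false

/-! Upper bound for the slope of low states, with a potential function. -/

namespace Pool.Agent.Lib.MP_2d59ee_ag

/-- the potential of the upper bound, times 729 -/
def potB (k : ℕ) : ℕ := if k ≤ 1 then 729 else if k ≤ 3 then 2048 else if k = 4 then 2916 else 11664

theorem potB_le (k : ℕ) : potB k ≤ 11664 := by
  unfold potB; split_ifs <;> norm_num

theorem le_potB (k : ℕ) : 729 ≤ potB k := by
  unfold potB; split_ifs <;> norm_num

theorem potB_mono {k l : ℕ} (h : k ≤ l) : potB k ≤ potB l := by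
  unfold potB; split_ifs <;> omega

theorem pow_cancel {X Y s r B' D : ℕ} (hs : 0 < s) (h : s * X ≤ r * Y) (hc : B' * r ^ 6 ≤ D * s ^ 6) :
    B' * X ^ 6 ≤ D * Y ^ 6 := by
  have h1 : s ^ 6 * (B' * X ^ 6) ≤ s ^ 6 * (D * Y ^ 6) := by
    calc s ^ 6 * (B' * X ^ 6) = B' * (s * X) ^ 6 := by ring
      _ ≤ B' * (r * Y) ^ 6 := Nat.mul_le_mul_left _ (Nat.pow_le_pow_left h 6)
      _ = (B' * r ^ 6) * Y ^ 6 := by ring
      _ ≤ (D * s ^ 6) * Y ^ 6 := Nat.mul_le_mul_right _ hc
      _ = s ^ 6 * (D * Y ^ 6) := by ring
  exact Nat.le_of_mul_le_mul_left h1 (pow_pos hs 6)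

theorem pow_six_seven {g : ℕ} (hg : 4 ≤ g) : (g + 1) ^ 6 ≤ g ^ 7 := by
  obtain ⟨t, rfl⟩ := Nat.exists_eq_add_of_le hg
  have : (4 + t) ^ 7 = (4 + t + 1) ^ 6 + (t ^ 7 + 27 * t ^ 6 + 306 * t ^ 5 + 1865 * t ^ 4 + 6460 * t ^ 3
      + 12129 * t ^ 2 + 9922 * t + 759) := by ring
  rw [this]
  exact Nat.le_add_right _ _

/-- the basic inequality: `X = (g + u) k - k'` -/
theorem pot_step {g u k k' X : ℕ} (hg : 2 ≤ g) (hu : 1 ≤ u) (hk : 1 ≤ k) (hk' : 1 ≤ k')
    (hdvd : k' ∣ g + u) (hX : X + k' = (g + u) * k) :
    potB k' * X ^ 6 ≤ potB k * g ^ 7 * (k * u) ^ 6 := by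
  rcases Nat.lt_or_ge k' k with hlt | hge
  · -- k' < k
    have hmono := potB_mono hlt.le
    rcases Nat.lt_or_ge g 4 with hg4 | hg4
    · rcases Nat.lt_or_ge 1 u with hu2 | hu1
      · have hg' : g = 2 ∨ g = 3 := by omega
        rcases hg' with rfl | rfl
        · have h1 : 1 * X ≤ 2 * (k * u) := by
            have : (2 + u) * k ≤ (2 * u) * k := Nat.mul_le_mul_right k (by omega)
            have e : (2 * u) * k = 2 * (k * u) := by ring
            omega
          refine pow_cancel one_pos h1 ?_
          omega
        · have h1 : 2 * X ≤ 5 * (k * u) := by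
            have : 2 * (3 + u) * k ≤ (5 * u) * k := Nat.mul_le_mul_right k (by omega)
            have e : (5 * u) * k = 5 * (k * u) := by ring
            have e2 : 2 * (3 + u) * k = 2 * ((3 + u) * k) := by ring
            omega
          refine pow_cancel two_pos h1 ?_
          omega
      · have hu1' : u = 1 := by omega
        subst hu1'
        rw [mul_one]
        have hg' : g = 2 ∨ g = 3 := by omega
        rcases hg' with rfl | rfl
        · have hk'c : k' = 1 ∨ k' = 3 := by
            have h3 : k' ≤ 3 := Nat.le_of_dvd (by norm_num) hdvd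
            interval_cases k'
            · exact Or.inl rfl
            · exact absurd hdvd (by decide)
            · exact Or.inr rfl
          rcases hk'c with rfl | rfl
          · have hkc : k = 2 ∨ k = 3 ∨ k = 4 ∨ 5 ≤ k := by omega
            rcases hkc with rfl | rfl | rfl | h5
            · have : X = 5 := by omega
              subst this
              simp [potB]
            · have : X = 8 := by omega
              subst this
              simp [potB]
            · have : X = 11 := by omega
              subst this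
              simp [potB]
            · have hB : potB k = 11664 := by unfold potB; split_ifs <;> omega
              have hB1 : potB 1 = 729 := rfl
              rw [hB, hB1]
              exact pow_cancel one_pos (r := 3) (by omega) (by norm_num)
          · have hkc : k = 4 ∨ 5 ≤ k := by omega
            rcases hkc with rfl | h5
            · have : X = 9 := by omega
              subst this
              simp [potB]
            · have hB : potB k = 11664 := by unfold potB; split_ifs <;> omega
              have hB1 : potB 3 = 2048 := rfl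
              rw [hB, hB1]
              exact pow_cancel one_pos (r := 3) (by omega) (by norm_num)
        · have hk'c : k' = 1 ∨ k' = 2 ∨ k' = 4 := by
            have h3 : k' ≤ 4 := Nat.le_of_dvd (by norm_num) hdvd
            interval_cases k'
            · exact Or.inl rfl
            · exact Or.inr (Or.inl rfl)
            · exact absurd hdvd (by decide)
            · exact Or.inr (Or.inr rfl)
          rcases hk'c with rfl | rfl | rfl
          · have hB : 2048 ≤ potB k := by unfold potB; split_ifs <;> omega
            have hB1 : potB 1 = 729 := rfl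
            rw [hB1]
            refine pow_cancel one_pos (r := 4) (by omega) ?_
            omega
          · have hkc : k = 3 ∨ k = 4 ∨ 5 ≤ k := by omega
            rcases hkc with rfl | rfl | h5
            · have : X = 10 := by omega
              subst this
              simp [potB]
            · have : X = 14 := by omega
              subst this
              simp [potB]
            · have hB : potB k = 11664 := by unfold potB; split_ifs <;> omega
              have hB1 : potB 2 = 2048 := rfl
              rw [hB, hB1]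
              exact pow_cancel one_pos (r := 4) (by omega) (by norm_num)
          · have hB : potB k = 11664 := by unfold potB; split_ifs <;> omega
            have hB1 : potB 4 = 2916 := rfl
            rw [hB, hB1]
            exact pow_cancel one_pos (r := 4) (by omega) (by norm_num)
    · have h1 : 1 * X ≤ (g + 1) * (k * u) := by
        have h2 : g + u ≤ (g + 1) * u := by nlinarith
        have h3 := Nat.mul_le_mul_right k h2
        have e : (g + 1) * u * k = (g + 1) * (k * u) := by ring
        omega
      refine pow_cancel one_pos h1 ?_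
      calc potB k' * (g + 1) ^ 6 ≤ potB k * g ^ 7 := Nat.mul_le_mul hmono (pow_six_seven hg4)
        _ = potB k * g ^ 7 * 1 ^ 6 := by ring
  · -- k ≤ k'
    have hX1 : 1 * X ≤ g * (k * u) := by
      obtain ⟨v, rfl⟩ := Nat.exists_eq_add_of_le hu
      obtain ⟨w, rfl⟩ := Nat.exists_eq_add_of_le hg
      nlinarith [Nat.zero_le (k * v * w), Nat.zero_le (k * v), Nat.zero_le (k * w)]
    have hmain : potB k' ≤ potB k * g → potB k' * X ^ 6 ≤ potB k * g ^ 7 * (k * u) ^ 6 := by
      intro h
      refine pow_cancel one_pos hX1 ?_
      calc potB k' * g ^ 6 ≤ potB k * g * g ^ 6 := Nat.mul_le_mul_right _ h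
        _ = potB k * g ^ 7 * 1 ^ 6 := by ring
    have hub := potB_le k'
    have hkc : k = 1 ∨ k = 2 ∨ k = 3 ∨ k = 4 ∨ 5 ≤ k := by omega
    rcases hkc with rfl | rfl | rfl | rfl | h5
    · -- k = 1
      have hB1 : potB 1 = 729 := rfl
      rw [hB1] at hmain ⊢
      rw [one_mul] at hmain hX1 ⊢
      rw [mul_one] at hX
      rcases Nat.lt_or_ge g 16 with hg16 | hg16
      · rcases Nat.lt_or_ge k' 5 with hk5 | hk5
        · rcases Nat.lt_or_ge g 4 with hg4 | hg4
          · have hg' : g = 2 ∨ g = 3 := by omega
            have hk'2 : potB k' ≤ 2916 := by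
              have := potB_mono (show k' ≤ 4 by omega)
              exact this
            rcases hg' with rfl | rfl
            · have hc : k' = 1 ∨ 2 ≤ k' := by omega
              rcases hc with rfl | hc
              · exact hmain (by rw [hB1]; norm_num)
              · refine pow_cancel one_pos (r := 1) (by omega) ?_
                omega
            · have hc : k' ≤ 3 ∨ k' = 4 := by omega
              rcases hc with hc | rfl
              · have := potB_mono hc
                have h3 : potB 3 = 2048 := rfl
                exact hmain (by omega)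
              · refine pow_cancel one_pos (r := 1) (by omega) ?_
                omega
          · have := potB_mono (show k' ≤ 4 by omega)
            have h4 : potB 4 = 2916 := rfl
            exact hmain (by omega)
        · rcases Nat.lt_or_ge g 4 with hg4 | hg4
          · refine pow_cancel one_pos (r := 1) (by omega) ?_
            have hg' : g = 2 ∨ g = 3 := by omega
            rcases hg' with rfl | rfl <;> omega
          · refine pow_cancel (s := 19) (by norm_num) (r := 15 * g) ?_ ?_
            · obtain ⟨v, rfl⟩ := Nat.exists_eq_add_of_le hu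
              obtain ⟨w, rfl⟩ := Nat.exists_eq_add_of_le hg4
              have hw : w ≤ 11 := by omega
              have : 19 * X + 95 ≤ 19 * (4 + w + (1 + v)) := by omega
              nlinarith [Nat.zero_le (v * w)]
            · have e : (15 * g) ^ 6 = 11390625 * g ^ 6 := by ring
              have e2 : 729 * g ^ 7 * 19 ^ 6 = 729 * 47045881 * g * g ^ 6 := by ring
              rw [e, e2, ← mul_assoc]
              apply Nat.mul_le_mul_right
              calc potB k' * 11390625 ≤ 11664 * 11390625 := Nat.mul_le_mul_right _ hub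
                _ ≤ 729 * 47045881 * g := by omega
      · exact hmain (by omega)
    · -- k = 2
      have hB2 : potB 2 = 2048 := rfl
      rw [hB2] at hmain ⊢
      rcases Nat.lt_or_ge g 6 with hg6 | hg6
      · rcases Nat.lt_or_ge k' 5 with hk5 | hk5
        · have := potB_mono (show k' ≤ 4 by omega)
          have h4 : potB 4 = 2916 := rfl
          exact hmain (by omega)
        · have hgc : g = 2 ∨ g = 3 ∨ g = 4 ∨ g = 5 := by omega
          rcases hgc with rfl | rfl | rfl | rfl
          · exact pow_cancel one_pos (r := 1) (by omega) (by omega)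
          · exact pow_cancel two_pos (r := 3) (by omega) (by omega)
          · exact pow_cancel two_pos (r := 5) (by omega) (by omega)
          · exact pow_cancel two_pos (r := 7) (by omega) (by omega)
      · exact hmain (by omega)
    · -- k = 3
      have hB3 : potB 3 = 2048 := rfl
      rw [hB3] at hmain ⊢
      rcases Nat.lt_or_ge g 6 with hg6 | hg6
      · rcases Nat.lt_or_ge k' 5 with hk5 | hk5
        · have := potB_mono (show k' ≤ 4 by omega)
          have h4 : potB 4 = 2916 := rfl
          exact hmain (by omega)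
        · have hgc : g = 2 ∨ g = 3 ∨ g = 4 ∨ g = 5 := by omega
          rcases hgc with rfl | rfl | rfl | rfl
          · exact pow_cancel (s := 3) (by norm_num) (r := 4) (by omega) (by omega)
          · exact pow_cancel (s := 3) (by norm_num) (r := 7) (by omega) (by omega)
          · exact pow_cancel (s := 3) (by norm_num) (r := 10) (by omega) (by omega)
          · exact pow_cancel (s := 3) (by norm_num) (r := 13) (by omega) (by omega)
      · exact hmain (by omega)
    · -- k = 4
      have hB4 : potB 4 = 2916 := rfl
      rw [hB4] at hmain ⊢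
      rcases Nat.lt_or_ge g 4 with hg4 | hg4
      · rcases Nat.lt_or_ge k' 5 with hk5 | hk5
        · have := potB_mono (show k' ≤ 4 by omega)
          have h4 : potB 4 = 2916 := rfl
          exact hmain (by omega)
        · have hgc : g = 2 ∨ g = 3 := by omega
          rcases hgc with rfl | rfl
          · exact pow_cancel (s := 4) (by norm_num) (r := 7) (by omega) (by omega)
          · exact pow_cancel (s := 4) (by norm_num) (r := 11) (by omega) (by omega)
      · exact hmain (by omega)
    · -- k ≥ 5
      have hB : potB k = 11664 := by unfold potB; split_ifs <;> omega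
      refine hmain ?_
      rw [hB]
      have : 11664 * 1 ≤ 11664 * g := Nat.mul_le_mul_left _ (by omega)
      omega

/-- upper bound for the low states: `x⁶ < 16 G⁷ m⁶` with `m = N - x`; more precisely with the
potential `potB (m / G)` -/
theorem low_upper6 (a b : ℕ) (ha : 2 ≤ a) (hlt : a < b) (hab : Nat.Coprime a b) :
    ∀ N : ℕ, ∀ (E : ℕ) (α : ℤ) (k : ℚ) (G : ℕ), GoodG a b N E α k G → (E : ℚ) - k ≤ 1 →
      ∀ x m t : ℕ, (x : ℤ) = E * N - α → N = x + m → G ∣ N → m = G * t →
        729 * x ^ 6 < potB t * G ^ 7 * m ^ 6 := by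
  intro N
  induction N using Nat.strong_induction_on with
  | _ N ih =>
  intro E α k G g hE1 x m t hxx hm hGN hmt
  obtain ⟨K, q, d, e, j, N₀, σ, G', hkK, hq2, he, heq, hd, heK, cop, heN, h1, h2, h3, h4, h5, h6,
    h7, h8, hj0, h9, h10, h11, h12, hcase⟩ := low_level a b ha hlt hab g hE1 x hxx
  have hσq : 2 * σ ≤ q * σ := Nat.mul_le_mul_right σ hq2
  have hG0 := g.hG
  obtain ⟨κ, p, h, hκ, hp, hh, hd', he', hcop, hG⟩ := frac hd he
  have hpG : p ∣ G := (hG G).1 h7
  have hpG' : ¬ p ∣ G' := fun h0 => h8 ((hG G').2 h0)
  obtain ⟨f, hf⟩ : ∃ f, q = e + f := ⟨q - e, by omega⟩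
  have hf0 : 0 < f := by omega
  -- f x + d = e m
  have hfxm : f * x + d = e * m := by
    have e1 : e * N = e * x + e * m := by rw [hm]; ring
    have e2 : q * x = e * x + f * x := by rw [hf]; ring
    omega
  have hm0 : 0 < m := by
    rcases Nat.eq_zero_or_pos m with h0 | h0
    · rw [h0, mul_zero] at hfxm; omega
    · exact h0
  have ht0 : 0 < t := by
    rcases Nat.eq_zero_or_pos t with h0 | h0
    · rw [h0, mul_zero] at hmt; omega
    · exact h0
  have hGpow : 0 < G ^ 6 := pow_pos hG0 6
  rcases hcase with ⟨hmin, -⟩ | ⟨hmaj, α₀, x', i1, g₀, hEK, i3, i4, i5⟩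
  · have hq := minor_q cop heN h10 hmin hκ hd' he'
    have hpG2 : p ≤ G := Nat.le_of_dvd hG0 hpG
    -- x < G m
    have hxGm : x < G * m := by
      have e1 : x ≤ f * x := Nat.le_mul_of_pos_left x hf0
      have e2 : e * m ≤ G * m := Nat.mul_le_mul_right m (by omega)
      omega
    have h6 : x ^ 6 < (G * m) ^ 6 := Nat.pow_lt_pow_left hxGm (by norm_num)
    calc 729 * x ^ 6 < 729 * (G * m) ^ 6 := by omega
      _ = 729 * 1 * (G ^ 6 * m ^ 6) := by ring
      _ ≤ potB t * G * (G ^ 6 * m ^ 6) :=
          Nat.mul_le_mul_right _ (Nat.mul_le_mul (le_potB t) hG0)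
      _ = potB t * G ^ 7 * m ^ 6 := by ring
  · have hlt₀ : N₀ < N := by omega
    -- m₀
    obtain ⟨m₀, hm₀⟩ : ∃ m₀, N₀ = x' + m₀ := by
      refine ⟨N₀ - x', ?_⟩
      have : x' ≤ N₀ := by
        by_contra hcon
        push Not at hcon
        have h1 : q * N₀ ≤ q * x' := Nat.mul_le_mul_left q hcon.le
        have h2 : e * N₀ ≤ q * N₀ := Nat.mul_le_mul_right N₀ heq.le
        omega
      omega
    have hG'm₀ : G' ∣ m₀ := by
      have : G' ∣ x' + m₀ := by rw [← hm₀]; exact h5
      exact (Nat.dvd_add_right i1).1 this
    obtain ⟨t₀, ht₀⟩ := hG'm₀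
    have hi := ih N₀ hlt₀ E α₀ K G' g₀ hEK x' m₀ t₀ i3 hm₀ h5 ht₀
    -- x = x' + e σ, m = m₀ + f σ
    have hx' : x = x' + e * σ := by
      have e1 : q * x + d = q * (x' + e * σ) + d := by
        rw [← heN, h10, Nat.mul_add, i4]; ring
      have e2 : q * x = q * (x' + e * σ) := by omega
      exact Nat.eq_of_mul_eq_mul_left (by omega) e2
    have hmm : m = m₀ + f * σ := by
      have e1 : x + m = x' + m₀ + (e + f) * σ := by rw [← hm, h10, hm₀, hf]
      have e2 : (e + f) * σ = e * σ + f * σ := by ring
      omega
    -- f x' + d = e m₀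
    have hfx : f * x' + d = e * m₀ := by
      have e1 : e * N₀ = e * x' + e * m₀ := by rw [hm₀]; ring
      have e2 : q * x' = e * x' + f * x' := by rw [hf]; ring
      omega
    -- z = h m₀ - p > 0
    obtain ⟨z, hz1, hz2⟩ : ∃ z, f * x' = κ * z ∧ h * m₀ = p + z := by
      have e1 : f * x' + κ * p = κ * (h * m₀) := by
        rw [← hd', hfx, he']; ring
      have e2 : p ≤ h * m₀ := by
        by_contra hcon
        push Not at hcon
        have := Nat.mul_le_mul_left κ hcon.le
        have h3 : 0 < f * x' := Nat.mul_pos hf0 (by omega)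
        omega
      refine ⟨h * m₀ - p, ?_, by omega⟩
      rw [Nat.mul_sub, ← e1]; omega
    have hz0 : 0 < z := by
      rcases Nat.eq_zero_or_pos z with h0 | h0
      · rw [h0, mul_zero] at hz1
        have h3 : 0 < f * x' := Nat.mul_pos hf0 (by omega)
        omega
      · exact h0
    -- G = p c, G = G' γ
    obtain ⟨c, hc⟩ := hpG
    have hc0 : 0 < c := by
      rcases Nat.eq_zero_or_pos c with h0 | h0
      · rw [h0, mul_zero] at hc; omega
      · exact h0
    obtain ⟨γ, hγ⟩ := h2
    have hG'0 : 0 < G' := h1
    have hγ2 : 2 ≤ γ := by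
      by_contra hcon
      push Not at hcon
      have : γ = 1 ∨ γ = 0 := by omega
      rcases this with h0 | h0
      · apply hpG'
        rw [h0, mul_one] at hγ
        rw [← hγ]; exact ⟨c, hc⟩
      · rw [h0, mul_zero] at hγ; omega
    -- c z = u G'
    have hcz : c * z + G = c * h * m₀ := by
      calc c * z + G = c * z + p * c := by rw [← hc]
        _ = c * (p + z) := by ring
        _ = c * h * m₀ := by rw [← hz2]; ring
    obtain ⟨u, hu⟩ : G' ∣ c * z := by
      have e1 : G' ∣ c * z + G := by rw [hcz, ht₀]; exact ⟨c * h * t₀, by ring⟩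
      exact (Nat.dvd_add_left ⟨γ, hγ⟩).1 e1
    have hu0 : 0 < u := by
      rcases Nat.eq_zero_or_pos u with h0 | h0
      · rw [h0, mul_zero] at hu
        have := Nat.mul_pos hc0 hz0
        omega
      · exact h0
    -- (c h) t₀ = γ + u
    have hH : c * h * t₀ = γ + u := by
      have e1 : G' * (c * h * t₀) = G' * (γ + u) := by
        calc G' * (c * h * t₀) = c * h * (G' * t₀) := by ring
          _ = c * h * m₀ := by rw [← ht₀]
          _ = c * z + G := hcz.symm
          _ = G' * u + G' * γ := by rw [hu, hγ]
          _ = G' * (γ + u) := by ring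
      exact Nat.eq_of_mul_eq_mul_left hG'0 e1
    have ht₀0 : 0 < t₀ := by
      rcases Nat.eq_zero_or_pos t₀ with h0 | h0
      · rw [h0, mul_zero] at hH; omega
      · exact h0
    -- z x + x' p = x' h m
    have hzx : z * x + x' * p = x' * (h * m) := by
      have e1 : z * (e * σ) = x' * (h * (f * σ)) := by
        calc z * (e * σ) = (κ * z) * (h * σ) := by rw [he']; ring
          _ = (f * x') * (h * σ) := by rw [hz1]
          _ = x' * (h * (f * σ)) := by ring
      calc z * x + x' * p = x' * (p + z) + z * (e * σ) := by rw [hx']; ring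
        _ = x' * (h * m₀) + x' * (h * (f * σ)) := by rw [e1, hz2]
        _ = x' * (h * m) := by rw [hmm]; ring
    -- u x + x' γ = x' (c h) γ t
    have hux : u * x + x' * γ = x' * (c * h * γ * t) := by
      have e1 : G' * (u * x + x' * γ) = G' * (x' * (c * h * γ * t)) := by
        calc G' * (u * x + x' * γ) = (c * z) * x + x' * G := by rw [hu, hγ]; ring
          _ = c * (z * x + x' * p) := by rw [hc]; ring
          _ = c * (x' * (h * m)) := by rw [hzx]
          _ = c * (x' * (h * (G' * γ * t))) := by rw [hmt, hγ]
          _ = G' * (x' * (c * h * γ * t)) := by ring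
      exact Nat.eq_of_mul_eq_mul_left hG'0 e1
    -- X = (γ + u) t - t₀
    obtain ⟨X, hX⟩ : ∃ X, X + t₀ = (γ + u) * t := by
      refine ⟨(γ + u) * t - t₀, ?_⟩
      have e1 : t₀ ≤ (γ + u) * t := by
        calc t₀ ≤ c * h * t₀ * t := by
              calc t₀ = 1 * t₀ * 1 := by ring
                _ ≤ (c * h) * t₀ * t :=
                  Nat.mul_le_mul (Nat.mul_le_mul_right _ (Nat.mul_pos hc0 hh)) ht0
          _ = _ := by rw [hH]
      omega
    have hkey : (u * t₀) * x = x' * γ * X := by
      have e1 : (u * t₀) * x + x' * γ * t₀ = x' * γ * X + x' * γ * t₀ := by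
        calc (u * t₀) * x + x' * γ * t₀ = t₀ * (u * x + x' * γ) := by ring
          _ = t₀ * (x' * (c * h * γ * t)) := by rw [hux]
          _ = x' * γ * ((c * h * t₀) * t) := by ring
          _ = x' * γ * (X + t₀) := by rw [hH, hX]
          _ = _ := by ring
      omega
    have hpot := pot_step hγ2 hu0 ht0 ht₀0 ⟨c * h, by rw [← hH]; ring⟩ hX
    -- conclusion
    have hut : 0 < (u * t₀) ^ 6 := pow_pos (Nat.mul_pos hu0 ht₀0) 6
    have hxpos : 0 < x := by rw [hx']; omega
    have hγX : 0 < (γ * X) ^ 6 := by
      apply pow_pos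
      rcases Nat.eq_zero_or_pos X with h0 | h0
      · exfalso
        rw [h0, mul_zero] at hkey
        have := Nat.mul_pos (Nat.mul_pos hu0 ht₀0) hxpos
        omega
      · exact Nat.mul_pos (by omega) h0
    have hfin : (u * t₀) ^ 6 * (729 * x ^ 6) < (u * t₀) ^ 6 * (potB t * G ^ 7 * m ^ 6) := by
      calc (u * t₀) ^ 6 * (729 * x ^ 6) = 729 * ((u * t₀) * x) ^ 6 := by ring
        _ = 729 * (x' * γ * X) ^ 6 := by rw [hkey]
        _ = (729 * x' ^ 6) * (γ * X) ^ 6 := by ring
        _ < (potB t₀ * G' ^ 7 * m₀ ^ 6) * (γ * X) ^ 6 := Nat.mul_lt_mul_of_pos_right hi hγX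
        _ = (G' ^ 13 * t₀ ^ 6 * γ ^ 6) * (potB t₀ * X ^ 6) := by rw [ht₀]; ring
        _ ≤ (G' ^ 13 * t₀ ^ 6 * γ ^ 6) * (potB t * γ ^ 7 * (t * u) ^ 6) :=
            Nat.mul_le_mul_left _ hpot
        _ = (u * t₀) ^ 6 * (potB t * (G' * γ) ^ 7 * ((G' * γ) * t) ^ 6) := by ring
        _ = (u * t₀) ^ 6 * (potB t * G ^ 7 * m ^ 6) := by rw [hmt, hγ]
    exact Nat.lt_of_mul_lt_mul_left hfin

end Pool.Agent.Lib.MP_2d59ee_ag
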