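import Mathlib
import Pool.Agent.Lib.MP_2d59ee_ag.R.R14

set_option autoImplicit false

/-! The start: upper bound for the slope. -/

namespace Pool.Agent.Lib.MP_2d59ee_ag

/-- consequence for the start, in terms of `m'` and `n'` -/
theorem start_upper (a b : ℕ) (ha : 2 ≤ a) (hlt : a < b) (hab : Nat.Coprime a b) {m' n' : ℕ}
    (h : ∃ (N₁ x₁ E G₁ : ℕ) (α : ℤ) (k : ℚ), N₁ ≤ n' ∧ GoodG a b N₁ E α k G₁ ∧
      (E : ℚ) - k ≤ 1 ∧ (x₁ : ℤ) = E * N₁ - α ∧ N₁ = m' + x₁ ∧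
      ((N₁ = n' ∧ G₁ = Nat.gcd m' n') ∨ (m' ∣ n' ∧ G₁ ∣ m' ∧ ¬ m' ∣ G₁))) :
    m' ∣ n' ∨ (n' - m') ^ 6 < 16 * Nat.gcd m' n' ^ 7 * m' ^ 6 := by
  obtain ⟨N₁, x₁, E, G₁, α, k, hN₁, g, hE1, hx, hN, hor⟩ := h
  rcases hor with ⟨hNn, hG⟩ | ⟨hdvd, hG1, hG2⟩
  · subst hNn
    have hx₁ : N₁ - m' = x₁ := by omega
    rw [hx₁]
    subst hG
    have hN' : N₁ = x₁ + m' := by omega
    right
    obtain ⟨t, ht⟩ := Nat.gcd_dvd_left m' N₁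
    have h1 := low_upper6 a b ha hlt hab N₁ E α k _ g hE1 x₁ m' t hx hN'
      (Nat.gcd_dvd_right m' N₁) ht
    have h2 : potB t * Nat.gcd m' N₁ ^ 7 * m' ^ 6 ≤ 11664 * Nat.gcd m' N₁ ^ 7 * m' ^ 6 :=
      Nat.mul_le_mul_right _ (Nat.mul_le_mul_right _ (potB_le t))
    have h3 : 11664 * Nat.gcd m' N₁ ^ 7 * m' ^ 6 = 729 * (16 * Nat.gcd m' N₁ ^ 7 * m' ^ 6) := by
      ring
    omega
  · exact Or.inl hdvd

end Pool.Agent.Lib.MP_2d59ee_ag
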