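import Mathlib
import Pool.Agent.Lib.MP_2d59ee_ag.R.R5

set_option autoImplicit false

/-! The case of a prime `m/a`, and the consequences for the start. -/

namespace Pool.Agent.Lib.MP_2d59ee_ag

/-- a state with trivial ambient divisor has `N < x` -/
theorem unit_state (a b : ℕ) (ha : 2 ≤ a) (hlt : a < b) (hab : Nat.Coprime a b) (N : ℕ) :
    ∀ (E : ℕ) (α : ℤ) (k : ℚ), GoodG a b N E α k 1 → ∀ x : ℕ, (x : ℤ) = E * N - α → N < x := by
  intro E
  induction E using Nat.strong_induction_on with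
  | _ E ih =>
  intro α k g x hxx
  obtain ⟨K, q, d, e, hkK, hq, he, hd, heK, hdK, cop, heN, hcase⟩ :=
    general_levelG a b ha hlt hab g x hxx
  have hN0 : 0 < N := g.hN
  rcases hcase with ⟨hfin, hqb⟩ | ⟨G', h1, -, -, -, hq1, g'⟩ |
    ⟨j, N₀, σ, G', -, h2, -, -, -, -, h7, h8, -⟩
  · by_contra hcon
    push Not at hcon
    have hdZ : (1 : ℤ) ≤ d := by exact_mod_cast hd
    have hNZ : (1 : ℤ) ≤ N := by exact_mod_cast hN0
    have haZ : (2 : ℤ) ≤ a := by exact_mod_cast ha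
    have hbZ : (a : ℤ) + 1 ≤ b := by exact_mod_cast hlt
    have hqbZ : (q : ℤ) ≤ b := by exact_mod_cast hqb
    have hxNZ : (x : ℤ) ≤ N := by exact_mod_cast hcon
    have h1 : ((a : ℤ) + b) * N - 1 ≤ q * x := by
      rw [← hfin]
      have h2 : (0 : ℤ) ≤ ((a : ℤ) + b) * N - 1 := by
        have h9 : (1 : ℤ) * 1 ≤ ((a : ℤ) + b) * N :=
          mul_le_mul (by linarith) hNZ zero_le_one (by linarith)
        linarith
      exact le_mul_of_one_le_left h2 hdZ
    have h2 : (q : ℤ) * x ≤ b * N := by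
      have h3 : (q : ℤ) * x ≤ b * x := mul_le_mul_of_nonneg_right hqbZ (Int.natCast_nonneg x)
      have h4 : (b : ℤ) * x ≤ b * N := mul_le_mul_of_nonneg_left hxNZ (by linarith)
      linarith
    have h9 : (2 : ℤ) * 1 ≤ a * N := mul_le_mul haZ hNZ zero_le_one (by linarith)
    linarith
  · have hG' : G' = 1 := Nat.dvd_one.1 h1
    subst hG'
    subst hq1
    have heE : e < E := by
      have h2 : (e : ℚ) < E := by
        rw [heK]
        have := g.hk
        push_cast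
        linarith
      exact_mod_cast h2
    refine ih e heE d 0 g' x ?_
    have h3 : ((e * N : ℕ) : ℤ) = ((1 * x + d : ℕ) : ℤ) := by rw [heN]
    push_cast at h3
    linarith
  · exfalso
    have hG' : G' = 1 := Nat.dvd_one.1 h2
    apply h8
    rw [hG']; exact h7

/-- the first level of a low state with prime ambient divisor `p` and `N = κ p = p + x` -/
theorem prime_level (a b : ℕ) (ha : 2 ≤ a) (hlt : a < b) (hab : Nat.Coprime a b)
    {N E p : ℕ} {α : ℤ} {k : ℚ} (hp : p.Prime) (g : GoodG a b N E α k p)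
    (hE1 : (E : ℚ) - k ≤ 1) (x κ : ℕ) (hx : (x : ℤ) = E * N - α) (hN : N = κ * p)
    (hx' : N = p + x) :
    ∃ κ' j f h e q N₀ σ N₁ x₁ : ℕ, 0 < κ' ∧ 0 < j ∧ 0 < f ∧ h = 1 + j * f ∧ e = κ' * h ∧
      q = e + f ∧ κ = κ' * j + 1 ∧ q ≤ p ∧ N = N₀ + q * σ ∧ e * N₀ < κ' * p ∧ N₁ ≤ σ ∧
      e * N₁ = κ' * p + x₁ ∧ N₁ < x₁ := by
  obtain ⟨K, q, d, e, j, N₀, σ, G', hkK, hq2, he, heq, hd, heK, cop, heN, h1, h2, h3, h4, h5, h6,
    h7, h8, hj0, h9, h10, h11, h12, hcase⟩ := low_level a b ha hlt hab g hE1 x hx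
  obtain ⟨κ', p', h, hκ, hp', hh, hd', he', hcop, hG⟩ := frac hd he
  have hG'1 : G' = 1 := by
    rcases (Nat.dvd_prime hp).1 h2 with h0 | h0
    · exact h0
    · exact absurd (by rw [h0]; exact h7) h8
  subst hG'1
  rcases hcase with ⟨hmin, N₁, x₁, i1, g₁, i2, i3, i4, i5⟩ | ⟨hmaj, α₀, x', i1, g₀, hEK, i3, i4, i5⟩
  · rcases Nat.lt_or_ge 1 e with he2 | he1
    · have hpp : p' = p := by
        rcases (Nat.dvd_prime hp).1 ((hG p).1 h7) with h0 | h0
        · exact absurd ((hG 1).2 (by rw [h0])) h8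
        · exact h0
      subst hpp
      have hq := minor_q cop heN h10 hmin hκ hd' he'
      obtain ⟨e1, f, hf, hf0, hhf⟩ := minor_line hp' hκ hd' he' heq heN h9 hN hx'
      have hu := unit_state a b ha hlt hab N₁ e d 0 g₁ x₁ i5
      refine ⟨κ', j, f, h, e, q, N₀, σ, N₁, x₁, hκ, hj0, hf0, hhf, he', hf, e1, hq, h10, ?_, i2,
        ?_, hu⟩
      · rw [← hd']; exact hmin
      · rw [← hd']; exact i3
    · exfalso
      have he1' : e = 1 := by omega
      subst he1'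
      have := low_three a b ha hlt hab N₁ 1 d 0 1 g₁ (by norm_num)
      omega
  · exfalso
    have := low_three a b ha hlt hab N₀ E α₀ K 1 g₀ hEK
    omega

/-- prime case: `3 ≤ κ ≤ p - 1`, and `κ ≠ 3` for `p = 5` -/
theorem low_prime_full (a b : ℕ) (ha : 2 ≤ a) (hlt : a < b) (hab : Nat.Coprime a b)
    {N E p : ℕ} {α : ℤ} {k : ℚ} (hp : p.Prime) (g : GoodG a b N E α k p)
    (hE1 : (E : ℚ) - k ≤ 1) (x κ : ℕ) (hx : (x : ℤ) = E * N - α) (hN : N = κ * p)
    (hx' : N = p + x) : 3 ≤ κ ∧ κ + 1 ≤ p ∧ (p = 5 → κ = 4) := by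
  obtain ⟨κ', j, f, h, e, q, N₀, σ, N₁, x₁, hκ, hj, hf, hh, he, hq, hκκ, hqp, hNσ, hmin, hN₁, hx₁,
    hu⟩ := prime_level a b ha hlt hab hp g hE1 x κ hx hN hx'
  have hp0 : 0 < p := hp.pos
  -- q = κ' + κ f
  have hqf : q = κ' + κ * f := by
    rw [hq, he, hh, hκκ]; ring
  have hκf : κ ≤ κ * f := Nat.le_mul_of_pos_right κ hf
  have hup : κ + 1 ≤ p := by omega
  have hj2 : 2 ≤ j := by
    by_contra hcon
    push Not at hcon
    have hj1 : j = 1 := by omega
    subst hj1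
    rw [mul_one] at hκκ
    rw [one_mul] at hh
    -- (e - 1) N₁ ≥ κ' p + 1
    have he0 : 0 < e := by rw [he, hh]; exact Nat.mul_pos hκ (by omega)
    obtain ⟨e', he'⟩ : ∃ e', e = e' + 1 := ⟨e - 1, by omega⟩
    have e1 : κ' * p + 1 ≤ e' * N₁ := by
      have : e * N₁ = e' * N₁ + N₁ := by rw [he']; ring
      omega
    have e2 : q * N₁ ≤ κ * p := by
      have : q * N₁ ≤ q * σ := Nat.mul_le_mul_left q hN₁
      omega
    have e3 : q * (κ' * p + 1) ≤ e' * (κ * p) := by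
      calc q * (κ' * p + 1) ≤ q * (e' * N₁) := Nat.mul_le_mul_left q e1
        _ = e' * (q * N₁) := by ring
        _ ≤ e' * (κ * p) := Nat.mul_le_mul_left e' e2
    -- e' κ + 1 = q κ'
    have e4 : e' * κ + 1 = q * κ' := by
      have f1 : e' + 1 = κ' * (1 + f) := by rw [← he', he, hh]
      have f2 : q * κ' = (κ' + κ * f) * κ' := by rw [hqf]
      have f3 : (e' + 1) * κ = κ' * (1 + f) * κ := by rw [f1]
      have f4 : (e' + 1) * κ = e' * κ + κ := by ring
      rw [hκκ] at f2 f3 f4 ⊢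
      have f5 : (κ' + (κ' + 1) * f) * κ' + κ' = κ' * (1 + f) * (κ' + 1) := by ring
      have f6 : κ' * (1 + f) * (κ' + 1) = e' * (κ' + 1) + (κ' + 1) := by
        rw [← f3]; exact f4
      omega
    have e5 : q * (κ' * p + 1) = (q * κ') * p + q := by ring
    have e6 : e' * (κ * p) = (e' * κ) * p := by ring
    rw [e5, e6, ← e4] at e3
    have e7 : (e' * κ + 1) * p = (e' * κ) * p + p := by ring
    omega
  have h3 : 3 ≤ κ := by
    have : 1 * 2 ≤ κ' * j := Nat.mul_le_mul hκ hj2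
    omega
  refine ⟨h3, hup, ?_⟩
  intro hp5
  subst hp5
  by_contra hcon
  have hκ3 : κ = 3 := by omega
  subst hκ3
  -- κ' j = 2
  have hκj : κ' * j = 2 := by omega
  have hκ'1 : κ' = 1 := by
    by_contra hne
    have : 2 * 2 ≤ κ' * j := Nat.mul_le_mul (by omega) hj2
    omega
  subst hκ'1
  have hj2' : j = 2 := by omega
  subst hj2'
  have hf1 : f = 1 := by omega
  subst hf1
  have hh3 : h = 3 := by omega
  subst hh3
  have he3 : e = 3 := by omega
  subst he3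
  have hq4 : q = 4 := by omega
  subst hq4
  omega

/-- consequences of the start, in terms of `m'` and `n'` -/
theorem start_bounds (a b : ℕ) (ha : 2 ≤ a) (hlt : a < b) (hab : Nat.Coprime a b) {m' n' : ℕ}
    (hm : 0 < m') (hmn : m' < n')
    (h : ∃ (N₁ x₁ E G₁ : ℕ) (α : ℤ) (k : ℚ), N₁ ≤ n' ∧ GoodG a b N₁ E α k G₁ ∧
      (E : ℚ) - k ≤ 1 ∧ (x₁ : ℤ) = E * N₁ - α ∧ N₁ = m' + x₁ ∧
      ((N₁ = n' ∧ G₁ = Nat.gcd m' n') ∨ (m' ∣ n' ∧ G₁ ∣ m' ∧ ¬ m' ∣ G₁))) :
    3 ≤ Nat.gcd m' n' ∧ m' + n' ≤ Nat.gcd m' n' * (n' - m') ∧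
      (m' ∣ n' ∨ n' < Nat.gcd m' n' ^ 2 * m') ∧
      (m'.Prime → m' ∣ n' ∧ 3 * m' ≤ n' ∧ n' ≤ (m' - 1) * m') ∧
      (m' = 4 → n' = 12) ∧ (m' = 5 → n' = 20) := by
  obtain ⟨N₁, x₁, E, G₁, α, k, hN₁, g, hE1, hx, hN, hor⟩ := h
  have h3 := low_three a b ha hlt hab N₁ E α k G₁ g hE1
  have hsl := low_slope a b ha hlt hab N₁ E α k G₁ g hE1 x₁ hx
  have hup := low_upper a b ha hlt hab N₁ E α k G₁ g hE1 x₁ hx
  rcases hor with ⟨hNn, hG⟩ | ⟨hdvd, hG1, hG2⟩
  · subst hNn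
    have hx₁ : N₁ - m' = x₁ := by omega
    rw [hG] at h3 hsl hup
    set γ := Nat.gcd m' N₁ with hγ
    have hprime : m'.Prime → m' ∣ N₁ ∧ 3 * m' ≤ N₁ ∧ N₁ ≤ (m' - 1) * m' ∧
        (m' = 5 → N₁ = 20) := by
      intro hp
      have hγm : γ = m' := by
        rcases (Nat.dvd_prime hp).1 (Nat.gcd_dvd_left m' N₁) with h0 | h0
        · rw [← hγ] at h0; omega
        · exact h0
      have hd : m' ∣ N₁ := by
        have := Nat.gcd_dvd_right m' N₁
        rw [← hγ, hγm] at this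
        exact this
      obtain ⟨κ, hκ⟩ := hd
      have hκ' : N₁ = κ * m' := by rw [hκ, mul_comm]
      rw [hG, hγm] at g
      obtain ⟨e1, e2, e3⟩ := low_prime_full a b ha hlt hab hp g hE1 x₁ κ hx hκ' hN
      refine ⟨⟨κ, hκ⟩, ?_, ?_, ?_⟩
      · rw [hκ']; exact Nat.mul_le_mul_right m' e1
      · rw [hκ']; exact Nat.mul_le_mul_right m' (by omega)
      · intro h5
        have := e3 h5
        rw [hκ', this, h5]
    refine ⟨h3, ?_, ?_, ?_, ?_, ?_⟩
    · rw [hx₁]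
      have e1 : (γ + 1) * x₁ = γ * x₁ + x₁ := by ring
      omega
    · right
      have e1 : γ ^ 2 * N₁ = γ ^ 2 * m' + γ ^ 2 * x₁ := by
        conv_lhs => rw [hN]
        ring
      omega
    · intro hp
      obtain ⟨e1, e2, e3, -⟩ := hprime hp
      exact ⟨e1, e2, e3⟩
    · intro h4
      subst h4
      have hγ4 : γ ∣ 4 := Nat.gcd_dvd_left 4 N₁
      have hγ4' : γ ≤ 4 := Nat.le_of_dvd (by norm_num) hγ4
      have hγm : γ = 4 := by
        have : γ = 3 ∨ γ = 4 := by omega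
        rcases this with h0 | h0
        · rw [h0] at hγ4; exact absurd hγ4 (by decide)
        · exact h0
      have hd : 4 ∣ N₁ := by
        have := Nat.gcd_dvd_right 4 N₁
        rw [← hγ, hγm] at this
        exact this
      obtain ⟨κ, hκ⟩ := hd
      have hκ' : N₁ = κ * 4 := by rw [hκ, mul_comm]
      rw [hG, hγm] at g
      exact low_four a b ha hlt hab g hE1 x₁ κ hx hκ' hN
    · intro h5
      exact (hprime (by rw [h5]; norm_num)).2.2.2 h5
  · have hγ : Nat.gcd m' n' = m' := Nat.gcd_eq_left hdvd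
    have hG₁m : G₁ ≤ m' := Nat.le_of_dvd hm hG1
    have hm3 : 3 ≤ m' := le_trans h3 hG₁m
    rw [hγ]
    refine ⟨hm3, ?_, Or.inl hdvd, ?_, ?_, ?_⟩
    · obtain ⟨κ, rfl⟩ := hdvd
      have hκ2 : 2 ≤ κ := by
        by_contra hcon
        push Not at hcon
        have : κ = 0 ∨ κ = 1 := by omega
        rcases this with h0 | h0
        · rw [h0] at hmn; omega
        · rw [h0] at hmn; omega
      obtain ⟨r, rfl⟩ : ∃ r, κ = r + 1 := ⟨κ - 1, by omega⟩
      have e1 : m' * (r + 1) - m' = m' * r := by rw [mul_add, mul_one]; omega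
      rw [e1]
      have e2 : 3 * (m' * r) ≤ m' * (m' * r) := Nat.mul_le_mul_right _ hm3
      have e3 : m' * 1 ≤ m' * r := Nat.mul_le_mul_left m' (by omega)
      have e4 : m' * (r + 1) = m' * r + m' := by ring
      omega
    · intro hp
      exfalso
      rcases (Nat.dvd_prime hp).1 hG1 with h0 | h0
      · omega
      · apply hG2; rw [h0]
    · intro h4
      exfalso
      subst h4
      have : G₁ = 3 ∨ G₁ = 4 := by omega
      rcases this with h0 | h0
      · rw [h0] at hG1; exact absurd hG1 (by decide)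
      · rw [h0] at hG2; exact hG2 (dvd_refl 4)
    · intro h5
      exfalso
      subst h5
      rcases (Nat.dvd_prime (by norm_num : Nat.Prime 5)).1 hG1 with h0 | h0
      · omega
      · rw [h0] at hG2; exact hG2 (dvd_refl 5)

end Pool.Agent.Lib.MP_2d59ee_ag
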