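import Mathlib
import Pool.Agent.Lib.MP_2d59ee_ag.R.R6

set_option autoImplicit false

/-! A bound of `b / a` in terms of `gcd (m, n) / a` alone. -/

namespace Pool.Agent.Lib.MP_2d59ee_ag

open Polynomial

/-- `general_levelG` with `q ∣ a` or `q ∣ b` in the final case. `G'` divides `G`, `d`, `N₀`, `σ`, all
multiplicities; `d ∣ e G` and not `d ∣ e G'`. -/
theorem general_levelD (a b : ℕ) (ha : 2 ≤ a) (hlt : a < b) (hab : Nat.Coprime a b)
    {N E G : ℕ} {α : ℤ} {k : ℚ} (g : GoodG a b N E α k G) (x : ℕ) (hxx : (x : ℤ) = E * N - α) :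
    ∃ (K : ℚ) (q d e : ℕ), k < K ∧ 0 < q ∧ 0 < e ∧ 0 < d ∧ (e : ℚ) = q * (E - K) ∧
      (d : ℚ) = q * (α - K * N) ∧ Nat.Coprime q e ∧ e * N = q * x + d ∧
      (((d : ℤ) * (((a : ℤ) + b) * N - 1) = q * x ∧ (q ∣ a ∨ q ∣ b)) ∨
       (∃ G', G' ∣ G ∧ G' ∣ d ∧ G' ∣ N ∧ 0 < G' ∧ q = 1 ∧ GoodG a b N e d 0 G') ∨
       (∃ j N₀ σ G' : ℕ, 0 < G' ∧ G' ∣ G ∧ G' ∣ d ∧ G' ∣ N ∧ G' ∣ N₀ ∧ G' ∣ σ ∧ d ∣ e * G ∧
          ¬ d ∣ e * G' ∧ j * d = x ∧ N = N₀ + q * σ ∧ 0 < σ ∧ e * N₀ ≠ d ∧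
          ((e * N₀ < d ∧ ∃ N₁ x₁ : ℕ, G' ∣ N₁ ∧ GoodG a b N₁ e d 0 G' ∧ N₁ ≤ σ ∧
              e * N₁ = d + x₁ ∧ 2 ≤ x₁ ∧ (x₁ : ℤ) = e * N₁ - (d : ℤ)) ∨
           (d < e * N₀ ∧ ∃ (α₀ : ℤ) (x' : ℕ), G' ∣ x' ∧ GoodG a b N₀ E α₀ K G' ∧
              (x' : ℤ) = E * N₀ - α₀ ∧ (α₀ : ℚ) - K * N₀ = α - K * N ∧
              e * N₀ = q * x' + d ∧ 2 ≤ x')))) := by
  have ha0 : 0 < a := by omega
  have hb0 : 0 < b := by omega
  obtain ⟨P, Q, c, hc, hbr, hP, hQ, hInv⟩ := g.st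
  have hN := g.hN
  have hΔ := g.hΔ
  have hJ := g.hJ
  have hx := g.hx
  have hNQ : (1 : ℚ) ≤ N := by exact_mod_cast hN
  have haQ : (1 : ℚ) ≤ a := by exact_mod_cast ha0
  have hbQ : (1 : ℚ) ≤ b := by exact_mod_cast hb0
  have hden : (0 : ℚ) < ((a : ℚ) + b) * N - 1 := by nlinarith
  set κ : ℚ := (((a : ℚ) + b) * α - E) / (((a : ℚ) + b) * N - 1) with hκ
  have hkκ : k < κ := by
    rw [hκ, lt_div_iff₀ hden]; linarith
  obtain ⟨K, hkK, hKκ, hKP, hKQ, hKcase⟩ := exists_level hP hQ hkκ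
  have hKle : (E : ℚ) - K ≤ ((a : ℚ) + b) * (α - K * N) := by
    rw [hκ, le_div_iff₀ hden] at hKκ; linarith
  have hxQ : (α : ℚ) < E * N := by exact_mod_cast hx
  have hEK : 0 < (E : ℚ) - K := by
    by_contra hcon
    push Not at hcon
    have h1 : (α : ℚ) - K * N < ((E : ℚ) - K) * N := by linarith
    have h2 : ((E : ℚ) - K) * N ≤ (E : ℚ) - K := by nlinarith
    have h3 : (α : ℚ) - K * N < 0 := by linarith
    nlinarith
  have hΔK : 0 < (α : ℚ) - K * N := by
    by_contra hcon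
    push Not at hcon
    nlinarith
  obtain ⟨d, e, hd, he₁, hpkg⟩ := level_nums a b N E α k K hkK hEK hΔK
  have hqQ : (0 : ℚ) < K.den := by exact_mod_cast hpkg.hq
  have hqZ : (0 : ℤ) < K.den := by exact_mod_cast hpkg.hq
  have heQ : (0 : ℚ) < e := by exact_mod_cast hpkg.he
  have hdQ : (0 : ℚ) < d := by exact_mod_cast hpkg.hd
  have heZ : (1 : ℤ) ≤ e := by exact_mod_cast hpkg.he
  have hdZ : (1 : ℤ) ≤ d := by exact_mod_cast hpkg.hd
  have heK := hpkg.heK
  have hdK := hpkg.hdK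
  have hqx := hpkg.hx
  rw [← hxx] at hqx
  have hxpos : (0 : ℤ) < x := by rw [hxx]; linarith
  have heN : e * N = K.den * x + d := by
    have h1 : ((e * N : ℕ) : ℤ) = ((K.den * x + d : ℕ) : ℤ) := by push_cast; linarith
    exact_mod_cast h1
  refine ⟨K, K.den, d, e, hkK, hpkg.hq, hpkg.he, hpkg.hd, heK, hdK,
    Nat.isCoprime_iff_coprime.mp hpkg.cop, heN, ?_⟩
  by_cases hKeq : K = κ
  · left
    have h3 := final_raw ha0 hb0 hc hbr hN hP hQ hkK hKP hKQ hd (by
      have h1 : K * (((a : ℚ) + b) * N - 1) = ((a : ℚ) + b) * α - E := by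
        rw [hKeq, hκ, div_mul_cancel₀ _ hden.ne']
      have h2 : (((a : ℤ) + b) * d : ℚ) = K.den * E - K.num := by
        rw [hpkg.hdK, num_cast K]
        push_cast
        linear_combination (-(K.den : ℚ)) * h1
      exact_mod_cast h2)
    rw [← hxx] at h3
    refine ⟨h3.1, ?_⟩
    rcases h3.2 with ⟨h1, -⟩ | ⟨h1, -⟩
    · exact Or.inl h1
    · exact Or.inr h1
  right
  have hKlt : K < κ := lt_of_le_of_ne hKκ hKeq
  have hJK : (E : ℚ) - K < ((a : ℚ) + b) * (α - K * N) := by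
    rw [hκ, lt_div_iff₀ hden] at hKlt; linarith
  have hAtt : Attained P a α N K ∨ Attained Q b α N K := by
    rcases hKcase with h | h
    · exact absurd h hKeq
    · exact h
  obtain ⟨hJZ, hcase⟩ := level_coreG a b ha0 hb0 hab N E α k K hN P Q c hc hbr hP hQ G g.hG hInv
    hkK hKP hKQ hxQ hJK hAtt d e hd he₁ hpkg
  have hJQ : (e : ℚ) < ((a : ℚ) + b) * d := by exact_mod_cast hJZ
  rcases hcase with ⟨G', h1, h2, h3, h4, -, h5, hst⟩ |
    ⟨N₀, j, σ, G', hj, hNσ, hσ, hne, h1, h2, h3, h4, h5, h6, h7, h8, hzero, hbig⟩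
  · left
    refine ⟨G', h1, h2, h3, h4, h5, hN, h4, le_rfl, hst, by simpa using hdQ,
      by simpa using hJQ, ?_⟩
    rw [h5] at heN
    have : (e : ℤ) * N = x + d := by exact_mod_cast (by omega : e * N = x + d)
    linarith
  right
  rw [← hxx] at hj
  have hjx : j * d = x := by exact_mod_cast hj
  rcases lt_or_gt_of_ne hne with hmin | hmaj
  · obtain ⟨N₁, hqN₁, hdN₁, hGN₁, hst₁⟩ := hbig hmin
    have hN₁pos : 0 < N₁ := by
      rcases Nat.eq_zero_or_pos N₁ with h | h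
      · rw [h] at hdN₁; omega
      · exact h
    have hg₁ : GoodG a b N₁ e d 0 G' := ⟨hN₁pos, h1, le_rfl, hst₁, by simpa using hdQ,
      by simpa using hJQ, by exact_mod_cast hdN₁⟩
    obtain ⟨x₁, hx₁⟩ : ∃ x₁ : ℕ, e * N₁ = d + x₁ := ⟨e * N₁ - d, by omega⟩
    have hx₁Z : (x₁ : ℤ) = e * N₁ - (d : ℤ) := by
      have : ((e * N₁ : ℕ) : ℤ) = ((d + x₁ : ℕ) : ℤ) := by rw [hx₁]
      push_cast at this ⊢
      linarith
    exact ⟨j, N₀, σ, G', h1, h2, h3, h4, h5, h6, h7, h8, hjx, hNσ, hσ, hne,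
      Or.inl ⟨hmin, N₁, x₁, hGN₁, hg₁, hqN₁, hx₁, hg₁.toGood.two_le ha hlt hab x₁ hx₁Z, hx₁Z⟩⟩
  · have hN₀pos : 0 < N₀ := by
      rcases Nat.eq_zero_or_pos N₀ with h | h
      · rw [h] at hmaj; omega
      · exact h
    obtain ⟨α₀, G'', hrel, k1, k2, k3, hst₀⟩ := hzero hN₀pos
    have hmajQ : (d : ℚ) < e * N₀ := by exact_mod_cast hmaj
    have hα₀ : α₀ < E * N₀ := by
      have h1 : (K.den : ℚ) * (α₀ - K * N₀) < K.den * ((E - K) * N₀) := by
        rw [hrel, ← hdK]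
        have : (K.den : ℚ) * ((E - K) * N₀) = e * N₀ := by rw [heK]; ring
        rw [this]; exact hmajQ
      have h2 := lt_of_mul_lt_mul_left h1 hqQ.le
      have h3 : (α₀ : ℚ) < E * N₀ := by linarith
      exact_mod_cast h3
    have hΔ₀ : 0 < (α₀ : ℚ) - K * N₀ := by
      rw [hrel]; exact hΔK
    have hJ₀ : (E : ℚ) - K < ((a : ℚ) + b) * (α₀ - K * N₀) := by
      rw [hrel]; exact hJK
    have hg₀ : GoodG a b N₀ E α₀ K G'' :=
      ⟨hN₀pos, k1, by have := g.hk; linarith, hst₀, hΔ₀, hJ₀, hα₀⟩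
    obtain ⟨x', hx'⟩ : ∃ x' : ℕ, (x' : ℤ) = E * N₀ - α₀ :=
      ⟨(E * N₀ - α₀ : ℤ).toNat, Int.toNat_of_nonneg (by linarith)⟩
    have heN₀Q : ((e * N₀ : ℕ) : ℚ) = ((K.den * x' + d : ℕ) : ℚ) := by
      have h1 : (x' : ℚ) = E * N₀ - α₀ := by exact_mod_cast hx'
      push_cast
      rw [heK, hdK, h1, ← hrel]; ring
    have heN₀ : e * N₀ = K.den * x' + d := by exact_mod_cast heN₀Q
    have hGx' : G'' ∣ x' := by
      have h1 : (G'' : ℤ) ∣ (N₀ : ℤ) := Int.natCast_dvd_natCast.mpr (k2.trans h5)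
      have h2 : (G'' : ℤ) ∣ (x' : ℤ) := by
        rw [hx']
        exact dvd_sub (h1.mul_left _) k3
      exact Int.natCast_dvd_natCast.mp h2
    exact ⟨j, N₀, σ, G'', k1, k2.trans h2, k2.trans h3, k2.trans h4, k2.trans h5, k2.trans h6, h7,
      fun hcon => h8 (hcon.trans (Nat.mul_dvd_mul_left _ k2)), hjx, hNσ, hσ, hne,
      Or.inr ⟨hmaj, α₀, x', hGx', hg₀, hx', hrel, heN₀,
        hg₀.toGood.two_le ha hlt hab x' hx'⟩⟩


/-- in the minor case `q G' ≤ G` -/
theorem minor_qG {N q d e N₀ σ x κ p h G G' : ℕ} (cop : Nat.Coprime q e)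
    (heN : e * N = q * x + d) (hNσ : N = N₀ + q * σ) (hmin : e * N₀ < d) (hκ : 0 < κ)
    (hd : d = κ * p) (he : e = κ * h) (hG : 0 < G) (hG'0 : 0 < G') (hpG : p ∣ G)
    (hG'G : G' ∣ G) (hG'N : G' ∣ N₀) (hG'σ : G' ∣ σ) (hG'x : G' ∣ x) : q * G' ≤ G := by
  obtain ⟨y, hy⟩ : ∃ y, e * σ = x + y := by
    refine ⟨e * σ - x, ?_⟩
    have : x ≤ e * σ := by
      by_contra hcon
      push Not at hcon
      have h1 : q * (e * σ) ≤ q * x := Nat.mul_le_mul_left q hcon.le
      have h2 : e * N = e * N₀ + q * (e * σ) := by rw [hNσ]; ring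
      omega
    omega
  have hdy : d = e * N₀ + q * y := by
    have h2 : e * N = e * N₀ + q * (e * σ) := by rw [hNσ]; ring
    rw [hy, Nat.mul_add] at h2
    omega
  have hy0 : 0 < y := by
    rcases Nat.eq_zero_or_pos y with h0 | h0
    · rw [h0] at hdy; omega
    · exact h0
  have hκd : κ ∣ d := ⟨p, hd⟩
  have hκe : κ ∣ e := ⟨h, he⟩
  have h3 : Nat.Coprime κ q := (Nat.Coprime.coprime_dvd_right hκe cop).symm
  have hκy : κ ∣ y := by
    have h1 : κ ∣ q * y := by
      have h2 : κ ∣ e * N₀ + q * y := by rw [← hdy]; exact hκd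
      exact (Nat.dvd_add_right (hκe.mul_right N₀)).1 h2
    exact h3.dvd_of_dvd_mul_left h1
  obtain ⟨w, hw⟩ := hκy
  have hw0 : 0 < w := by
    rcases Nat.eq_zero_or_pos w with h0 | h0
    · rw [h0, mul_zero] at hw; omega
    · exact h0
  have hp : p = h * N₀ + q * w := by
    have e1 : κ * p = κ * (h * N₀ + q * w) := by
      rw [← hd, hdy, he, hw]; ring
    exact Nat.eq_of_mul_eq_mul_left hκ e1
  have hG'y : G' ∣ κ * w := by
    rw [← hw]
    have e1 : G' ∣ x + y := by rw [← hy]; exact hG'σ.mul_left e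
    exact (Nat.dvd_add_right hG'x).1 e1
  have hg0 : Nat.gcd G' p ∣ w := by
    have e1 : Nat.gcd G' p ∣ q * w := by
      have e2 : Nat.gcd G' p ∣ h * N₀ + q * w := by rw [← hp]; exact Nat.gcd_dvd_right G' p
      exact (Nat.dvd_add_right (((Nat.gcd_dvd_left G' p).trans hG'N).mul_left h)).1 e2
    have e3 : Nat.gcd G' p ∣ κ * w := (Nat.gcd_dvd_left G' p).trans hG'y
    have e4 := Nat.dvd_gcd e1 e3
    have h3' : Nat.gcd q κ = 1 := h3.symm
    rw [Nat.gcd_mul_right, h3', one_mul] at e4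
    exact e4
  have h5 : q * Nat.gcd G' p ≤ p := by
    have e1 : q * Nat.gcd G' p ≤ q * w := Nat.mul_le_mul_left q (Nat.le_of_dvd hw0 hg0)
    omega
  have hgpos : 0 < Nat.gcd G' p := Nat.gcd_pos_of_pos_left _ hG'0
  have h6 : Nat.lcm G' p ≤ G := Nat.le_of_dvd hG (Nat.lcm_dvd hG'G hpG)
  have h7 : Nat.gcd G' p * (q * G') ≤ Nat.gcd G' p * Nat.lcm G' p := by
    rw [Nat.gcd_mul_lcm]
    calc Nat.gcd G' p * (q * G') = G' * (q * Nat.gcd G' p) := by ring
      _ ≤ G' * p := Nat.mul_le_mul_left _ h5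
  exact (Nat.le_of_mul_le_mul_left h7 hgpos).trans h6

/-- the final level: the bound for `b` -/
theorem final_bound {a b : ℤ} {N E α x q d : ℤ} (ha : 2 ≤ a) (hlt : a < b) (hN : 0 < N)
    (hα : 0 < α) (hx : x = E * N - α) (hfin : d * ((a + b) * N - 1) = q * x) (hd : 0 < d)
    (hq : 0 < q) (hqab : q ∣ a ∨ q ∣ b) : b ≤ (E - 1) * ((α + 1) * a - 1) := by
  rcases hqab with ⟨ρ, hρ⟩ | ⟨ρ, hρ⟩
  · -- q ∣ a
    have hρ0 : 0 < ρ := by
      by_contra hcon
      push Not at hcon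
      nlinarith
    have h1 : (ρ * d) * ((a + b) * N - 1) = a * x := by
      calc (ρ * d) * ((a + b) * N - 1) = ρ * (d * ((a + b) * N - 1)) := by ring
        _ = ρ * (q * x) := by rw [hfin]
        _ = a * x := by rw [hρ]; ring
    have hD : 1 ≤ ρ * d := Int.add_one_le_iff.2 (mul_pos hρ0 hd)
    generalize ρ * d = D at h1 hD
    have h2 : b * N ≤ D * (b * N) := le_mul_of_one_le_left (mul_pos (by linarith) hN).le hD
    have h3 : a * N - 1 ≤ D * (a * N - 1) := le_mul_of_one_le_left (by nlinarith) hD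
    have h4 : D * (b * N) + D * (a * N - 1) = a * x := by rw [← h1]; ring
    have h5 : a ≤ a * α := le_mul_of_one_le_right (by linarith) hα
    have h6 : b * N ≤ (a * (E - 1)) * N := by
      have : a * x = a * (E - 1) * N + a * N - a * α := by rw [hx]; ring
      linarith
    have h7 : b ≤ a * (E - 1) := le_of_mul_le_mul_right h6 hN
    have h8 : 0 < E - 1 := by
      by_contra hcon
      push Not at hcon
      nlinarith
    have h9 : a * (E - 1) ≤ (E - 1) * ((α + 1) * a - 1) := by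
      rw [mul_comm a (E - 1)]
      apply mul_le_mul_of_nonneg_left _ h8.le
      have : (α + 1) * a - 1 = a * α + a - 1 := by ring
      linarith
    linarith
  · -- q ∣ b
    have hρ0 : 0 < ρ := by
      by_contra hcon
      push Not at hcon
      nlinarith
    have h1 : (ρ * d) * ((a + b) * N - 1) = b * x := by
      calc (ρ * d) * ((a + b) * N - 1) = ρ * (d * ((a + b) * N - 1)) := by ring
        _ = ρ * (q * x) := by rw [hfin]
        _ = b * x := by rw [hρ]; ring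
    have hD : 1 ≤ ρ * d := Int.add_one_le_iff.2 (mul_pos hρ0 hd)
    generalize ρ * d = D at h1 hD
    obtain ⟨y, hy⟩ : ∃ y, x = D * N + y := ⟨x - D * N, by ring⟩
    have h2 : b * y = D * (a * N - 1) := by
      have : b * x = b * (D * N) + b * y := by rw [hy]; ring
      have e2 : D * ((a + b) * N - 1) = b * (D * N) + D * (a * N - 1) := by ring
      linarith
    have haN : 0 < a * N - 1 := by nlinarith
    have hy0 : 0 < y := by
      have h9 : 0 < b * y := by rw [h2]; exact mul_pos (by linarith) haN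
      have hb0 : 0 < b := by linarith
      exact (mul_pos_iff_of_pos_left hb0).1 h9
    obtain ⟨u, hu⟩ : ∃ u, E = D + u := ⟨E - D, by ring⟩
    have h3 : u * N = α + y := by
      have : (D + u) * N = D * N + y + α := by rw [← hu, ← hy, hx]; ring
      linarith
    have hu0 : 0 < u := by
      have h9 : 0 < u * N := by rw [h3]; linarith
      exact (mul_pos_iff_of_pos_right hN).1 h9
    have h4 : y * (u * b) = D * (a * (α + y) - u) := by
      calc y * (u * b) = u * (b * y) := by ring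
        _ = D * (a * (u * N) - u) := by rw [h2]; ring
        _ = D * (a * (α + y) - u) := by rw [h3]
    have hb0 : 0 < b := by linarith
    have h5 : b ≤ u * b := le_mul_of_one_le_left hb0.le hu0
    have hE1 : D ≤ E - 1 := by linarith
    have hE0 : 0 ≤ E - 1 := by linarith
    have hT : 0 ≤ (α + 1) * a - 1 := by nlinarith
    rcases le_or_gt u (a * α) with hc | hc
    · have h6 : y * (u * b) ≤ y * (D * ((α + 1) * a - 1)) := by
        rw [h4]
        have e1 : a * (α + y) - u ≤ y * ((α + 1) * a - 1) := by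
          have e2 : y * ((α + 1) * a - 1) - (a * (α + y) - u) = (y - 1) * (a * α - 1) + (u - 1) := by
            ring
          have e3 : 0 ≤ (y - 1) * (a * α - 1) := mul_nonneg (by linarith) (by nlinarith)
          linarith
        calc D * (a * (α + y) - u) ≤ D * (y * ((α + 1) * a - 1)) :=
              mul_le_mul_of_nonneg_left e1 (by linarith)
          _ = y * (D * ((α + 1) * a - 1)) := by ring
      have h7 : u * b ≤ D * ((α + 1) * a - 1) := le_of_mul_le_mul_left h6 hy0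
      have h8 : D * ((α + 1) * a - 1) ≤ (E - 1) * ((α + 1) * a - 1) :=
        mul_le_mul_of_nonneg_right hE1 hT
      linarith
    · have h6 : y * (u * b) ≤ y * (D * a) := by
        rw [h4]
        have e1 : a * (α + y) - u ≤ y * a := by
          have : a * (α + y) = a * α + y * a := by ring
          linarith
        calc D * (a * (α + y) - u) ≤ D * (y * a) :=
              mul_le_mul_of_nonneg_left e1 (by linarith)
          _ = y * (D * a) := by ring
      have h7 : u * b ≤ D * a := le_of_mul_le_mul_left h6 hy0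
      have h8 : D * a ≤ (E - 1) * ((α + 1) * a - 1) := by
        have e1 : a ≤ (α + 1) * a - 1 := by nlinarith
        exact mul_le_mul hE1 e1 (by linarith) hE0
      linarith

/-- states of slope at least one: `E G < g` and `α ≤ g (g - 1)` are kept, the final level gives
the bound -/
theorem high_ratio (a b : ℕ) (ha : 2 ≤ a) (hlt : a < b) (hab : Nat.Coprime a b) (g : ℕ) :
    ∀ (N E : ℕ) (α : ℤ) (k : ℚ) (G : ℕ), GoodG a b N E α k G → E * G + 1 ≤ g →
      α ≤ (g : ℤ) * (g - 1) →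
      (b : ℤ) ≤ ((g : ℤ) - 2) * (((g : ℤ) * (g - 1) + 1) * a - 1) := by
  intro N
  induction N using Nat.strong_induction_on with
  | _ N ihN =>
  intro E
  induction E using Nat.strong_induction_on with
  | _ E ihE =>
  intro α k G st hEG hα
  have hG0 := st.hG
  have hN0 : 0 < N := st.hN
  have hxlt := st.hx
  obtain ⟨x, hxx⟩ : ∃ x : ℕ, (x : ℤ) = E * N - α :=
    ⟨(E * N - α : ℤ).toNat, Int.toNat_of_nonneg (by linarith)⟩
  obtain ⟨K, q, d, e, hkK, hq, he, hd, heK, hdK, cop, heN, hcase⟩ :=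
    general_levelD a b ha hlt hab st x hxx
  have hk0 := st.hk
  have hK0 : 0 < K := lt_of_le_of_lt hk0 hkK
  have hqQ : (0 : ℚ) < q := by exact_mod_cast hq
  have heqE : e < q * E := by
    have h1 : (e : ℚ) < q * E := by
      rw [heK]
      exact mul_lt_mul_of_pos_left (by linarith) hqQ
    exact_mod_cast h1
  have hE0 : 0 < E := by
    rcases Nat.eq_zero_or_pos E with h0 | h0
    · rw [h0, mul_zero] at heqE; omega
    · exact h0
  have hEg : E + 1 ≤ g := by
    have := Nat.le_mul_of_pos_right E hG0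
    omega
  have hGg : G ≤ g := by
    have := Nat.le_mul_of_pos_left G hE0
    omega
  have hα0 : 0 < α := by
    have h1 := st.hΔ
    have h2 : (0 : ℚ) ≤ k * N := mul_nonneg hk0 (Nat.cast_nonneg N)
    have h3 : (0 : ℚ) < α := by linarith
    exact_mod_cast h3
  have hgZ : (E : ℤ) + 1 ≤ g := by exact_mod_cast hEg
  have hEZ : (1 : ℤ) ≤ E := by exact_mod_cast hE0
  rcases hcase with ⟨hfin, hqb⟩ | ⟨G', h1, h2, h3, h4, hq1, g'⟩ |
    ⟨j, N₀, σ, G', h1, h2, h3, h4, h5, h6, h7, h8, h9, h10, h11, h12, h13⟩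
  · have haZ : (2 : ℤ) ≤ a := by exact_mod_cast ha
    have hbZ : (a : ℤ) < b := by exact_mod_cast hlt
    have hNZ : (0 : ℤ) < N := by exact_mod_cast hN0
    have hdZ : (0 : ℤ) < d := by exact_mod_cast hd
    have hqZ : (0 : ℤ) < q := by exact_mod_cast hq
    have hqab : (q : ℤ) ∣ a ∨ (q : ℤ) ∣ b := by
      rcases hqb with h | h
      · exact Or.inl (Int.natCast_dvd_natCast.2 h)
      · exact Or.inr (Int.natCast_dvd_natCast.2 h)
    have hfb := final_bound haZ hbZ hNZ hα0 hxx hfin hdZ hqZ hqab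
    have e1 : (α + 1) * (a : ℤ) - 1 ≤ ((g : ℤ) * (g - 1) + 1) * a - 1 := by
      have := mul_le_mul_of_nonneg_right (show α + 1 ≤ (g : ℤ) * (g - 1) + 1 by linarith)
        (show (0 : ℤ) ≤ a by linarith)
      linarith
    have e2 : 0 ≤ (α + 1) * (a : ℤ) - 1 := by
      have := mul_le_mul_of_nonneg_right (show 1 ≤ α + 1 by linarith)
        (show (0 : ℤ) ≤ a by linarith)
      linarith
    exact hfb.trans (mul_le_mul (by linarith) e1 e2 (by linarith))
  · subst hq1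
    rw [one_mul] at heqE
    refine ihE e heqE d 0 G' g' ?_ ?_
    · have h5 : e * G' ≤ E * G := Nat.mul_le_mul heqE.le (Nat.le_of_dvd hG0 h1)
      omega
    · have h5 : ((e * N : ℕ) : ℤ) = ((1 * x + d : ℕ) : ℤ) := by rw [heN]
      push_cast at h5
      have h6 : (e : ℤ) * N ≤ E * N :=
        mul_le_mul_of_nonneg_right (by exact_mod_cast heqE.le) (Int.natCast_nonneg N)
      linarith
  · have hxpos : 0 < x := by
      have h1 : (0 : ℤ) < x := by rw [hxx]; linarith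
      exact_mod_cast h1
    rcases h13 with ⟨hmin, N₁, x₁, hGN₁, g₁, hN₁σ, hx₁, -, -⟩ |
      ⟨hmaj, α₀, x', i1, i2, i3, i4, i5, i6⟩
    · obtain ⟨κ, p, h, hκ, hp, hh, hd', he', hcop, hG⟩ := frac hd he
      have hpG : p ∣ G := (hG G).1 h7
      have hG'x : G' ∣ x := by rw [← h9]; exact h3.mul_left j
      have hqG := minor_qG cop heN h10 hmin hκ hd' he' hG0 h1 hpG h2 h5 h6 hG'x
      have heG : e * G' + 1 ≤ E * G := by
        have e1 : e * G' < (q * E) * G' := Nat.mul_lt_mul_of_pos_right heqE h1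
        have e2 : (q * E) * G' ≤ E * G := by
          calc (q * E) * G' = E * (q * G') := by ring
            _ ≤ E * G := Nat.mul_le_mul_left _ hqG
        omega
      have hdg : (d : ℤ) ≤ (g : ℤ) * (g - 1) := by
        have e1 : κ ≤ e := by rw [he']; exact Nat.le_mul_of_pos_right κ hh
        have e2 : e ≤ e * G' := Nat.le_mul_of_pos_right e h1
        have e3 : (κ : ℤ) ≤ g - 1 := by
          have : κ + 1 ≤ g := by omega
          have h9 : (κ : ℤ) + 1 ≤ g := by exact_mod_cast this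
          linarith
        have e4 : (p : ℤ) ≤ g := by
          have : p ≤ g := (Nat.le_of_dvd hG0 hpG).trans hGg
          exact_mod_cast this
        have e5 : (d : ℤ) = p * κ := by rw [hd']; push_cast; ring
        rw [e5]
        exact mul_le_mul e4 e3 (Int.natCast_nonneg κ) (by linarith)
      have hσN : N₁ ≤ N := by
        have e1 : σ ≤ q * σ := Nat.le_mul_of_pos_left σ hq
        omega
      rcases Nat.lt_or_ge N₁ N with hlt1 | hge1
      · exact ihN N₁ hlt1 e d 0 G' g₁ (by omega) hdg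
      · -- N₁ = N: q = 1
        have hq1 : q = 1 := by
          by_contra hcon
          have hq2 : 2 ≤ q := by omega
          have e1 : 2 * σ ≤ q * σ := Nat.mul_le_mul_right σ hq2
          omega
        rw [hq1, one_mul] at heqE
        have hNN : N₁ = N := le_antisymm hσN hge1
        rw [hNN] at g₁
        exact ihE e heqE d 0 G' g₁ (by omega) hdg
    · have hlt₀ : N₀ < N := by
        have e1 : 0 < q * σ := Nat.mul_pos hq h11
        omega
      refine ihN N₀ hlt₀ E α₀ K G' i2 ?_ ?_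
      · have e1 : E * G' ≤ E * G := Nat.mul_le_mul_left E (Nat.le_of_dvd hG0 h2)
        omega
      · have e1 : (α₀ : ℚ) ≤ α := by
          have e2 : K * N₀ ≤ K * N := by
            apply mul_le_mul_of_nonneg_left _ hK0.le
            exact_mod_cast hlt₀.le
          linarith
        have e2 : α₀ ≤ α := by exact_mod_cast e1
        linarith

/-- low states with `G ≤ g`: the bound for `b` -/
theorem low_ratio (a b : ℕ) (ha : 2 ≤ a) (hlt : a < b) (hab : Nat.Coprime a b) (g : ℕ) :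
    ∀ (N E : ℕ) (α : ℤ) (k : ℚ) (G : ℕ), GoodG a b N E α k G → (E : ℚ) - k ≤ 1 → G ≤ g →
      (b : ℤ) ≤ ((g : ℤ) - 2) * (((g : ℤ) * (g - 1) + 1) * a - 1) := by
  intro N
  induction N using Nat.strong_induction_on with
  | _ N ihN =>
  intro E α k G st hE1 hGg
  have hG0 := st.hG
  have hxlt := st.hx
  obtain ⟨x, hxx⟩ : ∃ x : ℕ, (x : ℤ) = E * N - α :=
    ⟨(E * N - α : ℤ).toNat, Int.toNat_of_nonneg (by linarith)⟩
  obtain ⟨K, q, d, e, j, N₀, σ, G', hkK, hq2, he, heq, hd, heK, cop, heN, h1, h2, h3, h4, h5, h6,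
    h7, h8, hj0, h9, h10, h11, h12, hcase⟩ := low_level a b ha hlt hab st hE1 x hxx
  rcases hcase with ⟨hmin, N₁, x₁, hGN₁, g₁, hN₁σ, hx₁, -, -⟩ |
    ⟨hmaj, α₀, x', i1, i2, hEK, i3, i4, i5⟩
  · obtain ⟨κ, p, h, hκ, hp, hh, hd', he', hcop, hG⟩ := frac hd he
    have hpG : p ∣ G := (hG G).1 h7
    have hG'x : G' ∣ x := by rw [← h9]; exact h3.mul_left j
    have hqG := minor_qG cop heN h10 hmin hκ hd' he' hG0 h1 hpG h2 h5 h6 hG'x
    have heG : e * G' + 1 ≤ g := by
      have e1 : e * G' < q * G' := Nat.mul_lt_mul_of_pos_right heq h1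
      omega
    refine high_ratio a b ha hlt hab g N₁ e d 0 G' g₁ heG ?_
    have e1 : κ ≤ e := by rw [he']; exact Nat.le_mul_of_pos_right κ hh
    have e2 : e ≤ e * G' := Nat.le_mul_of_pos_right e h1
    have e3 : (κ : ℤ) ≤ g - 1 := by
      have : κ + 1 ≤ g := by omega
      have h9 : (κ : ℤ) + 1 ≤ g := by exact_mod_cast this
      linarith
    have e4 : (p : ℤ) ≤ g := by
      have : p ≤ g := (Nat.le_of_dvd hG0 hpG).trans hGg
      exact_mod_cast this
    have e5 : (d : ℤ) = p * κ := by rw [hd']; push_cast; ring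
    rw [e5]
    exact mul_le_mul e4 e3 (Int.natCast_nonneg κ) (Int.natCast_nonneg g)
  · have hlt₀ : N₀ < N := by
      have e1 : 0 < q * σ := Nat.mul_pos (by omega) h11
      omega
    exact ihN N₀ hlt₀ E α₀ K G' i2 hEK ((Nat.le_of_dvd hG0 h2).trans hGg)

/-- consequence for the start: a bound for `b` in terms of `a` and `g = gcd (m', n')` -/
theorem start_ratio (a b : ℕ) (ha : 2 ≤ a) (hlt : a < b) (hab : Nat.Coprime a b) {m' n' : ℕ}
    (hm : 0 < m')
    (h : ∃ (N₁ x₁ E G₁ : ℕ) (α : ℤ) (k : ℚ), N₁ ≤ n' ∧ GoodG a b N₁ E α k G₁ ∧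
      (E : ℚ) - k ≤ 1 ∧ (x₁ : ℤ) = E * N₁ - α ∧ N₁ = m' + x₁ ∧
      ((N₁ = n' ∧ G₁ = Nat.gcd m' n') ∨ (m' ∣ n' ∧ G₁ ∣ m' ∧ ¬ m' ∣ G₁))) :
    b ≤ (Nat.gcd m' n' - 2) * ((Nat.gcd m' n' ^ 2 - Nat.gcd m' n' + 1) * a - 1) := by
  obtain ⟨N₁, x₁, E, G₁, α, k, hN₁, st, hE1, hx, hN, hor⟩ := h
  have h3 := low_three a b ha hlt hab N₁ E α k G₁ st hE1
  have hGle : G₁ ≤ Nat.gcd m' n' := by
    rcases hor with ⟨-, hG⟩ | ⟨hdvd, hG1, -⟩
    · exact hG.le
    · rw [Nat.gcd_eq_left hdvd]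
      exact Nat.le_of_dvd hm hG1
  have hb := low_ratio a b ha hlt hab (Nat.gcd m' n') N₁ E α k G₁ st hE1 hGle
  obtain ⟨t, ht⟩ : ∃ t, Nat.gcd m' n' = t + 2 := ⟨Nat.gcd m' n' - 2, by omega⟩
  rw [ht] at hb ⊢
  have e1 : t + 2 - 2 = t := by omega
  have e2 : (t + 2) ^ 2 - (t + 2) + 1 = t ^ 2 + 3 * t + 3 := by
    have : (t + 2) ^ 2 = t ^ 2 + 3 * t + 2 + (t + 2) := by ring
    omega
  rw [e1, e2]
  have e3 : 1 ≤ (t ^ 2 + 3 * t + 3) * a := Nat.mul_pos (by positivity) (by omega)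
  have hbZ : (b : ℤ) ≤ ((t * ((t ^ 2 + 3 * t + 3) * a - 1) : ℕ) : ℤ) := by
    rw [Nat.cast_mul, Nat.cast_sub e3]
    push_cast at hb ⊢
    linarith
  exact_mod_cast hbZ

/-- states with trivial ambient divisor: the bound for `b` -/
theorem unit_ratio (a b : ℕ) (ha : 2 ≤ a) (hlt : a < b) (hab : Nat.Coprime a b) (N : ℕ) :
    ∀ (E : ℕ) (α : ℤ) (k : ℚ), GoodG a b N E α k 1 →
      (b : ℤ) ≤ ((E : ℤ) - 1) * ((α + 1) * a - 1) := by
  intro E
  induction E using Nat.strong_induction_on with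
  | _ E ih =>
  intro α k st
  have hN0 : 0 < N := st.hN
  have hxlt := st.hx
  obtain ⟨x, hxx⟩ : ∃ x : ℕ, (x : ℤ) = E * N - α :=
    ⟨(E * N - α : ℤ).toNat, Int.toNat_of_nonneg (by linarith)⟩
  obtain ⟨K, q, d, e, hkK, hq, he, hd, heK, hdK, cop, heN, hcase⟩ :=
    general_levelD a b ha hlt hab st x hxx
  have hk0 := st.hk
  have hα0 : 0 < α := by
    have h1 := st.hΔ
    have h2 : (0 : ℚ) ≤ k * N := mul_nonneg hk0 (Nat.cast_nonneg N)
    have h3 : (0 : ℚ) < α := by linarith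
    exact_mod_cast h3
  have haZ : (2 : ℤ) ≤ a := by exact_mod_cast ha
  have hdZ : (0 : ℤ) < d := by exact_mod_cast hd
  rcases hcase with ⟨hfin, hqb⟩ | ⟨G', h1, h2, h3, h4, hq1, g'⟩ |
    ⟨j, N₀, σ, G', -, h2, -, -, -, -, h7, h8, -⟩
  · have hbZ : (a : ℤ) < b := by exact_mod_cast hlt
    have hNZ : (0 : ℤ) < N := by exact_mod_cast hN0
    have hqZ : (0 : ℤ) < q := by exact_mod_cast hq
    have hqab : (q : ℤ) ∣ a ∨ (q : ℤ) ∣ b := by
      rcases hqb with h | h
      · exact Or.inl (Int.natCast_dvd_natCast.2 h)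
      · exact Or.inr (Int.natCast_dvd_natCast.2 h)
    exact final_bound haZ hbZ hNZ hα0 hxx hfin hdZ hqZ hqab
  · have hG' : G' = 1 := Nat.dvd_one.1 h1
    subst hG'
    subst hq1
    have heE : e < E := by
      have h2 : (e : ℚ) < E := by
        rw [heK]
        push_cast
        linarith
      exact_mod_cast h2
    have hi := ih e heE d 0 g'
    have heZ : (e : ℤ) ≤ E := by exact_mod_cast heE.le
    have he1 : (1 : ℤ) ≤ e := by exact_mod_cast he
    have hdα : (d : ℤ) ≤ α := by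
      have h5 : ((e * N : ℕ) : ℤ) = ((1 * x + d : ℕ) : ℤ) := by rw [heN]
      push_cast at h5
      have h6 : (e : ℤ) * N ≤ E * N :=
        mul_le_mul_of_nonneg_right heZ (Int.natCast_nonneg N)
      linarith
    have e1 : ((d : ℤ) + 1) * a - 1 ≤ (α + 1) * a - 1 := by
      have := mul_le_mul_of_nonneg_right (show (d : ℤ) + 1 ≤ α + 1 by linarith)
        (show (0 : ℤ) ≤ a by linarith)
      linarith
    have e2 : 0 ≤ ((d : ℤ) + 1) * a - 1 := by
      have := mul_le_mul_of_nonneg_right (show (1 : ℤ) ≤ d + 1 by linarith)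
        (show (0 : ℤ) ≤ a by linarith)
      linarith
    exact hi.trans (mul_le_mul (by linarith) e1 e2 (by linarith))
  · exfalso
    have hG' : G' = 1 := Nat.dvd_one.1 h2
    apply h8
    rw [hG']; exact h7

end Pool.Agent.Lib.MP_2d59ee_ag
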