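import Mathlib
import Pool.Agent.Lib.MP_2d59ee_ag.R.R17

set_option autoImplicit false

/-! Low states whose ambient divisor is 1, 4 or a prime: explicit parametrization. -/

namespace Pool.Agent.Lib.MP_2d59ee_ag

/-- low states with ambient divisor 1, 4 or a prime -/
theorem low_param (a b : ℕ) (ha : 2 ≤ a) (hlt : a < b) (hab : Nat.Coprime a b)
    {N E G : ℕ} {α : ℤ} {k : ℚ} (g : GoodG a b N E α k G) (hE1 : (E : ℚ) - k ≤ 1)
    (hG : G = 1 ∨ G.Prime ∨ G = 4) (x m : ℕ) (hxx : (x : ℤ) = E * N - α) (hm : N = x + m) :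
    ∃ f κ h r w s : ℕ, 0 < f ∧ 0 < κ ∧ 0 < h ∧ 0 < r ∧ 0 < w ∧ 0 < s ∧
      Nat.Coprime (κ * h) f ∧ G = h * r + f * w ∧ κ * w ≤ r ∧ m = r + f * s ∧
      x + κ * w = κ * h * s ∧ κ * G + s < κ * h * s ∧
      b ≤ (κ * h - 1) * ((κ * G + 1) * a - 1) := by
  obtain ⟨K, q, d, e, j, N₀, σ, G', hkK, hq2, he, heq, hd, heK, cop, heN, h1, h2, h3, h4, h5, h6,
    h7, h8, hj0, h9, h10, h11, h12, hcase⟩ := low_level a b ha hlt hab g hE1 x hxx
  obtain ⟨κ, p, h, hκ, hp, hh, hd', he', hcop, hGd⟩ := frac hd he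
  have hpG : p ∣ G := (hGd G).1 h7
  have hG0 := g.hG
  have hG3 : 3 ≤ G := low_three a b ha hlt hab N E α k G g hE1
  have hG'G : G' ≤ G := Nat.le_of_dvd hG0 h2
  have hne : G' ≠ G := by
    intro h0; apply h8; rw [h0]; exact h7
  have hp1 : p ≠ 1 := by
    intro h0; apply h8; exact (hGd G').2 (by rw [h0]; exact one_dvd _)
  have hG'c : G' = 1 ∨ (G = 4 ∧ G' < 3) := by
    rcases hG with h0 | hP | h0
    · omega
    · rcases (Nat.dvd_prime hP).1 h2 with h0 | h0
      · exact Or.inl h0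
      · exact absurd h0 hne
    · right
      refine ⟨h0, ?_⟩
      subst h0
      by_contra hcon
      push Not at hcon
      have : G' = 3 := by omega
      rw [this] at h2
      exact absurd h2 (by decide)
  rcases hcase with ⟨hmin, N₁, x₁, i1, g₁, i2, i3, i4, i5⟩ | ⟨hmaj, α₀, x', i1, g₀, hEK, i3, i4, i5⟩
  · have he2 : 2 ≤ e := by
      by_contra hcon
      push Not at hcon
      have he1' : e = 1 := by omega
      subst he1'
      have := low_three a b ha hlt hab N₁ 1 d 0 G' g₁ (by norm_num)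
      omega
    have hq := minor_q cop heN h10 hmin hκ hd' he'
    have hpeq : p = G := by
      rcases hG with h0 | hP | h0
      · omega
      · rcases (Nat.dvd_prime hP).1 hpG with h0 | h0
        · exact absurd h0 hp1
        · exact h0
      · subst h0
        have hp4 : p ≤ 4 := Nat.le_of_dvd (by norm_num) hpG
        have : p = 3 ∨ p = 4 := by omega
        rcases this with h0 | h0
        · exact absurd (h0 ▸ hpG : 3 ∣ 4) (by decide)
        · exact h0
    obtain ⟨f, hf⟩ : ∃ f, q = e + f := ⟨q - e, by omega⟩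
    have hf0 : 0 < f := by omega
    have hfxm : f * x + d = e * m := by
      have e1 : e * N = e * x + e * m := by rw [hm]; ring
      have e2 : q * x = e * x + f * x := by rw [hf]; ring
      omega
    -- q m = f N + d
    have hqm : q * m = f * N + d := by
      have e1 : q * m = e * m + f * m := by rw [hf]; ring
      have e2 : f * N = f * x + f * m := by rw [hm]; ring
      omega
    -- m = r + f σ
    obtain ⟨r, hr⟩ : ∃ r, m = r + f * σ := by
      refine ⟨m - f * σ, ?_⟩
      have : f * σ ≤ m := by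
        by_contra hcon
        push Not at hcon
        have e1 : q * m ≤ q * (f * σ) := Nat.mul_le_mul_left q hcon.le
        have e2 : f * N = f * N₀ + q * (f * σ) := by rw [h10]; ring
        omega
      omega
    -- q r = f N₀ + d
    have hqr : q * r = f * N₀ + d := by
      have e1 : q * m = q * r + q * (f * σ) := by rw [hr]; ring
      have e2 : f * N = f * N₀ + q * (f * σ) := by rw [h10]; ring
      omega
    have hrN : N₀ < r := by
      by_contra hcon
      push Not at hcon
      have e1 : e * r ≤ e * N₀ := Nat.mul_le_mul_left e hcon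
      have e2 : f * r ≤ f * N₀ := Nat.mul_le_mul_left f hcon
      have e3 : q * r = e * r + f * r := by rw [hf]; ring
      omega
    obtain ⟨v, hv⟩ : ∃ v, r = N₀ + v := ⟨r - N₀, by omega⟩
    have hv0 : 0 < v := by omega
    -- e r + f v = d
    have hev : e * r + f * v = d := by
      have e3 : q * r = e * r + f * r := by rw [hf]; ring
      have e4 : f * r = f * N₀ + f * v := by rw [hv]; ring
      omega
    have copf : Nat.Coprime e f := by
      rw [hf] at cop
      have h1 : Nat.Coprime (f + e) e := by rw [Nat.add_comm]; exact cop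
      exact ((Nat.coprime_add_self_left).1 h1).symm
    obtain ⟨w, hw⟩ : κ ∣ v := by
      have e1 : κ ∣ f * v := by
        have e2 : κ ∣ e * r + f * v := by rw [hev, hd']; exact dvd_mul_right _ _
        have e3 : κ ∣ e * r := by rw [he', mul_assoc]; exact dvd_mul_right _ _
        exact (Nat.dvd_add_right e3).1 e2
      have e4 : Nat.Coprime κ f := Nat.Coprime.coprime_dvd_left ⟨h, he'⟩ copf
      exact e4.dvd_of_dvd_mul_left e1
    have hw0 : 0 < w := by
      rcases Nat.eq_zero_or_pos w with h0 | h0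
      · rw [h0, mul_zero] at hw; omega
      · exact h0
    have hGw : G = h * r + f * w := by
      have e1 : κ * G = κ * (h * r + f * w) := by
        calc κ * G = d := by rw [hd', hpeq]
          _ = e * r + f * v := hev.symm
          _ = κ * (h * r + f * w) := by rw [he', hw]; ring
      exact Nat.eq_of_mul_eq_mul_left hκ e1
    have hxw : x + κ * w = κ * h * σ := by
      have e1 : f * (x + κ * w) = f * (κ * h * σ) := by
        have e2 : f * x + κ * G = κ * h * m := by rw [← hpeq, ← hd', ← he']; exact hfxm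
        have e3 : κ * h * m = κ * h * r + f * (κ * h * σ) := by rw [hr]; ring
        have e4 : κ * G = κ * h * r + f * (κ * w) := by rw [hGw]; ring
        have e5 : f * (x + κ * w) = f * x + f * (κ * w) := by ring
        omega
      exact Nat.eq_of_mul_eq_mul_left hf0 e1
    have hG'1 : G' = 1 := by
      rcases hG'c with h0 | ⟨h0, h9'⟩
      · exact h0
      · by_contra hcon
        have hG'2 : G' = 2 := by omega
        have hG'x : G' ∣ x := by rw [← h9]; exact h3.mul_left j
        have hqG := minor_qG cop heN h10 hmin hκ hd' he' hG0 h1 hpG h2 h5 h6 hG'x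
        rw [h0, hG'2] at hqG
        omega
    subst hG'1
    refine ⟨f, κ, h, r, w, σ, hf0, hκ, hh, by omega, hw0, h11,
      by rw [← he']; exact copf, hGw, by rw [← hw]; omega, hr, hxw, ?_, ?_⟩
    swap
    · have hb := unit_ratio a b ha hlt hab N₁ e d 0 g₁
      rw [← he']
      have e4 : κ * G = d := by rw [hd', hpeq]
      rw [e4]
      obtain ⟨t, ht⟩ : ∃ t, e = t + 1 := ⟨e - 1, by omega⟩
      have e3 : 1 ≤ (d + 1) * a := Nat.mul_pos (by omega) (by omega)
      have hbZ : (b : ℤ) ≤ (((e - 1) * ((d + 1) * a - 1) : ℕ) : ℤ) := by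
        rw [Nat.cast_mul, Nat.cast_sub e3, Nat.cast_sub (by omega)]
        push_cast at hb ⊢
        linarith
      exact_mod_cast hbZ
    have hu := unit_state a b ha hlt hab N₁ e d 0 g₁ x₁ i5
    -- (e - 1) σ > d
    obtain ⟨e', he'1⟩ : ∃ e', e = e' + 1 := ⟨e - 1, by omega⟩
    have e1 : e * N₁ = e' * N₁ + N₁ := by rw [he'1]; ring
    have e2 : e' * N₁ ≤ e' * σ := Nat.mul_le_mul_left e' i2
    have e3 : e * σ = e' * σ + σ := by rw [he'1]; ring
    rw [← he']
    have e4 : κ * G = d := by rw [hd', hpeq]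
    rw [e4]
    omega
  · exfalso
    have := low_three a b ha hlt hab N₀ E α₀ K G' g₀ hEK
    omega

/-- consequence for the start -/
theorem start_param (a b : ℕ) (ha : 2 ≤ a) (hlt : a < b) (hab : Nat.Coprime a b) {m' n' : ℕ}
    (h : ∃ (N₁ x₁ E G₁ : ℕ) (α : ℤ) (k : ℚ), N₁ ≤ n' ∧ GoodG a b N₁ E α k G₁ ∧
      (E : ℚ) - k ≤ 1 ∧ (x₁ : ℤ) = E * N₁ - α ∧ N₁ = m' + x₁ ∧
      ((N₁ = n' ∧ G₁ = Nat.gcd m' n') ∨ (m' ∣ n' ∧ G₁ ∣ m' ∧ ¬ m' ∣ G₁)))
    (hP : Nat.gcd m' n' = 1 ∨ (Nat.gcd m' n').Prime ∨ Nat.gcd m' n' = 4) :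
    ∃ f κ h r w s : ℕ, 0 < f ∧ 0 < κ ∧ 0 < h ∧ 0 < r ∧ 0 < w ∧ 0 < s ∧
      Nat.Coprime (κ * h) f ∧ Nat.gcd m' n' = h * r + f * w ∧ κ * w ≤ r ∧ m' = r + f * s ∧
      n' + κ * w = m' + κ * h * s ∧ κ * Nat.gcd m' n' + s < κ * h * s ∧
      b ≤ (κ * h - 1) * ((κ * Nat.gcd m' n' + 1) * a - 1) := by
  obtain ⟨N₁, x₁, E, G₁, α, k, hN₁, g, hE1, hx, hN, hor⟩ := h
  have h3 := low_three a b ha hlt hab N₁ E α k G₁ g hE1
  rcases hor with ⟨hNn, hG⟩ | ⟨hdvd, hG1, hG2⟩
  · subst hNn
    subst hG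
    obtain ⟨f, κ, h, r, w, s, c1, c2, c3, c4, c5, c6, c7, c8, c9, c10, c11, c12, c13⟩ :=
      low_param a b ha hlt hab g hE1 hP x₁ m' hx (by omega)
    exact ⟨f, κ, h, r, w, s, c1, c2, c3, c4, c5, c6, c7, c8, c9, c10, by omega, c12, c13⟩
  · exfalso
    have hγ : Nat.gcd m' n' = m' := Nat.gcd_eq_left hdvd
    rw [hγ] at hP
    rcases hP with h1 | hP | rfl
    · rw [h1] at hG1
      have := Nat.dvd_one.1 hG1
      omega
    · rcases (Nat.dvd_prime hP).1 hG1 with h0 | h0
      · omega
      · apply hG2; rw [h0]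
    · have h4 : G₁ ≤ 4 := Nat.le_of_dvd (by norm_num) hG1
      have : G₁ = 3 ∨ G₁ = 4 := by omega
      rcases this with h0 | h0
      · rw [h0] at hG1; exact absurd hG1 (by decide)
      · rw [h0] at hG2; exact hG2 (dvd_refl 4)

end Pool.Agent.Lib.MP_2d59ee_ag
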