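import Mathlib
import Pool.Agent.Lib.MP_2d59ee_ag.R.R10

set_option autoImplicit false

/-! Mean values of the divisor function and the counting step with a rate. -/

namespace Pool.Agent.Lib.MP_2d59ee_ag.Rate

open Finset Pool.Agent.Lib.MP_2d59ee_ag.Count

/-- the harmonic sum -/
noncomputable def H (n : ℕ) : ℝ := ∑ d ∈ Icc 1 n, (1 : ℝ) / d

theorem H_nonneg (n : ℕ) : 0 ≤ H n := sum_nonneg fun _ _ => by positivity

theorem H_mono {m n : ℕ} (h : m ≤ n) : H m ≤ H n := by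
  unfold H
  refine sum_le_sum_of_subset_of_nonneg (Icc_subset_Icc_right h) fun _ _ _ => by positivity

theorem one_le_H {n : ℕ} (hn : 1 ≤ n) : 1 ≤ H n := by
  have h1 : H 1 = 1 := by simp [H]
  rw [← h1]
  exact H_mono hn

theorem H_le (n : ℕ) : H n ≤ 1 + Real.log n := by
  have h1 := harmonic_le_one_add_log n
  rw [harmonic_eq_sum_Icc] at h1
  unfold H
  push_cast at h1
  simpa [one_div] using h1

theorem card_mult (n d : ℕ) : (((Icc 1 n).filter (fun e => d ∣ e)).card : ℝ) ≤ (n : ℝ) / d := by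
  have h1 : (Icc 1 n).filter (fun e => d ∣ e) = (Ioc 0 n).filter (fun e => d ∣ e) := by
    ext e
    simp only [mem_filter, mem_Icc, mem_Ioc]
    omega
  rw [h1, Nat.Ioc_filter_dvd_card_eq_div]
  exact Nat.cast_div_le

/-- first moment of the divisor function -/
theorem tau1 (n : ℕ) : ∑ e ∈ Icc 1 n, (e.divisors.card : ℝ) ≤ n * H n := by
  have h1 : ∀ e ∈ Icc 1 n, (e.divisors.card : ℝ) = ∑ d ∈ Icc 1 n, if d ∣ e then (1 : ℝ) else 0 := by
    intro e he
    rw [mem_Icc] at he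
    rw [← sum_filter, sum_const, nsmul_eq_mul, mul_one]
    congr 2
    ext d
    rw [Nat.mem_divisors, mem_filter, mem_Icc]
    constructor
    · rintro ⟨h2, h3⟩
      exact ⟨⟨Nat.pos_of_dvd_of_pos h2 (by omega), (Nat.le_of_dvd (by omega) h2).trans he.2⟩, h2⟩
    · rintro ⟨-, h2⟩
      exact ⟨h2, by omega⟩
  rw [sum_congr rfl h1, sum_comm]
  unfold H
  rw [mul_sum]
  refine sum_le_sum fun d _ => ?_
  rw [← sum_filter, sum_const, nsmul_eq_mul, mul_one, mul_one_div]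
  exact card_mult n d

/-- second moment of the divisor function -/
theorem tau2 (n : ℕ) : ∑ e ∈ Icc 1 n, (e.divisors.card : ℝ) ^ 2 ≤ n * H n ^ 3 := by
  classical
  set W := Icc 1 n ×ˢ (Icc 1 n ×ˢ Icc 1 n) with hW
  have h1 : ∀ e ∈ Icc 1 n, (e.divisors.card : ℝ) ^ 2 ≤
      ∑ w ∈ W, if w.1 * (w.2.1 * w.2.2) ∣ e then (1 : ℝ) else 0 := by
    intro e he
    rw [mem_Icc] at he
    have he0 : e ≠ 0 := by omega
    rw [← sum_filter, sum_const, nsmul_eq_mul, mul_one]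
    have h2 : (e.divisors ×ˢ e.divisors).card ≤
        (W.filter (fun w => w.1 * (w.2.1 * w.2.2) ∣ e)).card := by
      refine card_le_card_of_injOn
        (fun v : ℕ × ℕ => (Nat.gcd v.1 v.2, v.1 / Nat.gcd v.1 v.2, v.2 / Nat.gcd v.1 v.2)) ?_ ?_
      · rintro ⟨a, b⟩ hv
        rw [mem_coe, mem_product, Nat.mem_divisors, Nat.mem_divisors] at hv
        obtain ⟨⟨ha, -⟩, ⟨hb, -⟩⟩ := hv
        simp only at ha hb
        have ha0 : 0 < a := Nat.pos_of_dvd_of_pos ha (by omega)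
        have hb0 : 0 < b := Nat.pos_of_dvd_of_pos hb (by omega)
        have han : a ≤ n := (Nat.le_of_dvd (by omega) ha).trans he.2
        have hbn : b ≤ n := (Nat.le_of_dvd (by omega) hb).trans he.2
        have hg0 : 0 < Nat.gcd a b := Nat.gcd_pos_of_pos_left _ ha0
        have hga := Nat.gcd_dvd_left a b
        have hgb := Nat.gcd_dvd_right a b
        rw [mem_coe, mem_filter, hW, mem_product, mem_product, mem_Icc, mem_Icc, mem_Icc]
        simp only
        refine ⟨⟨⟨hg0, (Nat.le_of_dvd ha0 hga).trans han⟩,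
          ⟨Nat.div_pos (Nat.le_of_dvd ha0 hga) hg0, (Nat.div_le_self _ _).trans han⟩,
          ⟨Nat.div_pos (Nat.le_of_dvd hb0 hgb) hg0, (Nat.div_le_self _ _).trans hbn⟩⟩, ?_⟩
        have h3 : Nat.gcd a b * (a / Nat.gcd a b * (b / Nat.gcd a b)) = Nat.lcm a b := by
          rw [← mul_assoc, Nat.mul_div_cancel' hga, Nat.lcm, Nat.mul_div_assoc _ hgb]
        rw [h3]
        exact Nat.lcm_dvd ha hb
      · rintro ⟨a, b⟩ hv ⟨a', b'⟩ hv' hab
        simp only [Prod.mk.injEq] at hab ⊢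
        obtain ⟨h3, h4, h5⟩ := hab
        refine ⟨?_, ?_⟩
        · rw [← Nat.mul_div_cancel' (Nat.gcd_dvd_left a b), h4, h3,
            Nat.mul_div_cancel' (Nat.gcd_dvd_left a' b')]
        · rw [← Nat.mul_div_cancel' (Nat.gcd_dvd_right a b), h5, h3,
            Nat.mul_div_cancel' (Nat.gcd_dvd_right a' b')]
    rw [card_product] at h2
    have h3 : ((e.divisors.card * e.divisors.card : ℕ) : ℝ) ≤
        ((W.filter (fun w => w.1 * (w.2.1 * w.2.2) ∣ e)).card : ℝ) := by exact_mod_cast h2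
    push_cast at h3
    rw [pow_two]
    exact h3
  refine (sum_le_sum h1).trans ?_
  rw [sum_comm]
  have h2 : ∀ w ∈ W, (∑ e ∈ Icc 1 n, if w.1 * (w.2.1 * w.2.2) ∣ e then (1 : ℝ) else 0) ≤
      n * ((1 / (w.1 : ℝ)) * ((1 / (w.2.1 : ℝ)) * (1 / (w.2.2 : ℝ)))) := by
    intro w _
    rw [← sum_filter, sum_const, nsmul_eq_mul, mul_one]
    refine (card_mult n _).trans (le_of_eq ?_)
    push_cast
    rw [one_div_mul_one_div, one_div_mul_one_div, mul_one_div]
  refine (sum_le_sum h2).trans (le_of_eq ?_)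
  rw [← mul_sum, hW, sum_product]
  simp_rw [sum_product, ← mul_sum, ← sum_mul]
  unfold H
  ring


open Classical in
/-- the pairs on lines with `q ≤ R` -/
theorem small_card (G X R : ℕ) (hRX : R ≤ X) :
    (((box X).filter (fun v => v.2 < v.1 ∧ ∃ q e κ p h : ℕ, q ≤ R ∧ 0 < e ∧ e < q ∧
      Nat.Coprime q e ∧ e = κ * h ∧ 0 < p ∧ p ≤ G ∧ e * v.1 = q * v.2 + κ * p)).card : ℝ)
        ≤ 2 * G * R * X * H X := by
  have hsub : ((box X).filter (fun v => v.2 < v.1 ∧ ∃ q e κ p h : ℕ, q ≤ R ∧ 0 < e ∧ e < q ∧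
      Nat.Coprime q e ∧ e = κ * h ∧ 0 < p ∧ p ≤ G ∧ e * v.1 = q * v.2 + κ * p)) ⊆
      (Icc 1 R).biUnion fun q => ((Icc 1 q).filter fun e => Nat.Coprime q e).biUnion
        fun e => e.divisors.biUnion fun κ => (Icc 1 G).biUnion fun p =>
          (box X).filter (fun v => e * v.1 = q * v.2 + κ * p) := by
    intro u hu
    rw [mem_filter] at hu
    obtain ⟨hu0, hu1, q, e, κ, p, h, hqR, he0, heq, cop, he, hp, hpG, hdet⟩ := hu
    simp only [mem_biUnion, mem_Icc, mem_filter, Nat.mem_divisors]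
    exact ⟨q, ⟨by omega, hqR⟩, e, ⟨⟨he0, heq.le⟩, cop⟩, κ, ⟨⟨h, he⟩, he0.ne'⟩, p, ⟨hp, hpG⟩, hu0,
      hdet⟩
  have h0 : (((box X).filter (fun v => v.2 < v.1 ∧ ∃ q e κ p h : ℕ, q ≤ R ∧ 0 < e ∧ e < q ∧
      Nat.Coprime q e ∧ e = κ * h ∧ 0 < p ∧ p ≤ G ∧ e * v.1 = q * v.2 + κ * p)).card) ≤
      ∑ q ∈ Icc 1 R, ∑ e ∈ Icc 1 q, e.divisors.card * (G * (X / q + 1)) := by
    refine (card_le_card hsub).trans ?_
    refine card_biUnion_le.trans ?_
    refine sum_le_sum fun q hq => ?_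
    rw [mem_Icc] at hq
    refine card_biUnion_le.trans ?_
    refine le_trans (sum_le_sum (g := fun e => e.divisors.card * (G * (X / q + 1))) ?_)
      (sum_le_sum_of_subset (filter_subset _ _))
    intro e he
    rw [mem_filter, mem_Icc] at he
    have hκ : ∀ κ ∈ e.divisors, ((Icc 1 G).biUnion fun p =>
        (box X).filter (fun v => e * v.1 = q * v.2 + κ * p)).card ≤ G * (X / q + 1) := by
      intro κ _
      refine (card_biUnion_le_card_mul _ _ (X / q + 1) fun p _ => ?_).trans ?_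
      · exact card_line X q e (κ * p) (by omega) he.2
      · rw [Nat.card_Icc, Nat.add_sub_cancel]
    exact card_biUnion_le_card_mul _ _ _ hκ
  have h1 : ((∑ q ∈ Icc 1 R, ∑ e ∈ Icc 1 q, e.divisors.card * (G * (X / q + 1)) : ℕ) : ℝ) ≤
      ∑ q ∈ Icc 1 R, 2 * (G : ℝ) * X * H X := by
    push_cast
    refine sum_le_sum fun q hq => ?_
    rw [mem_Icc] at hq
    rw [← sum_mul]
    have hqX : q ≤ X := hq.2.trans hRX
    have hq0 : (0 : ℝ) < q := by exact_mod_cast (by omega : 0 < q)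
    have h2 : (((X / q : ℕ) : ℝ) + 1) ≤ 2 * X / q := by
      have h3 : ((X / q : ℕ) : ℝ) ≤ (X : ℝ) / q := Nat.cast_div_le
      have h4 : (1 : ℝ) ≤ (X : ℝ) / q := by
        rw [one_le_div hq0]; exact_mod_cast hqX
      have h5 : 2 * (X : ℝ) / q = X / q + X / q := by ring
      linarith
    have h3 : ∑ e ∈ Icc 1 q, (e.divisors.card : ℝ) ≤ q * H X :=
      (tau1 q).trans (mul_le_mul_of_nonneg_left (H_mono hqX) hq0.le)
    calc (∑ e ∈ Icc 1 q, (e.divisors.card : ℝ)) * (G * (((X / q : ℕ) : ℝ) + 1))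
        ≤ (q * H X) * (G * (2 * X / q)) := by
          refine mul_le_mul h3 (mul_le_mul_of_nonneg_left h2 (Nat.cast_nonneg _)) (by positivity)
            (mul_nonneg hq0.le (H_nonneg X))
      _ = 2 * (G : ℝ) * X * H X := by field_simp
  have h2 : (∑ q ∈ Icc 1 R, 2 * (G : ℝ) * X * H X) = 2 * G * R * X * H X := by
    rw [sum_const, Nat.card_Icc, Nat.add_sub_cancel, nsmul_eq_mul]
    ring
  rw [← h2]
  exact le_trans (by exact_mod_cast h0) h1

open Classical in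
/-- the pairs with a child in `A` and `q > R` -/
theorem large_card (X G R : ℕ) (hR : 0 < R) (A : Finset (ℕ × ℕ))
    (hA : ∀ v ∈ A, 0 < v.2 ∧ v.2 < v.1 ∧ v.1 ≤ X) :
    (((box X).filter (fun u => ∃ N₀ x' σ q e κ p h : ℕ, (N₀, x') ∈ A ∧ u.1 = N₀ + q * σ ∧
      u.2 = x' + e * σ ∧ 0 < σ ∧ R < q ∧ 0 < κ ∧ 0 < p ∧ p ≤ G ∧ 0 < h ∧ e = κ * h ∧ e < q ∧
      Nat.Coprime q e ∧ e * N₀ = q * x' + κ * p)).card : ℝ) ≤
      (G : ℝ) * (G + 1) * ((X : ℝ) / R) * ∑ v ∈ A, (v.2.divisors.card : ℝ) * ((X : ℝ) / v.1) := by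
  have hsub : ((box X).filter (fun u => ∃ N₀ x' σ q e κ p h : ℕ, (N₀, x') ∈ A ∧
      u.1 = N₀ + q * σ ∧
      u.2 = x' + e * σ ∧ 0 < σ ∧ R < q ∧ 0 < κ ∧ 0 < p ∧ p ≤ G ∧ 0 < h ∧ e = κ * h ∧ e < q ∧
      Nat.Coprime q e ∧ e * N₀ = q * x' + κ * p)) ⊆
      A.biUnion fun v => v.2.divisors.biUnion fun κ => (Icc 1 G).biUnion fun p =>
        ((box X).filter (fun w => w.2 * v.1 = w.1 * (v.2 / κ) + p)).biUnion fun w =>
          (Icc 1 (X / R)).image fun σ => (v.1 + w.1 * σ, v.2 + κ * w.2 * σ) := by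
    intro u hu
    rw [mem_filter, mem_box] at hu
    obtain ⟨⟨hu1, hu2⟩, N₀, x', σ, q, e, κ, p, h, hAv, e1, e2, hσ, hRq, hκ, hp, hpG, hh, he, heq,
      cop, hdet⟩ := hu
    obtain ⟨hx0, hxN, hNX⟩ := hA _ hAv
    simp only at hx0 hxN hNX
    have hκe : κ ∣ e := ⟨h, he⟩
    have hκx : κ ∣ x' := by
      have h1 : κ ∣ q * x' := by
        have h2 : κ ∣ q * x' + κ * p := by rw [← hdet]; exact hκe.mul_right _
        exact (Nat.dvd_add_left (Dvd.intro _ rfl)).1 h2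
      have h3 : Nat.Coprime κ q := (Nat.Coprime.coprime_dvd_right hκe cop).symm
      exact h3.dvd_of_dvd_mul_left h1
    obtain ⟨y, hy⟩ := hκx
    have hqσ : q * σ ≤ X := by rw [e1] at hu1; omega
    have hqX : q ≤ X := (Nat.le_mul_of_pos_right q hσ).trans hqσ
    have hhX : h ≤ X := by
      have : h ≤ e := by rw [he]; exact Nat.le_mul_of_pos_left h hκ
      omega
    have hσR : σ ≤ X / R := by
      rw [Nat.le_div_iff_mul_le hR]
      calc σ * R ≤ σ * q := Nat.mul_le_mul_left σ hRq.le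
        _ = q * σ := mul_comm _ _
        _ ≤ X := hqσ
    have hyd : x' / κ = y := by rw [hy]; exact Nat.mul_div_cancel_left y hκ
    simp only [mem_biUnion, mem_image, mem_Icc, mem_filter, mem_box, Nat.mem_divisors]
    refine ⟨(N₀, x'), hAv, κ, ⟨⟨y, hy⟩, hx0.ne'⟩, p, ⟨hp, hpG⟩, (q, h), ⟨⟨hqX, hhX⟩, ?_⟩, σ,
      ⟨hσ, hσR⟩, ?_⟩
    · simp only
      rw [hyd]
      have h1 : κ * (h * N₀) = κ * (q * y + p) := by
        calc κ * (h * N₀) = (κ * h) * N₀ := by ring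
          _ = q * x' + κ * p := by rw [← he]; exact hdet
          _ = κ * (q * y + p) := by rw [hy]; ring
      exact Nat.eq_of_mul_eq_mul_left hκ h1
    · refine Prod.ext ?_ ?_
      · simp only; exact e1.symm
      · simp only; rw [← he]; exact e2.symm
  have hcard := card_le_card hsub
  have h2 : ((A.biUnion fun v => v.2.divisors.biUnion fun κ => (Icc 1 G).biUnion fun p =>
        ((box X).filter (fun w => w.2 * v.1 = w.1 * (v.2 / κ) + p)).biUnion fun w =>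
          (Icc 1 (X / R)).image fun σ => (v.1 + w.1 * σ, v.2 + κ * w.2 * σ)).card : ℝ) ≤
      ∑ v ∈ A, (G : ℝ) * (G + 1) * ((X : ℝ) / R) *
        ((v.2.divisors.card : ℝ) * ((X : ℝ) / v.1)) := by
    refine le_trans (Nat.cast_le.2 card_biUnion_le) ?_
    push_cast
    refine sum_le_sum fun v hv => ?_
    obtain ⟨hx0, hxN, hNX⟩ := hA v hv
    have hv1 : 0 < v.1 := by omega
    have hv1R : (0 : ℝ) < v.1 := by exact_mod_cast hv1
    have hb : ∀ κ ∈ v.2.divisors, ∀ p ∈ Icc 1 G,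
        (((((box X).filter (fun w => w.2 * v.1 = w.1 * (v.2 / κ) + p)).biUnion fun w =>
          (Icc 1 (X / R)).image fun σ => (v.1 + w.1 * σ, v.2 + κ * w.2 * σ)).card : ℕ) : ℝ) ≤
        ((X : ℝ) / R) * (((G : ℝ) + 1) * ((X : ℝ) / v.1)) := by
      intro κ _ p hp
      rw [mem_Icc] at hp
      have hQ := card_Q X v.1 (v.2 / κ) p G hv1 hp.1 hp.2
      have hQR : ((((box X).filter (fun w => w.2 * v.1 = w.1 * (v.2 / κ) + p)).card : ℕ) : ℝ) ≤
          ((G : ℝ) + 1) * ((X : ℝ) / v.1) := by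
        rw [← mul_div_assoc, le_div_iff₀ hv1R]
        have h5 : ((((box X).filter (fun w => w.2 * v.1 = w.1 * (v.2 / κ) + p)).card : ℕ) : ℝ) *
            v.1 ≤ (G : ℝ) * X + v.1 := by exact_mod_cast hQ
        have h6 : (v.1 : ℝ) ≤ X := by exact_mod_cast hNX
        linarith
      have hσ : (((X / R : ℕ)) : ℝ) ≤ (X : ℝ) / R := Nat.cast_div_le
      have h3 : ((((box X).filter (fun w => w.2 * v.1 = w.1 * (v.2 / κ) + p)).biUnion fun w =>
          (Icc 1 (X / R)).image fun σ => (v.1 + w.1 * σ, v.2 + κ * w.2 * σ)).card : ℕ) ≤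
          ((box X).filter (fun w => w.2 * v.1 = w.1 * (v.2 / κ) + p)).card * (X / R) := by
        refine card_biUnion_le_card_mul _ _ _ fun w _ => ?_
        refine card_image_le.trans ?_
        rw [Nat.card_Icc, Nat.add_sub_cancel]
      calc _ ≤ ((((box X).filter (fun w => w.2 * v.1 = w.1 * (v.2 / κ) + p)).card * (X / R) : ℕ)
            : ℝ) := by exact_mod_cast h3
        _ ≤ (((G : ℝ) + 1) * ((X : ℝ) / v.1)) * ((X : ℝ) / R) := by
            push_cast
            exact mul_le_mul hQR hσ (by positivity) (by positivity)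
        _ = _ := mul_comm _ _
    have hb2 : ∀ κ ∈ v.2.divisors, ((((Icc 1 G).biUnion fun p =>
        ((box X).filter (fun w => w.2 * v.1 = w.1 * (v.2 / κ) + p)).biUnion fun w =>
          (Icc 1 (X / R)).image fun σ => (v.1 + w.1 * σ, v.2 + κ * w.2 * σ)).card : ℕ) : ℝ) ≤
        (G : ℝ) * (((X : ℝ) / R) * (((G : ℝ) + 1) * ((X : ℝ) / v.1))) := by
      intro κ hκ
      refine le_trans (Nat.cast_le.2 card_biUnion_le) ?_
      push_cast
      refine (sum_le_card_nsmul _ _ _ (hb κ hκ)).trans ?_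
      rw [Nat.card_Icc, nsmul_eq_mul]
      simp
    have hb3 : (((v.2.divisors.biUnion fun κ => (Icc 1 G).biUnion fun p =>
        ((box X).filter (fun w => w.2 * v.1 = w.1 * (v.2 / κ) + p)).biUnion fun w =>
          (Icc 1 (X / R)).image fun σ => (v.1 + w.1 * σ, v.2 + κ * w.2 * σ)).card : ℕ) : ℝ) ≤
        (v.2.divisors.card : ℝ) *
          ((G : ℝ) * (((X : ℝ) / R) * (((G : ℝ) + 1) * ((X : ℝ) / v.1)))) := by
      refine le_trans (Nat.cast_le.2 card_biUnion_le) ?_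
      push_cast
      refine (sum_le_card_nsmul _ _ _ hb2).trans ?_
      rw [nsmul_eq_mul]
    refine hb3.trans (le_of_eq ?_)
    ring
  calc _ ≤ ((A.biUnion fun v => v.2.divisors.biUnion fun κ => (Icc 1 G).biUnion fun p =>
        ((box X).filter (fun w => w.2 * v.1 = w.1 * (v.2 / κ) + p)).biUnion fun w =>
          (Icc 1 (X / R)).image fun σ => (v.1 + w.1 * σ, v.2 + κ * w.2 * σ)).card : ℝ) := by
          exact_mod_cast hcard
    _ ≤ _ := h2
    _ = _ := by rw [mul_sum]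

/-- Cauchy-Schwarz for the divisor function on a set of pairs -/
theorem cs (X : ℕ) (A : Finset (ℕ × ℕ)) (hA : ∀ v ∈ A, 0 < v.2 ∧ v.2 < v.1 ∧ v.1 ≤ X) :
    (∑ v ∈ A, (v.2.divisors.card : ℝ) * ((X : ℝ) / v.1)) ^ 2 ≤ A.card * ((X : ℝ) ^ 2 * H X ^ 4) := by
  classical
  have h1 := sum_mul_sq_le_sq_mul_sq A (fun _ => (1 : ℝ))
    (fun v => (v.2.divisors.card : ℝ) * ((X : ℝ) / v.1))
  simp only [one_mul, one_pow, sum_const, nsmul_eq_mul, mul_one] at h1
  refine h1.trans (mul_le_mul_of_nonneg_left ?_ (Nat.cast_nonneg _))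
  have hsub : A ⊆ (Icc 1 X ×ˢ Icc 1 X).filter (fun v => v.2 ≤ v.1) := by
    intro v hv
    obtain ⟨a1, a2, a3⟩ := hA v hv
    rw [mem_filter, mem_product, mem_Icc, mem_Icc]
    omega
  refine (sum_le_sum_of_subset_of_nonneg hsub fun _ _ _ => by positivity).trans ?_
  rw [sum_filter, sum_product]
  have h2 : ∀ n ∈ Icc 1 X, (∑ x ∈ Icc 1 X, if x ≤ n then
      ((x.divisors.card : ℝ) * ((X : ℝ) / n)) ^ 2 else 0) ≤ (X : ℝ) ^ 2 * H X ^ 3 * (1 / n) := by
    intro n hn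
    rw [mem_Icc] at hn
    have hn0 : (0 : ℝ) < n := by exact_mod_cast hn.1
    have h3 : (∑ x ∈ Icc 1 X, if x ≤ n then
        ((x.divisors.card : ℝ) * ((X : ℝ) / n)) ^ 2 else 0) =
        (∑ x ∈ Icc 1 n, (x.divisors.card : ℝ) ^ 2) * ((X : ℝ) / n) ^ 2 := by
      rw [← sum_filter, sum_mul]
      refine sum_congr ?_ fun x _ => by rw [mul_pow]
      ext x
      rw [mem_filter, mem_Icc, mem_Icc]
      omega
    rw [h3]
    have h4 : ∑ x ∈ Icc 1 n, (x.divisors.card : ℝ) ^ 2 ≤ n * H X ^ 3 :=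
      (tau2 n).trans (mul_le_mul_of_nonneg_left
        (pow_le_pow_left₀ (H_nonneg n) (H_mono hn.2) 3) hn0.le)
    refine (mul_le_mul_of_nonneg_right h4 (by positivity)).trans (le_of_eq ?_)
    field_simp
  refine (sum_le_sum h2).trans (le_of_eq ?_)
  rw [← mul_sum]
  unfold H
  ring

end Pool.Agent.Lib.MP_2d59ee_ag.Rate
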