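import Mathlib
import Pool.Agent.Lib.MP_2d59ee_ag.R.R18

set_option autoImplicit false

/-! The exceptional pairs: induction over the level, with a rate. -/

namespace Pool.Agent.Lib.MP_2d59ee_ag.Rate

open Finset Pool.Agent.Lib.MP_2d59ee_ag.Count

/-- the number of pairs `x < N ≤ X` in `B` -/
noncomputable def cnt (B : ℕ → ℕ → Prop) (X : ℕ) : ℕ :=
  Set.ncard {p : ℕ × ℕ | p.1 ≤ X ∧ p.2 < p.1 ∧ B p.1 p.2}

/-- one level -/
def Step (G : ℕ) (B : ℕ → ℕ → Prop) (N x : ℕ) : Prop :=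
  ∃ N₀ x' σ q e κ p h : ℕ, B N₀ x' ∧ 0 < x' ∧ x' < N₀ ∧ N = N₀ + q * σ ∧
      x = x' + e * σ ∧ 0 < σ ∧ 0 < κ ∧ 0 < p ∧ p ≤ G ∧ 0 < h ∧ e = κ * h ∧ e < q ∧
      Nat.Coprime q e ∧ e * N₀ = q * x' + κ * p

/-- the last level -/
def Minor (G N x : ℕ) : Prop :=
  ∃ q e d : ℕ, 0 < e ∧ e < q ∧ q ≤ G ∧ 0 < d ∧ d ≤ G * G ∧ e * N = q * x + d

theorem cnt_mono {B B' : ℕ → ℕ → Prop} (X : ℕ) (h : ∀ N x, x < N → B N x → B' N x) :
    cnt B X ≤ cnt B' X := by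
  refine Set.ncard_le_ncard ?_ (thin_finite B' X)
  rintro p ⟨h1, h2, h3⟩
  exact ⟨h1, h2, h _ _ h2 h3⟩

theorem cnt_or (B B' : ℕ → ℕ → Prop) (X : ℕ) :
    cnt (fun N x => B N x ∨ B' N x) X ≤ cnt B X + cnt B' X := by
  unfold cnt
  refine le_trans ?_ (Set.ncard_union_le _ _)
  refine Set.ncard_le_ncard ?_ ((thin_finite B X).union (thin_finite B' X))
  rintro p ⟨h1, h2, h3 | h3⟩
  · exact Or.inl ⟨h1, h2, h3⟩
  · exact Or.inr ⟨h1, h2, h3⟩

theorem cnt_triv (B : ℕ → ℕ → Prop) (X : ℕ) : (cnt B X : ℝ) ≤ (X : ℝ) ^ 2 := by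
  have h1 : cnt B X ≤ (Icc 1 X ×ˢ range X).card := by
    unfold cnt
    rw [← Set.ncard_coe_finset]
    refine Set.ncard_le_ncard ?_ (finite_toSet _)
    rintro p ⟨h1, h2, -⟩
    rw [mem_coe, mem_product, mem_Icc, mem_range]
    omega
  rw [card_product, Nat.card_Icc, card_range, Nat.add_sub_cancel] at h1
  have h2 : (cnt B X : ℝ) ≤ ((X * X : ℕ) : ℝ) := by exact_mod_cast h1
  refine h2.trans (le_of_eq ?_)
  push_cast
  ring

/-- one level with a rate: `a` goes to `a ^ (1/4)` -/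
theorem step_card (G X : ℕ) (hG : 1 ≤ G) (hX : 1 ≤ X) (B : ℕ → ℕ → Prop) (U : ℝ) (hU0 : 0 < U)
    (hU1 : U ≤ 1) (hUX : 1 ≤ X * U) (hB : (cnt B X : ℝ) ≤ U ^ 4 * (X : ℝ) ^ 2) :
    (cnt (Step G B) X : ℝ) ≤ 6 * (G : ℝ) ^ 2 * H X ^ 2 * U * (X : ℝ) ^ 2 := by
  classical
  have hX0 : (0 : ℝ) < X := by exact_mod_cast hX
  have hG1 : (1 : ℝ) ≤ G := by exact_mod_cast hG
  have hH1 : 1 ≤ H X := one_le_H hX
  -- the cut
  set R : ℕ := ⌈(X : ℝ) * U⌉₊ with hRdef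
  have hRge : (X : ℝ) * U ≤ R := Nat.le_ceil _
  have hR0' : (0 : ℝ) < R := lt_of_lt_of_le (by linarith) hRge
  have hR0 : 0 < R := by exact_mod_cast hR0'
  have hRle : (R : ℝ) ≤ 2 * (X * U) := by
    have := Nat.ceil_lt_add_one (by positivity : (0 : ℝ) ≤ X * U)
    linarith
  have hRX : R ≤ X := by
    refine Nat.ceil_le.2 ?_
    calc (X : ℝ) * U ≤ X * 1 := mul_le_mul_of_nonneg_left hU1 hX0.le
      _ = X := mul_one _
  have hXR : (X : ℝ) / R ≤ 1 / U := by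
    rw [div_le_div_iff₀ hR0' hU0]
    linarith
  -- the children
  set A : Finset (ℕ × ℕ) := (box X).filter (fun v => 0 < v.2 ∧ v.2 < v.1 ∧ B v.1 v.2) with hA
  have hAprop : ∀ v ∈ A, 0 < v.2 ∧ v.2 < v.1 ∧ v.1 ≤ X := by
    intro v hv
    rw [hA, mem_filter, mem_box] at hv
    exact ⟨hv.2.1, hv.2.2.1, hv.1.1⟩
  have hAcard : (A.card : ℝ) ≤ U ^ 4 * (X : ℝ) ^ 2 := by
    refine le_trans ?_ hB
    rw [Nat.cast_le, cnt, ← Set.ncard_coe_finset]
    refine Set.ncard_le_ncard ?_ (thin_finite B X)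
    intro v hv
    rw [mem_coe, hA, mem_filter, mem_box] at hv
    exact ⟨hv.1.1, hv.2.2.1, hv.2.2.2⟩
  have h1 := small_card G X R hRX
  have h2 := large_card X G R hR0 A hAprop
  have h3 := cs X A hAprop
  set S := ∑ v ∈ A, (v.2.divisors.card : ℝ) * ((X : ℝ) / v.1) with hS
  have hS0 : 0 ≤ S := sum_nonneg fun _ _ => by positivity
  have hS1 : S ≤ U ^ 2 * (X : ℝ) ^ 2 * H X ^ 2 := by
    have h4 : S ^ 2 ≤ (U ^ 2 * (X : ℝ) ^ 2 * H X ^ 2) ^ 2 := by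
      refine h3.trans ?_
      calc (A.card : ℝ) * ((X : ℝ) ^ 2 * H X ^ 4)
          ≤ (U ^ 4 * (X : ℝ) ^ 2) * ((X : ℝ) ^ 2 * H X ^ 4) :=
            mul_le_mul_of_nonneg_right hAcard (by positivity)
        _ = _ := by ring
    exact (pow_le_pow_iff_left₀ hS0 (by positivity) (by norm_num)).1 h4
  set T1 := (box X).filter (fun v => v.2 < v.1 ∧ ∃ q e κ p h : ℕ, q ≤ R ∧ 0 < e ∧ e < q ∧
      Nat.Coprime q e ∧ e = κ * h ∧ 0 < p ∧ p ≤ G ∧ e * v.1 = q * v.2 + κ * p) with hT1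
  set T2 := (box X).filter (fun u => ∃ N₀ x' σ q e κ p h : ℕ, (N₀, x') ∈ A ∧ u.1 = N₀ + q * σ ∧
      u.2 = x' + e * σ ∧ 0 < σ ∧ R < q ∧ 0 < κ ∧ 0 < p ∧ p ≤ G ∧ 0 < h ∧ e = κ * h ∧ e < q ∧
      Nat.Coprime q e ∧ e * N₀ = q * x' + κ * p) with hT2
  have hcover : {p : ℕ × ℕ | p.1 ≤ X ∧ p.2 < p.1 ∧ Step G B p.1 p.2} ⊆
      ((T1 ∪ T2 : Finset (ℕ × ℕ)) : Set (ℕ × ℕ)) := by
    rintro u ⟨hu1, hu2, N₀, x', σ, q, e, κ, p, h, hBv, hx0, hxN, e1, e2, hσ, hκ, hp, hpG, hh, he,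
      heq, cop, hdet⟩
    rw [mem_coe, mem_union]
    have hub : u ∈ box X := mem_box.2 ⟨hu1, hu2.le.trans hu1⟩
    rcases Nat.lt_or_ge R q with hq | hq
    · right
      rw [hT2, mem_filter]
      refine ⟨hub, N₀, x', σ, q, e, κ, p, h, ?_, e1, e2, hσ, hq, hκ, hp, hpG, hh, he, heq, cop,
        hdet⟩
      rw [hA, mem_filter, mem_box]
      have : N₀ ≤ X := by rw [e1] at hu1; omega
      exact ⟨⟨this, hxN.le.trans this⟩, hx0, hxN, hBv⟩
    · left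
      rw [hT1, mem_filter]
      refine ⟨hub, hu2, q, e, κ, p, h, hq, ?_, heq, cop, he, hp, hpG, ?_⟩
      · rw [he]; exact Nat.mul_pos hκ hh
      · rw [e1, e2]
        calc e * (N₀ + q * σ) = e * N₀ + q * (e * σ) := by ring
          _ = q * x' + κ * p + q * (e * σ) := by rw [hdet]
          _ = _ := by ring
  have hcard : (cnt (Step G B) X : ℝ) ≤ (T1.card : ℝ) + T2.card := by
    have h5 := Set.ncard_le_ncard hcover (finite_toSet _)
    rw [Set.ncard_coe_finset] at h5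
    have h6 := card_union_le T1 T2
    exact_mod_cast h5.trans h6
  have hb1 : (T1.card : ℝ) ≤ 4 * (G : ℝ) ^ 2 * H X ^ 2 * U * (X : ℝ) ^ 2 := by
    refine h1.trans ?_
    calc 2 * (G : ℝ) * R * X * H X ≤ 2 * (G : ℝ) * (2 * (X * U)) * X * H X := by gcongr
      _ = 4 * (U * (X : ℝ) ^ 2) * ((G : ℝ) * H X) := by ring
      _ ≤ 4 * (U * (X : ℝ) ^ 2) * ((G : ℝ) ^ 2 * H X ^ 2) := by
          refine mul_le_mul_of_nonneg_left ?_ (by positivity)
          have g1 : (G : ℝ) ≤ (G : ℝ) ^ 2 := by nlinarith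
          have g2 : H X ≤ H X ^ 2 := by nlinarith
          exact mul_le_mul g1 g2 (by linarith) (by positivity)
      _ = _ := by ring
  have hb2 : (T2.card : ℝ) ≤ 2 * (G : ℝ) ^ 2 * H X ^ 2 * U * (X : ℝ) ^ 2 := by
    refine h2.trans ?_
    calc (G : ℝ) * (G + 1) * ((X : ℝ) / R) * S
        ≤ (G : ℝ) * (G + 1) * (1 / U) * (U ^ 2 * (X : ℝ) ^ 2 * H X ^ 2) := by
          refine mul_le_mul (mul_le_mul_of_nonneg_left hXR (by positivity)) hS1 hS0 (by positivity)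
      _ = ((G : ℝ) * (G + 1)) * (H X ^ 2 * U * (X : ℝ) ^ 2) := by field_simp
      _ ≤ (2 * (G : ℝ) ^ 2) * (H X ^ 2 * U * (X : ℝ) ^ 2) := by
          refine mul_le_mul_of_nonneg_right ?_ (by positivity)
          nlinarith
      _ = _ := by ring
  have e1 : 6 * (G : ℝ) ^ 2 * H X ^ 2 * U * (X : ℝ) ^ 2 =
      4 * (G : ℝ) ^ 2 * H X ^ 2 * U * (X : ℝ) ^ 2 + 2 * (G : ℝ) ^ 2 * H X ^ 2 * U * (X : ℝ) ^ 2 := by
    ring
  rw [e1]
  linarith

theorem minor_card (G X : ℕ) (hG : 1 ≤ G) (hX : 1 ≤ X) :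
    (cnt (Minor G) X : ℝ) ≤ 16 * (G : ℝ) ^ 4 * X := by
  classical
  have hX1 : (1 : ℝ) ≤ X := by exact_mod_cast hX
  have hG1 : (1 : ℝ) ≤ G := by exact_mod_cast hG
  set P := (range (X + 1)) ×ˢ ((range (G + 1)) ×ˢ ((range (G + 1)) ×ˢ (range (G * G + 1)))) with hP
  have hsub : {p : ℕ × ℕ | p.1 ≤ X ∧ p.2 < p.1 ∧ Minor G p.1 p.2} ⊆
      ((P.image fun w => (w.1, (w.2.2.1 * w.1 - w.2.2.2) / w.2.1) : Finset (ℕ × ℕ)) :
        Set (ℕ × ℕ)) := by
    rintro u ⟨hu1, hu2, q, e, d, he, heq, hqG, hd, hdG, hdet⟩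
    rw [mem_coe, mem_image]
    refine ⟨(u.1, q, e, d), ?_, ?_⟩
    · simp only [hP, mem_product, mem_range]
      refine ⟨by omega, by omega, by omega, by omega⟩
    · refine Prod.ext rfl ?_
      simp only
      rw [hdet, Nat.add_sub_cancel]
      exact Nat.mul_div_cancel_left _ (by omega)
  have h1 := Set.ncard_le_ncard hsub (finite_toSet _)
  rw [Set.ncard_coe_finset] at h1
  have h2 : P.card = (X + 1) * ((G + 1) * ((G + 1) * (G * G + 1))) := by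
    simp only [hP, card_product, card_range]
  have h3 := h1.trans (card_image_le.trans h2.le)
  have h4 : (cnt (Minor G) X : ℝ) ≤
      ((X : ℝ) + 1) * (((G : ℝ) + 1) * ((G + 1) * (G * G + 1))) := by
    unfold cnt
    exact_mod_cast h3
  refine h4.trans ?_
  calc ((X : ℝ) + 1) * (((G : ℝ) + 1) * ((G + 1) * (G * G + 1)))
      ≤ (2 * X) * ((2 * (G : ℝ)) * ((2 * G) * (2 * (G * G)))) := by
        have g1 : (X : ℝ) + 1 ≤ 2 * X := by linarith
        have g2 : (G : ℝ) + 1 ≤ 2 * G := by linarith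
        have g3 : (G : ℝ) * G + 1 ≤ 2 * (G * G) := by nlinarith
        gcongr
    _ = _ := by ring

/-- a level of a low state, the ambient divisor is at least halved -/
theorem lowP_step2 (G N x : ℕ) (h : LowP G N x) :
    Minor G N x ∨ Step G (fun N₀ x' => ∃ G', 2 * G' ≤ G ∧ LowP G' N₀ x') N x := by
  obtain ⟨a, b, E, α, k, ha, hlt, hab, g, hE1, hxx⟩ := h
  obtain ⟨K, q, d, e, j, N₀, σ, G', hkK, hq2, he, heq, hd, heK, cop, heN, h1, h2, h3, h4, h5, h6,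
    h7, h8, hj0, h9, h10, h11, h12, hcase⟩ := low_level a b ha hlt hab g hE1 x hxx
  have hG0 := g.hG
  obtain ⟨κ, p, h, hκ, hp, hh, hd', he', hcop, hG⟩ := frac hd he
  have hpG : p ∣ G := (hG G).1 h7
  have hpG2 : p ≤ G := Nat.le_of_dvd hG0 hpG
  rcases hcase with ⟨hmin, -⟩ | ⟨hmaj, α₀, x', i1, g₀, hEK, i3, i4, i5⟩
  · left
    have hq := minor_q cop heN h10 hmin hκ hd' he'
    refine ⟨q, e, d, he, heq, by omega, hd, ?_, heN⟩
    have e1 : d ≤ e * G := Nat.le_of_dvd (Nat.mul_pos he hG0) h7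
    have e2 : e * G ≤ G * G := Nat.mul_le_mul_right G (by omega)
    omega
  · right
    have hne : G' ≠ G := by
      intro h0; apply h8; rw [h0]; exact h7
    have hhalf : 2 * G' ≤ G := by
      obtain ⟨c, hc⟩ := h2
      have hc0 : c ≠ 0 := by
        intro h0; rw [h0, mul_zero] at hc; omega
      have hc1 : c ≠ 1 := by
        intro h0; rw [h0, mul_one] at hc; exact hne hc.symm
      have hc2 : 2 ≤ c := by omega
      calc 2 * G' = G' * 2 := mul_comm _ _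
        _ ≤ G' * c := Nat.mul_le_mul_left G' hc2
        _ = G := hc.symm
    have hxx' : x = x' + e * σ := by
      have e1 : q * x + d = q * (x' + e * σ) + d := by
        rw [← heN, h10, Nat.mul_add, i4]; ring
      have e2 : q * x = q * (x' + e * σ) := by omega
      exact Nat.eq_of_mul_eq_mul_left (by omega) e2
    refine ⟨N₀, x', σ, q, e, κ, p, h, ⟨G', hhalf, a, b, E, α₀, K, ha, hlt, hab, g₀, hEK, i3⟩,
      by omega, ?_, h10, hxx', h11, hκ, hp, hpG2, hh, he', heq, cop, ?_⟩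
    · by_contra hcon
      push Not at hcon
      have e1 : q * N₀ ≤ q * x' := Nat.mul_le_mul_left q hcon
      have e2 : e * N₀ ≤ q * N₀ := Nat.mul_le_mul_right N₀ heq.le
      omega
    · rw [i4, hd']

/-- low states with ambient divisor less than `2 ^ j` -/
def LPj (j N x : ℕ) : Prop := ∃ G < 2 ^ j, LowP G N x

theorem lpj_step {k j : ℕ} (hj : j + 1 ≤ k) (N x : ℕ) (h : LPj (j + 1) N x) :
    Minor (2 ^ k) N x ∨ Step (2 ^ k) (LPj j) N x := by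
  obtain ⟨G, hG, hL⟩ := h
  have hGk : G ≤ 2 ^ k := hG.le.trans (Nat.pow_le_pow_right (by norm_num) hj)
  rcases lowP_step2 G N x hL with h | h
  · left
    obtain ⟨q, e, d, h1, h2, h3, h4, h5, h6⟩ := h
    exact ⟨q, e, d, h1, h2, h3.trans hGk, h4, h5.trans (Nat.mul_le_mul hGk hGk), h6⟩
  · right
    obtain ⟨N₀, x', σ, q, e, κ, p, h, ⟨G', hG', hL'⟩, h1, h2, h3, h4, h5, h6, h7, h8, h9, h10, h11,
      h12, h13⟩ := h
    refine ⟨N₀, x', σ, q, e, κ, p, h, ⟨G', ?_, hL'⟩, h1, h2, h3, h4, h5, h6, h7, h8.trans hGk, h9,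
      h10, h11, h12, h13⟩
    rw [pow_succ] at hG
    omega

theorem lpj_zero (N x : ℕ) : ¬ LPj 0 N x := by
  rintro ⟨G, hG, a, b, E, α, k, -, -, -, g, -⟩
  have := g.hG
  rw [pow_zero] at hG
  omega

/-- the count of the low states with ambient divisor less than `2 ^ j`, `j ≤ k` -/
theorem main_count (k X : ℕ) (hX : 1 ≤ X) (j : ℕ) (hj : j ≤ k) :
    (cnt (LPj j) X : ℝ) ≤
      (4 * ((2 : ℝ) ^ k) ^ 2 * H X) ^ 4 * (X : ℝ) ^ (-((1 : ℝ) / 4) ^ j) * (X : ℝ) ^ 2 := by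
  have hX1 : (1 : ℝ) ≤ X := by exact_mod_cast hX
  have hX0 : (0 : ℝ) < X := by linarith
  have hH1 : 1 ≤ H X := one_le_H hX
  set Γ : ℝ := (2 : ℝ) ^ k with hΓ
  have hΓ1 : 1 ≤ Γ := one_le_pow₀ (by norm_num)
  set Q : ℝ := 4 * Γ ^ 2 * H X with hQ
  have hQ4 : 4 ≤ Q := by
    have h1 : 1 ≤ Γ ^ 2 := one_le_pow₀ hΓ1
    have h2 : 1 ≤ Γ ^ 2 * H X := by nlinarith
    rw [hQ, mul_assoc]
    linarith
  have hQ0 : 0 < Q := by linarith
  induction j with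
  | zero =>
    have h1 : cnt (LPj 0) X = 0 := by
      unfold cnt
      have : {p : ℕ × ℕ | p.1 ≤ X ∧ p.2 < p.1 ∧ LPj 0 p.1 p.2} = ∅ := by
        ext p
        simp only [Set.mem_ofPred_eq, Set.mem_empty_iff_false, iff_false]
        rintro ⟨-, -, h⟩
        exact lpj_zero _ _ h
      rw [this, Set.ncard_empty]
    rw [h1, Nat.cast_zero]
    positivity
  | succ j ih =>
    have ih' := ih (by omega)
    set V : ℝ := (X : ℝ) ^ (-((1 : ℝ) / 4) ^ (j + 1)) with hV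
    have hV0 : 0 < V := Real.rpow_pos_of_pos hX0 _
    have hV1 : V ≤ 1 := Real.rpow_le_one_of_one_le_of_nonpos hX1 (by
      have : (0 : ℝ) ≤ ((1 : ℝ) / 4) ^ (j + 1) := by positivity
      linarith)
    have hV4 : (X : ℝ) ^ (-((1 : ℝ) / 4) ^ j) = V ^ 4 := by
      rw [hV, ← Real.rpow_mul_natCast hX0.le]
      congr 1
      rw [pow_succ]
      push_cast
      ring
    have hVX : 1 ≤ X * V := by
      have h1 : (X : ℝ) ^ (-(1 : ℝ)) ≤ V := by
        refine Real.rpow_le_rpow_of_exponent_le hX1 ?_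
        have : ((1 : ℝ) / 4) ^ (j + 1) ≤ 1 := pow_le_one₀ (by norm_num) (by norm_num)
        linarith
      rw [Real.rpow_neg_one] at h1
      calc (1 : ℝ) = X * (X : ℝ)⁻¹ := (mul_inv_cancel₀ hX0.ne').symm
        _ ≤ X * V := mul_le_mul_of_nonneg_left h1 hX0.le
    rw [hV4] at ih'
    by_cases hbig : 1 ≤ Q ^ 4 * V
    · refine (cnt_triv _ X).trans ?_
      calc (X : ℝ) ^ 2 = 1 * (X : ℝ) ^ 2 := (one_mul _).symm
        _ ≤ Q ^ 4 * V * (X : ℝ) ^ 2 := mul_le_mul_of_nonneg_right hbig (by positivity)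
    · push Not at hbig
      -- `U = Q V`
      have hQV1 : Q * V ≤ 1 := by
        have h1 : Q ≤ Q ^ 4 := by
          calc Q = Q ^ 1 := (pow_one Q).symm
            _ ≤ Q ^ 4 := pow_le_pow_right₀ (by linarith) (by norm_num)
        have h2 : Q * V ≤ Q ^ 4 * V := mul_le_mul_of_nonneg_right h1 hV0.le
        linarith
      have hUX : 1 ≤ (X : ℝ) * (Q * V) := by
        have h1 : (X : ℝ) * V ≤ X * (Q * V) := by
          refine mul_le_mul_of_nonneg_left ?_ hX0.le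
          nlinarith
        linarith
      have h1 := step_card (2 ^ k) X Nat.one_le_two_pow hX (LPj j) (Q * V) (by positivity) hQV1 hUX
        (by rw [mul_pow]; exact ih')
      have h2 := minor_card (2 ^ k) X Nat.one_le_two_pow hX
      push_cast at h1 h2
      rw [← hΓ] at h1 h2
      have h3 : (cnt (LPj (j + 1)) X : ℝ) ≤ (cnt (Minor (2 ^ k)) X : ℝ) +
          (cnt (Step (2 ^ k) (LPj j)) X : ℝ) := by
        have h4 := (cnt_mono X (fun N x _ h => lpj_step hj N x h)).trans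
          (cnt_or (Minor (2 ^ k)) (Step (2 ^ k) (LPj j)) X)
        exact_mod_cast h4
      have h4 : 16 * Γ ^ 4 * X ≤ Q ^ 2 * (V * (X : ℝ) ^ 2) := by
        have g1 : 16 * Γ ^ 4 ≤ Q ^ 2 := by
          rw [hQ]
          have : 1 ≤ H X ^ 2 := one_le_pow₀ hH1
          have g2 : (0 : ℝ) ≤ 16 * Γ ^ 4 := by positivity
          calc 16 * Γ ^ 4 = 16 * Γ ^ 4 * 1 := (mul_one _).symm
            _ ≤ 16 * Γ ^ 4 * H X ^ 2 := mul_le_mul_of_nonneg_left this g2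
            _ = _ := by ring
        have g3 : (X : ℝ) ≤ V * (X : ℝ) ^ 2 := by
          have : V * (X : ℝ) ^ 2 = (X * V) * X := by ring
          rw [this]
          nlinarith
        exact mul_le_mul g1 g3 hX0.le (by positivity)
      have h5 : 6 * Γ ^ 2 * H X ^ 2 * (Q * V) * (X : ℝ) ^ 2 ≤ Q ^ 3 * (V * (X : ℝ) ^ 2) := by
        have g1 : 6 * Γ ^ 2 * H X ^ 2 ≤ Q ^ 2 := by
          rw [hQ]
          have g2 : 1 ≤ Γ ^ 2 := one_le_pow₀ hΓ1
          have g3 : (0 : ℝ) ≤ Γ ^ 2 * H X ^ 2 := by positivity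
          nlinarith
        calc 6 * Γ ^ 2 * H X ^ 2 * (Q * V) * (X : ℝ) ^ 2
            = (6 * Γ ^ 2 * H X ^ 2) * (Q * (V * (X : ℝ) ^ 2)) := by ring
          _ ≤ Q ^ 2 * (Q * (V * (X : ℝ) ^ 2)) := mul_le_mul_of_nonneg_right g1 (by positivity)
          _ = _ := by ring
      have h6 : Q ^ 2 + Q ^ 3 ≤ Q ^ 4 := by
        have g1 : (0 : ℝ) ≤ Q ^ 2 := by positivity
        have g2 : 0 ≤ Q ^ 2 - Q - 1 := by nlinarith
        nlinarith [mul_nonneg g1 g2]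
      calc (cnt (LPj (j + 1)) X : ℝ) ≤ Q ^ 2 * (V * (X : ℝ) ^ 2) + Q ^ 3 * (V * (X : ℝ) ^ 2) := by
            linarith
        _ = (Q ^ 2 + Q ^ 3) * (V * (X : ℝ) ^ 2) := by ring
        _ ≤ Q ^ 4 * (V * (X : ℝ) ^ 2) := mul_le_mul_of_nonneg_right h6 (by positivity)
        _ = _ := by ring

end Pool.Agent.Lib.MP_2d59ee_ag.Rate
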