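import Mathlib
import Pool.Agent.Lib.MP_2d59ee_ag.R.R19

set_option autoImplicit false

/-! The rate in the density theorem. -/

namespace Pool.Agent.Lib.MP_2d59ee_ag.Rate

open Filter

/-- `exp (- a l ^ η)` is smaller than any power of `l` -/
theorem exp_small (a η b ε : ℝ) (ha : 0 < a) (hη : 0 < η) (hε : 0 < ε) :
    ∀ᶠ l : ℝ in atTop, Real.exp (-a * l ^ η) ≤ ε * l ^ b := by
  have h1 := (isLittleO_exp_neg_mul_rpow_atTop ha (b / η)).comp_tendsto (tendsto_rpow_atTop hη)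
  have h2 := h1.def hε
  filter_upwards [h2, eventually_gt_atTop 0] with l hl hl0
  simp only [Function.comp_apply, Real.norm_eq_abs, Real.abs_exp] at hl
  rw [abs_of_nonneg (Real.rpow_nonneg (Real.rpow_nonneg hl0.le _) _), ← Real.rpow_mul hl0.le,
    mul_div_cancel₀ _ hη.ne'] at hl
  exact hl

/-- the choice of the number of levels -/
theorem choose_k (c c' C : ℝ) (hc : c < c') (hc0 : 0 < c') (hc' : c' < 1 / 2) (hC : 0 ≤ C) :
    ∀ᶠ l : ℝ in atTop, ∃ k : ℕ, 1 ≤ k ∧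
      C * Real.exp (-(1 / 2) * l) + 2 / (2 : ℝ) ^ k +
        (4 * ((2 : ℝ) ^ k) ^ 2 * (1 + l)) ^ 4 * Real.exp (-((1 : ℝ) / 4) ^ k * l) ≤ l ^ (-c) := by
  have hη : 0 < 1 - 2 * c' := by linarith
  have e1 := exp_small (1 / 2) 1 (-c) (1 / (3 * (C + 1))) (by norm_num) one_pos (by positivity)
  have e2 := exp_small (1 / 4) (1 - 2 * c') (-(c + 8)) (1 / (3 * 32 ^ 4)) (by norm_num) hη
    (by positivity)
  have e3 : ∀ᶠ l : ℝ in atTop, (6 : ℝ) ≤ l ^ (c' - c) :=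
    (tendsto_rpow_atTop (by linarith : 0 < c' - c)).eventually_ge_atTop 6
  have e4 : ∀ᶠ l : ℝ in atTop, (2 : ℝ) ≤ l ^ c' :=
    (tendsto_rpow_atTop hc0).eventually_ge_atTop 2
  filter_upwards [e1, e2, e3, e4, eventually_ge_atTop 1] with l h1 h2 h3 h4 hl1
  have hl0 : 0 < l := by linarith
  set y : ℝ := l ^ c' with hy
  have hy0 : 0 < y := by linarith
  -- `y ≤ 2 ^ k ≤ 2 y`
  obtain ⟨k, hk1, hk2⟩ : ∃ k : ℕ, y ≤ (2 : ℝ) ^ k ∧ (2 : ℝ) ^ k ≤ 2 * y := by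
    obtain ⟨n, hn1, hn2⟩ := exists_nat_pow_near (by linarith : (1 : ℝ) ≤ y)
      (by norm_num : (1 : ℝ) < 2)
    refine ⟨n + 1, hn2.le, ?_⟩
    rw [pow_succ]
    linarith
  have hk0 : 1 ≤ k := by
    by_contra hcon
    have : k = 0 := by omega
    subst this
    rw [pow_zero] at hk1
    linarith
  refine ⟨k, hk0, ?_⟩
  have t1 : C * Real.exp (-(1 / 2) * l) ≤ l ^ (-c) / 3 := by
    rw [Real.rpow_one] at h1
    have hCC : C / (C + 1) ≤ 1 := by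
      rw [div_le_one (by linarith)]; linarith
    calc C * Real.exp (-(1 / 2) * l) ≤ C * (1 / (3 * (C + 1)) * l ^ (-c)) :=
          mul_le_mul_of_nonneg_left h1 hC
      _ = C / (C + 1) * (l ^ (-c) / 3) := by
          have : C + 1 ≠ 0 := by linarith
          field_simp
      _ ≤ 1 * (l ^ (-c) / 3) := mul_le_mul_of_nonneg_right hCC (by positivity)
      _ = _ := one_mul _
  have t2 : 2 / (2 : ℝ) ^ k ≤ l ^ (-c) / 3 := by
    have g1 : l ^ (-c) * y = l ^ (c' - c) := by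
      rw [hy, ← Real.rpow_add hl0]
      congr 1
      ring
    rw [div_le_iff₀ (by positivity)]
    have g2 : (0 : ℝ) ≤ l ^ (-c) / 3 := by positivity
    have g3 := mul_le_mul_of_nonneg_left hk1 g2
    have g4 : l ^ (-c) / 3 * y = l ^ (c' - c) / 3 := by rw [← g1]; ring
    rw [g4] at g3
    linarith
  have t3 : (4 * ((2 : ℝ) ^ k) ^ 2 * (1 + l)) ^ 4 * Real.exp (-((1 : ℝ) / 4) ^ k * l) ≤
      l ^ (-c) / 3 := by
    have hy2 : y ^ 2 ≤ l := by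
      rw [hy, ← Real.rpow_natCast, ← Real.rpow_mul hl0.le]
      calc l ^ (c' * (2 : ℕ)) ≤ l ^ (1 : ℝ) :=
            Real.rpow_le_rpow_of_exponent_le hl1 (by push_cast; linarith)
        _ = l := Real.rpow_one l
    have g1 : 4 * ((2 : ℝ) ^ k) ^ 2 * (1 + l) ≤ 32 * l ^ 2 := by
      have g2 : ((2 : ℝ) ^ k) ^ 2 ≤ (2 * y) ^ 2 := pow_le_pow_left₀ (by positivity) hk2 2
      have g3 : ((2 : ℝ) ^ k) ^ 2 ≤ 4 * l := by nlinarith
      calc 4 * ((2 : ℝ) ^ k) ^ 2 * (1 + l) ≤ 4 * (4 * l) * (2 * l) := by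
            have g4 : 1 + l ≤ 2 * l := by linarith
            gcongr
        _ = _ := by ring
    have g5 : (4 * ((2 : ℝ) ^ k) ^ 2 * (1 + l)) ^ 4 ≤ 32 ^ 4 * l ^ 8 := by
      calc (4 * ((2 : ℝ) ^ k) ^ 2 * (1 + l)) ^ 4 ≤ (32 * l ^ 2) ^ 4 :=
            pow_le_pow_left₀ (by positivity) g1 4
        _ = _ := by ring
    have g6 : Real.exp (-((1 : ℝ) / 4) ^ k * l) ≤ Real.exp (-(1 / 4) * l ^ (1 - 2 * c')) := by
      rw [Real.exp_le_exp]
      have g7 : l ^ (1 - 2 * c') * y ^ 2 = l := by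
        rw [hy, ← Real.rpow_natCast, ← Real.rpow_mul hl0.le, ← Real.rpow_add hl0]
        push_cast
        rw [show 1 - 2 * c' + c' * 2 = 1 by ring, Real.rpow_one]
      have g8 : ((1 : ℝ) / 4) ^ k = 1 / ((2 : ℝ) ^ k) ^ 2 := by
        rw [one_div_pow, ← pow_mul, mul_comm k 2, pow_mul]
        norm_num
      have g9 : ((2 : ℝ) ^ k) ^ 2 ≤ 4 * y ^ 2 := by
        have g2 : ((2 : ℝ) ^ k) ^ 2 ≤ (2 * y) ^ 2 := pow_le_pow_left₀ (by positivity) hk2 2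
        linarith [g2, (by ring : (2 * y) ^ 2 = 4 * y ^ 2)]
      rw [g8]
      have g10 : 1 / 4 * l ^ (1 - 2 * c') ≤ 1 / ((2 : ℝ) ^ k) ^ 2 * l := by
        rw [one_div_mul_eq_div, one_div_mul_eq_div, div_le_div_iff₀ (by norm_num) (by positivity)]
        have g11 : (0 : ℝ) ≤ l ^ (1 - 2 * c') := by positivity
        calc l ^ (1 - 2 * c') * ((2 : ℝ) ^ k) ^ 2 ≤ l ^ (1 - 2 * c') * (4 * y ^ 2) :=
              mul_le_mul_of_nonneg_left g9 g11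
          _ = (l ^ (1 - 2 * c') * y ^ 2) * 4 := by ring
          _ = l * 4 := by rw [g7]
      linarith
    calc (4 * ((2 : ℝ) ^ k) ^ 2 * (1 + l)) ^ 4 * Real.exp (-((1 : ℝ) / 4) ^ k * l)
        ≤ (32 ^ 4 * l ^ 8) * (1 / (3 * 32 ^ 4) * l ^ (-(c + 8))) :=
          mul_le_mul g5 (g6.trans h2) (by positivity) (by positivity)
      _ = l ^ (-c) / 3 := by
          have g12 : l ^ (8 : ℕ) * l ^ (-(c + 8)) = l ^ (-c) := by
            rw [← Real.rpow_natCast, ← Real.rpow_add hl0]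
            congr 1
            push_cast
            ring
          rw [← g12]
          ring
  linarith

/-- density with a rate -/
theorem density_rate (Bad : ℕ → ℕ → Prop)
    (hBad : ∀ s t, 0 < s → s < t → Bad s t → s ∣ t ∨ LowP (Nat.gcd s t) t (t - s))
    (c : ℝ) (hc : c < 1 / 2) :
    ∃ X₀ : ℕ, ∀ X : ℕ, X₀ ≤ X →
      (({p : ℕ × ℕ | 0 < p.1 ∧ p.1 < p.2 ∧ p.2 ≤ X ∧ Bad p.1 p.2} : Set (ℕ × ℕ)).ncard : ℝ) ≤
        (X : ℝ) ^ 2 / Real.log X ^ c := by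
  obtain ⟨C, hC0, hC⟩ := dvd_tail
  obtain ⟨c', hc1, hc2, hc3⟩ : ∃ c' : ℝ, c < c' ∧ 0 < c' ∧ c' < 1 / 2 := by
    refine ⟨(max c 0 + 1 / 2) / 2, ?_, ?_, ?_⟩
    · have := le_max_left c 0; linarith
    · have := le_max_right c 0; linarith
    · have : max c 0 < 1 / 2 := max_lt hc (by norm_num)
      linarith
  have h1 := (Real.tendsto_log_atTop.comp tendsto_natCast_atTop_atTop).eventually
    (choose_k c c' C hc1 hc2 hc3 hC0)
  obtain ⟨X₁, hX₁⟩ := eventually_atTop.1 h1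
  refine ⟨max X₁ 3, fun X hX => ?_⟩
  obtain ⟨k, hk, hle⟩ := hX₁ X ((le_max_left _ _).trans hX)
  simp only [Function.comp_apply] at hle
  have hX3 : 3 ≤ X := (le_max_right _ _).trans hX
  have hXR : (3 : ℝ) ≤ X := by exact_mod_cast hX3
  have hX0 : (0 : ℝ) < X := by linarith
  have hlog0 : 0 < Real.log X := Real.log_pos (by linarith)
  have h2k : 2 ≤ 2 ^ k := by
    calc 2 = 2 ^ 1 := rfl
      _ ≤ 2 ^ k := Nat.pow_le_pow_right (by norm_num) hk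
  have s0 := count_split Bad hBad (2 ^ k - 1) X
  have s1 := hC X (by omega)
  have s2 := tail (2 ^ k - 1) X (by omega)
  have s3 := main_count k X (by omega) k le_rfl
  have hL : ({p : ℕ × ℕ | p.1 ≤ X ∧ p.2 < p.1 ∧ ∃ g < 2 ^ k - 1 + 1, LowP g p.1 p.2} :
      Set (ℕ × ℕ)).ncard = cnt (LPj k) X := by
    unfold cnt LPj
    rw [Nat.sub_add_cancel (by omega)]
  rw [hL] at s0
  set A := ({p : ℕ × ℕ | 0 < p.1 ∧ p.1 < p.2 ∧ p.2 ≤ X ∧ p.1 ∣ p.2} : Set (ℕ × ℕ)).ncard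
  set D := ({p : ℕ × ℕ | 0 < p.1 ∧ p.1 < p.2 ∧ p.2 ≤ X ∧ 2 ^ k - 1 < Nat.gcd p.1 p.2} :
    Set (ℕ × ℕ)).ncard
  have t0 : (({p : ℕ × ℕ | 0 < p.1 ∧ p.1 < p.2 ∧ p.2 ≤ X ∧ Bad p.1 p.2} :
      Set (ℕ × ℕ)).ncard : ℝ) ≤ A + D + cnt (LPj k) X := by exact_mod_cast s0
  have t1 : (A : ℝ) ≤ (X : ℝ) ^ 2 * (C * Real.exp (-(1 / 2) * Real.log X)) := by
    have a1 : (X : ℝ) ^ ((3 : ℝ) / 2) = (X : ℝ) ^ 2 * Real.exp (-(1 / 2) * Real.log X) := by
      have a2 : Real.exp (-(1 / 2) * Real.log X) = (X : ℝ) ^ (-(1 / 2) : ℝ) := by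
        rw [Real.rpow_def_of_pos hX0, mul_comm]
      rw [a2, show (3 : ℝ) / 2 = 2 + (-(1 / 2 : ℝ)) by norm_num, Real.rpow_add hX0]
      norm_num
    rw [a1] at s1
    linarith [s1, (by ring : C * ((X : ℝ) ^ 2 * Real.exp (-(1 / 2) * Real.log X)) =
      (X : ℝ) ^ 2 * (C * Real.exp (-(1 / 2) * Real.log X)))]
  have t2 : (D : ℝ) ≤ (X : ℝ) ^ 2 * (2 / (2 : ℝ) ^ k) := by
    refine s2.trans ?_
    rw [div_eq_mul_inv]
    refine mul_le_mul_of_nonneg_left ?_ (by positivity)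
    rw [Nat.cast_sub (by omega), inv_eq_one_div, div_le_div_iff₀ ?_ (by positivity)]
    · push_cast
      have : (2 : ℝ) ≤ 2 ^ k := by exact_mod_cast h2k
      linarith
    · push_cast
      have : (2 : ℝ) ≤ 2 ^ k := by exact_mod_cast h2k
      linarith
  have t3 : (cnt (LPj k) X : ℝ) ≤ (X : ℝ) ^ 2 * ((4 * ((2 : ℝ) ^ k) ^ 2 * (1 + Real.log X)) ^ 4 *
      Real.exp (-((1 : ℝ) / 4) ^ k * Real.log X)) := by
    refine s3.trans ?_
    have a2 : Real.exp (-((1 : ℝ) / 4) ^ k * Real.log X) = (X : ℝ) ^ (-((1 : ℝ) / 4) ^ k) := by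
      rw [Real.rpow_def_of_pos hX0, mul_comm]
    rw [a2, mul_comm]
    refine mul_le_mul_of_nonneg_left ?_ (by positivity)
    refine mul_le_mul_of_nonneg_right ?_ (by positivity)
    refine pow_le_pow_left₀ (mul_nonneg (by positivity) (H_nonneg X)) ?_ 4
    exact mul_le_mul_of_nonneg_left (H_le X) (by positivity)
  have hfin : (X : ℝ) ^ 2 / Real.log X ^ c = (X : ℝ) ^ 2 * Real.log X ^ (-c) := by
    rw [Real.rpow_neg hlog0.le, div_eq_mul_inv]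
  rw [hfin]
  have hmul := mul_le_mul_of_nonneg_left hle (by positivity : (0 : ℝ) ≤ (X : ℝ) ^ 2)
  have e5 : (X : ℝ) ^ 2 * (C * Real.exp (-(1 / 2) * Real.log X) + 2 / (2 : ℝ) ^ k +
      (4 * ((2 : ℝ) ^ k) ^ 2 * (1 + Real.log X)) ^ 4 *
        Real.exp (-((1 : ℝ) / 4) ^ k * Real.log X)) =
      (X : ℝ) ^ 2 * (C * Real.exp (-(1 / 2) * Real.log X)) + (X : ℝ) ^ 2 * (2 / (2 : ℝ) ^ k) +
      (X : ℝ) ^ 2 * ((4 * ((2 : ℝ) ^ k) ^ 2 * (1 + Real.log X)) ^ 4 *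
        Real.exp (-((1 : ℝ) / 4) ^ k * Real.log X)) := by ring
  rw [e5] at hmul
  linarith

end Pool.Agent.Lib.MP_2d59ee_ag.Rate
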